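import Pool.Agent.Singer.ToFin

/-!
# SQ: a resolution by finitely generated projective modules gives one by finitely generated free modules

`exists_finRes_of_projRes`, `exists_finRes_of_isPD`.
-/

set_option autoImplicit false

namespace SQ

open Singer

/-- finitely generated projective modules -/
structure FGP (A : Type) [Ring A] where
  M : Type
  [acg : AddCommGroup M]
  [mod : Module A M]
  proj : Module.Projective A M
  fin : Module.Finite A M

attribute [instance] FGP.acg FGP.mod FGP.proj FGP.fin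

/-- the zero module -/
def FGP.zero (A : Type) [Ring A] : FGP A where
  M := PUnit
  proj := inferInstance
  fin := inferInstance

/-- a complement in a free module -/
theorem exists_compl (A : Type) [Ring A] (M : Type) [AddCommGroup M] [Module A M] [Module.Projective A M]
    [Module.Finite A M] : ∃ (Q : FGP A) (n : ℕ), Nonempty ((M × Q.M) ≃ₗ[A] (Fin n → A)) := by
  obtain ⟨n, f, g, -, -, h⟩ := Module.Finite.exists_comp_eq_id_of_projective A M
  have h' : ∀ m, f (g m) = m := fun m => LinearMap.congr_fun h m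
  let s : (Fin n → A) →ₗ[A] LinearMap.ker f := (LinearMap.id - g.comp f).codRestrict (LinearMap.ker f) fun x => by
    rw [LinearMap.mem_ker, LinearMap.sub_apply, map_sub, LinearMap.comp_apply, h', LinearMap.id_apply, sub_self]
  have hs : s.comp (LinearMap.ker f).subtype = LinearMap.id := by
    ext x : 2
    show (x : Fin n → A) - g (f x) = x
    rw [LinearMap.mem_ker.1 x.2, map_zero, sub_zero]
  refine ⟨{ M := LinearMap.ker f
            proj := Module.Projective.of_split _ _ hs
            fin := Module.Finite.of_surjective s fun x => ⟨x, LinearMap.congr_fun hs x⟩ }, n, ⟨?_⟩⟩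
  refine LinearEquiv.ofLinearMap (LinearMap.coprod g (LinearMap.ker f).subtype) (LinearMap.prod f s) ?_ ?_
  · refine LinearMap.ext fun x => ?_
    show g (f x) + (x - g (f x)) = x
    rw [add_sub_cancel]
  · refine LinearMap.ext fun x => ?_
    obtain ⟨m, q, hq⟩ := x
    have hq' : f q = 0 := hq
    refine Prod.ext ?_ (Subtype.ext ?_)
    · show f (g m + q) = m
      rw [map_add, h', hq', add_zero]
    · show g m + q - g (f (g m + q)) = q
      rw [map_add, h', hq', add_zero, add_sub_cancel_left]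

section
variable {G : Type} [Group G] (R : ProjRes G)

instance (i : ℕ) : Module.Projective (ZG G) (R.P i) := R.proj i

instance (i : ℕ) : Module.Finite (ZG G) (R.P i) := R.fin i

/-- the complements -/
noncomputable def cpl : ℕ → FGP (ZG G)
  | 0 => FGP.zero (ZG G)
  | i + 1 => (exists_compl (ZG G) (R.P i × (cpl i).M)).choose

lemma cpl_spec (i : ℕ) : ∃ n : ℕ, Nonempty (((R.P i × (cpl R i).M) × (cpl R (i + 1)).M) ≃ₗ[ZG G] (Fin n → ZG G)) :=
  (exists_compl (ZG G) (R.P i × (cpl R i).M)).choose_spec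

/-- the ranks -/
noncomputable def rk (i : ℕ) : ℕ := (cpl_spec R i).choose

/-- the bases -/
noncomputable def bas (i : ℕ) : ((R.P i × (cpl R i).M) × (cpl R (i + 1)).M) ≃ₗ[ZG G] (Fin (rk R i) → ZG G) :=
  (cpl_spec R i).choose_spec.some

/-- the differential -/
noncomputable def dif (i : ℕ) : ((R.P (i + 1) × (cpl R (i + 1)).M) × (cpl R (i + 2)).M) →ₗ[ZG G]
    ((R.P i × (cpl R i).M) × (cpl R (i + 1)).M) :=
  LinearMap.prod (LinearMap.prod ((R.d i).comp ((LinearMap.fst _ _ _).comp (LinearMap.fst _ _ _))) 0)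
    ((LinearMap.snd _ _ _).comp (LinearMap.fst _ _ _))

lemma dif_apply (i : ℕ) (p : R.P (i + 1)) (a : (cpl R (i + 1)).M) (b : (cpl R (i + 2)).M) :
    dif R i ((p, a), b) = ((R.d i p, 0), a) := rfl

lemma dif_ex (i : ℕ) (x) : dif R i x = 0 ↔ ∃ y, dif R (i + 1) y = x := by
  obtain ⟨⟨p, a⟩, b⟩ := x
  rw [dif_apply]
  constructor
  · intro h
    have h1 : R.d i p = 0 := congrArg (fun z => z.1.1) h
    have h2 : a = 0 := congrArg (fun z => z.2) h
    obtain ⟨y, rfl⟩ := (R.exact_succ i p).1 h1
    subst h2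
    exact ⟨((y, b), 0), rfl⟩
  · rintro ⟨⟨⟨p', a'⟩, b'⟩, h⟩
    rw [dif_apply] at h
    have h1 : R.d (i + 1) p' = p := congrArg (fun z => z.1.1) h
    have h2 : 0 = a := congrArg (fun z => z.1.2) h
    subst h2
    rw [(R.exact_succ i p).2 ⟨p', h1⟩]
    rfl

/-- **a projective resolution gives a free one** -/
theorem exists_finRes_of_projRes (R : ProjRes G) : Nonempty (FinRes G) := by
  let a0 : ((R.P 0 × (cpl R 0).M) × (cpl R 1).M) →+ ℤ :=
    R.aug.comp ((AddMonoidHom.fst _ _).comp (AddMonoidHom.fst _ _))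
  have a0_apply : ∀ p a b, a0 ((p, a), b) = R.aug p := fun _ _ _ => rfl
  refine Exists.nonempty (finRes_of_lin (Γ := G) (fun i => Fin (rk R i))
    (fun i => (bas R i).toLinearMap.comp ((dif R i).comp (bas R (i + 1)).symm.toLinearMap))
    (a0.comp (bas R 0).symm.toLinearMap.toAddMonoidHom) ?_ ?_ ?_ ?_)
  · intro g x
    show a0 ((bas R 0).symm (_ • x)) = a0 ((bas R 0).symm x)
    rw [map_smul]
    generalize (bas R 0).symm x = y
    obtain ⟨⟨p, a⟩, b⟩ := y
    exact R.aug_smul g p
  · intro n
    obtain ⟨p, hp⟩ := R.aug_surj n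
    refine ⟨bas R 0 ((p, 0), 0), ?_⟩
    show a0 ((bas R 0).symm (bas R 0 ((p, 0), 0))) = n
    rw [LinearEquiv.symm_apply_apply]
    exact hp
  · intro x
    obtain ⟨y, rfl⟩ := (bas R 0).surjective x
    show a0 ((bas R 0).symm (bas R 0 y)) = 0 ↔ ∃ z, bas R 0 (dif R 0 ((bas R 1).symm z)) = bas R 0 y
    rw [LinearEquiv.symm_apply_apply]
    obtain ⟨⟨p, a⟩, b⟩ := y
    rw [a0_apply, R.exact_zero]
    constructor
    · rintro ⟨q, rfl⟩
      refine ⟨bas R 1 ((q, b), 0), ?_⟩
      rw [LinearEquiv.symm_apply_apply, dif_apply]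
      congr 1
    · rintro ⟨z, hz⟩
      have h1 := (bas R 0).injective hz
      generalize (bas R 1).symm z = w at h1
      obtain ⟨⟨q, c⟩, e⟩ := w
      exact ⟨q, congrArg (fun z => z.1.1) h1⟩
  · intro i x
    obtain ⟨y, rfl⟩ := (bas R (i + 1)).surjective x
    show bas R i (dif R i ((bas R (i + 1)).symm (bas R (i + 1) y))) = 0 ↔
      ∃ z, bas R (i + 1) (dif R (i + 1) ((bas R (i + 2)).symm z)) = bas R (i + 1) y
    rw [LinearEquiv.symm_apply_apply, LinearEquiv.map_eq_zero_iff, dif_ex]
    constructor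
    · rintro ⟨w, rfl⟩
      exact ⟨bas R (i + 2) w, by rw [LinearEquiv.symm_apply_apply]⟩
    · rintro ⟨z, hz⟩
      exact ⟨_, (bas R (i + 1)).injective hz⟩

/-- **a Poincare duality group has a resolution by finitely generated free modules** -/
theorem exists_finRes_of_isPD {G : Type} [Group G] {n : ℕ} (h : IsPD n G) : Nonempty (FinRes G) := by
  obtain ⟨R, -⟩ := h
  exact exists_finRes_of_projRes R

end

end SQ
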