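import Pool.Agent.SQ.Ring

/-!
# E1d: polynomial growth gives the Ore condition
-/

set_option autoImplicit false

noncomputable section

namespace SQ

open scoped Pointwise
open MonoidAlgebra

namespace OreCond

variable {G : Type} [Group G]

open Classical in
theorem exists_small (hG : PolyGrowth G) (S : Finset G) (hS : (1 : G) ∈ S) :
    ∃ n : ℕ, (S ^ (n + 1)).card < 2 * (S ^ n).card := by
  by_contra hcon
  push Not at hcon
  obtain ⟨C, k, hC⟩ := hG S
  have h2 : ∀ n : ℕ, 2 ^ n ≤ (S ^ n).card := by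
    intro n
    induction n with
    | zero => simp
    | succ n ih =>
      calc 2 ^ (n + 1) = 2 * 2 ^ n := by ring
        _ ≤ 2 * (S ^ n).card := Nat.mul_le_mul_left 2 ih
        _ ≤ _ := hcon n
  have h3 : ∀ n : ℕ, (2 : ℝ) ^ n ≤ C * ((n : ℝ) + 1) ^ k := by
    intro n
    have := (h2 n).trans (hC n)
    exact_mod_cast this
  have hlim : Filter.Tendsto (fun n : ℕ => ((n : ℝ) ^ k) / (2 : ℝ) ^ n) Filter.atTop (nhds 0) :=
    tendsto_pow_const_div_const_pow_of_one_lt k (by norm_num)
  have hlim2 := hlim.comp (Filter.tendsto_add_atTop_nat 1)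
  have hlim3 : Filter.Tendsto (fun n : ℕ => (2 * C : ℝ) * ((((n + 1 : ℕ) : ℝ) ^ k) / (2 : ℝ) ^ (n + 1)))
      Filter.atTop (nhds ((2 * C : ℝ) * 0)) := hlim2.const_mul _
  rw [mul_zero] at hlim3
  have hev := hlim3.eventually (gt_mem_nhds (show (0 : ℝ) < 1 by norm_num))
  obtain ⟨n, hn⟩ := hev.exists
  have h4 := h3 n
  have hpos : (0 : ℝ) < 2 ^ n := by positivity
  have h5 : (2 * C : ℝ) * ((((n + 1 : ℕ) : ℝ) ^ k) / (2 : ℝ) ^ (n + 1))
      = C * ((n : ℝ) + 1) ^ k / 2 ^ n := by
    push_cast
    rw [pow_succ (2 : ℝ) n]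
    field_simp
  rw [h5, div_lt_one hpos] at hn
  linarith

/-- functions on `T` as elements of the group ring -/
def toMA (T : Finset G) : (T → ZMod 2) →ₗ[ZMod 2] MonoidAlgebra (ZMod 2) G :=
  Fintype.linearCombination (ZMod 2) (fun g : T => of (ZMod 2) G (g : G))

open Classical in
theorem toMA_coeff (T : Finset G) (f : T → ZMod 2) (g : G) :
    (toMA T f).coeff g = if h : g ∈ T then f ⟨g, h⟩ else 0 := by
  rw [toMA, Fintype.linearCombination_apply]
  rw [coeff_sum, Finsupp.finsetSum_apply]
  split_ifs with h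
  · rw [Finset.sum_eq_single (⟨g, h⟩ : T)]
    · simp [of]
    · intro b _ hb
      have : (b : G) ≠ g := fun h' => hb (Subtype.ext h')
      simp [of, Finsupp.single_apply, this]
    · intro h'
      exact absurd (Finset.mem_univ _) h'
  · apply Finset.sum_eq_zero
    intro b _
    have : (b : G) ≠ g := fun h' => h (h' ▸ b.2)
    simp [of, Finsupp.single_apply, this]

theorem toMA_supp (T : Finset G) (f : T → ZMod 2) {g : G} (h : (toMA T f).coeff g ≠ 0) : g ∈ T := by
  classical
  by_contra h'
  rw [toMA_coeff, dif_neg h'] at h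
  exact h rfl

theorem toMA_eq_zero (T : Finset G) (f : T → ZMod 2) (h : toMA T f = 0) : f = 0 := by
  classical
  funext g
  have := congrArg (fun x => x.coeff (g : G)) h
  simp only [toMA_coeff, dif_pos g.2] at this
  simpa using this

open Classical in
theorem pow_subset (H : Subgroup G) (S : Finset G) (hS : ∀ g ∈ S, g ∈ H) (n : ℕ) :
    ∀ g ∈ S ^ n, g ∈ H := by
  induction n with
  | zero =>
    intro g hg
    rw [pow_zero, Finset.mem_one] at hg
    rw [hg]
    exact H.one_mem
  | succ n ih =>
    intro g hg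
    rw [pow_succ] at hg
    obtain ⟨a, ha, b, hb, rfl⟩ := Finset.mem_mul.1 hg
    exact H.mul_mem (ih a ha) (hS b hb)

open Classical in
theorem core (S : Finset G) (n : ℕ) (hn : (S ^ (n + 1)).card < 2 * (S ^ n).card)
    (a s : MonoidAlgebra (ZMod 2) G) (ha : a.coeff.support ⊆ S) (hs : s.coeff.support ⊆ S) :
    ∃ f h : (S ^ n : Finset G) → ZMod 2, (f, h) ≠ 0 ∧ toMA (S ^ n) f * a = toMA (S ^ n) h * s := by
  set T := S ^ n with hT
  set T' := S ^ (n + 1) with hT'
  let L : ((T → ZMod 2) × (T → ZMod 2)) →ₗ[ZMod 2] (T' → ZMod 2) :=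
    { toFun := fun p g => (toMA T p.1 * a - toMA T p.2 * s).coeff (g : G)
      map_add' := by
        intro p q
        funext g
        simp only [Prod.fst_add, Prod.snd_add, map_add, add_mul, coeff_sub, coeff_add,
          Finsupp.sub_apply, Finsupp.add_apply, Pi.add_apply]
        ring
      map_smul' := by
        intro c p
        funext g
        simp only [Prod.smul_fst, Prod.smul_snd, map_smul, smul_mul_assoc, coeff_sub, coeff_smul,
          Finsupp.sub_apply, Finsupp.smul_apply, Pi.smul_apply, smul_eq_mul, RingHom.id_apply]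
        ring }
  have hker : LinearMap.ker L ≠ ⊥ := by
    apply LinearMap.ker_ne_bot_of_finrank_lt
    rw [Module.finrank_prod, Module.finrank_fintype_fun_eq_card,
      Module.finrank_fintype_fun_eq_card, Fintype.card_coe, Fintype.card_coe]
    omega
  obtain ⟨p, hp, hp0⟩ := (Submodule.ne_bot_iff _).1 hker
  refine ⟨p.1, p.2, hp0, ?_⟩
  rw [← sub_eq_zero]
  ext g
  rw [coeff_zero, Finsupp.zero_apply]
  by_cases hg : g ∈ T'
  · have := congrFun (LinearMap.mem_ker.1 hp) ⟨g, hg⟩
    exact this
  · by_contra hne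
    have hmem : g ∈ (toMA T p.1 * a - toMA T p.2 * s).coeff.support := Finsupp.mem_support_iff.2 hne
    rw [coeff_sub] at hmem
    have := Finsupp.support_sub hmem
    apply hg
    rw [hT', pow_succ]
    rcases Finset.mem_union.1 this with h | h
    · obtain ⟨c, hc, d, hd, rfl⟩ := Finset.mem_mul.1 (support_coeff_mul_subset _ _ h)
      exact Finset.mul_mem_mul (toMA_supp T p.1 (Finsupp.mem_support_iff.1 hc)) (ha hd)
    · obtain ⟨c, hc, d, hd, rfl⟩ := Finset.mem_mul.1 (support_coeff_mul_subset _ _ h)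
      exact Finset.mul_mem_mul (toMA_supp T p.2 (Finsupp.mem_support_iff.1 hc)) (hs hd)

end OreCond

open OreCond in
theorem s_ore : S_ore := by
  classical
  intro G _ hG hdom H a s ha hs hs0
  set S : Finset G := insert 1 (a.coeff.support ∪ s.coeff.support) with hS
  have hSH : ∀ g ∈ S, g ∈ H := by
    intro g hg
    rw [hS, Finset.mem_insert, Finset.mem_union] at hg
    rcases hg with rfl | h | h
    · exact H.one_mem
    · exact ha g (Finsupp.mem_support_iff.1 h)
    · exact hs g (Finsupp.mem_support_iff.1 h)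
  obtain ⟨n, hn⟩ := exists_small hG S (Finset.mem_insert_self _ _)
  obtain ⟨f, h, hne, he⟩ := core S n (by convert hn) a s
    (by
      intro g hg
      rw [hS]
      exact Finset.mem_insert_of_mem (Finset.mem_union_left _ hg))
    (by
      intro g hg
      rw [hS]
      exact Finset.mem_insert_of_mem (Finset.mem_union_right _ hg))
  have hsupp : ∀ f : (S ^ n : Finset G) → ZMod 2, SuppIn H (toMA (S ^ n) f) := fun f g hg =>
    pow_subset H S hSH n g (toMA_supp _ f hg)
  refine ⟨toMA (S ^ n) f, toMA (S ^ n) h, hsupp f, hsupp h, ?_, he⟩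
  intro h0
  rw [h0, zero_mul] at he
  have h1 : toMA (S ^ n) h = 0 := by
    rcases mul_eq_zero.1 he.symm with h | h
    · exact h
    · exact absurd h hs0
  apply hne
  rw [toMA_eq_zero _ f h0, toMA_eq_zero _ h h1]
  rfl

end SQ
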