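import Pool.Agent.SQ.Skel

/-!
# SQ: an acyclic module has no homology, computed with a finite type resolution (row ACR)
-/

set_option autoImplicit false
set_option linter.unusedSectionVars false

open scoped TensorProduct

namespace SQ

open Singer

namespace Acr

section red
variable {H : Type} [Group H]

/-- reduction modulo two -/
noncomputable def red (H : Type) [Group H] : MonoidAlgebra ℤ H →+* MonoidAlgebra (ZMod 2) H :=
  MonoidAlgebra.mapRingHom H (Int.castRingHom (ZMod 2))

lemma red_coeff (x : MonoidAlgebra ℤ H) (g : H) : (red H x).coeff g = ((x.coeff g : ℤ) : ZMod 2) := by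
  simp [red]

lemma red_surj : Function.Surjective (red H) := by
  intro y
  refine ⟨MonoidAlgebra.ofCoeff (y.coeff.mapRange (fun a => (a.val : ℤ)) (by simp)), ?_⟩
  ext g
  rw [red_coeff]
  simp

lemma red_eq_zero {x : MonoidAlgebra ℤ H} (h : red H x = 0) : ∃ y : MonoidAlgebra ℤ H, x = y + y := by
  refine ⟨MonoidAlgebra.ofCoeff (x.coeff.mapRange (fun a => a / 2) (by simp)), ?_⟩
  ext g
  have h1 : ((x.coeff g : ℤ) : ZMod 2) = 0 := by rw [← red_coeff, h]; simp
  rw [ZMod.intCast_zmod_eq_zero_iff_dvd] at h1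
  simp only [MonoidAlgebra.coeff_add, Finsupp.coe_add, Pi.add_apply, Finsupp.mapRange_apply]
  push_cast at h1
  omega

lemma add_self_eq_zero {x : MonoidAlgebra ℤ H} (h : x + x = 0) : x = 0 := by
  ext g
  have h1 := congrArg (fun y : MonoidAlgebra ℤ H => y.coeff g) h
  simp only [MonoidAlgebra.coeff_add, Finsupp.coe_add, Pi.add_apply, MonoidAlgebra.coeff_zero, Finsupp.coe_zero,
    Pi.zero_apply] at h1 ⊢
  omega

lemma two_zero (x : MonoidAlgebra (ZMod 2) H) : x + x = 0 := by
  ext g
  simp only [MonoidAlgebra.coeff_add, Finsupp.coe_add, Pi.add_apply, MonoidAlgebra.coeff_zero, Finsupp.coe_zero,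
    Pi.zero_apply]
  exact CharTwo.add_self_eq_zero _

variable {α β γ : Type} [Fintype α] [Fintype β]

/-- reduction of rows -/
noncomputable def redr (x : α → MonoidAlgebra ℤ H) (a : α) : MonoidAlgebra (ZMod 2) H := red H (x a)

lemma redr_surj : Function.Surjective (redr : (α → MonoidAlgebra ℤ H) → α → MonoidAlgebra (ZMod 2) H) := by
  intro y
  choose f hf using fun a => red_surj (y a)
  exact ⟨f, funext hf⟩

lemma redr_eq_zero {x : α → MonoidAlgebra ℤ H} (h : redr x = 0) : ∃ y : α → MonoidAlgebra ℤ H, x = y + y := by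
  choose f hf using fun a => red_eq_zero (congrFun h a)
  exact ⟨f, funext hf⟩

/-- the boundary modulo two -/
noncomputable def dd (P : Matrix α β (MonoidAlgebra ℤ H)) :
    (α → MonoidAlgebra (ZMod 2) H) →ₗ[ZMod 2] (β → MonoidAlgebra (ZMod 2) H) where
  toFun x := Matrix.vecMul x (P.map (red H))
  map_add' x y := Matrix.add_vecMul _ _ _
  map_smul' c x := by
    funext b
    simp only [Matrix.vecMul, dotProduct, Pi.smul_apply, smul_mul_assoc, Finset.smul_sum, RingHom.id_apply]

lemma dd_redr (P : Matrix α β (MonoidAlgebra ℤ H)) (x : α → MonoidAlgebra ℤ H) :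
    dd P (redr x) = redr (Matrix.vecMul x P) := by
  funext b
  simp only [dd, redr, LinearMap.coe_mk, AddHom.coe_mk, Matrix.vecMul, dotProduct, Matrix.map_apply, map_sum, map_mul]

/-- the augmentation modulo two -/
noncomputable def ee (w : α → ℤ) : (α → MonoidAlgebra (ZMod 2) H) →ₗ[ZMod 2] ZMod 2 where
  toFun x := ∑ a, (w a : ZMod 2) * (x a).coeff.sum fun _ c => c
  map_add' x y := by
    rw [← Finset.sum_add_distrib]
    refine Finset.sum_congr rfl fun a _ => ?_
    rw [← mul_add, Pi.add_apply, MonoidAlgebra.coeff_add, Finsupp.sum_add_index']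
    · intro; rfl
    · intros; rfl
  map_smul' c x := by
    rw [RingHom.id_apply, smul_eq_mul, Finset.mul_sum]
    refine Finset.sum_congr rfl fun a _ => ?_
    rw [Pi.smul_apply, MonoidAlgebra.coeff_smul, Finsupp.sum_smul_index' (by intro; rfl)]
    simp only [Finsupp.sum, smul_eq_mul, Finset.mul_sum]
    refine Finset.sum_congr rfl fun _ _ => ?_
    ring

lemma ee_redr (w : α → ℤ) (x : α → MonoidAlgebra ℤ H) : ee w (redr x) = ((augw w x : ℤ) : ZMod 2) := by
  simp only [ee, augw, LinearMap.coe_mk, AddHom.coe_mk]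
  push_cast
  refine Finset.sum_congr rfl fun a _ => ?_
  congr 1
  have h1 : (redr x a).coeff = (x a).coeff.mapRange (fun c : ℤ => (c : ZMod 2)) (by simp) := by
    ext g
    rw [redr, red_coeff, Finsupp.mapRange_apply]
  rw [h1, Finsupp.sum_mapRange_index (by intro; rfl)]
  rfl

end red

section exact
variable {H : Type} [Group H] (R : FinRes H)

lemma vecMul_add {α β : Type} [Fintype α] (x y : α → MonoidAlgebra ℤ H) (P : Matrix α β (MonoidAlgebra ℤ H)) :
    Matrix.vecMul (x + y) P = Matrix.vecMul x P + Matrix.vecMul y P := Matrix.add_vecMul _ _ _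

lemma augw_add {α : Type} [Fintype α] (w : α → ℤ) (x y : α → MonoidAlgebra ℤ H) :
    augw w (x + y) = augw w x + augw w y := by
  simp only [augw]
  rw [← Finset.sum_add_distrib]
  refine Finset.sum_congr rfl fun a _ => ?_
  rw [← mul_add]
  congr 1
  have h := Finsupp.sum_add_index' (f := (x a).coeff) (g := (y a).coeff) (h := fun _ c => c) (fun _ => rfl)
    (fun _ _ _ => rfl)
  simpa only [Finsupp.sum, Pi.add_apply, MonoidAlgebra.coeff_add] using h

lemma redr_add {α : Type} (x y : α → MonoidAlgebra ℤ H) : redr (x + y) = redr x + redr y := by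
  funext a
  simp [redr]

lemma redr_self {α : Type} (y : α → MonoidAlgebra ℤ H) : redr (y + y) = 0 := by
  funext a
  rw [redr_add, Pi.add_apply, Pi.zero_apply, two_zero]

theorem ex_zero : Function.Exact (dd (R.d 0)) (ee (H := H) R.w) := by
  intro x
  constructor
  · intro hx
    obtain ⟨x, rfl⟩ := redr_surj x
    rw [ee_redr, ZMod.intCast_zmod_eq_zero_iff_dvd] at hx
    obtain ⟨m, hm⟩ := hx
    obtain ⟨x1, hx1⟩ := R.surj
    have h1 : augw R.w (m • x1) = m * augw R.w x1 := by
      rw [augw, augw, Finset.mul_sum]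
      refine Finset.sum_congr rfl fun a _ => ?_
      have h := Finsupp.sum_smul_index' (g := (x1 a).coeff) (b := m) (h := fun (_ : H) (c : ℤ) => c) (fun _ => rfl)
      simp only [Finsupp.sum, smul_eq_mul] at h
      rw [Pi.smul_apply, MonoidAlgebra.coeff_smul, h, ← Finset.mul_sum]
      ring
    have h2 : augw R.w (x + -(m • x1 + m • x1)) = 0 := by
      have h3 := augw_add R.w (x + -(m • x1 + m • x1)) (m • x1 + m • x1)
      rw [neg_add_cancel_right, augw_add R.w (m • x1), h1, hx1, hm] at h3
      push_cast at h3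
      linarith
    obtain ⟨y, hy⟩ := (R.exact_zero _).1 h2
    refine ⟨redr y, ?_⟩
    rw [dd_redr, hy, redr_add]
    have h4 : redr (-(m • x1 + m • x1)) = 0 := by
      have h5 := redr_add (-(m • x1 + m • x1)) (m • x1 + m • x1)
      rw [neg_add_cancel, redr_self, add_zero] at h5
      rw [← h5]
      funext a
      simp [redr]
    rw [h4, add_zero]
  · rintro ⟨y, rfl⟩
    obtain ⟨y, rfl⟩ := redr_surj y
    rw [dd_redr, ee_redr, (R.exact_zero _).2 ⟨y, rfl⟩]
    simp

theorem d_d (i : ℕ) (y : R.ι (i + 2) → MonoidAlgebra ℤ H) :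
    Matrix.vecMul (Matrix.vecMul y (R.d (i + 1))) (R.d i) = 0 := (R.exact_succ i _).2 ⟨y, rfl⟩

lemma add_self {α : Type} {y : α → MonoidAlgebra ℤ H} (h : y + y = 0) : y = 0 :=
  funext fun a => add_self_eq_zero (congrFun h a)

theorem ex_succ (i : ℕ) : Function.Exact (dd (R.d (i + 1))) (dd (R.d i)) := by
  intro x
  constructor
  · intro hx
    obtain ⟨x, rfl⟩ := redr_surj x
    rw [dd_redr] at hx
    obtain ⟨y, hy⟩ := redr_eq_zero hx
    have h1 : ∃ z, Matrix.vecMul z (R.d i) = y := by
      cases i with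
      | zero =>
        refine (R.exact_zero y).1 ?_
        have h2 := (R.exact_zero _).2 ⟨x, rfl⟩
        rw [hy, augw_add] at h2
        linarith
      | succ i =>
        refine (R.exact_succ i y).1 ?_
        apply add_self
        rw [← vecMul_add, ← hy]
        exact d_d R i x
    obtain ⟨z, hz⟩ := h1
    have h2 : Matrix.vecMul (x + -(z + z)) (R.d i) = 0 := by
      have h3 := vecMul_add (x + -(z + z)) (z + z) (R.d i)
      rw [neg_add_cancel_right, vecMul_add z z, hz, hy] at h3
      have h4 : y + y = Matrix.vecMul (x + -(z + z)) (R.d i) + (y + y) := h3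
      have h5 : (0 : R.ι i → MonoidAlgebra ℤ H) + (y + y) = Matrix.vecMul (x + -(z + z)) (R.d i) + (y + y) := by
        rw [zero_add]; exact h4
      exact (add_right_cancel h5).symm
    obtain ⟨u, hu⟩ := (R.exact_succ i _).1 h2
    refine ⟨redr u, ?_⟩
    rw [dd_redr, hu, redr_add]
    have h4 : redr (-(z + z)) = 0 := by
      have h5 := redr_add (-(z + z)) (z + z)
      rw [neg_add_cancel, redr_self, add_zero] at h5
      rw [← h5]
      funext a
      simp [redr]
    rw [h4, add_zero]
  · rintro ⟨y, rfl⟩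
    obtain ⟨y, rfl⟩ := redr_surj y
    rw [dd_redr, dd_redr, d_d]
    funext a
    simp [redr]

theorem ee_surj : Function.Surjective (ee (H := H) R.w) := by
  intro c
  obtain ⟨x, hx⟩ := R.surj
  refine ⟨c • redr x, ?_⟩
  rw [map_smul, ee_redr, hx]
  simp

end exact

section rep
variable {H : Type} [Group H]

/-- one left translation on rows -/
noncomputable def lm (α : Type) (s : MonoidAlgebra (ZMod 2) H) :
    (α → MonoidAlgebra (ZMod 2) H) →ₗ[ZMod 2] (α → MonoidAlgebra (ZMod 2) H) :=
  LinearMap.pi fun a => LinearMap.mulLeft (ZMod 2) s ∘ₗ LinearMap.proj a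

lemma lm_apply {α : Type} (s : MonoidAlgebra (ZMod 2) H) (x : α → MonoidAlgebra (ZMod 2) H) (a : α) :
    lm α s x a = s * x a := rfl

/-- left translations on rows -/
noncomputable def lam (α : Type) : Representation (ZMod 2) H (α → MonoidAlgebra (ZMod 2) H) where
  toFun g := lm α (MonoidAlgebra.single g 1)
  map_one' := by
    apply LinearMap.ext
    intro x
    funext a
    rw [lm_apply]
    exact one_mul (x a)
  map_mul' g h := by
    apply LinearMap.ext
    intro x
    funext a
    rw [Module.End.mul_apply, lm_apply, lm_apply, lm_apply, ← mul_assoc, MonoidAlgebra.single_mul_single, one_mul]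

lemma lam_apply {α : Type} (g : H) (x : α → MonoidAlgebra (ZMod 2) H) (a : α) :
    lam α g x a = MonoidAlgebra.single g 1 * x a := rfl

lemma dd_lam {α β : Type} [Fintype α] (P : Matrix α β (MonoidAlgebra ℤ H)) (g : H)
    (x : α → MonoidAlgebra (ZMod 2) H) : dd P (lam α g x) = lam β g (dd P x) := by
  funext b
  simp only [dd, LinearMap.coe_mk, AddHom.coe_mk, Matrix.vecMul, dotProduct, lam_apply, Finset.mul_sum, mul_assoc]

lemma ee_lam {α : Type} [Fintype α] (w : α → ℤ) (g : H)
    (x : α → MonoidAlgebra (ZMod 2) H) : ee w (lam α g x) = ee w x := by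
  simp only [ee, LinearMap.coe_mk, AddHom.coe_mk, lam_apply]
  refine Finset.sum_congr rfl fun a _ => ?_
  congr 1
  induction x a using MonoidAlgebra.induction_linear with
  | zero => simp
  | add u v hu hv =>
    rw [mul_add, MonoidAlgebra.coeff_add, MonoidAlgebra.coeff_add, Finsupp.sum_add_index' (by intro; rfl) (by intros; rfl),
      Finsupp.sum_add_index' (by intro; rfl) (by intros; rfl), hu, hv]
  | single h c =>
    rw [MonoidAlgebra.single_mul_single, one_mul, MonoidAlgebra.coeff_single, MonoidAlgebra.coeff_single,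
      Finsupp.sum_single_index rfl, Finsupp.sum_single_index rfl]

/-- the basis vector -/
noncomputable def bas {α : Type} [DecidableEq α] (a : α) (h : H) : α → MonoidAlgebra (ZMod 2) H :=
  Pi.single a (MonoidAlgebra.single h 1)

lemma lam_bas {α : Type} [DecidableEq α] (g : H) (a : α) (h : H) : lam α g (bas a h) = bas a (g * h) := by
  funext b
  rw [lam_apply, bas, bas]
  by_cases hb : b = a
  · subst hb
    rw [Pi.single_eq_same, Pi.single_eq_same, MonoidAlgebra.single_mul_single, one_mul]
  · rw [Pi.single_eq_of_ne hb, Pi.single_eq_of_ne hb, mul_zero]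

theorem ind_bas {α : Type} [Fintype α] [DecidableEq α] {p : (α → MonoidAlgebra (ZMod 2) H) → Prop}
    (h0 : p 0) (ha : ∀ x y, p x → p y → p (x + y)) (hb : ∀ a h, p (bas a h))
    (x : α → MonoidAlgebra (ZMod 2) H) : p x := by
  have h1 : x = ∑ a, Pi.single a (x a) := (Finset.univ_sum_single x).symm
  rw [h1]
  have h2 : ∀ (a : α) (y : MonoidAlgebra (ZMod 2) H), p (Pi.single a y) := by
    intro a y
    induction y using MonoidAlgebra.induction_linear with
    | zero => rwa [Pi.single_zero]
    | add u v hu hv => rw [Pi.single_add]; exact ha _ _ hu hv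
    | single h c =>
      fin_cases c
      · have : (MonoidAlgebra.single h (0 : ZMod 2)) = 0 := MonoidAlgebra.single_zero h
        show p (Pi.single a (MonoidAlgebra.single h (0 : ZMod 2)))
        rw [this, Pi.single_zero]
        exact h0
      · exact hb a h
  exact Finset.sum_induction _ p ha h0 fun a _ => h2 a _

variable {Y : Type} [AddCommGroup Y] [Module (ZMod 2) Y]

theorem ind_ten {α : Type} [Fintype α] [DecidableEq α] {p : (α → MonoidAlgebra (ZMod 2) H) ⊗[ZMod 2] Y → Prop}
    (h0 : p 0) (ha : ∀ x y, p x → p y → p (x + y)) (hb : ∀ a h y, p (bas a h ⊗ₜ[ZMod 2] y))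
    (x : (α → MonoidAlgebra (ZMod 2) H) ⊗[ZMod 2] Y) : p x := by
  induction x using TensorProduct.induction_on with
  | zero => exact h0
  | add x y hx hy => exact ha x y hx hy
  | tmul x y =>
    refine ind_bas (p := fun x => p (x ⊗ₜ[ZMod 2] y)) ?_ ?_ ?_ x
    · rw [TensorProduct.zero_tmul]; exact h0
    · intro x x' hx hx'
      rw [TensorProduct.add_tmul]; exact ha _ _ hx hx'
    · intro a h
      exact hb a h y

variable (τ : Representation (ZMod 2) H Y)

open Classical in
/-- untwisting of a product -/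
noncomputable def tf {α : Type} [Fintype α] (x : α → MonoidAlgebra (ZMod 2) H) (y : Y) : H →₀ (α → Y) :=
  Finsupp.onFinset (Finset.univ.biUnion fun a => (x a).coeff.support)
    (fun h a => (x a).coeff h • τ h⁻¹ y) (by
      intro h hne
      obtain ⟨a, ha⟩ := Function.ne_iff.1 hne
      refine Finset.mem_biUnion.2 ⟨a, Finset.mem_univ _, Finsupp.mem_support_iff.2 fun h0 => ha ?_⟩
      rw [h0, zero_smul]; rfl)

lemma tf_apply {α : Type} [Fintype α] (x : α → MonoidAlgebra (ZMod 2) H) (y : Y) (h : H) (a : α) :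
    tf τ x y h a = (x a).coeff h • τ h⁻¹ y := rfl

/-- untwisting -/
noncomputable def tw (α : Type) [Fintype α] :
    (α → MonoidAlgebra (ZMod 2) H) ⊗[ZMod 2] Y →ₗ[ZMod 2] (H →₀ (α → Y)) :=
  TensorProduct.lift (LinearMap.mk₂ (ZMod 2) (fun x y => tf τ x y)
    (fun x x' y => by
      apply Finsupp.ext
      intro h
      funext a
      rw [Finsupp.add_apply, Pi.add_apply, tf_apply, tf_apply, tf_apply, Pi.add_apply, MonoidAlgebra.coeff_add,
        Finsupp.add_apply, add_smul])
    (fun c x y => by
      apply Finsupp.ext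
      intro h
      funext a
      rw [Finsupp.smul_apply, Pi.smul_apply, tf_apply, tf_apply, Pi.smul_apply, MonoidAlgebra.coeff_smul,
        Finsupp.smul_apply, smul_assoc])
    (fun x y y' => by
      apply Finsupp.ext
      intro h
      funext a
      rw [Finsupp.add_apply, Pi.add_apply, tf_apply, tf_apply, tf_apply, map_add, smul_add])
    (fun c x y => by
      apply Finsupp.ext
      intro h
      funext a
      rw [Finsupp.smul_apply, Pi.smul_apply, tf_apply, tf_apply, map_smul, smul_comm]))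

lemma tw_tmul {α : Type} [Fintype α] (x : α → MonoidAlgebra (ZMod 2) H) (y : Y) :
    tw τ α (x ⊗ₜ[ZMod 2] y) = tf τ x y := by
  rw [tw, TensorProduct.lift.tmul, LinearMap.mk₂_apply]

lemma tw_bas {α : Type} [Fintype α] [DecidableEq α] (a : α) (h : H) (y : Y) :
    tw τ α (bas a h ⊗ₜ[ZMod 2] y) = Finsupp.single h (Pi.single a (τ h⁻¹ y)) := by
  classical
  apply Finsupp.ext
  intro k
  funext b
  rw [tw_tmul, tf_apply, bas]
  by_cases hb : b = a
  · subst hb
    rw [Pi.single_eq_same, MonoidAlgebra.coeff_single]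
    by_cases hk : h = k
    · subst hk
      rw [Finsupp.single_eq_same, Finsupp.single_eq_same, Pi.single_eq_same, one_smul]
    · rw [Finsupp.single_eq_of_ne (Ne.symm hk), Finsupp.single_eq_of_ne (Ne.symm hk), zero_smul]; rfl
  · rw [Pi.single_eq_of_ne hb]
    by_cases hk : h = k
    · subst hk
      rw [Finsupp.single_eq_same, Pi.single_eq_of_ne hb, MonoidAlgebra.coeff_zero, Finsupp.zero_apply, zero_smul]
    · rw [Finsupp.single_eq_of_ne (Ne.symm hk), MonoidAlgebra.coeff_zero, Finsupp.zero_apply, zero_smul]; rfl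

/-- twisting -/
noncomputable def ut (α : Type) [Fintype α] [DecidableEq α] :
    (H →₀ (α → Y)) →ₗ[ZMod 2] (α → MonoidAlgebra (ZMod 2) H) ⊗[ZMod 2] Y :=
  Finsupp.lsum (ZMod 2) fun h =>
    ∑ a, (TensorProduct.mk (ZMod 2) (α → MonoidAlgebra (ZMod 2) H) Y (bas a h)) ∘ₗ (τ h) ∘ₗ (LinearMap.proj a)

lemma ut_single {α : Type} [Fintype α] [DecidableEq α] (h : H) (z : α → Y) :
    ut τ α (Finsupp.single h z) = ∑ a, bas a h ⊗ₜ[ZMod 2] τ h (z a) := by
  simp [ut]

lemma tau_inv (h : H) (y : Y) : τ h (τ h⁻¹ y) = y := by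
  rw [← Module.End.mul_apply, ← map_mul, mul_inv_cancel, map_one]; rfl

lemma tau_inv' (h : H) (y : Y) : τ h⁻¹ (τ h y) = y := by
  rw [← Module.End.mul_apply, ← map_mul, inv_mul_cancel, map_one]; rfl

lemma ut_single_single {α : Type} [Fintype α] [DecidableEq α] (h : H) (a : α) (y : Y) :
    ut τ α (Finsupp.single h (Pi.single a y)) = bas a h ⊗ₜ[ZMod 2] τ h y := by
  rw [ut_single, Finset.sum_eq_single a]
  · rw [Pi.single_eq_same]
  · intro b _ hb
    rw [Pi.single_eq_of_ne hb, map_zero, TensorProduct.tmul_zero]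
  · intro h; exact absurd (Finset.mem_univ _) h

lemma ut_tw {α : Type} [Fintype α] [DecidableEq α] (m : (α → MonoidAlgebra (ZMod 2) H) ⊗[ZMod 2] Y) :
    ut τ α (tw τ α m) = m := by
  refine ind_ten (p := fun m => ut τ α (tw τ α m) = m) (by simp) (fun x y hx hy => by rw [map_add, map_add, hx, hy])
    (fun a h y => ?_) m
  rw [tw_bas, ut_single_single, tau_inv]

/-- the diagonal representation -/
noncomputable abbrev sg (α : Type) : Representation (ZMod 2) H ((α → MonoidAlgebra (ZMod 2) H) ⊗[ZMod 2] Y) :=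
  (lam α).tprod τ

lemma sg_bas {α : Type} [DecidableEq α] (g : H) (a : α) (h : H) (y : Y) :
    sg τ α g (bas a h ⊗ₜ[ZMod 2] y) = bas a (g * h) ⊗ₜ[ZMod 2] τ g y := by
  rw [sg, Representation.tprod_apply, TensorProduct.map_tmul, lam_bas]

lemma tw_act {α : Type} [Fintype α] [DecidableEq α] (g : H) (m : (α → MonoidAlgebra (ZMod 2) H) ⊗[ZMod 2] Y) :
    tw τ α (sg τ α g m) = trans H (α → Y) g (tw τ α m) := by
  refine ind_ten (p := fun m => tw τ α (sg τ α g m) = trans H (α → Y) g (tw τ α m)) (by simp)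
    (fun x y hx hy => by simp only [map_add, hx, hy]) (fun a h y => ?_) m
  rw [sg_bas, tw_bas, tw_bas]
  show _ = Finsupp.mapDomain (fun k => g * k) _
  rw [Finsupp.mapDomain_single, mul_inv_rev, map_mul, Module.End.mul_apply, tau_inv']

lemma ut_act {α : Type} [Fintype α] [DecidableEq α] (g : H) (f : H →₀ (α → Y)) :
    ut τ α (trans H (α → Y) g f) = sg τ α g (ut τ α f) := by
  induction f using Finsupp.induction_linear with
  | zero => simp
  | add f f' h h' => simp only [map_add, h, h']
  | single h z =>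
    show ut τ α (Finsupp.mapDomain (fun k => g * k) _) = _
    rw [Finsupp.mapDomain_single, ut_single, ut_single, map_sum]
    refine Finset.sum_congr rfl fun a _ => ?_
    rw [sg_bas, map_mul, Module.End.mul_apply]

lemma ind_sg (α : Type) [Fintype α] : Ind (sg τ α) := by
  classical
  exact ⟨α → Y, inferInstance, inferInstance, tw τ α, ut τ α, ut_tw τ, tw_act τ, ut_act τ⟩

/-- the identification of the coinvariants -/
noncomputable def co (α : Type) [Fintype α] : (α → MonoidAlgebra (ZMod 2) H) ⊗[ZMod 2] Y →ₗ[ZMod 2] (α → Y) :=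
  (Finsupp.lsum (ZMod 2) fun _ : H => (LinearMap.id : (α → Y) →ₗ[ZMod 2] (α → Y))) ∘ₗ tw τ α

lemma co_bas {α : Type} [Fintype α] [DecidableEq α] (a : α) (h : H) (y : Y) :
    co τ α (bas a h ⊗ₜ[ZMod 2] y) = Pi.single a (τ h⁻¹ y) := by
  rw [co, LinearMap.comp_apply, tw_bas]
  simp

lemma co_act {α : Type} [Fintype α] (g : H) (m : (α → MonoidAlgebra (ZMod 2) H) ⊗[ZMod 2] Y) :
    co τ α (sg τ α g m) = co τ α m := by
  classical
  refine ind_ten (p := fun m => co τ α (sg τ α g m) = co τ α m) (by simp)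
    (fun x y hx hy => by simp only [map_add, hx, hy]) (fun a h y => ?_) m
  rw [sg_bas, co_bas, co_bas, mul_inv_rev, map_mul, Module.End.mul_apply, tau_inv']

lemma co_coin {α : Type} [Fintype α] {m : (α → MonoidAlgebra (ZMod 2) H) ⊗[ZMod 2] Y} (h : m ∈ coin (sg τ α) ⊤) :
    co τ α m = 0 := by
  refine Submodule.span_induction (p := fun m _ => co τ α m = 0) ?_ (map_zero _) (fun x y _ _ hx hy => by rw [map_add, hx, hy, add_zero])
    (fun c x _ hx => by rw [map_smul, hx, smul_zero]) h
  rintro _ ⟨g, -, x, rfl⟩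
  rw [map_sub, co_act, sub_self]

/-- the section -/
noncomputable def se (α : Type) [Fintype α] [DecidableEq α] (f : α → Y) : (α → MonoidAlgebra (ZMod 2) H) ⊗[ZMod 2] Y :=
  ∑ a, bas a 1 ⊗ₜ[ZMod 2] f a

lemma co_se {α : Type} [Fintype α] [DecidableEq α] (f : α → Y) : co τ α (se α f) = f := by
  rw [se, map_sum]
  have : ∀ a ∈ Finset.univ, co τ α (bas a (1 : H) ⊗ₜ[ZMod 2] f a) = Pi.single a (f a) := by
    intro a _
    rw [co_bas, inv_one, map_one]; rfl
  rw [Finset.sum_congr rfl this, Finset.univ_sum_single]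

lemma sub_se {α : Type} [Fintype α] [DecidableEq α] (m : (α → MonoidAlgebra (ZMod 2) H) ⊗[ZMod 2] Y) :
    m - se α (co τ α m) ∈ coin (sg τ α) ⊤ := by
  refine ind_ten (p := fun m => m - se α (co τ α m) ∈ coin (sg τ α) ⊤) ?_ ?_ ?_ m
  · have : se α (0 : α → Y) = (0 : (α → MonoidAlgebra (ZMod 2) H) ⊗[ZMod 2] Y) := by simp [se]
    rw [map_zero, this, sub_zero]
    exact zero_mem _
  · intro x y hx hy
    have : se (H := H) α (co τ α (x + y)) = se α (co τ α x) + se α (co τ α y) := by
      simp only [se, map_add, Pi.add_apply, TensorProduct.tmul_add, Finset.sum_add_distrib]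
    rw [this, add_sub_add_comm]
    exact add_mem hx hy
  · intro a h y
    have h1 : se (H := H) α (co τ α (bas a h ⊗ₜ[ZMod 2] y)) = bas a (1 : H) ⊗ₜ[ZMod 2] τ h⁻¹ y := by
      rw [co_bas, se, Finset.sum_eq_single a]
      · rw [Pi.single_eq_same]
      · intro b _ hb
        rw [Pi.single_eq_of_ne hb, TensorProduct.tmul_zero]
      · intro h; exact absurd (Finset.mem_univ _) h
    rw [h1]
    refine Submodule.subset_span ⟨h, trivial, bas a (1 : H) ⊗ₜ[ZMod 2] τ h⁻¹ y, ?_⟩
    rw [sg_bas, mul_one, tau_inv]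

end rep

section main
variable {H : Type} [Group H] (R : FinRes H) {Y : Type} [AddCommGroup Y] [Module (ZMod 2) Y]
  (τ : Representation (ZMod 2) H Y)

instance flatY : Module.Flat (ZMod 2) Y := inferInstance

/-- the complex of the resolution tensored with the module -/
noncomputable def cx : Cx τ where
  M j := (R.ι j → MonoidAlgebra (ZMod 2) H) ⊗[ZMod 2] Y
  σ j := sg τ (R.ι j)
  d j := (dd (R.d j)).rTensor Y
  e := (TensorProduct.lid (ZMod 2) Y).toLinearMap ∘ₗ (ee (H := H) R.w).rTensor Y
  d_act j g x := by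
    classical
    refine ind_ten (p := fun x => (dd (R.d j)).rTensor Y (sg τ (R.ι (j + 1)) g x) =
      sg τ (R.ι j) g ((dd (R.d j)).rTensor Y x)) (by simp) (fun x y hx hy => by simp only [map_add, hx, hy])
      (fun a h y => ?_) x
    rw [sg, sg, Representation.tprod_apply, Representation.tprod_apply, TensorProduct.map_tmul, LinearMap.rTensor_tmul,
      LinearMap.rTensor_tmul, TensorProduct.map_tmul, dd_lam]
  e_act g x := by
    classical
    refine ind_ten (p := fun x => ((TensorProduct.lid (ZMod 2) Y).toLinearMap ∘ₗ (ee (H := H) R.w).rTensor Y)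
      (sg τ (R.ι 0) g x) = τ g (((TensorProduct.lid (ZMod 2) Y).toLinearMap ∘ₗ (ee (H := H) R.w).rTensor Y) x))
      (by simp) (fun x y hx hy => by simp only [map_add, hx, hy])
      (fun a h y => ?_) x
    rw [sg, Representation.tprod_apply, TensorProduct.map_tmul, LinearMap.comp_apply, LinearMap.comp_apply,
      LinearMap.rTensor_tmul, LinearMap.rTensor_tmul, ee_lam]
    show TensorProduct.lid (ZMod 2) Y _ = τ g (TensorProduct.lid (ZMod 2) Y _)
    rw [TensorProduct.lid_tmul, TensorProduct.lid_tmul, map_smul]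
  surj := by
    rw [LinearMap.coe_comp]
    exact (TensorProduct.lid (ZMod 2) Y).surjective.comp (LinearMap.rTensor_surjective Y (ee_surj R))
  ex0 x := by
    rw [LinearMap.comp_apply]
    have h1 := Module.Flat.rTensor_exact Y (ex_zero R) x
    show TensorProduct.lid (ZMod 2) Y _ = 0 ↔ _
    rw [LinearEquiv.map_eq_zero_iff, h1]
    rfl
  ex j x := Module.Flat.rTensor_exact Y (ex_succ R j) x
  ind j := ind_sg τ (R.ι j)

theorem co_d {α β : Type} [Fintype α] [Fintype β] (P : Matrix α β (MonoidAlgebra ℤ H))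
    (m : (α → MonoidAlgebra (ZMod 2) H) ⊗[ZMod 2] Y) :
    co τ β ((dd P).rTensor Y m) = bdry τ P (co τ α m) := by
  classical
  refine ind_ten (p := fun m => co τ β ((dd P).rTensor Y m) = bdry τ P (co τ α m)) ?_ ?_ ?_ m
  · rw [map_zero, map_zero, map_zero]
    funext b
    simp [bdry]
  · intro x y hx hy
    rw [map_add, map_add, hx, hy, map_add]
    funext b
    simp only [bdry, Pi.add_apply, map_add, smul_add, Finset.sum_add_distrib]
  · intro a h y
    rw [LinearMap.rTensor_tmul, co_bas]
    have h1 : ∀ (x : β → MonoidAlgebra (ZMod 2) H), co τ β (x ⊗ₜ[ZMod 2] y) =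
        fun b => (x b).coeff.sum fun g c => c • τ g⁻¹ y := by
      intro x
      refine ind_bas (p := fun x => co τ β (x ⊗ₜ[ZMod 2] y) =
        fun b => (x b).coeff.sum fun g c => c • τ g⁻¹ y) ?_ ?_ ?_ x
      · rw [TensorProduct.zero_tmul, map_zero]
        funext b
        simp
      · intro x x' hx hx'
        rw [TensorProduct.add_tmul, map_add, hx, hx']
        funext b
        rw [Pi.add_apply, Pi.add_apply, MonoidAlgebra.coeff_add, Finsupp.sum_add_index' (by intro; rw [zero_smul])
          (by intros; rw [add_smul])]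
      · intro b g
        rw [co_bas]
        funext b'
        rw [bas]
        by_cases hb : b' = b
        · subst hb
          rw [Pi.single_eq_same, Pi.single_eq_same, MonoidAlgebra.coeff_single, Finsupp.sum_single_index
            (by rw [zero_smul]), one_smul]
        · rw [Pi.single_eq_of_ne hb, Pi.single_eq_of_ne hb]
          simp
    rw [h1]
    funext b
    have h2 : dd P (bas a h) b = MonoidAlgebra.single h 1 * red H (P a b) := by
      simp only [dd, LinearMap.coe_mk, AddHom.coe_mk, Matrix.vecMul, dotProduct, Matrix.map_apply, bas]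
      rw [Finset.sum_eq_single a]
      · rw [Pi.single_eq_same]
      · intro c _ hc
        rw [Pi.single_eq_of_ne hc, zero_mul]
      · intro h; exact absurd (Finset.mem_univ _) h
    rw [h2]
    have h3 : ∀ z : MonoidAlgebra (ZMod 2) H, ((MonoidAlgebra.single h (1 : ZMod 2) * z).coeff.sum
        fun g c => c • τ g⁻¹ y) = z.coeff.sum fun g c => c • τ g⁻¹ (τ h⁻¹ y) := by
      intro z
      induction z using MonoidAlgebra.induction_linear with
      | zero => simp
      | add u v hu hv =>
        rw [mul_add, MonoidAlgebra.coeff_add, MonoidAlgebra.coeff_add, Finsupp.sum_add_index' (by intro; rw [zero_smul])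
          (by intros; rw [add_smul]), Finsupp.sum_add_index' (by intro; rw [zero_smul]) (by intros; rw [add_smul]), hu, hv]
      | single g c =>
        rw [MonoidAlgebra.single_mul_single, one_mul, MonoidAlgebra.coeff_single, MonoidAlgebra.coeff_single,
          Finsupp.sum_single_index (by rw [zero_smul]), Finsupp.sum_single_index (by rw [zero_smul]), mul_inv_rev,
          map_mul, Module.End.mul_apply]
    rw [h3]
    have h4 : (red H (P a b)).coeff = (P a b).coeff.mapRange (fun c : ℤ => (c : ZMod 2)) (by simp) := by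
      ext g
      rw [red_coeff, Finsupp.mapRange_apply]
    rw [h4, Finsupp.sum_mapRange_index (by intro; rw [zero_smul]), bdry, Finset.sum_eq_single a]
    · rw [Pi.single_eq_same]
      rfl
    · intro c _ hc
      rw [Pi.single_eq_of_ne hc]
      refine Finset.sum_eq_zero fun g _ => ?_
      rw [map_zero, smul_zero]
    · intro h; exact absurd (Finset.mem_univ _) h

end main

end Acr

/-- **Row ACR.** -/
theorem acr : StmtACR := by
  classical
  intro H _ R Y _ _ τ hac j f hf
  obtain ⟨y, hy⟩ := (hac (Acr.cx R τ)).succ j (Acr.se (R.ι (j + 1)) f) (by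
    have h1 := Acr.sub_se τ ((Acr.dd (R.d j)).rTensor Y (Acr.se (R.ι (j + 1)) f))
    rw [Acr.co_d, Acr.co_se, hf] at h1
    have h2 : Acr.se (R.ι j) (0 : R.ι j → Y) = (0 : (R.ι j → MonoidAlgebra (ZMod 2) H) ⊗[ZMod 2] Y) := by simp [Acr.se]
    rw [h2, sub_zero] at h1
    exact h1)
  change (R.ι (j + 2) → MonoidAlgebra (ZMod 2) H) ⊗[ZMod 2] Y at y
  have hy' : Acr.se (R.ι (j + 1)) f - (Acr.dd (R.d (j + 1))).rTensor Y y ∈ coin (Acr.sg τ (R.ι (j + 1))) ⊤ := hy
  refine ⟨Acr.co τ (R.ι (j + 2)) y, ?_⟩
  have h3 := Acr.co_coin τ hy'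
  rw [map_sub, Acr.co_se, Acr.co_d] at h3
  exact (sub_eq_zero.1 h3).symm

end SQ
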