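import Pool.Agent.SQ.Skel
import Pool.Agent.Helper18.SQ.RankDual

/-!
# SQ: homology and cohomology with coefficients in a skew field with an involution (`StmtDUA`)
-/

set_option autoImplicit false
set_option linter.unusedSectionVars false
set_option linter.unusedVariables false

open scoped Matrix TensorProduct

namespace SQ

open Singer Pool.Agent.Helper18.SQ

namespace Dua

section ev
variable {H : Type} [Group H] {D : Type} [DivisionRing D]

/-- the homomorphism of the integral group ring -/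
noncomputable def ev (ρ : H →* Dˣ) : MonoidAlgebra ℤ H →+* D :=
  (MonoidAlgebra.lift ℤ D H ((Units.coeHom D).comp ρ)).toRingHom

theorem ev_apply (ρ : H →* Dˣ) (a : MonoidAlgebra ℤ H) :
    ev ρ a = ∑ g ∈ a.coeff.support, a.coeff g • ((ρ g : Dˣ) : D) :=
  MonoidAlgebra.lift_apply _ _

theorem comp_zero (R : FinRes H) (j : ℕ) : R.d (j + 1) * R.d j = 0 := by
  classical
  ext1 a b
  have h1 := (R.exact_succ j (Pi.single a 1 ᵥ* R.d (j + 1))).2 ⟨_, rfl⟩
  rw [Matrix.vecMul_vecMul] at h1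
  have h2 := congrFun h1 b
  rw [Matrix.single_one_vecMul] at h2
  exact h2

theorem ev_comp_zero (ρ : H →* Dˣ) (R : FinRes H) (j : ℕ) :
    (R.d (j + 1)).map (ev ρ) * (R.d j).map (ev ρ) = 0 := by
  rw [← Matrix.map_mul, comp_zero]
  ext a b
  exact map_zero (ev ρ)

variable [Algebra (ZMod 2) D]

theorem cobd_eq {α β : Type} [Fintype β] (ρ : H →* Dˣ) (P : Matrix α β (MonoidAlgebra ℤ H)) (f : β → D) :
    cobd (lmul ρ) P f = (P.map (ev ρ)) *ᵥ f := by
  funext a
  show ∑ b, ∑ g ∈ (P a b).coeff.support, ((P a b).coeff g : ZMod 2) • (((ρ g : Dˣ) : D) * f b) = ∑ b, ev ρ (P a b) * f b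
  refine Finset.sum_congr rfl fun b _ => ?_
  rw [ev_apply, Finset.sum_mul]
  refine Finset.sum_congr rfl fun g _ => ?_
  rw [Int.cast_smul_eq_zsmul, smul_mul_assoc]

theorem bdry_eq [StarRing D] {α β : Type} [Fintype α] (ρ : H →* Dˣ)
    (hs : ∀ g, star ((ρ g : Dˣ) : D) = ((ρ g⁻¹ : Dˣ) : D)) (P : Matrix α β (MonoidAlgebra ℤ H)) (f : α → D) :
    bdry (lmul ρ) P f = (P.map (ev ρ))ᴴ *ᵥ f := by
  funext b
  show ∑ a, ∑ g ∈ (P a b).coeff.support, ((P a b).coeff g : ZMod 2) • (((ρ g⁻¹ : Dˣ) : D) * f a) =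
    ∑ a, star (ev ρ (P a b)) * f a
  refine Finset.sum_congr rfl fun a _ => ?_
  rw [ev_apply, star_sum, Finset.sum_mul]
  refine Finset.sum_congr rfl fun g _ => ?_
  rw [Int.cast_smul_eq_zsmul, star_zsmul, smul_mul_assoc, hs]

end ev

end Dua

open Dua in
theorem dua : StmtDUA := by
  intro H _ R D _ _ _ ρ hs j
  cases j with
  | zero =>
    have h := inj_iff_adj ((R.d 0).map (ev ρ))
    constructor
    · intro h1 f
      obtain ⟨z, hz⟩ := h.1 (fun y hy => h1 y ((cobd_eq ρ (R.d 0) y).trans hy)) f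
      exact ⟨z, (bdry_eq ρ hs (R.d 0) z).trans hz⟩
    · intro h1 f hf
      refine h.2 (fun x => ?_) f ((cobd_eq ρ (R.d 0) f).symm.trans hf)
      obtain ⟨z, hz⟩ := h1 x
      exact ⟨z, (bdry_eq ρ hs (R.d 0) z).symm.trans hz⟩
  | succ j =>
    have h := exact_iff_adj ((R.d j).map (ev ρ)) ((R.d (j + 1)).map (ev ρ)) (ev_comp_zero ρ R j)
    constructor
    · intro h1 f hf
      obtain ⟨z, hz⟩ := h.1 (fun y hy => by
        obtain ⟨e, he⟩ := h1 y ((cobd_eq ρ (R.d (j + 1)) y).trans hy)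
        exact ⟨e, (cobd_eq ρ (R.d j) e).symm.trans he⟩) f ((bdry_eq ρ hs (R.d j) f).symm.trans hf)
      exact ⟨z, (bdry_eq ρ hs (R.d (j + 1)) z).trans hz⟩
    · intro h1 f hf
      obtain ⟨z, hz⟩ := h.2 (fun y hy => by
        obtain ⟨e, he⟩ := h1 y ((bdry_eq ρ hs (R.d j) y).trans hy)
        exact ⟨e, (bdry_eq ρ hs (R.d (j + 1)) e).symm.trans he⟩) f ((cobd_eq ρ (R.d (j + 1)) f).symm.trans hf)
      exact ⟨z, (cobd_eq ρ (R.d j) z).trans hz⟩

end SQ
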