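import Pool.Agent.SQ.Ring
import Mathlib

/-!
# Row T2b: Nielsen-Schreier
-/

set_option autoImplicit false

namespace SQ

theorem s_free : S_free := by
  intro K _ N N' _ C ψ hN hψ
  have : IsFreeGroup ψ.range := inferInstance
  let e := IsFreeGroup.toFreeGroup ψ.range
  have hx : ∀ a : IsFreeGroup.Generators ψ.range, ∃ g : N', ψ.rangeRestrict g = e.symm (FreeGroup.of a) :=
    fun a => ψ.rangeRestrict_surjective _
  choose x hx using hx
  have hlift : ∀ w : FreeGroup (IsFreeGroup.Generators ψ.range),
      ψ.rangeRestrict (FreeGroup.lift x w) = e.symm w := by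
    intro w
    have h1 : (ψ.rangeRestrict.comp (FreeGroup.lift x)) = e.symm.toMonoidHom := by
      ext a
      simp [hx]
    exact DFunLike.congr_fun h1 w
  have hcoe : ∀ w : FreeGroup (IsFreeGroup.Generators ψ.range),
      FreeGroup.lift (fun a => (x a : K)) w = ((FreeGroup.lift x w : N') : K) := by
    intro w
    have h1 : FreeGroup.lift (fun a => (x a : K)) = N'.subtype.comp (FreeGroup.lift x) := by
      ext a
      simp
    rw [h1]
    rfl
  refine ⟨{ X := IsFreeGroup.Generators ψ.range, x := fun a => (x a : K), mem := fun a => (x a).2, gen := ?_, inj := ?_ }⟩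
  · refine le_antisymm ?_ (sup_le hN ?_)
    · intro g hg
      set w := e (ψ.rangeRestrict ⟨g, hg⟩) with hw
      have h1 : ψ.rangeRestrict (FreeGroup.lift x w) = ψ.rangeRestrict ⟨g, hg⟩ := by
        rw [hlift, hw, MulEquiv.symm_apply_apply]
      have h2 : ψ (⟨g, hg⟩ * (FreeGroup.lift x w)⁻¹) = 1 := by
        have := congrArg Subtype.val h1
        simp only [MonoidHom.coe_rangeRestrict] at this
        rw [map_mul, map_inv, ← this, mul_inv_cancel]
      have h3 := (hψ _).1 h2
      have h4 : g = ((⟨g, hg⟩ * (FreeGroup.lift x w)⁻¹ : N') : K) * ((FreeGroup.lift x w : N') : K) := by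
        simp
      rw [h4]
      refine mul_mem (Subgroup.mem_sup_left h3) (Subgroup.mem_sup_right ?_)
      rw [← hcoe]
      have h5 : FreeGroup.lift (fun a => (x a : K)) w ∈ (FreeGroup.lift (fun a => (x a : K))).range := ⟨w, rfl⟩
      rwa [FreeGroup.range_lift_eq_closure] at h5
    · rw [Subgroup.closure_le]
      rintro _ ⟨a, rfl⟩
      exact (x a).2
  · rw [injective_iff_map_eq_one]
    intro w hw
    simp only [MonoidHom.comp_apply, QuotientGroup.mk'_apply, QuotientGroup.eq_one_iff] at hw
    rw [hcoe] at hw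
    have h1 := (hψ _).2 hw
    have h2 : ψ.rangeRestrict (FreeGroup.lift x w) = 1 := Subtype.ext (by simpa using h1)
    rw [hlift] at h2
    exact (map_eq_one_iff e.symm e.symm.injective).1 h2

end SQ
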