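import Pool.Agent.SQ.Lcd

/-! # Lemma C: sums of `m` tensors which vanish in the coinvariants -/

set_option autoImplicit false
set_option linter.unusedSectionVars false

namespace SQ
open TensorProduct

variable {K : Type} [Group K] {D : Type} [DivisionRing D] [Algebra (ZMod 2) D] [StarRing D]

/-- the map `x ⊗ y ↦ star (c y) x` -/
noncomputable def lam (ρ : K →* Dˣ) (N : Subgroup K) (c : D →ₗ[kk ρ N] kk ρ N) : D ⊗[ZMod 2] D →+ D :=
  TensorProduct.liftAddHom
    { toFun := fun x =>
        { toFun := fun y => star (c y : D) * x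
          map_zero' := by rw [map_zero, ZeroMemClass.coe_zero, star_zero, zero_mul]
          map_add' := fun a b => by rw [map_add, AddMemClass.coe_add, star_add, add_mul] }
      map_zero' := by ext y; simp
      map_add' := fun a b => by ext y; simp [mul_add] }
    (by
      intro r x y
      obtain h | h : r = 0 ∨ r = 1 := by
        revert r
        decide
      · rw [h, zero_smul, zero_smul]; simp
      · rw [h, one_smul, one_smul])

theorem lam_tmul (ρ : K →* Dˣ) (N : Subgroup K) (c : D →ₗ[kk ρ N] kk ρ N) (x y : D) :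
    lam ρ N c (x ⊗ₜ y) = star (c y : D) * x := rfl

theorem lam_CN {ρ : K →* Dˣ} (hρ : ∀ g, star ((ρ g : Dˣ) : D) = ((ρ g⁻¹ : Dˣ) : D)) (N : Subgroup K)
    (c : D →ₗ[kk ρ N] kk ρ N) {t : D ⊗[ZMod 2] D} (ht : t ∈ CN ρ N) : lam ρ N c t = 0 := by
  induction ht using AddSubgroup.closure_induction with
  | mem t h =>
    obtain ⟨n, hn, s, rfl⟩ := h
    rw [map_sub, sub_eq_zero]
    induction s with
    | zero => rw [map_zero]
    | tmul x y =>
      rw [act_tmul, lam_tmul, lam_tmul]
      have h1 : (ρ n : D) * y = (⟨(ρ n : D), mem_kk ρ hn⟩ : kk ρ N) • y := rfl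
      rw [h1, map_smul, smul_eq_mul, MulMemClass.coe_mul, star_mul, hρ, mul_assoc, ← mul_assoc (ρ n⁻¹ : D),
        ← Units.val_mul, ← map_mul, inv_mul_cancel, map_one, Units.val_one, one_mul]
    | add a b ha hb => rw [map_add, map_add, map_add, ha, hb]
  | zero => exact map_zero _
  | add a b _ _ ha hb => rw [map_add, ha, hb, add_zero]
  | neg a _ ha => rw [map_neg, ha, neg_zero]

/-- **Lemma C** -/
theorem lemC {ρ : K →* Dˣ} (hρ : ∀ g, star ((ρ g : Dˣ) : D) = ((ρ g⁻¹ : Dˣ) : D)) (N : Subgroup K) : LemC ρ N := by
  classical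
  intro ι _ ξ η h
  have hs : ∀ d ∈ kk ρ N, star d ∈ kk ρ N := fun d hd => star_mem_kk ρ hρ N hd
  have h0 : ∀ c : D →ₗ[kk ρ N] kk ρ N, ∑ l, star (c (η l) : D) * ξ l = 0 := by
    intro c
    have := lam_CN hρ N c h
    rw [map_sum] at this
    exact this
  set W := Submodule.span (kk ρ N) (Set.range η) with hW
  have hWf : FiniteDimensional (kk ρ N) W := FiniteDimensional.span_of_finite _ (Set.finite_range _)
  let b := Module.finBasis (kk ρ N) W
  -- functionals
  have hc : ∀ j, ∃ c : D →ₗ[kk ρ N] kk ρ N, c ∘ₗ W.subtype = b.coord j := fun j => LinearMap.exists_extend _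
  choose c hc using hc
  have hcw : ∀ j (w : W), c j w = b.coord j w := fun j w => by
    rw [← hc j]
    rfl
  let f : (ι → kk ρ N) →ₗ[kk ρ N] D := Fintype.linearCombination (kk ρ N) ξ
  let v : Fin (Module.finrank (kk ρ N) W) → LinearMap.ker f := fun j =>
    ⟨fun l => ⟨star (c j (η l) : D), hs _ (SetLike.coe_mem _)⟩, by
      rw [LinearMap.mem_ker, Fintype.linearCombination_apply]
      exact h0 (c j)⟩
  have hv : LinearIndependent (kk ρ N) v := by
    rw [Fintype.linearIndependent_iff]
    intro a ha
    let F : W →ₗ[kk ρ N] kk ρ N :=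
      { toFun := fun w => ∑ j, c j w * ⟨star (a j : D), hs _ (SetLike.coe_mem _)⟩
        map_add' := fun w w' => by
          rw [← Finset.sum_add_distrib]
          refine Finset.sum_congr rfl fun j _ => ?_
          rw [Submodule.coe_add, map_add, add_mul]
        map_smul' := fun r w => by
          rw [RingHom.id_apply, Finset.smul_sum]
          refine Finset.sum_congr rfl fun j _ => ?_
          rw [Submodule.coe_smul, map_smul, smul_eq_mul, smul_eq_mul, mul_assoc] }
    have hF : ∀ w, F w = 0 := by
      rintro ⟨w, hw⟩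
      have : ∀ w (hw : w ∈ W), F ⟨w, hw⟩ = 0 := by
        intro w hw
        induction hw using Submodule.span_induction with
        | mem w hw =>
          obtain ⟨l, rfl⟩ := hw
          apply Subtype.ext
          have h1 := congrArg (fun z : LinearMap.ker f => ((z.1 l : kk ρ N) : D)) ha
          simp only [v, AddSubmonoidClass.coe_finsetSum, Finset.sum_apply, Submodule.coe_smul, Pi.smul_apply,
            smul_eq_mul, MulMemClass.coe_mul, ZeroMemClass.coe_zero, Pi.zero_apply] at h1
          have h2 := congrArg star h1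
          rw [star_sum, star_zero] at h2
          show ((∑ j, c j (η l) * (⟨star (a j : D), hs _ (SetLike.coe_mem _)⟩ : kk ρ N) : kk ρ N) : D) = ((0 : kk ρ N) : D)
          rw [ZeroMemClass.coe_zero, ← h2, AddSubmonoidClass.coe_finsetSum]
          refine Finset.sum_congr rfl fun j _ => ?_
          rw [star_mul, star_star]
          rfl
        | zero => exact map_zero F
        | add x y hx hy h1 h2 =>
          have : (⟨x + y, Submodule.add_mem _ hx hy⟩ : W) = ⟨x, hx⟩ + ⟨y, hy⟩ := rfl
          rw [this, map_add, h1, h2, add_zero]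
        | smul r x hx h1 =>
          have : (⟨r • x, Submodule.smul_mem _ r hx⟩ : W) = r • ⟨x, hx⟩ := rfl
          rw [this, map_smul, h1, smul_zero]
      exact this w hw
    intro i
    have h1 := hF (b i)
    have h2 : F (b i) = ⟨star (a i : D), hs _ (SetLike.coe_mem _)⟩ := by
      show ∑ j, c j (b i) * (⟨star (a j : D), hs _ (SetLike.coe_mem _)⟩ : kk ρ N) = _
      rw [Finset.sum_eq_single i]
      · rw [hcw, Module.Basis.coord_apply, Module.Basis.repr_self, Finsupp.single_eq_same, one_mul]
      · intro j _ hj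
        rw [hcw, Module.Basis.coord_apply, Module.Basis.repr_self, Finsupp.single_eq_of_ne hj, zero_mul]
      · intro h; exact absurd (Finset.mem_univ _) h
    rw [h2] at h1
    have h3 := congrArg (fun z : kk ρ N => star (z : D)) h1
    simp only [star_star, ZeroMemClass.coe_zero, star_zero] at h3
    exact Subtype.ext h3
  have h1 := hv.fintype_card_le_finrank
  rw [Fintype.card_fin] at h1
  have h2 := LinearMap.finrank_range_add_finrank_ker f
  have h3 : LinearMap.range f = Submodule.span (kk ρ N) (Set.range ξ) := Fintype.range_linearCombination _ _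
  rw [h3, Module.finrank_pi] at h2
  omega

/-- **the claim** -/
theorem hon : StmtHON := hon_of fun _ _ _ _ _ _ _ hρ N => lemC hρ N

end SQ
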