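import Pool.Agent.SQ.Defs

/-!
# Project MP_984acc_SQ: the statements of the modules
-/

set_option autoImplicit false

open scoped TensorProduct

namespace SQ

open Singer

/-- LEM: the squaring lemma -/
def StmtLEM : Prop :=
  ∀ (H : Type) [Group H], (∀ h : H, h * h = 1 → h = 1) → ∀ (R : FinRes H) (M : Type) [AddCommGroup M]
    [Module (ZMod 2) M] (τ : Representation (ZMod 2) H M) (m : ℕ),
    (∀ j, j ≤ 2 * m → Ex (τ.tprod τ) R j) → Ex τ R m

/-- PD1: Poincare duality for arbitrary coefficients modulo 2 -/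
def StmtPD : Prop :=
  ∀ (H : Type) [Group H] (n : ℕ), IsPD n H → ∀ (R : FinRes H) (Y : Type) [AddCommGroup Y]
    [Module (ZMod 2) Y] (τ : Representation (ZMod 2) H Y),
    (∀ i, i ≤ n → (Ex τ R i ↔ ExH τ R (n - i))) ∧ ∀ j, n < j → ExH τ R j

/-- ACR: an acyclic module has no homology, computed with a resolution -/
def StmtACR : Prop :=
  ∀ (H : Type) [Group H] (R : FinRes H) (Y : Type) [AddCommGroup Y] [Module (ZMod 2) Y]
    (τ : Representation (ZMod 2) H Y), Acy τ → ∀ j, ExH τ R (j + 1)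

/-- DUA: homology and cohomology with coefficients in a skew field with an involution -/
def StmtDUA : Prop :=
  ∀ (H : Type) [Group H] (R : FinRes H) (D : Type) [DivisionRing D] [Algebra (ZMod 2) D] [StarRing D]
    (ρ : H →* Dˣ), (∀ g, star ((ρ g : Dˣ) : D) = ((ρ g⁻¹ : Dˣ) : D)) → ∀ j, Ex (lmul ρ) R j ↔ ExH (lmul ρ) R j

/-- TOW: the diagonal action on `D ⊗ D` is acyclic -/
def StmtTOW : Prop := ∀ (K : Type) [Group K] (T : Tower K), Acy (diag T.rho)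

/-- ALG: the algebraic main theorem -/
def StmtALG : Prop :=
  ∀ (V : Type) [Fintype V] (G : SimpleGraph V) (K : Subgroup (RACG G)), K ≤ commutator (RACG G) →
    ∀ n, IsPD n K → ∃ (D : Type) (_ : DivisionRing D) (_ : Algebra (ZMod 2) D) (_ : StarRing D) (ρ : K →* Dˣ),
      (∀ g, star ((ρ g : Dˣ) : D) = ((ρ g⁻¹ : Dˣ) : D)) ∧
        ∀ (R : FinRes K) (i : ℕ), 2 * i ≠ n → ExH (lmul ρ) R i ∧ Ex (lmul ρ) R i

/-! ### parts of TOW -/

/-- FOR: the forest lemma for a free action of a free group, with weights -/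
def StmtFOR : Prop :=
  ∀ (X Ω : Type) [MulAction (FreeGroup X) Ω], (∀ (w : FreeGroup X) (a : Ω), w • a = a → w = 1) →
    ∀ (X₀ : Finset X) (f : X → Ω → ℕ) (g : Ω → ℕ) (P : Finset Ω), (∀ a, a ∉ P → g a = 0) →
      (∀ x ∈ X₀, ∀ a, f x a ≤ g a ∧ f x a ≤ g (FreeGroup.of x • a)) → (∃ x ∈ X₀, ∃ a, f x a ≠ 0) →
      (∑ x ∈ X₀, ∑ a ∈ P, f x a) + 1 ≤ ∑ a ∈ P, g a

section parts

/-- HON (the claim): `H_1(N'/N; (D ⊗ D)_N) = 0` -/
def StmtHON : Prop :=
  ∀ (K : Type) [Group K] (D : Type) [DivisionRing D] [Algebra (ZMod 2) D] [StarRing D] (ρ : K →* Dˣ),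
    (∀ g, star ((ρ g : Dˣ) : D) = ((ρ g⁻¹ : Dˣ) : D)) → ∀ (N N' : Subgroup K) [N.Normal], Level K D ρ N →
    ∀ (B : FreeQuot K N N') (X₀ : Finset B.X) (y : B.X → D ⊗[ZMod 2] D),
      ∑ x ∈ X₀, (diag ρ (B.x x) (y x) - y x) ∈ coin (diag ρ) N → ∀ x ∈ X₀, y x ∈ coin (diag ρ) N

/-- HIN: the same for summands of induced modules -/
def StmtHIN : Prop :=
  ∀ (K : Type) [Group K] (M : Type) [AddCommGroup M] [Module (ZMod 2) M] (σ : Representation (ZMod 2) K M),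
    Ind σ → ∀ (N N' : Subgroup K) [N.Normal] (B : FreeQuot K N N') (X₀ : Finset B.X) (y : B.X → M),
      ∑ x ∈ X₀, (σ (B.x x) (y x) - y x) ∈ coin σ N → ∀ x ∈ X₀, y x ∈ coin σ N

/-- STP: the step of the tower -/
def StmtSTP : Prop :=
  ∀ (K : Type) [Group K] (Y : Type) [AddCommGroup Y] [Module (ZMod 2) Y] (τ : Representation (ZMod 2) K Y)
    (C : Cx τ) (N N' : Subgroup K) [N.Normal] [N'.Normal], N ≤ N' → ∀ B : FreeQuot K N N',
    (∀ (X₀ : Finset B.X) (y : B.X → Y), ∑ x ∈ X₀, (τ (B.x x) (y x) - y x) ∈ coin τ N → ∀ x ∈ X₀, y x ∈ coin τ N) →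
    (∀ j, ∀ (X₀ : Finset B.X) (y : B.X → C.M j), ∑ x ∈ X₀, (C.σ j (B.x x) (y x) - y x) ∈ coin (C.σ j) N →
      ∀ x ∈ X₀, y x ∈ coin (C.σ j) N) →
    C.CoEx N → C.CoEx N'

end parts

end SQ
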