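import Pool.Agent.SQ.PdMain
import Pool.Agent.SQ.Skel

/-!
# SQ, row PD: Poincare duality modulo two, in the language of `Defs.lean`
-/

set_option autoImplicit false

open scoped Matrix

namespace SQ

open Singer

section bridge
variable {H : Type} [Group H] {Y : Type} [AddCommGroup Y] [Module (ZMod 2) Y] (τ : Representation (ZMod 2) H Y)

/-- the action of the integral group ring -/
noncomputable def phiA : ZG H →+* AddMonoid.End Y :=
  (MonoidAlgebra.lift ℤ (AddMonoid.End Y) H
    { toFun := fun g => (τ g).toAddMonoidHom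
      map_one' := by
        rw [map_one]
        rfl
      map_mul' := fun g h => by
        rw [map_mul]
        rfl }).toRingHom

lemma phiA_single (g : H) (c : ℤ) (y : Y) : phiA τ (MonoidAlgebra.single g c) y = (c : ZMod 2) • τ g y := by
  have h : phiA τ (MonoidAlgebra.single g c) = c • (τ g).toAddMonoidHom := MonoidAlgebra.lift_single _ _ _
  rw [h, Int.cast_smul_eq_zsmul]
  rfl

lemma phiA_add (a b : ZG H) (y : Y) : phiA τ (a + b) y = phiA τ a y + phiA τ b y := by
  rw [map_add]
  rfl

lemma phiA_apply (a : ZG H) (y : Y) : phiA τ a y = ∑ g ∈ a.coeff.support, (a.coeff g : ZMod 2) • τ g y := by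
  show _ = a.coeff.sum fun g c => (c : ZMod 2) • τ g y
  induction a using MonoidAlgebra.induction_linear with
  | zero =>
    rw [map_zero, MonoidAlgebra.coeff_zero, Finsupp.sum_zero_index]
    rfl
  | add a b ha hb =>
    rw [phiA_add, ha, hb, MonoidAlgebra.coeff_add, Finsupp.sum_add_index']
    · intro g
      rw [Int.cast_zero, zero_smul]
    · intro g c c'
      rw [Int.cast_add, add_smul]
  | single g c =>
    rw [phiA_single, MonoidAlgebra.coeff_single, Finsupp.sum_single_index]
    rw [Int.cast_zero, zero_smul]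

lemma phiA_star (a : ZG H) (y : Y) : phiA τ (star' a) y = ∑ g ∈ a.coeff.support, (a.coeff g : ZMod 2) • τ g⁻¹ y := by
  show _ = a.coeff.sum fun g c => (c : ZMod 2) • τ g⁻¹ y
  induction a using MonoidAlgebra.induction_linear with
  | zero =>
    rw [map_zero, map_zero, MonoidAlgebra.coeff_zero, Finsupp.sum_zero_index]
    rfl
  | add a b ha hb =>
    rw [map_add, phiA_add, ha, hb, MonoidAlgebra.coeff_add, Finsupp.sum_add_index']
    · intro g
      rw [Int.cast_zero, zero_smul]
    · intro g c c'
      rw [Int.cast_add, add_smul]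
  | single g c =>
    rw [star'_single, phiA_single, MonoidAlgebra.coeff_single, Finsupp.sum_single_index]
    rw [Int.cast_zero, zero_smul]

/-- Poincare duality for arbitrary coefficients modulo 2 -/
theorem pd_iff (n : ℕ) (hPD : IsPD n H) (R : FinRes H) :
    (∀ i, i ≤ n → (Ex τ R i ↔ ExH τ R (n - i))) ∧ (∀ i, n < i → Ex τ R i) ∧ ∀ j, n < j → ExH τ R j := by
  let _ : Module (ZG H) Y := Module.compHom Y (phiA τ)
  have hs : ∀ (a : ZG H) (y : Y), a • y = phiA τ a y := fun _ _ => rfl
  have h2 : ∀ x : Y, x + x = 0 := by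
    intro x
    have h : (2 : ZMod 2) • x = 0 := by
      rw [show (2 : ZMod 2) = 0 from rfl, zero_smul]
    rwa [two_smul] at h
  obtain ⟨h3, h4, h5⟩ := pdm hPD R (N := Y) h2
  have hc : ∀ i (y : R.ι i → Y), mact (R.d i) y = cobd τ (R.d i) y := by
    intro i y
    funext k
    exact Finset.sum_congr rfl fun l _ => by rw [hs, phiA_apply]
  have hb : ∀ i (y : R.ι (i + 1) → Y),
      mact (fun l k => star' (R.d i k l) : Matrix (R.ι i) (R.ι (i + 1)) (ZG H)) y = bdry τ (R.d i) y := by
    intro i y
    funext k
    exact Finset.sum_congr rfl fun l _ => by rw [hs, phiA_star]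
  have hCo : ∀ i, CoVan R Y i ↔ Ex τ R i := by
    intro i
    cases i with
    | zero =>
      rw [coVan_zero]
      constructor
      · intro h f hf
        refine h f fun k => ?_
        have h1 := hc 0 f
        rw [hf] at h1
        exact congrFun h1 k
      · intro h f hf
        refine h f ?_
        rw [← hc]
        exact funext hf
    | succ i =>
      constructor
      · intro h f hf
        obtain ⟨e, he⟩ := h f (by rw [hc, hf])
        exact ⟨e, by rw [← hc]; exact he⟩
      · intro h f hf
        obtain ⟨e, he⟩ := h f (by rw [← hc]; exact hf)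
        exact ⟨e, (hc i e).trans he⟩
  have hHo : ∀ j, HoVan R Y j ↔ ExH τ R j := by
    intro j
    cases j with
    | zero =>
      constructor
      · intro h x
        obtain ⟨e, he⟩ := h x
        exact ⟨e, by rw [← hb, he]⟩
      · intro h x
        obtain ⟨e, he⟩ := h x
        exact ⟨e, by rw [hb, he]⟩
    | succ j =>
      constructor
      · intro h x hx
        rw [← hb] at hx
        obtain ⟨e, he⟩ := h x hx
        exact ⟨e, by rw [← hb, he]⟩
      · intro h x hx
        rw [hb] at hx
        obtain ⟨e, he⟩ := h x hx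
        exact ⟨e, by rw [hb, he]⟩
  refine ⟨fun i hi => ?_, fun i hi => (hCo i).1 (h4 i hi), fun i hi => (hHo i).1 (h5 i hi)⟩
  rw [← hCo, ← hHo]
  exact h3 i hi

/-- the direction that is needed -/
theorem pd (n : ℕ) (hPD : IsPD n H) (R : FinRes H) :
    (∀ i, i ≤ n → ExH τ R (n - i) → Ex τ R i) ∧ ∀ i, n < i → Ex τ R i :=
  ⟨fun i hi => ((pd_iff τ n hPD R).1 i hi).2, (pd_iff τ n hPD R).2.1⟩

end bridge

/-- row PD -/
theorem pd_stmt : StmtPD := fun _ _ n hn R _ _ _ τ => ⟨(pd_iff τ n hn R).1, (pd_iff τ n hn R).2.2⟩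

end SQ
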