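import Pool.Agent.SQ.Ring

/-!
# SQ: restriction of a tower to a subgroup

`Tower.res T f`: the tower of a group `H` with an injective homomorphism `f : H →* K`, with the same skew field.
-/

set_option autoImplicit false
set_option linter.unusedSectionVars false
set_option linter.unusedVariables false

namespace SQ

open Singer

section level
variable {K : Type} [Group K] {D : Type} [DivisionRing D] {rho : K →* Dˣ} {N : Subgroup K} {H : Type} [Group H]

/-- restriction of the value data -/
def Level.res (L : Level K D rho N) (f : H →* K) : Level H D (rho.comp f) (N.comap f) where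
  Om := L.Om
  lo := L.lo
  act := MulAction.compHom L.Om f
  mono g a b hab := L.mono (f g) a b hab
  free g a h := L.free (f g) a h
  v := L.v
  v_add := L.v_add
  v_act g x hx := L.v_act (f g) x hx
  v_sub c hc h0 x hx := by
    refine L.v_sub c (Subfield.closure_mono ?_ hc) h0 x hx
    rintro _ ⟨g, hg, rfl⟩
    exact ⟨f g, hg, rfl⟩

end level

section free
variable {K : Type} [Group K] {N N' : Subgroup K} [N.Normal]

theorem FreeQuot.exists_hom (F : FreeQuot K N N') :
    ∃ (C : Type) (ψ : N' →* FreeGroup C), ∀ g : N', ψ g = 1 ↔ (g : K) ∈ N := by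
  let L : FreeGroup F.X →* K ⧸ N := (QuotientGroup.mk' N).comp (FreeGroup.lift F.x)
  have hL : Function.Injective L := F.inj
  have hr : ∀ g : N', QuotientGroup.mk' N (g : K) ∈ L.range := by
    intro g
    have h1 : (N ⊔ Subgroup.closure (Set.range F.x)).map (QuotientGroup.mk' N) ≤ L.range := by
      rw [Subgroup.map_sup, sup_le_iff]
      constructor
      · rintro _ ⟨a, ha, rfl⟩
        rw [show QuotientGroup.mk' N a = 1 from (QuotientGroup.eq_one_iff a).2 ha]
        exact L.range.one_mem
      · rw [MonoidHom.map_closure, Subgroup.closure_le]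
        rintro _ ⟨_, ⟨a, rfl⟩, rfl⟩
        exact ⟨FreeGroup.of a, by
          show QuotientGroup.mk' N (FreeGroup.lift F.x (FreeGroup.of a)) = _
          rw [FreeGroup.lift_apply_of]⟩
    have h2 : (g : K) ∈ N ⊔ Subgroup.closure (Set.range F.x) := by
      rw [← F.gen]
      exact g.2
    exact h1 ⟨g, h2, rfl⟩
  let ψ1 : N' →* L.range := ((QuotientGroup.mk' N).comp N'.subtype).codRestrict L.range hr
  refine ⟨F.X, ((MonoidHom.ofInjective hL).symm : L.range →* FreeGroup F.X).comp ψ1, fun g => ?_⟩
  rw [MonoidHom.comp_apply]
  constructor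
  · intro h
    have h1 : ψ1 g = 1 := (MonoidHom.ofInjective hL).symm.injective (by
      rw [map_one]
      exact h)
    have h2 : QuotientGroup.mk' N (g : K) = 1 := congrArg Subtype.val h1
    exact (QuotientGroup.eq_one_iff (g : K)).1 h2
  · intro h
    have h1 : ψ1 g = 1 := Subtype.ext ((QuotientGroup.eq_one_iff (g : K)).2 h)
    rw [h1]
    exact map_one _

end free

/-- restriction of a tower -/
noncomputable def Tower.res (hfree : S_free) {K : Type} [Group K] (T : Tower K) {H : Type} [Group H] (f : H →* K)
    (hf : Function.Injective f) : Tower H where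
  D := T.D
  rho := T.rho.comp f
  star_rho g := by
    rw [MonoidHom.comp_apply, MonoidHom.comp_apply, map_inv f]
    exact T.star_rho (f g)
  h := T.h
  N i := (T.N i).comap f
  N_zero := by
    rw [T.N_zero]
    exact (MonoidHom.ker_eq_bot_iff f).2 hf
  N_top := by
    rw [T.N_top, Subgroup.comap_top]
  N_le i := Subgroup.comap_mono (T.N_le i)
  level i hi := (T.level i hi).res f
  freeq i hi := by
    have h : Nonempty (FreeQuot H ((T.N i).comap f) ((T.N (i + 1)).comap f)) := by
      obtain ⟨C, ψ, hψ⟩ := (T.freeq i hi).exists_hom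
      let r : (T.N (i + 1)).comap f →* T.N (i + 1) :=
        (f.comp ((T.N (i + 1)).comap f).subtype).codRestrict (T.N (i + 1)) fun g => g.2
      refine hfree H _ _ C (ψ.comp r) (Subgroup.comap_mono (T.N_le i)) fun g => ?_
      rw [MonoidHom.comp_apply, hψ]
      rfl
    exact h.some

end SQ
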