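import Pool.Agent.SQ.Skel
import Pool.Agent.Helper50.SQ.Tower

/-!
# Project MP_984acc_SQ, row ACY: `StmtHIN`, `StmtSTP`, `StmtTOW`
-/

set_option autoImplicit false

open scoped TensorProduct

namespace SQ

section glue

variable {K : Type} [Group K] {M : Type} [AddCommGroup M] [Module (ZMod 2) M]

/-- the underlying additive action -/
def toEnd (σ : Representation (ZMod 2) K M) : K →* AddMonoid.End M where
  toFun g := (σ g).toAddMonoidHom
  map_one' := by
    ext m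
    rw [map_one]
    rfl
  map_mul' g h := by
    ext m
    rw [map_mul]
    rfl

theorem toEnd_apply (σ : Representation (ZMod 2) K M) (g : K) (m : M) : toEnd σ g m = σ g m := rfl

theorem mem_coin_iff (σ : Representation (ZMod 2) K M) (N : Subgroup K) (m : M) :
    m ∈ coin σ N ↔ m ∈ Tw.CC (toEnd σ) N := by
  constructor
  · intro h
    have h1 : coin σ N ≤ AddSubgroup.toZModSubmodule 2 (Tw.CC (toEnd σ) N) := by
      rw [coin, Submodule.span_le]
      rintro m ⟨n, hn, x, rfl⟩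
      exact Tw.sub_mem_CC (toEnd σ) hn x
    exact h1 h
  · intro h
    have h1 : Tw.CC (toEnd σ) N ≤ (coin σ N).toAddSubgroup := by
      rw [Tw.CC, AddSubgroup.closure_le]
      rintro m ⟨n, hn, x, rfl⟩
      exact Submodule.subset_span ⟨n, hn, x, rfl⟩
    exact h1 h

theorem Ind.relProj {σ : Representation (ZMod 2) K M} (h : Ind σ) : Tw.RelProj (toEnd σ) := by
  obtain ⟨Z, _, _, i, p, h1, h2, h3⟩ := h
  exact ⟨Z, _, i.toAddMonoidHom, p.toAddMonoidHom, fun g m => h2 g m, fun g f => h3 g f, h1⟩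

theorem FreeQuot.inj' {N N' : Subgroup K} [N.Normal] (B : FreeQuot K N N') :
    Function.Injective (FreeGroup.lift fun s => (QuotientGroup.mk (B.x s) : K ⧸ N)) := by
  have h : (FreeGroup.lift fun s => (QuotientGroup.mk (B.x s) : K ⧸ N)) =
      (QuotientGroup.mk' N).comp (FreeGroup.lift B.x) := by
    ext s
    simp
  rw [h]
  exact B.inj

/-- `H_1` in the additive form -/
theorem h1v_iff (σ : Representation (ZMod 2) K M) (N : Subgroup K) {X : Type} (x : X → K) :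
    Tw.H1V (toEnd σ) N x ↔ ∀ (X₀ : Finset X) (y : X → M), ∑ s ∈ X₀, (σ (x s) (y s) - y s) ∈ coin σ N →
      ∀ s ∈ X₀, y s ∈ coin σ N := by
  simp only [mem_coin_iff]
  rfl

end glue

/-- HIN -/
theorem hin : StmtHIN := by
  intro K _ M _ _ σ hσ N N' _ B
  exact (h1v_iff σ N B.x).1 (hσ.relProj.h1v N B.x B.inj')

/-- STP -/
theorem stp : StmtSTP := by
  intro K _ Y _ _ τ C N N' _ _ _ B hY hM hC
  have hY' := (h1v_iff τ N B.x).2 hY
  have hM' := fun j => (h1v_iff (C.σ j) N B.x).2 (hM j)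
  have hgen := B.gen
  have c0 : ∀ m, C.e m ∈ Tw.CC (toEnd τ) N → ∃ f, m - C.d 0 f ∈ Tw.CC (toEnd (C.σ 0)) N := by
    intro m hm
    obtain ⟨f, hf⟩ := hC.zero m ((mem_coin_iff τ N _).2 hm)
    exact ⟨f, (mem_coin_iff _ N _).1 hf⟩
  have cs : ∀ j m, C.d j m ∈ Tw.CC (toEnd (C.σ j)) N → ∃ f, m - C.d (j + 1) f ∈ Tw.CC (toEnd (C.σ (j + 1))) N := by
    intro j m hm
    obtain ⟨f, hf⟩ := hC.succ j m ((mem_coin_iff _ N _).2 hm)
    exact ⟨f, (mem_coin_iff _ N _).1 hf⟩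
  have r0 : ∀ m, C.e m ∈ Tw.CC (toEnd τ) N' → ∃ f, m - C.d 0 f ∈ Tw.CC (toEnd (C.σ 0)) N' := by
    rw [hgen]
    refine Tw.chase (toEnd (C.σ 0)) (toEnd τ) (1 : K →* AddMonoid.End PUnit) (C.d 0).toAddMonoidHom
      C.e.toAddMonoidHom 0 C.e_act (fun _ _ => rfl) (fun _ => rfl) N B.x ?_ ?_ c0
    · intro S p _ s _
      exact zero_mem _
    · intro y _
      obtain ⟨f, rfl⟩ := C.surj y
      exact ⟨f, by
        rw [LinearMap.toAddMonoidHom_coe, sub_self]
        exact zero_mem _⟩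
  have rs : ∀ j m, C.d j m ∈ Tw.CC (toEnd (C.σ j)) N' → ∃ f, m - C.d (j + 1) f ∈ Tw.CC (toEnd (C.σ (j + 1))) N' := by
    intro j
    rw [hgen]
    cases j with
    | zero =>
      exact Tw.chase (toEnd (C.σ 1)) (toEnd (C.σ 0)) (toEnd τ) (C.d 1).toAddMonoidHom (C.d 0).toAddMonoidHom
        C.e.toAddMonoidHom (C.d_act 0) C.e_act (fun m => (C.ex0 _).2 ⟨m, rfl⟩) N B.x hY' c0 (cs 0)
    | succ j =>
      exact Tw.chase (toEnd (C.σ (j + 2))) (toEnd (C.σ (j + 1))) (toEnd (C.σ j)) (C.d (j + 2)).toAddMonoidHom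
        (C.d (j + 1)).toAddMonoidHom (C.d j).toAddMonoidHom (C.d_act (j + 1)) (C.d_act j)
        (fun m => (C.ex j _).2 ⟨m, rfl⟩) N B.x (hM' j) (cs j) (cs (j + 1))
  refine ⟨fun m hm => ?_, fun j m hm => ?_⟩
  · obtain ⟨f, hf⟩ := r0 m ((mem_coin_iff τ N' _).1 hm)
    exact ⟨f, (mem_coin_iff _ N' _).2 hf⟩
  · obtain ⟨f, hf⟩ := rs j m ((mem_coin_iff _ N' _).1 hm)
    exact ⟨f, (mem_coin_iff _ N' _).2 hf⟩

theorem coin_bot {K : Type} [Group K] {M : Type} [AddCommGroup M] [Module (ZMod 2) M]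
    (σ : Representation (ZMod 2) K M) (m : M) : m ∈ coin σ (⊥ : Subgroup K) ↔ m = 0 := by
  rw [mem_coin_iff, Tw.CC_bot, AddSubgroup.mem_bot]

/-- TOW, for any representation -/
theorem acy_of_tower {K : Type} [Group K] {Y : Type} [AddCommGroup Y] [Module (ZMod 2) Y]
    (τ : Representation (ZMod 2) K Y) (h : ℕ) (N : ℕ → Subgroup K) [∀ i, (N i).Normal] (h0 : N 0 = ⊥)
    (hh : N h = ⊤) (hle : ∀ i, N i ≤ N (i + 1)) (B : ∀ i, i < h → FreeQuot K (N i) (N (i + 1)))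
    (hY : ∀ i (hi : i < h) (X₀ : Finset (B i hi).X) (y : (B i hi).X → Y),
      ∑ x ∈ X₀, (τ ((B i hi).x x) (y x) - y x) ∈ coin τ (N i) → ∀ x ∈ X₀, y x ∈ coin τ (N i)) : Acy τ := by
  intro C
  have key : ∀ i ≤ h, C.CoEx (N i) := by
    intro i hi
    induction i with
    | zero =>
      rw [h0]
      refine ⟨fun x hx => ?_, fun j x hx => ?_⟩
      · rw [coin_bot] at hx
        obtain ⟨y, hy⟩ := (C.ex0 x).1 hx
        exact ⟨y, by rw [coin_bot, hy, sub_self]⟩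
      · rw [coin_bot] at hx
        obtain ⟨y, hy⟩ := (C.ex j x).1 hx
        exact ⟨y, by rw [coin_bot, hy, sub_self]⟩
    | succ i ih =>
      have hi' : i < h := by omega
      exact stp K Y τ C (N i) (N (i + 1)) (hle i) (B i hi') (hY i hi')
        (fun j => hin K (C.M j) (C.σ j) (C.ind j) (N i) (N (i + 1)) (B i hi')) (ih (by omega))
  have := key h le_rfl
  rwa [hh] at this

/-- TOW -/
theorem tow (hon : StmtHON) : StmtTOW := by
  intro K _ T
  exact acy_of_tower (diag T.rho) T.h T.N T.N_zero T.N_top T.N_le T.freeq fun i hi =>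
    hon K T.D T.rho T.star_rho (T.N i) (T.N (i + 1)) (T.level i hi) (T.freeq i hi)

end SQ
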