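import Pool.Agent.SQ.Skel
import Pool.Agent.SQ.Res
import Pool.Agent.SQ.Dua
import Pool.Agent.SQ.Pd
import Pool.Agent.SQ.Acr
import Pool.Agent.SQ.Tow
import Pool.Agent.SQ.LemC
import Pool.Agent.SQ.Free
import Pool.Agent.Helper18.SQ.Close
import Pool.Agent.Helper42.SQ.PDDown
import Pool.Agent.Helper42.SQ.ResDown

/-!
# SQ: the vanishing of the `ℓ²`-homology of the groups which embed in the commutator subgroup of a right-angled Coxeter
group, from the modules of the project
-/

set_option autoImplicit false
set_option linter.unusedSectionVars false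
set_option linter.unusedVariables false

open scoped TensorProduct

namespace SQ

open Singer Pool.Agent.Helper18.SQ

namespace FinSt

section
variable {H : Type} [Group H] {D : Type} [DivisionRing D] [Algebra (ZMod 2) D]

theorem coV_of_ex (ρ : H →* Dˣ) (R : FinRes H) (i : ℕ) (h : Ex (lmul ρ) R i) :
    CoV R (fun x => lm (((ρ x : Dˣ) : D))) i := by
  have key : ∀ {κ ι : Type} [Fintype ι] (P : Matrix κ ι (MonoidAlgebra ℤ H)) (y : ι → D),
      Pool.Agent.Helper18.SQ.cobd (fun x => lm (((ρ x : Dˣ) : D))) P y = _root_.SQ.cobd (lmul ρ) P y := by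
    intro κ ι _ P y
    funext k
    rw [Pool.Agent.Helper18.SQ.cobd_apply]
    show _ = ∑ b, ∑ g ∈ (P k b).coeff.support, ((P k b).coeff g : ZMod 2) • (((ρ g : Dˣ) : D) * y b)
    refine Finset.sum_congr rfl fun b _ => Finset.sum_congr rfl fun g _ => ?_
    rw [Int.cast_smul_eq_zsmul, lm_apply]
  cases i with
  | zero =>
    intro y hy
    exact h y ((key _ y).symm.trans hy)
  | succ i =>
    intro y hy
    obtain ⟨z, hz⟩ := h y ((key _ y).symm.trans hy)
    exact ⟨z, (key _ z).trans hz⟩

end

/-- in the abelianization and in `(ℤ/2)^V` the elements are given by the same set of generators -/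
theorem exists_set {V : Type} [Finite V] (G : SimpleGraph V) (g : RACG G) : ∃ S : Finset V,
    (Abelianization.of g : Abelianization (RACG G)) = ∏ v ∈ S, Abelianization.of (Racg.gen G v) ∧
      ∀ v, ab2 G g v = Multiplicative.ofAdd 1 ↔ v ∈ S := by
  classical
  have h01 : (1 : Multiplicative (ZMod 2)) ≠ Multiplicative.ofAdd 1 := by decide
  have hgen : ∀ v w, ab2 G (Racg.gen G v) w = if w = v then Multiplicative.ofAdd 1 else 1 := by
    intro v w
    rw [ab2, Racg.lift_gen]
  induction g using Racg.induction with
  | h1 =>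
    refine ⟨∅, by rw [map_one, Finset.prod_empty], fun v => ?_⟩
    rw [map_one, Pi.one_apply]
    simp only [Finset.notMem_empty, iff_false]
    exact h01
  | hm v w ih =>
    obtain ⟨S, h1, h2⟩ := ih
    have hsq : (Abelianization.of (Racg.gen G v) : Abelianization (RACG G)) * Abelianization.of (Racg.gen G v) = 1 := by
      rw [← map_mul, Racg.gen_mul_gen, map_one]
    by_cases hv : v ∈ S
    · refine ⟨S.erase v, ?_, fun u => ?_⟩
      · rw [map_mul, h1, ← Finset.mul_prod_erase S _ hv, ← mul_assoc, hsq, one_mul]
      · rw [map_mul, Pi.mul_apply, hgen, Finset.mem_erase]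
        by_cases hu : u = v
        · subst hu
          rw [if_pos rfl, (h2 u).2 hv]
          simp only [ne_eq, not_true_eq_false, false_and, iff_false]
          decide
        · rw [if_neg hu, one_mul, h2]
          exact ⟨fun h => ⟨hu, h⟩, fun h => h.2⟩
    · refine ⟨insert v S, ?_, fun u => ?_⟩
      · rw [map_mul, h1, Finset.prod_insert hv]
      · rw [map_mul, Pi.mul_apply, hgen, Finset.mem_insert]
        by_cases hu : u = v
        · subst hu
          have h3 : ab2 G w u = 1 := by
            have h4 := mt (h2 u).1 hv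
            revert h4
            generalize ab2 G w u = z
            revert z
            decide
          rw [if_pos rfl, h3, mul_one]
          simp
        · rw [if_neg hu, one_mul, h2]
          exact ⟨fun h => Or.inr h, fun h => h.resolve_left hu⟩

theorem ker2_le_commutator {V : Type} [Finite V] (G : SimpleGraph V) : ker2 G ≤ commutator (RACG G) := by
  classical
  intro g hg
  obtain ⟨S, h1, h2⟩ := exists_set G g
  have h3 : ab2 G g = 1 := hg
  have h4 : S = ∅ := by
    rw [Finset.eq_empty_iff_forall_notMem]
    intro v hv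
    have h5 := (h2 v).2 hv
    rw [h3, Pi.one_apply] at h5
    exact absurd h5 (by decide)
  rw [h4, Finset.prod_empty] at h1
  exact (QuotientGroup.eq_one_iff g).1 h1

/-- the commutator subgroup lies in the kernel of the homomorphism to `(ℤ/2)^V` -/
theorem commutator_le {V : Type} (G : SimpleGraph V) : commutator (RACG G) ≤ ker2 G := by
  intro x hx
  have h2 : commutator (RACG G) ≤ (ab2 G).ker := Abelianization.commutator_subset_ker _
  exact h2 hx

/-- no involutions -/
theorem noInv_comm {V : Type} [Finite V] {G : SimpleGraph V} (h : commutator (RACG G)) (hh : h * h = 1) : h = 1 := by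
  have h1 := noInv_ker2 G (h : RACG G) (commutator_le G h.2) (by
    rw [← Subgroup.coe_mul, hh, Subgroup.coe_one])
  exact Subtype.ext h1

/-- the vanishing theorem for a group with a tower -/
theorem vanish (hLEM : StmtLEM) {K : Type} [Group K] (hinv : ∀ h : K, h * h = 1 → h = 1) (T : Tower K) {n : ℕ}
    (hn : IsPD n K) (R : FinRes K) (i : ℕ) (hi : 2 * i ≠ n) : Ex (lmul T.rho) R i := by
  have h1 : ∀ j, ExH (diag T.rho) R (j + 1) := acr K R _ _ (tow hon K T)
  have h2 : ∀ j, j < n → Ex (diag T.rho) R j := by
    intro j hj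
    refine (pd (τ := diag T.rho) n hn R).1 j hj.le ?_
    obtain ⟨k, hk⟩ : ∃ k, n - j = k + 1 := ⟨n - j - 1, by omega⟩
    rw [hk]
    exact h1 k
  have h3 : ∀ m, 2 * m < n → Ex (lmul T.rho) R m := fun m hm =>
    hLEM K hinv R _ (lmul T.rho) m fun j hj => h2 j (by omega)
  rcases lt_or_gt_of_ne hi with h | h
  · exact h3 i h
  · by_cases hin : i ≤ n
    · exact (pd (τ := lmul T.rho) n hn R).1 i hin
        ((dua K R T.D T.rho T.star_rho (n - i)).1 (h3 (n - i) (by omega)))
    · exact (pd (τ := lmul T.rho) n hn R).2 i (by omega)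

theorem finiteIndex_commutator {V : Type} [Finite V] (G : SimpleGraph V) : (commutator (RACG G)).FiniteIndex := by
  have : (ker2 G).FiniteIndex := finiteIndex_ker2 G
  exact Subgroup.finiteIndex_of_le (ker2_le_commutator G)

end FinSt

open FinSt in
/-- the vanishing for the groups which embed in the commutator subgroup of a right-angled Coxeter group -/
theorem vanE_of_rows (hLEM : StmtLEM) (hT : S_tower) {V : Type} [Finite V] (G : SimpleGraph V) {Γ : Type} [Group Γ]
    (f : Γ →* commutator (RACG G)) (hf : Function.Injective f) {n : ℕ} (hn : IsPD n Γ) (R : FinRes Γ) (i : ℕ)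
    (hi : 2 * i ≠ n) : R.VanE i := by
  classical
  have : Fintype V := Fintype.ofFinite V
  have hfi : (commutator (RACG G)).FiniteIndex := finiteIndex_commutator G
  have hnor : (commutator (RACG G)).Normal := inferInstance
  obtain ⟨T⟩ := hT V G (commutator (RACG G)) le_rfl
  have h2 : ∀ x : T.D, x + x = 0 := fun x => ZModModule.add_self x
  have hinv : ∀ h : Γ, h * h = 1 → h = 1 := by
    intro h hh
    have h3 : f h * f h = 1 := by rw [← map_mul, hh, map_one]
    exact hf ((noInv_comm (f h) h3).trans (map_one f).symm)
  refine van_of_conj G ((commutator (RACG G)).subtype.comp f) (Subtype.val_injective.comp hf) (commutator (RACG G))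
    (fun x => (f x).2) h2 ((Units.coeHom T.D).comp T.rho) R i fun w => ?_
  let fw : Γ →* commutator (RACG G) :=
    { toFun := fun x => ⟨w⁻¹ * (f x : RACG G) * w, conj_mem' (commutator (RACG G)) (f x).2⟩
      map_one' := Subtype.ext (by
        show w⁻¹ * ((f 1 : commutator (RACG G)) : RACG G) * w = 1
        rw [map_one, Subgroup.coe_one, mul_one, inv_mul_cancel])
      map_mul' := fun x y => Subtype.ext (by
        show w⁻¹ * ((f (x * y) : commutator (RACG G)) : RACG G) * w =
          w⁻¹ * (f x : RACG G) * w * (w⁻¹ * (f y : RACG G) * w)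
        rw [map_mul, Subgroup.coe_mul]
        group) }
  have hfw : Function.Injective fw := by
    intro x y hxy
    have h3 : w⁻¹ * (f x : RACG G) * w = w⁻¹ * (f y : RACG G) * w := congrArg Subtype.val hxy
    have h4 : (f x : RACG G) = f y := mul_left_cancel (mul_right_cancel h3)
    exact hf (Subtype.ext h4)
  have h5 := vanish hLEM hinv (T.res s_free fw hfw) hn R i hi
  exact coV_of_ex (T.rho.comp fw) R i h5

/-- the vanishing for the groups with a subgroup of finite index which embeds in a right-angled Coxeter group -/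
theorem vanE_virtual (hLEM : StmtLEM) (hT : S_tower) {V : Type} [Finite V] (G : SimpleGraph V) {Γ : Type} [Group Γ]
    (H : Subgroup Γ) [hH : H.FiniteIndex] (φ : H →* RACG G) (hφ : Function.Injective φ) {n : ℕ} (hPD : IsPD n H)
    (R : FinRes Γ) (i : ℕ) (hi : 2 * i ≠ n) : R.VanE i := by
  let K : Subgroup H := (commutator (RACG G)).comap φ
  have hfi : (commutator (RACG G)).FiniteIndex := FinSt.finiteIndex_commutator G
  have hK : K.FiniteIndex := ⟨by
    rw [Subgroup.index_comap, Subgroup.relIndex]
    exact Subgroup.FiniteIndex.index_ne_zero⟩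
  refine FinRes.vanE_of_index H (fun R' => ?_) R
  refine FinRes.vanE_of_index K (fun R'' => ?_) R'
  let f : K →* commutator (RACG G) := (φ.comp K.subtype).codRestrict (commutator (RACG G)) fun x => x.2
  refine vanE_of_rows hLEM hT G f (fun x y hxy => ?_) (hPD.of_finiteIndex K) R'' i hi
  have h1 : φ (x : H) = φ (y : H) := congrArg Subtype.val hxy
  exact Subtype.ext (hφ h1)

end SQ
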