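import Pool.Agent.SQ.BC
import Pool.Agent.SQ.Acr

/-!
# SQ: exactness of the complex `BC.ofRes R`, in the language of chains (part of row ROW)
-/

set_option autoImplicit false

open scoped Matrix

namespace SQ

open Singer Acr

namespace RowEx
variable {H : Type} [Group H] (R : FinRes H)

/-- rows as chains -/
noncomputable def em (p : ℕ) : (R.ι p → MonoidAlgebra (ZMod 2) H) →ₗ[ZMod 2] (BC.Cell R →₀ ZMod 2) where
  toFun x := ∑ a, (x a).coeff.mapDomain (fun g => (⟨p, (g, a)⟩ : BC.Cell R))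
  map_add' x y := by
    rw [← Finset.sum_add_distrib]
    refine Finset.sum_congr rfl fun a _ => ?_
    rw [Pi.add_apply, MonoidAlgebra.coeff_add, Finsupp.mapDomain_add]
  map_smul' c x := by
    rw [RingHom.id_apply, Finset.smul_sum]
    refine Finset.sum_congr rfl fun a _ => ?_
    rw [Pi.smul_apply, MonoidAlgebra.coeff_smul, Finsupp.mapDomain_smul]

lemma em_def (p : ℕ) (x : R.ι p → MonoidAlgebra (ZMod 2) H) :
    em R p x = ∑ a, (x a).coeff.mapDomain (fun g => (⟨p, (g, a)⟩ : BC.Cell R)) := rfl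

lemma cell_inj {p : ℕ} {g g' : H} {a a' : R.ι p} (h : (⟨p, (g, a)⟩ : BC.Cell R) = ⟨p, (g', a')⟩) :
    g = g' ∧ a = a' := by
  have h1 : (g, a) = (g', a') := by simpa using h
  exact ⟨congrArg Prod.fst h1, congrArg Prod.snd h1⟩

lemma em_apply (p : ℕ) (x : R.ι p → MonoidAlgebra (ZMod 2) H) (g : H) (a : R.ι p) :
    em R p x ⟨p, (g, a)⟩ = (x a).coeff g := by
  rw [em_def, Finsupp.finsetSum_apply, Finset.sum_eq_single a]
  · exact Finsupp.mapDomain_apply (fun g g' h => (cell_inj R h).1) _ _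
  · intro b _ hb
    refine Finsupp.mapDomain_of_notMem_range _ _ ?_
    rintro ⟨g', hg'⟩
    exact hb (cell_inj R hg').2
  · intro h
    exact absurd (Finset.mem_univ a) h

lemma em_apply_ne {p : ℕ} (x : R.ι p → MonoidAlgebra (ZMod 2) H) {b : BC.Cell R} (hb : b.1 ≠ p) :
    em R p x b = 0 := by
  rw [em_def, Finsupp.finsetSum_apply]
  refine Finset.sum_eq_zero fun a _ => Finsupp.mapDomain_of_notMem_range _ _ ?_
  rintro ⟨g', hg'⟩
  exact hb (by rw [← hg'])

lemma em_supp {p : ℕ} (x : R.ι p → MonoidAlgebra (ZMod 2) H) (b : BC.Cell R) (hb : em R p x b ≠ 0) : b.1 = p := by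
  by_contra h
  exact hb (em_apply_ne R x h)

lemma em_inj {p : ℕ} {x y : R.ι p → MonoidAlgebra (ZMod 2) H} (h : em R p x = em R p y) : x = y := by
  funext a
  ext g
  rw [← em_apply, ← em_apply, h]

/-- chains as rows -/
noncomputable def ex (p : ℕ) (f : BC.Cell R →₀ ZMod 2) (a : R.ι p) : MonoidAlgebra (ZMod 2) H :=
  MonoidAlgebra.ofCoeff (f.comapDomain (fun g => (⟨p, (g, a)⟩ : BC.Cell R))
    (fun _ _ _ _ h => (cell_inj R h).1))

lemma em_ex {p : ℕ} {f : BC.Cell R →₀ ZMod 2} (hf : ∀ b, f b ≠ 0 → b.1 = p) : em R p (ex R p f) = f := by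
  ext b
  by_cases hb : b.1 = p
  · rcases b with ⟨q, g, a⟩
    subst hb
    rw [em_apply]
    rfl
  · rw [em_apply_ne R _ hb]
    by_contra h
    exact hb (hf b (Ne.symm h))

lemma em_bas (p : ℕ) [DecidableEq (R.ι p)] (a : R.ι p) (h : H) :
    em R p (bas a h) = Finsupp.single (⟨p, (h, a)⟩ : BC.Cell R) 1 := by
  rw [em_def, Finset.sum_eq_single a]
  · rw [bas, Pi.single_eq_same, MonoidAlgebra.coeff_single, Finsupp.mapDomain_single]
  · intro b _ hb
    rw [bas, Pi.single_eq_of_ne hb, MonoidAlgebra.coeff_zero, Finsupp.mapDomain_zero]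
  · intro h
    exact absurd (Finset.mem_univ a) h

lemma lf_eq (p : ℕ) (b : R.ι p) (h : H) (z : MonoidAlgebra ℤ H) :
    BC.lf R p b h z = (MonoidAlgebra.single h 1 * red H z).coeff.mapDomain (fun g => (⟨p, (g, b)⟩ : BC.Cell R)) := by
  induction z using MonoidAlgebra.induction_linear with
  | zero => rw [BC.lf_zero, map_zero, mul_zero, MonoidAlgebra.coeff_zero, Finsupp.mapDomain_zero]
  | add z z' h1 h2 => rw [BC.lf_add, h1, h2, map_add, mul_add, MonoidAlgebra.coeff_add, Finsupp.mapDomain_add]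
  | single k s =>
    have h1 : red H (MonoidAlgebra.single k s) = MonoidAlgebra.single k (s : ZMod 2) := by
      simp [red]
    rw [BC.lf_single, h1, MonoidAlgebra.single_mul_single, one_mul, MonoidAlgebra.coeff_single,
      Finsupp.mapDomain_single, Finsupp.smul_single, smul_eq_mul, mul_one]

theorem bdl_em (p : ℕ) (x : R.ι (p + 1) → MonoidAlgebra (ZMod 2) H) :
    BC.bdl R (em R (p + 1) x) = em R p (dd (R.d p) x) := by
  classical
  refine ind_bas (p := fun x => BC.bdl R (em R (p + 1) x) = em R p (dd (R.d p) x)) ?_ ?_ ?_ x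
  · simp only [map_zero]
  · intro x y hx hy
    simp only [map_add, hx, hy]
  · intro a h
    rw [em_bas, BC.bdl_single, em_def]
    show (∑ b, BC.lf R p b h (R.d p a b)) = _
    refine Finset.sum_congr rfl fun b _ => ?_
    rw [lf_eq]
    congr 2
    show _ = Matrix.vecMul (bas a h) ((R.d p).map (red H)) b
    rw [bas, Matrix.single_vecMul]
    rfl

/-- the weight of a cell -/
def wt : BC.Cell R → ZMod 2
  | ⟨0, (_, a)⟩ => (R.w a : ZMod 2)
  | ⟨_ + 1, _⟩ => 0

/-- the augmentation -/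
noncomputable def aug : (BC.Cell R →₀ ZMod 2) →ₗ[ZMod 2] ZMod 2 := Finsupp.linearCombination (ZMod 2) (wt R)

lemma aug_single (b : BC.Cell R) : aug R (Finsupp.single b 1) = wt R b := by
  rw [aug, Finsupp.linearCombination_single, one_smul]

theorem aug_em (x : R.ι 0 → MonoidAlgebra (ZMod 2) H) : aug R (em R 0 x) = ee R.w x := by
  classical
  refine ind_bas (p := fun x => aug R (em R 0 x) = ee R.w x) ?_ ?_ ?_ x
  · simp only [map_zero]
  · intro x y hx hy
    simp only [map_add, hx, hy]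
  · intro a h
    rw [em_bas, aug_single]
    show (R.w a : ZMod 2) = ∑ a', (R.w a' : ZMod 2) * ((bas a h : R.ι 0 → MonoidAlgebra (ZMod 2) H) a').coeff.sum fun _ c => c
    rw [Finset.sum_eq_single a]
    · rw [bas, Pi.single_eq_same, MonoidAlgebra.coeff_single, Finsupp.sum_single_index rfl, mul_one]
    · intro b _ hb
      rw [bas, Pi.single_eq_of_ne hb, MonoidAlgebra.coeff_zero, Finsupp.sum_zero_index, mul_zero]
    · intro h
      exact absurd (Finset.mem_univ a) h

theorem aug_em_succ (p : ℕ) (x : R.ι (p + 1) → MonoidAlgebra (ZMod 2) H) : aug R (em R (p + 1) x) = 0 := by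
  classical
  refine ind_bas (p := fun x => aug R (em R (p + 1) x) = 0) ?_ ?_ ?_ x
  · simp only [map_zero]
  · intro x y hx hy
    simp only [map_add, hx, hy, add_zero]
  · intro a h
    rw [em_bas, aug_single]
    rfl

/-- the augmentation vanishes on boundaries -/
theorem aug_bdl (x : BC.Cell R →₀ ZMod 2) : aug R (BC.bdl R x) = 0 := by
  classical
  have h : (aug R) ∘ₗ (BC.bdl R) = 0 := by
    refine Finsupp.lhom_ext' fun b => LinearMap.ext_ring ?_
    show aug R (BC.bdl R (Finsupp.single b 1)) = 0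
    rcases b with ⟨_ | _ | p, h, a⟩
    · rw [BC.bdl_single]
      exact map_zero _
    · rw [← em_bas, bdl_em, aug_em]
      exact (ex_zero R _).2 ⟨_, rfl⟩
    · rw [← em_bas, bdl_em, aug_em_succ]
  exact LinearMap.congr_fun h x

lemma wt_smul (h : H) (b : BC.Cell R) : wt R (h • b) = wt R b := by
  rcases b with ⟨_ | p, g, a⟩
  · rfl
  · rfl

/-- the augmentation is invariant -/
theorem aug_mapDomain (h : H) (x : BC.Cell R →₀ ZMod 2) : aug R (x.mapDomain (h • ·)) = aug R x := by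
  rw [aug, Finsupp.linearCombination_mapDomain]
  congr 2
  funext b
  exact wt_smul R h b

/-- a chain of augmentation one -/
theorem exists_aug_one : ∃ z : BC.Cell R →₀ ZMod 2, (∀ b, z b ≠ 0 → b.1 = 0) ∧ aug R z = 1 := by
  obtain ⟨x, hx⟩ := ee_surj R 1
  exact ⟨em R 0 x, em_supp R x, by rw [aug_em, hx]⟩

/-- exactness in degree zero -/
theorem exact_zero (x : BC.Cell R →₀ ZMod 2) (hx : ∀ b, x b ≠ 0 → b.1 = 0) (h : aug R x = 0) :
    ∃ y : BC.Cell R →₀ ZMod 2, (∀ b, y b ≠ 0 → b.1 = 1) ∧ BC.bdl R y = x := by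
  rw [← em_ex R hx, aug_em] at h
  obtain ⟨y, hy⟩ := (ex_zero R _).1 h
  exact ⟨em R 1 y, em_supp R y, by rw [bdl_em, hy, em_ex R hx]⟩

/-- exactness in positive degrees -/
theorem exact_succ (n : ℕ) (x : BC.Cell R →₀ ZMod 2) (hx : ∀ b, x b ≠ 0 → b.1 = n + 1) (h : BC.bdl R x = 0) :
    ∃ y : BC.Cell R →₀ ZMod 2, (∀ b, y b ≠ 0 → b.1 = n + 2) ∧ BC.bdl R y = x := by
  rw [← em_ex R hx, bdl_em] at h
  have h1 : dd (R.d n) (ex R (n + 1) x) = 0 := by
    apply em_inj R
    rw [h, map_zero]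
  obtain ⟨y, hy⟩ := (ex_succ R n _).1 h1
  exact ⟨em R (n + 2) y, em_supp R y, by rw [bdl_em, hy, em_ex R hx]⟩

end RowEx

end SQ
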