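import Pool.Agent.SQ.LemFin

/-!
# Project MP_984acc_SQ: `Ex` in the language of linear maps
-/

set_option autoImplicit false

open scoped TensorProduct Matrix

namespace SQ

open Singer

section
variable {H : Type} [Group H] {N : Type} [AddCommGroup N] [Module (ZMod 2) N]

/-- a linear equivariant map which lives in degree `m` is given by a function -/
lemma eq_ofFun (R : FinRes H) (ν : Representation (ZMod 2) H N) (m : ℕ) (q : (BC.Cell R →₀ ZMod 2) →ₗ[ZMod 2] N)
    (hq : ∀ (h : H) (b : BC.Cell R), q (Finsupp.single (h • b) 1) = ν h (q (Finsupp.single b 1)))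
    (hd : ∀ b : BC.Cell R, b.1 ≠ m → q (Finsupp.single b 1) = 0) :
    q = ofFun R ν m fun a => q (Finsupp.single (⟨m, (1, a)⟩ : BC.Cell R) (1 : ZMod 2)) := by
  refine Finsupp.lhom_ext' fun b => LinearMap.ext_ring ?_
  show q (Finsupp.single b 1) =
    ofFun R ν m (fun a => q (Finsupp.single (⟨m, (1, a)⟩ : BC.Cell R) (1 : ZMod 2))) (Finsupp.single b 1)
  obtain ⟨p, g, a⟩ := b
  by_cases hp : p = m
  · subst hp
    rw [ofFun_self, ← hq, BC.smul_cell, mul_one]
  · rw [ofFun_ne R ν m _ _ hp, hd _ hp]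

/-- `Ex` for linear maps -/
theorem ex_lin (R : FinRes H) (ν : Representation (ZMod 2) H N) (j : ℕ) (hE : Ex ν R j)
    (q : (BC.Cell R →₀ ZMod 2) →ₗ[ZMod 2] N)
    (hq : ∀ (h : H) (b : BC.Cell R), q (Finsupp.single (h • b) 1) = ν h (q (Finsupp.single b 1)))
    (hd : ∀ b : BC.Cell R, b.1 ≠ j → q (Finsupp.single b 1) = 0) (hc : ∀ c, q (BC.bdl R c) = 0) :
    (j = 0 → q = 0) ∧ ∀ i, j = i + 1 → ∃ x : (BC.Cell R →₀ ZMod 2) →ₗ[ZMod 2] N,
      (∀ (h : H) (b : BC.Cell R), x (Finsupp.single (h • b) 1) = ν h (x (Finsupp.single b 1))) ∧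
      (∀ b : BC.Cell R, b.1 ≠ i → x (Finsupp.single b 1) = 0) ∧ ∀ c, x (BC.bdl R c) = q c := by
  have hcob : cobd ν (R.d j) (fun a => q (Finsupp.single (⟨j, (1, a)⟩ : BC.Cell R) (1 : ZMod 2))) = 0 := by
    funext a
    have h1 := lin_bd R ν q hq j 1 a
    rw [hc, map_one] at h1
    exact h1.symm
  have hqq := eq_ofFun R ν j q hq hd
  constructor
  · rintro rfl
    rw [hqq, hE _ hcob]
    refine Finsupp.lhom_ext' fun b => LinearMap.ext_ring ?_
    show ofFun R ν 0 0 (Finsupp.single b 1) = 0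
    obtain ⟨p, g, a⟩ := b
    by_cases hp : p = 0
    · subst hp
      rw [ofFun_self]
      exact map_zero _
    · exact ofFun_ne R ν 0 _ _ hp
  · rintro i rfl
    obtain ⟨e, he⟩ := hE _ hcob
    refine ⟨ofFun R ν i e, ofFun_eqv R ν i e, fun b hb => ofFun_ne R ν i e b hb, fun c => ?_⟩
    have h : (ofFun R ν i e) ∘ₗ (BC.bdl R) = q := by
      refine Finsupp.lhom_ext' fun b => LinearMap.ext_ring ?_
      show ofFun R ν i e (BC.bdl R (Finsupp.single b 1)) = q (Finsupp.single b 1)
      obtain ⟨p, g, a⟩ := b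
      rcases p with _ | p
      · rw [bdl_zero, map_zero, hd _ (by simp)]
      · rw [lin_bd R ν _ (ofFun_eqv R ν i e)]
        by_cases hp : p = i
        · subst hp
          have h1 : (fun b => ofFun R ν p e (Finsupp.single (⟨p, (1, b)⟩ : BC.Cell R) (1 : ZMod 2))) = e := by
            funext b
            rw [ofFun_self, map_one]
            rfl
          rw [h1, he, ← hq, BC.smul_cell, mul_one]
        · have h1 : (fun b => ofFun R ν i e (Finsupp.single (⟨p, (1, b)⟩ : BC.Cell R) (1 : ZMod 2))) = 0 := by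
            funext b
            exact ofFun_ne R ν i e _ hp
          rw [h1]
          have h2 : cobd ν (R.d p) (0 : R.ι p → N) a = 0 := by
            unfold cobd
            refine Finset.sum_eq_zero fun b _ => Finset.sum_eq_zero fun g _ => ?_
            rw [Pi.zero_apply, map_zero, smul_zero]
          rw [h2, map_zero, hd _ (by simpa using hp)]
    exact LinearMap.congr_fun h c

end

end SQ
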