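import Pool.Agent.SQ.Row
import Pool.Agent.SQ.RowEx
import Pool.Agent.SQ.RowLin

/-!
# Project MP_984acc_SQ: row ROW and the squaring lemma
-/

set_option autoImplicit false

open scoped TensorProduct Matrix

namespace SQ

open Singer RowEx

/-- the augmentation of a resolution, modulo two -/
noncomputable def augRes {H : Type} [Group H] (R : FinRes H) : Aug (BC.ofRes R) where
  aug := aug R
  aug_dim b hb := by
    obtain ⟨_ | p, g, a⟩ := b
    · exact absurd rfl hb
    · exact aug_single R _
  aug_bd x := aug_bdl R x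
  aug_smul h b := by
    have h1 := aug_mapDomain R h (Finsupp.single b 1)
    rwa [Finsupp.mapDomain_single] at h1
  z := (exists_aug_one R).choose
  z_dim := (exists_aug_one R).choose_spec.1
  aug_z := (exists_aug_one R).choose_spec.2
  ex n x hx h := exact_succ R n x hx h
  ex0 x hx h := exact_zero R x hx h

/-- row ROW -/
theorem ey_of_ex {H : Type} [Group H] (R : FinRes H) {N : Type} [AddCommGroup N] [Module (ZMod 2) N]
    (ν : Representation (ZMod 2) H N) (j : ℕ) (h : Ex ν R j) : EY (BC.ofRes R) ν j := by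
  refine ey_of_eq ν (augRes R) ?_
  rcases j with _ | j
  · intro q hq hc
    exact (ex_lin R ν 0 h q hq.eqv hq.deg hc).1 rfl
  · intro q hq hc
    obtain ⟨x, h1, h2, h3⟩ := (ex_lin R ν (j + 1) h q hq.eqv hq.deg hc).2 j rfl
    exact ⟨x, ⟨h1, h2⟩, h3⟩

/-- row LEM: the squaring lemma -/
theorem lem : StmtLEM := by
  intro H _ hH R M _ _ τ m h
  exact lem_of_row hH R τ m fun j hj => ey_of_ex R (τ.tprod τ) j (h j hj)

end SQ
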