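import Pool.Agent.SQ.LemFin
import Pool.Agent.SQ.RowMain

/-!
# SQ: the squaring lemma (`SQ.lem`, from `RowMain`)
-/
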