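import Pool.Agent.SQ.Ore

/-!
# Leading-term valuations on group rings (row E2)
-/

set_option autoImplicit false
set_option linter.unusedSectionVars false

noncomputable section

namespace SQ.Ore

open MonoidAlgebra

section Lead

variable {k K Λ : Type*} [Ring k] [Group K] [Group Λ] [LinearOrder Λ]

/-- least value of `p` on the support (junk value `1` at `0`) -/
def lead (p : K →* Λ) (x : MonoidAlgebra k K) : Λ :=
  open Classical in
  if h : (x.coeff.support.image p).Nonempty then (x.coeff.support.image p).min' h else 1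

theorem coeff_support_nonempty {x : MonoidAlgebra k K} (hx : x ≠ 0) :
    x.coeff.support.Nonempty := by
  rw [Finset.nonempty_iff_ne_empty]
  intro h
  apply hx
  rw [Finsupp.support_eq_empty] at h
  ext g
  simp [h]

theorem exists_lead (p : K →* Λ) {x : MonoidAlgebra k K} (hx : x ≠ 0) :
    ∃ g ∈ x.coeff.support, p g = lead p x := by
  classical
  have h : (x.coeff.support.image p).Nonempty := (coeff_support_nonempty hx).image p
  have h2 : lead p x = (x.coeff.support.image p).min' h := dif_pos h
  obtain ⟨g, hg, he⟩ := Finset.mem_image.1 (Finset.min'_mem _ h)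
  exact ⟨g, hg, by rw [he, h2]⟩

theorem lead_le (p : K →* Λ) {x : MonoidAlgebra k K} {g : K} (hg : g ∈ x.coeff.support) :
    lead p x ≤ p g := by
  classical
  have h : (x.coeff.support.image p).Nonempty := ⟨p g, Finset.mem_image_of_mem p hg⟩
  have h2 : lead p x = (x.coeff.support.image p).min' h := dif_pos h
  rw [h2]
  exact Finset.min'_le _ _ (Finset.mem_image_of_mem p hg)

theorem lead_eq (p : K →* Λ) {x : MonoidAlgebra k K} {l : Λ} {g : K} (hg : g ∈ x.coeff.support)
    (hgl : p g = l) (h : ∀ a ∈ x.coeff.support, l ≤ p a) : lead p x = l := by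
  have hx : x ≠ 0 := by
    rintro rfl
    simp at hg
  obtain ⟨a, ha, hal⟩ := exists_lead p hx
  apply le_antisymm
  · rw [← hgl]; exact lead_le p hg
  · rw [← hal]; exact h a ha

/-- the part of `x` over `l` -/
def part (p : K →* Λ) (l : Λ) (x : MonoidAlgebra k K) : MonoidAlgebra k K :=
  open Classical in ofCoeff (x.coeff.filter (fun g => p g = l))

theorem mem_part (p : K →* Λ) (l : Λ) (x : MonoidAlgebra k K) (g : K) :
    g ∈ (part p l x).coeff.support ↔ g ∈ x.coeff.support ∧ p g = l := by
  classical
  simp only [part, coeff_ofCoeff, Finsupp.support_filter, Finset.mem_filter]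

theorem mem_sub_part (p : K →* Λ) (l : Λ) (x : MonoidAlgebra k K) (g : K)
    (hg : g ∈ (x - part p l x).coeff.support) : g ∈ x.coeff.support ∧ p g ≠ l := by
  classical
  have h1 : (x - part p l x).coeff g = x.coeff g - (part p l x).coeff g := by
    simp
  rw [Finsupp.mem_support_iff, h1] at hg
  by_cases h : p g = l
  · exfalso
    apply hg
    simp [part, Finsupp.filter_apply, h]
  · refine ⟨?_, h⟩
    rw [Finsupp.mem_support_iff]
    simpa [part, Finsupp.filter_apply, h] using hg

variable [MulLeftStrictMono Λ] [MulRightStrictMono Λ] [NoZeroDivisors (MonoidAlgebra k K)]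

theorem lead_mul (p : K →* Λ) (x y : MonoidAlgebra k K) (hx : x ≠ 0) (hy : y ≠ 0) :
    lead p (x * y) = lead p x * lead p y := by
  classical
  haveI : MulLeftMono Λ := covariantClass_le_of_lt _ _ _
  haveI : MulRightMono Λ := covariantClass_le_of_lt _ _ _
  set x0 := part p (lead p x) x with hx0
  set y0 := part p (lead p y) y with hy0
  set x1 := x - x0 with hx1
  set y1 := y - y0 with hy1
  have hx0' : x0 ≠ 0 := by
    obtain ⟨g, hg, hgl⟩ := exists_lead p hx
    intro h0
    have : g ∈ x0.coeff.support := (mem_part p _ x g).2 ⟨hg, hgl⟩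
    rw [h0] at this
    simp at this
  have hy0' : y0 ≠ 0 := by
    obtain ⟨g, hg, hgl⟩ := exists_lead p hy
    intro h0
    have : g ∈ y0.coeff.support := (mem_part p _ y g).2 ⟨hg, hgl⟩
    rw [h0] at this
    simp at this
  have hxe : x = x0 + x1 := by rw [hx1]; abel
  have hye : y = y0 + y1 := by rw [hy1]; abel
  have hprod : x * y = x0 * y0 + (x0 * y1 + x1 * y) := by
    conv_lhs => rw [hxe]
    rw [add_mul]
    conv_lhs => rw [hye]
    rw [mul_add, ← hye]
    abel
  have hX0 : ∀ a ∈ x0.coeff.support, p a = lead p x := fun a ha => ((mem_part p _ x a).1 ha).2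
  have hY0 : ∀ a ∈ y0.coeff.support, p a = lead p y := fun a ha => ((mem_part p _ y a).1 ha).2
  have hX1 : ∀ a ∈ x1.coeff.support, lead p x < p a := fun a ha =>
    lt_of_le_of_ne (lead_le p (mem_sub_part p _ x a ha).1) (mem_sub_part p _ x a ha).2.symm
  have hY1 : ∀ a ∈ y1.coeff.support, lead p y < p a := fun a ha =>
    lt_of_le_of_ne (lead_le p (mem_sub_part p _ y a ha).1) (mem_sub_part p _ y a ha).2.symm
  have hxy0 : x0 * y0 ≠ 0 := mul_ne_zero hx0' hy0'
  obtain ⟨g, hg⟩ := coeff_support_nonempty hxy0
  have hpg : p g = lead p x * lead p y := by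
    obtain ⟨a, ha, b, hb, rfl⟩ := Finset.mem_mul.1 (support_coeff_mul_subset x0 y0 hg)
    rw [map_mul, hX0 a ha, hY0 b hb]
  have hrest : ∀ a ∈ (x0 * y1 + x1 * y).coeff.support, lead p x * lead p y < p a := by
    intro a ha
    have ha' : a ∈ (x0 * y1).coeff.support ∨ a ∈ (x1 * y).coeff.support := by
      have := Finsupp.support_add (g₁ := (x0 * y1).coeff) (g₂ := (x1 * y).coeff) (by simpa using ha)
      simpa only [Finset.mem_union] using this
    rcases ha' with h | h
    · obtain ⟨c, hc, d, hd, rfl⟩ := Finset.mem_mul.1 (support_coeff_mul_subset x0 y1 h)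
      rw [map_mul, hX0 c hc]
      exact mul_lt_mul_right (hY1 d hd) _
    · obtain ⟨c, hc, d, hd, rfl⟩ := Finset.mem_mul.1 (support_coeff_mul_subset x1 y h)
      rw [map_mul]
      exact lt_of_lt_of_le (mul_lt_mul_left (hX1 c hc) _) (mul_le_mul_right (lead_le p hd) _)
  have hg' : g ∈ (x * y).coeff.support := by
    rw [hprod, Finsupp.mem_support_iff, coeff_add, Finsupp.add_apply]
    have h2 : (x0 * y1 + x1 * y).coeff g = 0 := by
      by_contra h
      exact (hrest g (Finsupp.mem_support_iff.2 h)).ne hpg.symm
    rw [h2, add_zero]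
    exact Finsupp.mem_support_iff.1 hg
  refine lead_eq p hg' hpg ?_
  intro a ha
  obtain ⟨c, hc, d, hd, rfl⟩ := Finset.mem_mul.1 (support_coeff_mul_subset x y ha)
  rw [map_mul]
  exact mul_le_mul' (lead_le p hc) (lead_le p hd)

theorem lead_isVal (p : K →* Λ) : IsVal (lead p : MonoidAlgebra k K → Λ) := by
  classical
  refine ⟨fun x y hx hy => lead_mul p x y hx hy, ?_⟩
  intro x y hx hy hxy
  obtain ⟨g, hg, hgl⟩ := exists_lead p hxy
  rw [← hgl]
  have hg' : g ∈ x.coeff.support ∨ g ∈ y.coeff.support := by
    have := Finsupp.support_add (g₁ := x.coeff) (g₂ := y.coeff) (by simpa using hg)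
    simpa only [Finset.mem_union] using this
  rcases hg' with h | h
  · exact (min_le_left _ _).trans (lead_le p h)
  · exact (min_le_right _ _).trans (lead_le p h)

end Lead

section Misc

variable {k K Λ : Type*} [Ring k] [Nontrivial k] [Group K] [Group Λ] [LinearOrder Λ]

theorem lead_of (p : K →* Λ) (g : K) : lead p (of k K g) = p g := by
  have h : (of k K g).coeff.support = {g} := by
    simp [of, Finsupp.support_single]
  exact lead_eq p (g := g) (by rw [h]; simp) rfl (by
    intro a ha
    rw [h, Finset.mem_singleton] at ha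
    rw [ha])

/-- the group ring of a subgroup, inside the group ring -/
def subRing (k : Type*) [Ring k] (H : Subgroup K) : Subring (MonoidAlgebra k K) where
  carrier := {x | ∀ g ∈ x.coeff.support, g ∈ H}
  one_mem' := by
    classical
    intro g hg
    have := support_coeff_one_subset hg
    rw [Finset.mem_one] at this
    rw [this]
    exact H.one_mem
  zero_mem' := by
    intro g hg
    simp at hg
  mul_mem' := by
    classical
    intro x y hx hy g hg
    obtain ⟨c, hc, d, hd, rfl⟩ := Finset.mem_mul.1 (support_coeff_mul_subset x y hg)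
    exact H.mul_mem (hx c hc) (hy d hd)
  add_mem' := by
    classical
    intro x y hx hy g hg
    have := Finsupp.support_add (g₁ := x.coeff) (g₂ := y.coeff) (by simpa using hg)
    rcases Finset.mem_union.1 this with h | h
    · exact hx g h
    · exact hy g h
  neg_mem' := by
    intro x hx g hg
    apply hx g
    rw [Finsupp.mem_support_iff] at hg ⊢
    simpa using hg

theorem of_mem_subRing (H : Subgroup K) {g : K} (hg : g ∈ H) : of k K g ∈ subRing k H := by
  intro a ha
  have h : (of k K g).coeff.support = {g} := by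
    simp [of, Finsupp.support_single]
  rw [h, Finset.mem_singleton] at ha
  rw [ha]
  exact hg

theorem exists_of_mem_subRing (H : Subgroup K) {x : MonoidAlgebra k K} (hx : x ∈ subRing k H) :
    ∃ y : MonoidAlgebra k H, mapDomainRingHom k H.subtype y = x := by
  classical
  refine ⟨ofCoeff (x.coeff.comapDomain (H.subtype) (H.subtype_injective.injOn)), ?_⟩
  have h := Finsupp.mapDomain_comapDomain (H.subtype : H → K) H.subtype_injective x.coeff (by
    intro g hg
    exact ⟨⟨g, hx g hg⟩, rfl⟩)
  simp only [mapDomainRingHom_apply]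
  ext g
  rw [mapDomain, coeff_ofCoeff, coeff_ofCoeff]
  exact congrArg (fun f : K →₀ k => f g) h

theorem mapDomainRingHom_mem (H : Subgroup K) (y : MonoidAlgebra k H) :
    mapDomainRingHom k H.subtype y ∈ subRing k H := by
  classical
  intro g hg
  simp only [mapDomainRingHom_apply] at hg
  have := Finsupp.mapDomain_support (by simpa [mapDomain] using hg)
  obtain ⟨a, _, rfl⟩ := Finset.mem_image.1 this
  exact a.2

theorem mapDomainRingHom_inj (H : Subgroup K) :
    Function.Injective (mapDomainRingHom k H.subtype : MonoidAlgebra k H →+* MonoidAlgebra k K) := by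
  intro a b hab
  simp only [mapDomainRingHom_apply] at hab
  exact mapDomain_injective H.subtype_injective hab

/-- the inner Ore condition from the Ore condition of the group ring of the subgroup -/
theorem inner_ore (H : Subgroup K)
    (ore : ∀ a s : MonoidAlgebra k H, s ≠ 0 → ∃ a' s' : MonoidAlgebra k H,
      s' ≠ 0 ∧ s' * a = a' * s) :
    ∀ a ∈ subRing k H, ∀ s ∈ subRing k H, s ≠ 0 →
      ∃ a' ∈ subRing k H, ∃ s' ∈ subRing k H, s' ≠ 0 ∧ s' * a = a' * s := by
  intro a ha s hs hs0
  obtain ⟨a, rfl⟩ := exists_of_mem_subRing H ha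
  obtain ⟨s, rfl⟩ := exists_of_mem_subRing H hs
  have hs1 : s ≠ 0 := by
    rintro rfl
    exact hs0 (map_zero _)
  obtain ⟨a', s', hs', h⟩ := ore a s hs1
  refine ⟨_, mapDomainRingHom_mem H a', _, mapDomainRingHom_mem H s', ?_, ?_⟩
  · intro h0
    apply hs'
    apply mapDomainRingHom_inj H
    rw [h0, map_zero]
  · rw [← map_mul, ← map_mul, h]

theorem lead_subRing (p : K →* Λ) (H : Subgroup K) (hH : H ≤ p.ker) {x : MonoidAlgebra k K}
    (hx : x ∈ subRing k H) (hx0 : x ≠ 0) : lead p x = 1 := by
  obtain ⟨g, hg, hgl⟩ := exists_lead p hx0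
  rw [← hgl]
  exact hH (hx g hg)

end Misc

section Anti

variable {k K : Type*} [CommRing k] [Group K]

/-- the canonical anti-automorphism `g -> g⁻¹` -/
def inv' : MonoidAlgebra k K →+* (MonoidAlgebra k K)ᵐᵒᵖ :=
  (MonoidAlgebra.lift k _ K
    { toFun := fun g => MulOpposite.op (of k K g⁻¹)
      map_one' := by rw [inv_one, map_one, MulOpposite.op_one]
      map_mul' := by
        intro a b
        rw [mul_inv_rev, map_mul, MulOpposite.op_mul] } : MonoidAlgebra k K →ₐ[k] _).toRingHom

theorem inv'_of (g : K) : inv' (of k K g) = MulOpposite.op (of k K g⁻¹) := by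
  change MonoidAlgebra.lift k _ K _ _ = _
  rw [MonoidAlgebra.lift_of]
  rfl

theorem inv'_smul (c : k) (x : MonoidAlgebra k K) : inv' (c • x) = c • inv' x := by
  change MonoidAlgebra.lift k _ K _ _ = _
  rw [map_smul]
  rfl

theorem inv'_inv' (x : MonoidAlgebra k K) : (inv' (inv' x).unop).unop = x := by
  induction x using MonoidAlgebra.induction_on with
  | of g => rw [inv'_of, MulOpposite.unop_op, inv'_of, MulOpposite.unop_op, inv_inv]
  | add a b ha hb => simp only [map_add, MulOpposite.unop_add, ha, hb]
  | smul c a ha =>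
    rw [inv'_smul, MulOpposite.unop_smul, inv'_smul, MulOpposite.unop_smul, ha]

theorem inv'_injective : Function.Injective (inv' : MonoidAlgebra k K →+* _) := by
  intro a b hab
  rw [← inv'_inv' a, ← inv'_inv' b, hab]

end Anti

end SQ.Ore
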