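import Pool.Agent.SQ.Ring

set_option autoImplicit false

namespace SQ

theorem s_domain_of_order (hO : S_order) : S_domain := by
  intro A _ _ _ c h
  obtain ⟨_, hl, hr⟩ := hO A c
  have : MulLeftMono (UC A c) := ⟨fun d a b h => hl a b d h⟩
  have : MulRightMono (UC A c) := ⟨fun d a b h => hr a b d h⟩
  have : UniqueProds (UC A c) := inferInstance
  have : UniqueProds (Fin h → UC A c) := inferInstance
  infer_instance

end SQ
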