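import Pool.Agent.SQ.Ring
import Mathlib

/-!
# Row E1b: polynomial growth
-/

set_option autoImplicit false

namespace SQ

open scoped Pointwise

section norm
variable {A ι : Type} [Ring A] [Fintype ι] (b : Module.Basis ι ℤ A)

/-- sum of the absolute values of the coordinates -/
noncomputable def nu (a : A) : ℕ := ∑ i, (b.repr a i).natAbs

lemma nu_zero : nu b 0 = 0 := by simp [nu]

lemma nu_add (x y : A) : nu b (x + y) ≤ nu b x + nu b y := by
  unfold nu
  rw [← Finset.sum_add_distrib]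
  refine Finset.sum_le_sum fun i _ => ?_
  rw [map_add, Finsupp.add_apply]
  exact Int.natAbs_add_le _ _

lemma nu_sum {κ : Type*} (s : Finset κ) (f : κ → A) : nu b (∑ i ∈ s, f i) ≤ ∑ i ∈ s, nu b (f i) :=
  Finset.le_sum_of_subadditive (nu b) (nu_zero b).le (nu_add b) s f

lemma nu_zsmul (n : ℤ) (x : A) : nu b (n • x) = n.natAbs * nu b x := by
  unfold nu
  rw [Finset.mul_sum]
  refine Finset.sum_congr rfl fun i _ => ?_
  rw [map_smul, Finsupp.smul_apply, smul_eq_mul, Int.natAbs_mul]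

/-- the structure constants -/
noncomputable def nuM : ℕ := ∑ i, ∑ j, nu b (b i * b j)

lemma nu_mul (x y : A) : nu b (x * y) ≤ nuM b * nu b x * nu b y := by
  have h1 : x * y = ∑ i, ∑ j, (b.repr x i * b.repr y j) • (b i * b j) := by
    conv_lhs => rw [← b.sum_repr x, ← b.sum_repr y]
    rw [Finset.sum_mul_sum]
    refine Finset.sum_congr rfl fun i _ => Finset.sum_congr rfl fun j _ => ?_
    rw [smul_mul_smul_comm]
  rw [h1]
  refine (nu_sum b _ _).trans ?_
  refine (Finset.sum_le_sum fun i _ => nu_sum b _ _).trans ?_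
  have h2 : ∀ i j, nu b ((b.repr x i * b.repr y j) • (b i * b j)) ≤
      nuM b * ((b.repr x i).natAbs * (b.repr y j).natAbs) := by
    intro i j
    rw [nu_zsmul, Int.natAbs_mul, mul_comm]
    refine Nat.mul_le_mul_right _ ?_
    unfold nuM
    refine le_trans ?_ (Finset.single_le_sum (f := fun i => ∑ j, nu b (b i * b j)) (fun _ _ => Nat.zero_le _)
      (Finset.mem_univ i))
    exact Finset.single_le_sum (f := fun j => nu b (b i * b j)) (fun _ _ => Nat.zero_le _) (Finset.mem_univ j)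
  refine (Finset.sum_le_sum fun i _ => Finset.sum_le_sum fun j _ => h2 i j).trans (le_of_eq ?_)
  simp only [nu, ← Finset.mul_sum, ← Finset.sum_mul, mul_assoc]

end norm

section coef
variable {A : Type} [Ring A]

/-- two units with the same coefficients of order less than `c` are congruent -/
lemma mk_eq_of_coeff {c : ℕ} {f g : PU A}
    (h : ∀ k < c, PowerSeries.coeff k ((f : (PowerSeries A)ˣ) : PowerSeries A) =
      PowerSeries.coeff k ((g : (PowerSeries A)ˣ) : PowerSeries A)) :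
    (f : UC A c) = (g : UC A c) := by
  have h1 : (PowerSeries.X : PowerSeries A) ^ c ∣
      ((g : (PowerSeries A)ˣ) : PowerSeries A) - ((f : (PowerSeries A)ˣ) : PowerSeries A) :=
    PowerSeries.X_pow_dvd_iff.2 fun k hk => by rw [map_sub, h k hk, sub_self]
  obtain ⟨u, hu⟩ := h1
  rw [QuotientGroup.eq]
  refine ⟨(((f : (PowerSeries A)ˣ)⁻¹ : (PowerSeries A)ˣ) : PowerSeries A) * u, ?_⟩
  have h2 : ((g : (PowerSeries A)ˣ) : PowerSeries A) =
      ((f : (PowerSeries A)ˣ) : PowerSeries A) + PowerSeries.X ^ c * u := by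
    rw [← hu]
    abel
  have h3 : (((f : (PowerSeries A)ˣ)⁻¹ : (PowerSeries A)ˣ) : PowerSeries A) * PowerSeries.X ^ c =
      PowerSeries.X ^ c * (((f : (PowerSeries A)ˣ)⁻¹ : (PowerSeries A)ˣ) : PowerSeries A) :=
    (PowerSeries.commute_X_pow _ _).eq
  rw [Subgroup.coe_mul, Subgroup.coe_inv, Units.val_mul, h2, mul_add, Units.inv_mul, ← mul_assoc, h3, mul_assoc]

/-- congruent units have the same coefficients of order less than `c` -/
lemma coeff_eq_of_mk {c : ℕ} {f g : PU A} (h : (f : UC A c) = (g : UC A c)) {k : ℕ} (hk : k < c) :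
    PowerSeries.coeff k ((f : (PowerSeries A)ˣ) : PowerSeries A) =
      PowerSeries.coeff k ((g : (PowerSeries A)ˣ) : PowerSeries A) := by
  rw [QuotientGroup.eq] at h
  obtain ⟨u, hu⟩ := h
  rw [Subgroup.coe_mul, Subgroup.coe_inv, Units.val_mul] at hu
  have h1 : ((g : (PowerSeries A)ˣ) : PowerSeries A) =
      ((f : (PowerSeries A)ˣ) : PowerSeries A) + PowerSeries.X ^ c * (((f : (PowerSeries A)ˣ) : PowerSeries A) * u) := by
    have h3 : ((f : (PowerSeries A)ˣ) : PowerSeries A) * PowerSeries.X ^ c =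
        PowerSeries.X ^ c * ((f : (PowerSeries A)ˣ) : PowerSeries A) := (PowerSeries.commute_X_pow _ _).eq
    have h4 := congrArg (fun z => ((f : (PowerSeries A)ˣ) : PowerSeries A) * z) hu
    simp only [← mul_assoc, Units.mul_inv, one_mul] at h4
    rw [h4, mul_add, mul_one, ← mul_assoc, h3, mul_assoc]
  have h2 : PowerSeries.coeff k (PowerSeries.X ^ c * (((f : (PowerSeries A)ˣ) : PowerSeries A) * u)) = 0 :=
    PowerSeries.X_pow_dvd_iff.1 ⟨_, rfl⟩ k hk
  rw [h1, map_add, h2, add_zero]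

end coef

section bound
variable {A ι : Type} [Ring A] [Fintype ι] (b : Module.Basis ι ℤ A)

/-- the bound for the coefficient of order `k` of a product of `n` factors -/
def bd (C n k : ℕ) : ℕ := C ^ k * (n + 1) ^ k

lemma bd_step {c B C n k : ℕ} (hC : c * B ≤ C) (hC1 : 1 ≤ C) (hk : k < c) :
    bd C n k + ∑ i ∈ Finset.range k, B * bd C n i ≤ bd C (n + 1) k := by
  cases k with
  | zero => simp [bd]
  | succ k =>
    have h1 : ∀ i ∈ Finset.range (k + 1), B * bd C n i ≤ B * (C ^ k * (n + 1) ^ k) := by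
      intro i hi
      have hik : i ≤ k := Nat.lt_succ_iff.1 (Finset.mem_range.1 hi)
      unfold bd
      exact Nat.mul_le_mul_left _ (Nat.mul_le_mul (Nat.pow_le_pow_right hC1 hik)
        (Nat.pow_le_pow_right (Nat.succ_pos n) hik))
    have h2 : ∑ i ∈ Finset.range (k + 1), B * bd C n i ≤ C ^ (k + 1) * (n + 1) ^ k := by
      refine (Finset.sum_le_sum h1).trans ?_
      rw [Finset.sum_const, Finset.card_range, smul_eq_mul]
      have h3 : (k + 1) * B ≤ C := (Nat.mul_le_mul_right B hk.le).trans hC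
      calc (k + 1) * (B * (C ^ k * (n + 1) ^ k)) = ((k + 1) * B) * (C ^ k * (n + 1) ^ k) := by ring
        _ ≤ C * (C ^ k * (n + 1) ^ k) := Nat.mul_le_mul_right _ h3
        _ = C ^ (k + 1) * (n + 1) ^ k := by ring
    have h4 : (n + 1) ^ (k + 1) + (n + 1) ^ k ≤ (n + 1 + 1) ^ (k + 1) := by
      calc (n + 1) ^ (k + 1) + (n + 1) ^ k = (n + 1 + 1) * (n + 1) ^ k := by ring
        _ ≤ (n + 1 + 1) * (n + 1 + 1) ^ k := Nat.mul_le_mul_left _ (Nat.pow_le_pow_left (Nat.le_succ _) k)
        _ = (n + 1 + 1) ^ (k + 1) := by ring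
    unfold bd at h2 ⊢
    calc C ^ (k + 1) * (n + 1) ^ (k + 1) + ∑ i ∈ Finset.range (k + 1), B * (C ^ i * (n + 1) ^ i)
        ≤ C ^ (k + 1) * (n + 1) ^ (k + 1) + C ^ (k + 1) * (n + 1) ^ k := Nat.add_le_add_left h2 _
      _ = C ^ (k + 1) * ((n + 1) ^ (k + 1) + (n + 1) ^ k) := by ring
      _ ≤ C ^ (k + 1) * (n + 1 + 1) ^ (k + 1) := Nat.mul_le_mul_left _ h4

/-- one more factor -/
lemma coeff_step {c B C n : ℕ} (hC : c * B ≤ C) (hC1 : 1 ≤ C) {f g : PowerSeries A} {e : ℕ}
    (hf : ∀ k < c, nu b (PowerSeries.coeff k f) ≤ e * bd C n k)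
    (hg0 : PowerSeries.coeff 0 g = 1)
    (hg : ∀ k < c, nuM b * nu b (PowerSeries.coeff k g) ≤ B) :
    ∀ k < c, nu b (PowerSeries.coeff k (f * g)) ≤ e * bd C (n + 1) k := by
  intro k hk
  rw [PowerSeries.coeff_mul]
  have h1 : ∑ p ∈ Finset.HasAntidiagonal.antidiagonal k, PowerSeries.coeff p.1 f * PowerSeries.coeff p.2 g =
      ∑ i ∈ Finset.range (k + 1), PowerSeries.coeff i f * PowerSeries.coeff (k - i) g :=
    Finset.Nat.sum_antidiagonal_eq_sum_range_succ (fun i j => PowerSeries.coeff i f * PowerSeries.coeff j g) k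
  rw [h1, Finset.sum_range_succ, Nat.sub_self, hg0, mul_one, add_comm]
  refine (nu_add b _ _).trans ?_
  have h2 : nu b (∑ i ∈ Finset.range k, PowerSeries.coeff i f * PowerSeries.coeff (k - i) g) ≤
      ∑ i ∈ Finset.range k, B * (e * bd C n i) := by
    refine (nu_sum b _ _).trans (Finset.sum_le_sum fun i hi => ?_)
    have hi' : i < k := Finset.mem_range.1 hi
    refine (nu_mul b _ _).trans ?_
    calc nuM b * nu b (PowerSeries.coeff i f) * nu b (PowerSeries.coeff (k - i) g)
        = (nuM b * nu b (PowerSeries.coeff (k - i) g)) * nu b (PowerSeries.coeff i f) := by ring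
      _ ≤ B * (e * bd C n i) := Nat.mul_le_mul (hg (k - i) (lt_of_le_of_lt (Nat.sub_le _ _) hk)) (hf i (hi'.trans hk))
  calc nu b (PowerSeries.coeff k f) + nu b (∑ i ∈ Finset.range k, PowerSeries.coeff i f * PowerSeries.coeff (k - i) g)
      ≤ e * bd C n k + ∑ i ∈ Finset.range k, B * (e * bd C n i) := Nat.add_le_add (hf k hk) h2
    _ = e * (bd C n k + ∑ i ∈ Finset.range k, B * bd C n i) := by
        rw [mul_add, Finset.mul_sum]
        congr 1
        exact Finset.sum_congr rfl fun i _ => by ring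
    _ ≤ e * bd C (n + 1) k := Nat.mul_le_mul_left _ (bd_step hC hC1 hk)

end bound

section main

/-- a lift with the bounds -/
lemma exists_lift_bound {A ι : Type} [Ring A] [Fintype ι] (b : Module.Basis ι ℤ A) (c h : ℕ)
    [DecidableEq (Fin h → UC A c)] (S : Finset (Fin h → UC A c)) :
    ∃ C : ℕ, 1 ≤ C ∧ ∀ n, ∀ g ∈ S ^ n, ∀ t, ∃ f : PU A, (f : UC A c) = g t ∧
      ∀ k < c, nu b (PowerSeries.coeff k ((f : (PowerSeries A)ˣ) : PowerSeries A)) ≤ (nu b 1) * bd C n k := by
  classical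
  let B : ℕ := ∑ s ∈ S, ∑ t : Fin h, ∑ k ∈ Finset.range c,
    nuM b * nu b (PowerSeries.coeff k (((s t).out : (PowerSeries A)ˣ) : PowerSeries A))
  have hB : ∀ s ∈ S, ∀ t, ∀ k < c,
      nuM b * nu b (PowerSeries.coeff k (((s t).out : (PowerSeries A)ˣ) : PowerSeries A)) ≤ B := by
    intro s hs t k hk
    refine le_trans ?_ (Finset.single_le_sum (f := fun s : Fin h → UC A c => ∑ t : Fin h, ∑ k ∈ Finset.range c,
      nuM b * nu b (PowerSeries.coeff k (((s t).out : (PowerSeries A)ˣ) : PowerSeries A)))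
      (fun _ _ => Nat.zero_le _) hs)
    refine le_trans ?_ (Finset.single_le_sum (f := fun t : Fin h => ∑ k ∈ Finset.range c,
      nuM b * nu b (PowerSeries.coeff k (((s t).out : (PowerSeries A)ˣ) : PowerSeries A)))
      (fun _ _ => Nat.zero_le _) (Finset.mem_univ t))
    exact Finset.single_le_sum (f := fun k =>
      nuM b * nu b (PowerSeries.coeff k (((s t).out : (PowerSeries A)ˣ) : PowerSeries A)))
      (fun _ _ => Nat.zero_le _) (Finset.mem_range.2 hk)
  refine ⟨c * B + 1, Nat.le_add_left 1 _, fun n => ?_⟩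
  induction n with
  | zero =>
    intro g hg t
    rw [pow_zero, Finset.mem_one] at hg
    refine ⟨1, ?_, fun k hk => ?_⟩
    · rw [hg]
      rfl
    · show nu b (PowerSeries.coeff k (1 : PowerSeries A)) ≤ _
      rw [PowerSeries.coeff_one]
      by_cases hk0 : k = 0
      · rw [if_pos hk0, hk0]
        simp [bd]
      · rw [if_neg hk0, nu_zero]
        exact Nat.zero_le _
  | succ n ih =>
    intro g hg t
    rw [pow_succ, Finset.mem_mul] at hg
    obtain ⟨g', hg', s, hs, rfl⟩ := hg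
    obtain ⟨f, hf1, hf2⟩ := ih g' hg' t
    refine ⟨f * (s t).out, ?_, ?_⟩
    · rw [QuotientGroup.mk_mul, hf1, QuotientGroup.out_eq']
      rfl
    · have hg0 : PowerSeries.coeff 0 (((s t).out : (PowerSeries A)ˣ) : PowerSeries A) = 1 := by
        rw [PowerSeries.coeff_zero_eq_constantCoeff_apply]
        exact (s t).out.2
      exact coeff_step b (Nat.le_succ _) (Nat.le_add_left 1 _) hf2 hg0 (hB s hs t)

theorem growth_aux (A : Type) [Ring A] [Module.Finite ℤ A] [Module.Free ℤ A] (c h : ℕ)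
    [DecidableEq (Fin h → UC A c)] (S : Finset (Fin h → UC A c)) :
    ∃ C k : ℕ, ∀ n : ℕ, (S ^ n).card ≤ C * (n + 1) ^ k := by
  classical
  let b := Module.Free.chooseBasis ℤ A
  let ι := Module.Free.ChooseBasisIndex ℤ A
  obtain ⟨C, hC1, hC⟩ := exists_lift_bound b c h S
  -- coordinates
  let κ : (Fin h → UC A c) → (Fin h → Fin c → ι → ℤ) := fun g t k i =>
    b.repr (PowerSeries.coeff (k : ℕ) (((g t).out : (PowerSeries A)ˣ) : PowerSeries A)) i
  have hκ : Function.Injective κ := by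
    intro g g' hgg
    funext t
    rw [← QuotientGroup.out_eq' (g t), ← QuotientGroup.out_eq' (g' t)]
    refine mk_eq_of_coeff fun k hk => ?_
    apply b.repr.injective
    ext i
    exact congrFun (congrFun (congrFun hgg t) ⟨k, hk⟩) i
  let P : ℕ → ℕ := fun n => nu b 1 * bd C n c
  let box : ℕ → Finset (Fin h → Fin c → ι → ℤ) := fun n =>
    Fintype.piFinset fun _ => Fintype.piFinset fun _ => Fintype.piFinset fun _ => Finset.Icc (-(P n : ℤ)) (P n)
  have hbox : ∀ n, (S ^ n).card ≤ (box n).card := by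
    intro n
    rw [← Finset.card_image_of_injective (S ^ n) hκ]
    refine Finset.card_le_card ?_
    intro z hz
    obtain ⟨g, hg, rfl⟩ := Finset.mem_image.1 hz
    simp only [box, Fintype.mem_piFinset, Finset.mem_Icc]
    intro t k i
    obtain ⟨f, hf1, hf2⟩ := hC n g hg t
    have h1 : PowerSeries.coeff (k : ℕ) (((g t).out : (PowerSeries A)ˣ) : PowerSeries A) =
        PowerSeries.coeff (k : ℕ) ((f : (PowerSeries A)ˣ) : PowerSeries A) :=
      coeff_eq_of_mk (by rw [hf1, QuotientGroup.out_eq']) k.2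
    have h2 : (κ g t k i).natAbs ≤ P n := by
      simp only [κ, h1]
      refine le_trans ?_ ((hf2 k k.2).trans (Nat.mul_le_mul_left _ ?_))
      · exact Finset.single_le_sum (f := fun i => (b.repr (PowerSeries.coeff (k : ℕ)
          ((f : (PowerSeries A)ˣ) : PowerSeries A)) i).natAbs) (fun _ _ => Nat.zero_le _) (Finset.mem_univ i)
      · exact Nat.mul_le_mul (Nat.pow_le_pow_right hC1 k.2.le) (Nat.pow_le_pow_right (Nat.succ_pos n) k.2.le)
    omega
  refine ⟨((2 * (nu b 1 * C ^ c) + 1) ^ Fintype.card ι) ^ (c * h), c * (Fintype.card ι * (c * h)), fun n => ?_⟩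
  refine (hbox n).trans ?_
  have h3 : (box n).card = ((2 * P n + 1) ^ Fintype.card ι) ^ (c * h) := by
    simp only [box, Fintype.card_piFinset, Finset.prod_const, Finset.card_univ, Fintype.card_fin, Int.card_Icc]
    rw [show ((P n : ℤ) + 1 - -(P n : ℤ)).toNat = 2 * P n + 1 by omega, ← pow_mul]
  rw [h3]
  have h4 : 2 * P n + 1 ≤ (2 * (nu b 1 * C ^ c) + 1) * (n + 1) ^ c := by
    have h5 : 1 ≤ (n + 1) ^ c := Nat.one_le_pow _ _ (Nat.succ_pos n)
    simp only [P, bd]
    calc 2 * (nu b 1 * (C ^ c * (n + 1) ^ c)) + 1 = 2 * (nu b 1 * C ^ c) * (n + 1) ^ c + 1 := by ring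
      _ ≤ 2 * (nu b 1 * C ^ c) * (n + 1) ^ c + (n + 1) ^ c := Nat.add_le_add_left h5 _
      _ = (2 * (nu b 1 * C ^ c) + 1) * (n + 1) ^ c := by ring
  calc ((2 * P n + 1) ^ Fintype.card ι) ^ (c * h)
      ≤ (((2 * (nu b 1 * C ^ c) + 1) * (n + 1) ^ c) ^ Fintype.card ι) ^ (c * h) :=
        Nat.pow_le_pow_left (Nat.pow_le_pow_left h4 _) _
    _ = ((2 * (nu b 1 * C ^ c) + 1) ^ Fintype.card ι) ^ (c * h) * (n + 1) ^ (c * (Fintype.card ι * (c * h))) := by
        rw [mul_pow, mul_pow, ← pow_mul (n + 1), ← pow_mul (n + 1), mul_assoc c]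

theorem s_growth : S_growth := fun A _ _ _ c h S =>
  @growth_aux A _ _ _ c h (fun a b => Classical.propDecidable (a = b)) S

end main

end SQ
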