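import Pool.Agent.SQ.Ring

/-!
# SQ: row T2a, the even part of the kernel of the map which kills one vertex embeds in a free group

`W = RACG G`, `u` a vertex, `U = sub (neighbours of u)`, `C = W ⧸ U`. The group `W` acts on the free group `F` of `C` by
permuting the generators and `sg : F → F` inverts the generators. We let `th : W → F ⋊ (W × ℤ/2)` send `gen u` to
`(of 1, (1, 1))` and the other generators `gen v` to `(1, (gen v, 0))`, and `et : F → W` send `of (w U)` to
`(w * gen u * w⁻¹) * gen u`. Then `et (th w).left * (gen u) ^ (ε w) * kill w = w`.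
-/

set_option autoImplicit false

namespace SQ

open Singer

namespace Kill

section z2
variable {H : Type*} [Group H]

/-- the group of order two -/
abbrev Z2 : Type := Multiplicative (ZMod 2)

/-- its generator -/
def z1 : Z2 := Multiplicative.ofAdd 1

lemma z2_cases (a : Z2) : a = 1 ∨ a = z1 := by
  revert a; decide

lemma z1_mul_z1 : z1 * z1 = 1 := by decide

/-- the homomorphism of an element of order two -/
def z2 (h : H) (hh : h * h = 1) : Z2 →* H where
  toFun e := if e = 1 then 1 else h
  map_one' := if_pos rfl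
  map_mul' a b := by
    have h1 : z1 ≠ 1 := by decide
    have h2 : z1 * z1 = 1 := by decide
    rcases z2_cases a with rfl | rfl <;> rcases z2_cases b with rfl | rfl <;> simp [h1, h2, hh]

@[simp] lemma z2_z1 (h : H) (hh : h * h = 1) : z2 h hh z1 = h := by
  have h1 : z1 ≠ 1 := by decide
  show (if z1 = 1 then 1 else h) = h
  exact if_neg h1

end z2

section free
variable {W : Type} [Group W] {C : Type} [MulAction W C]

/-- the action on the free group by permutations of the generators -/
def al (W : Type) [Group W] (C : Type) [MulAction W C] : W →* MulAut (FreeGroup C) where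
  toFun w := FreeGroup.freeGroupCongr (MulAction.toPerm w)
  map_one' := by
    refine MulEquiv.toMonoidHom_injective (FreeGroup.ext_hom _ _ fun c => ?_)
    simp
  map_mul' a b := by
    refine MulEquiv.toMonoidHom_injective (FreeGroup.ext_hom _ _ fun c => ?_)
    simp [mul_smul]

lemma al_of (w : W) (c : C) : al W C w (FreeGroup.of c) = FreeGroup.of (w • c) := by simp [al]

/-- inversion of the generators, as a homomorphism -/
def sg0 (C : Type) : FreeGroup C →* FreeGroup C := FreeGroup.lift fun c => (FreeGroup.of c)⁻¹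

lemma sg0_sg0 : (sg0 C).comp (sg0 C) = MonoidHom.id _ := by
  ext c; simp [sg0]

/-- inversion of the generators -/
def sg (C : Type) : MulAut (FreeGroup C) := MonoidHom.toMulEquiv (sg0 C) (sg0 C) sg0_sg0 sg0_sg0

lemma sg_of (c : C) : sg C (FreeGroup.of c) = (FreeGroup.of c)⁻¹ := by simp [sg, sg0]

lemma sg_mul_sg : sg C * sg C = 1 := by
  refine MulEquiv.toMonoidHom_injective (FreeGroup.ext_hom _ _ fun c => ?_)
  simp [sg_of]

lemma al_sg (w : W) : al W C w * sg C = sg C * al W C w := by
  refine MulEquiv.toMonoidHom_injective (FreeGroup.ext_hom _ _ fun c => ?_)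
  simp [sg_of, al_of]

lemma al_sg' (w : W) (f : FreeGroup C) : al W C w (sg C f) = sg C (al W C w f) := DFunLike.congr_fun (al_sg w) f

lemma al_commute (w : W) (e : Z2) : Commute (al W C w) (z2 (sg C) sg_mul_sg e) := by
  rcases z2_cases e with rfl | rfl
  · rw [map_one]; exact Commute.one_right _
  · rw [z2_z1]; exact al_sg w

/-- the action of `W × ℤ/2` -/
def ps (W : Type) [Group W] (C : Type) [MulAction W C] : W × Z2 →* MulAut (FreeGroup C) :=
  MonoidHom.noncommCoprod (al W C) (z2 (sg C) sg_mul_sg) al_commute

lemma ps_left (w : W) : ps W C (w, 1) = al W C w := by simp [ps]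

lemma ps_right : ps W C (1, z1) = sg C := by simp [ps]

end free

variable {V : Type} (G : SimpleGraph V) (u : V)

/-- the special subgroup of the neighbours -/
abbrev U : Subgroup (RACG G) := Racg.sub {v | G.Adj u v}

/-- the cosets -/
abbrev Co : Type := RACG G ⧸ U G u

/-- the trivial coset -/
abbrev c0 : Co G u := ((1 : RACG G) : RACG G ⧸ U G u)

variable {G u}

lemma smul_c0 {v : V} (h : G.Adj u v) : Racg.gen G v • c0 G u = c0 G u := by
  show ((Racg.gen G v * 1 : RACG G) : RACG G ⧸ U G u) = ((1 : RACG G) : RACG G ⧸ U G u)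
  rw [eq_comm, QuotientGroup.eq]
  simpa using Racg.gen_mem_sub (G := G) (A := {v | G.Adj u v}) h

open Classical in
/-- the homomorphism to the semidirect product -/
noncomputable def th (G : SimpleGraph V) (u : V) :
    RACG G →* SemidirectProduct (FreeGroup (Co G u)) (RACG G × Z2) (ps (RACG G) (Co G u)) :=
  Racg.lift (fun v => if v = u then ⟨FreeGroup.of (c0 G u), (1, z1)⟩ else ⟨1, (Racg.gen G v, 1)⟩)
    (fun v => by
      split_ifs
      · refine SemidirectProduct.ext ?_ ?_
        · show FreeGroup.of (c0 G u) * ps _ _ (1, z1) (FreeGroup.of (c0 G u)) = 1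
          rw [ps_right, sg_of, mul_inv_cancel]
        · show ((1 : RACG G), z1) * ((1 : RACG G), z1) = 1
          exact Prod.ext (mul_one _) z1_mul_z1
      · refine SemidirectProduct.ext ?_ ?_
        · show (1 : FreeGroup (Co G u)) * ps _ _ (Racg.gen G v, 1) 1 = 1
          rw [map_one, one_mul]
        · show (Racg.gen G v, (1 : Z2)) * (Racg.gen G v, (1 : Z2)) = 1
          exact Prod.ext (Racg.gen_mul_gen G v) (mul_one _))
    fun v w h => by
      have key : ∀ v : V, G.Adj u v →
          (⟨FreeGroup.of (c0 G u), (1, z1)⟩ * ⟨1, (Racg.gen G v, 1)⟩ :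
            SemidirectProduct (FreeGroup (Co G u)) (RACG G × Z2) (ps (RACG G) (Co G u))) =
          ⟨1, (Racg.gen G v, 1)⟩ * ⟨FreeGroup.of (c0 G u), (1, z1)⟩ := by
        intro v h
        refine SemidirectProduct.ext ?_ ?_
        · show FreeGroup.of (c0 G u) * ps _ _ (1, z1) 1 = 1 * ps _ _ (Racg.gen G v, 1) (FreeGroup.of (c0 G u))
          rw [map_one, ps_left, al_of, smul_c0 h, one_mul, mul_one]
        · show ((1 : RACG G), z1) * (Racg.gen G v, 1) = (Racg.gen G v, 1) * (1, z1)
          exact Prod.ext (by simp) (by simp)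
      split_ifs with h1 h2
      · rfl
      · subst h1; exact key w h
      · rename_i h2
        subst h2; exact (key v h.symm).symm
      · refine SemidirectProduct.ext ?_ ?_
        · show (1 : FreeGroup (Co G u)) * ps _ _ (Racg.gen G v, 1) 1 = 1 * ps _ _ (Racg.gen G w, 1) 1
          rw [map_one, map_one]
        · show (Racg.gen G v, (1 : Z2)) * (Racg.gen G w, (1 : Z2)) = (Racg.gen G w, (1 : Z2)) * (Racg.gen G v, (1 : Z2))
          exact Prod.ext (Racg.gen_comm h) rfl

/-- conjugates of `gen u` -/
def cj (G : SimpleGraph V) (u : V) : Co G u → RACG G :=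
  Quotient.lift (fun w => w * Racg.gen G u * w⁻¹) (by
    intro a b hab
    have h : a⁻¹ * b ∈ U G u := QuotientGroup.leftRel_apply.1 hab
    have h1 : U G u ≤ Subgroup.centralizer {Racg.gen G u} := by
      refine (Subgroup.closure_le _).2 ?_
      rintro _ ⟨v, hv, rfl⟩
      exact Subgroup.mem_centralizer_singleton_iff.2 (Racg.gen_comm hv).symm
    have h2 := Subgroup.mem_centralizer_singleton_iff.1 (h1 h)
    show a * Racg.gen G u * a⁻¹ = b * Racg.gen G u * b⁻¹
    have h3 : b = a * (a⁻¹ * b) := by group
    generalize a⁻¹ * b = c at h2 h3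
    subst h3
    rw [mul_inv_rev, ← mul_assoc, mul_assoc a c, h2]
    group)

lemma cj_c0 : cj G u (c0 G u) = Racg.gen G u := by
  show (1 : RACG G) * Racg.gen G u * 1⁻¹ = _
  simp

lemma cj_smul (w : RACG G) (c : Co G u) : cj G u (w • c) = w * cj G u c * w⁻¹ := by
  induction c using QuotientGroup.induction_on with
  | H a =>
    show (w * a) * Racg.gen G u * (w * a)⁻¹ = w * (a * Racg.gen G u * a⁻¹) * w⁻¹
    group

/-- the map back -/
def et (G : SimpleGraph V) (u : V) : FreeGroup (Co G u) →* RACG G :=
  FreeGroup.lift fun c => cj G u c * Racg.gen G u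

lemma et_of (c : Co G u) : et G u (FreeGroup.of c) = cj G u c * Racg.gen G u := FreeGroup.lift_apply_of ..

lemma cj_cj (c : Co G u) : cj G u c * cj G u c = 1 := by
  induction c using QuotientGroup.induction_on with
  | H a =>
    show a * Racg.gen G u * a⁻¹ * (a * Racg.gen G u * a⁻¹) = 1
    have : a * Racg.gen G u * a⁻¹ * (a * Racg.gen G u * a⁻¹) = a * (Racg.gen G u * Racg.gen G u) * a⁻¹ := by group
    rw [this, Racg.gen_mul_gen, mul_one, mul_inv_cancel]

lemma et_sg (f : FreeGroup (Co G u)) : et G u (sg _ f) = Racg.gen G u * et G u f * Racg.gen G u := by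
  have h : (et G u).comp (sg _ : FreeGroup (Co G u) ≃* FreeGroup (Co G u)).toMonoidHom =
      (MulAut.conj (Racg.gen G u)).toMonoidHom.comp (et G u) := by
    refine FreeGroup.ext_hom _ _ fun c => ?_
    show et G u (sg _ (FreeGroup.of c)) = Racg.gen G u * et G u (FreeGroup.of c) * (Racg.gen G u)⁻¹
    rw [sg_of, map_inv, et_of, mul_inv_rev, inv_eq_of_mul_eq_one_left (cj_cj c), mul_assoc, mul_assoc, mul_inv_cancel,
      mul_one, Racg.gen_inv]
  have h1 := DFunLike.congr_fun h f
  have h2 : et G u (sg _ f) = Racg.gen G u * et G u f * (Racg.gen G u)⁻¹ := h1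
  rwa [Racg.gen_inv] at h2

lemma th_u : th G u (Racg.gen G u) = ⟨FreeGroup.of (c0 G u), (1, z1)⟩ := by
  rw [th, Racg.lift_gen, if_pos rfl]

lemma th_v {v : V} (h : v ≠ u) : th G u (Racg.gen G v) = ⟨1, (Racg.gen G v, 1)⟩ := by
  rw [th, Racg.lift_gen, if_neg h]

lemma left_u (w : RACG G) : (th G u (Racg.gen G u * w)).left = FreeGroup.of (c0 G u) * sg _ (th G u w).left := by
  rw [map_mul, SemidirectProduct.mul_left, th_u, ps_right]

lemma left_v {v : V} (h : v ≠ u) (w : RACG G) :
    (th G u (Racg.gen G v * w)).left = al _ _ (Racg.gen G v) (th G u w).left := by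
  rw [map_mul, SemidirectProduct.mul_left, th_v h, ps_left, one_mul]

/-- the sign of an element -/
noncomputable def ep (G : SimpleGraph V) (u : V) (w : RACG G) : RACG G :=
  z2 (Racg.gen G u) (Racg.gen_mul_gen G u) (th G u w).right.2

lemma ep_u (w : RACG G) : ep G u (Racg.gen G u * w) = Racg.gen G u * ep G u w := by
  rw [ep, map_mul, SemidirectProduct.mul_right, th_u, Prod.snd_mul, map_mul, z2_z1]
  rfl

lemma ep_v {v : V} (h : v ≠ u) (w : RACG G) : ep G u (Racg.gen G v * w) = ep G u w := by
  rw [ep, map_mul, SemidirectProduct.mul_right, th_v h, Prod.snd_mul, one_mul]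
  rfl

lemma ep_one : ep G u 1 = 1 := by
  rw [ep, map_one]
  exact map_one _

lemma star_eq (w k : RACG G) : et G u (al _ _ k (th G u w).left) * ep G u w * k =
    k * (et G u (th G u w).left * ep G u w) := by
  induction w using Racg.induction generalizing k with
  | h1 =>
    rw [map_one, ep_one, SemidirectProduct.one_left, map_one, map_one, mul_one, mul_one, one_mul]
  | hm v w ih =>
    by_cases hv : v = u
    · subst hv
      rw [left_u, ep_u, map_mul, map_mul, map_mul, al_of, al_sg', et_of, et_of, et_sg, et_sg, cj_smul, cj_c0]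
      have h1 := ih k
      generalize et G v (al _ _ k (th G v w).left) = x at h1 ⊢
      generalize et G v (th G v w).left = y at h1 ⊢
      generalize ep G v w = z at h1 ⊢
      have h2 := Racg.gen_mul_gen G v
      generalize Racg.gen G v = s at h2 ⊢
      have h3 : s⁻¹ = s := inv_eq_of_mul_eq_one_left h2
      calc k * s * k⁻¹ * s * (s * x * s) * (s * z) * k = k * s * k⁻¹ * (s * s) * x * (s * s) * z * k := by group
        _ = k * s * k⁻¹ * (x * z * k) := by rw [h2]; group
        _ = k * s * (y * z) := by rw [h1]; group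
        _ = k * (1 * s * y * 1 * z) := by group
        _ = k * ((s * s) * s * y * (s * s) * z) := by rw [h2]
        _ = k * (s * s * (s * y * s) * (s * z)) := by group
    · rw [left_v hv, ep_v hv]
      have h1 := ih (k * Racg.gen G v)
      have h2 := ih (Racg.gen G v)
      rw [map_mul, MulAut.mul_apply] at h1
      generalize et G u (al _ _ k (al _ _ (Racg.gen G v) (th G u w).left)) = x at h1 ⊢
      generalize et G u (al _ _ (Racg.gen G v) (th G u w).left) = x' at h2 ⊢
      generalize et G u (th G u w).left = y at h1 h2 ⊢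
      generalize ep G u w = z at h1 h2 ⊢
      rw [← mul_assoc] at h1
      refine mul_right_cancel (b := Racg.gen G v) ?_
      rw [h1, mul_assoc k (Racg.gen G v), ← h2]
      group

/-- the retraction which kills `u` -/
lemma kill_u : kill G {u} (Racg.gen G u) = 1 := by
  rw [kill, Racg.lift_gen, if_pos (Set.mem_singleton u)]

lemma kill_v {v : V} (h : v ≠ u) : kill G {u} (Racg.gen G v) = Racg.gen G v := by
  rw [kill, Racg.lift_gen, if_neg (fun h' => h (Set.mem_singleton_iff.1 h'))]

lemma et_left (w : RACG G) : et G u (th G u w).left * ep G u w * kill G {u} w = w := by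
  induction w using Racg.induction with
  | h1 => rw [map_one, map_one, ep_one, SemidirectProduct.one_left, map_one, mul_one, mul_one]
  | hm v w ih =>
    by_cases hv : v = u
    · subst hv
      rw [left_u, ep_u, map_mul, et_of, et_sg, cj_c0, map_mul, kill_u, one_mul, Racg.gen_mul_gen, one_mul]
      generalize et G v (th G v w).left = y at ih ⊢
      generalize ep G v w = z at ih ⊢
      have h2 := Racg.gen_mul_gen G v
      calc Racg.gen G v * y * Racg.gen G v * (Racg.gen G v * z) * kill G {v} w =
          Racg.gen G v * y * (Racg.gen G v * Racg.gen G v) * z * kill G {v} w := by group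
        _ = Racg.gen G v * (y * z * kill G {v} w) := by rw [h2]; group
        _ = _ := by rw [ih]
    · rw [left_v hv, ep_v hv, map_mul, kill_v hv, ← mul_assoc, star_eq, mul_assoc, ih]

lemma right_fst (w : RACG G) : (th G u w).right.1 = kill G {u} w := by
  induction w using Racg.induction with
  | h1 => rw [map_one, map_one]; rfl
  | hm v w ih =>
    rw [map_mul, map_mul, SemidirectProduct.mul_right, Prod.fst_mul, ih]
    by_cases hv : v = u
    · subst hv
      rw [th_u, kill_u]
    · rw [th_v hv, kill_v hv]

lemma right_snd {w : RACG G} (h : w ∈ commutator (RACG G)) : (th G u w).right.2 = 1 := by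
  let f : RACG G →* Z2 := (MonoidHom.snd (RACG G) Z2).comp (SemidirectProduct.rightHom.comp (th G u))
  have h1 : commutator (RACG G) ≤ f.ker := Abelianization.commutator_subset_ker f
  exact h1 h

end Kill

open Kill in
/-- **T2a** -/
theorem s_kill : S_kill := by
  intro V _ G u
  have key : ∀ w : ((kill G {u}).ker ⊓ commutator (RACG G) : Subgroup (RACG G)), (th G u w.1).right = 1 := by
    rintro ⟨w, hw, hw'⟩
    exact Prod.ext ((right_fst w).trans hw) (right_snd hw')
  refine ⟨Co G u, { toFun := fun w => (th G u w.1).left, map_one' := ?_, map_mul' := ?_ }, ?_⟩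
  · show (th G u 1).left = 1
    rw [map_one]; rfl
  · intro a b
    show (th G u (a.1 * b.1)).left = _
    rw [map_mul, SemidirectProduct.mul_left, key a, map_one]
    rfl
  · rw [injective_iff_map_eq_one]
    rintro w hw
    have h0 : (th G u w.1).left = 1 := hw
    have h1 := et_left (u := u) w.1
    have h2 : kill G {u} w.1 = 1 := w.2.1
    have h3 : ep G u w.1 = 1 := by
      rw [ep, key w]
      exact map_one _
    rw [h0, map_one, h2, h3, mul_one, mul_one] at h1
    exact Subtype.ext h1.symm

end SQ
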