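import Pool.Agent.SQ.Ring

/-!
# E1a: the bi-invariant order on the truncated groups
-/

set_option autoImplicit false

noncomputable section

namespace SQ

namespace Ord

open PowerSeries

theorem order_of_cone {Q : Type} [Group Q] (P : Q → Prop) (hmul : ∀ a b, P a → P b → P (a * b))
    (hone : ¬ P 1) (htot : ∀ a, a ≠ 1 → P a ∨ P a⁻¹) (hconj : ∀ a b, P a → P (b * a * b⁻¹)) :
    ∃ _ : LinearOrder Q, (∀ a b d : Q, a ≤ b → d * a ≤ d * b) ∧ ∀ a b d : Q, a ≤ b → a * d ≤ b * d := by
  classical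
  let L : LinearOrder Q :=
    { le := fun a b => a = b ∨ P (a⁻¹ * b)
      le_refl := fun a => Or.inl rfl
      le_trans := by
        rintro a b c (rfl | h1) (rfl | h2)
        · exact Or.inl rfl
        · exact Or.inr h2
        · exact Or.inr h1
        · refine Or.inr ?_
          have := hmul _ _ h1 h2
          rwa [show a⁻¹ * b * (b⁻¹ * c) = a⁻¹ * c by group] at this
      le_antisymm := by
        rintro a b (rfl | h1) h
        · rfl
        · rcases h with rfl | h2
          · rfl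
          · exfalso
            apply hone
            have := hmul _ _ h1 h2
            rwa [show a⁻¹ * b * (b⁻¹ * a) = 1 by group] at this
      le_total := by
        intro a b
        by_cases hab : a = b
        · exact Or.inl (Or.inl hab)
        · have h1 : a⁻¹ * b ≠ 1 := by
            intro h
            exact hab (inv_mul_eq_one.1 h)
          rcases htot _ h1 with h | h
          · exact Or.inl (Or.inr h)
          · refine Or.inr (Or.inr ?_)
            rwa [show (a⁻¹ * b)⁻¹ = b⁻¹ * a by group] at h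
      toDecidableLE := Classical.decRel _ }
  refine ⟨L, ?_, ?_⟩
  · rintro a b d (rfl | h)
    · exact Or.inl rfl
    · refine Or.inr ?_
      rwa [show (d * a)⁻¹ * (d * b) = a⁻¹ * b by group]
  · rintro a b d (rfl | h)
    · exact Or.inl rfl
    · refine Or.inr ?_
      have := hconj _ d⁻¹ h
      rwa [show d⁻¹ * (a⁻¹ * b) * d⁻¹⁻¹ = (a * d)⁻¹ * (b * d) by group] at this

/-- a total order of a free abelian group of finite rank, as a positive cone -/
theorem exists_pos (A : Type) [AddCommGroup A] [Module.Finite ℤ A] [Module.Free ℤ A] :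
    ∃ pos : A → Prop, (∀ a b, pos a → pos b → pos (a + b)) ∧ ¬ pos 0 ∧
      ∀ a, a ≠ 0 → pos a ∨ pos (-a) := by
  classical
  let b := Module.finBasis ℤ A
  refine ⟨fun a => ∃ i, 0 < b.repr a i ∧ ∀ j < i, b.repr a j = 0, ?_, ?_, ?_⟩
  · rintro x y ⟨i, hi, hi'⟩ ⟨j, hj, hj'⟩
    rcases lt_trichotomy i j with h | h | h
    · refine ⟨i, ?_, ?_⟩
      · rw [map_add, Finsupp.add_apply, hj' i h, add_zero]; exact hi
      · intro k hk
        rw [map_add, Finsupp.add_apply, hi' k hk, hj' k (hk.trans h), add_zero]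
    · subst h
      refine ⟨i, ?_, ?_⟩
      · rw [map_add, Finsupp.add_apply]; exact add_pos hi hj
      · intro k hk
        rw [map_add, Finsupp.add_apply, hi' k hk, hj' k hk, add_zero]
    · refine ⟨j, ?_, ?_⟩
      · rw [map_add, Finsupp.add_apply, hi' j h, zero_add]; exact hj
      · intro k hk
        rw [map_add, Finsupp.add_apply, hi' k (hk.trans h), hj' k hk, add_zero]
  · rintro ⟨i, hi, -⟩
    simp at hi
  · intro a ha
    have hne : (b.repr a).support.Nonempty := by
      rw [Finset.nonempty_iff_ne_empty]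
      intro h
      rw [Finsupp.support_eq_empty] at h
      exact ha (b.repr.map_eq_zero_iff.1 h)
    set i := (b.repr a).support.min' hne with hi
    have hi0 : b.repr a i ≠ 0 := Finsupp.mem_support_iff.1 (Finset.min'_mem _ hne)
    have hlt : ∀ j < i, b.repr a j = 0 := by
      intro j hj
      by_contra h
      exact absurd (Finset.min'_le _ j (Finsupp.mem_support_iff.2 h)) (not_le.2 hj)
    rcases lt_or_gt_of_ne hi0 with h | h
    · refine Or.inr ⟨i, ?_, ?_⟩
      · rw [map_neg, Finsupp.neg_apply]; exact neg_pos.2 h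
      · intro j hj
        rw [map_neg, Finsupp.neg_apply, hlt j hj, neg_zero]
    · exact Or.inl ⟨i, h, hlt⟩

variable {A : Type} [Ring A]

/-- underlying power series -/
abbrev ps (f : PU A) : PowerSeries A := ((f : (PowerSeries A)ˣ) : PowerSeries A)

theorem cc (f : PU A) : constantCoeff (ps f) = 1 := f.2

/-- `f` has a positive leading coefficient in degree `< c` -/
def PP (pos : A → Prop) (c : ℕ) (f : PU A) : Prop :=
  ∃ (n : ℕ) (g : PowerSeries A), 1 ≤ n ∧ n < c ∧ ps f = 1 + X ^ n * g ∧ pos (constantCoeff g)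

theorem pp_mul {pos : A → Prop} (hpos : ∀ a b, pos a → pos b → pos (a + b)) {c : ℕ} {f f' : PU A}
    (h : PP pos c f) (h' : PP pos c f') : PP pos c (f * f') := by
  obtain ⟨n, g, hn, hnc, hf, hg⟩ := h
  obtain ⟨m, g', hm, hmc, hf', hg'⟩ := h'
  have key : ps (f * f') = (1 + X ^ n * g) * (1 + X ^ m * g') := by
    rw [← hf, ← hf']
    rfl
  rcases lt_trichotomy n m with h | h | h
  · obtain ⟨k, rfl⟩ := Nat.exists_eq_add_of_lt h
    refine ⟨n, g + X ^ (k + 1) * g' + g * (X ^ (n + k + 1) * g'), hn, hnc, ?_, ?_⟩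
    · rw [key, show n + k + 1 = n + (k + 1) by ring, pow_add X n (k + 1)]
      simp only [mul_add, add_mul, one_mul, mul_one, mul_assoc]
      abel
    · simpa using hg
  · subst h
    refine ⟨n, g + g' + g * (X ^ n * g'), hn, hnc, ?_, ?_⟩
    · rw [key]
      simp only [mul_add, add_mul, one_mul, mul_one, mul_assoc]
      abel
    · have : constantCoeff (g * (X ^ n * g')) = 0 := by
        rw [map_mul, map_mul, map_pow, constantCoeff_X, zero_pow (by omega), zero_mul, mul_zero]
      rw [map_add, map_add, this, add_zero]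
      exact hpos _ _ hg hg'
  · obtain ⟨k, rfl⟩ := Nat.exists_eq_add_of_lt h
    refine ⟨m, X ^ (k + 1) * g + g' + X ^ (k + 1) * g * (X ^ m * g'), hm, hmc, ?_, ?_⟩
    · rw [key, show m + k + 1 = m + (k + 1) by ring, pow_add X m (k + 1)]
      simp only [mul_add, add_mul, one_mul, mul_one, mul_assoc]
      abel
    · have : constantCoeff (X ^ (k + 1) * g * (X ^ m * g')) = 0 := by
        simp
      rw [map_add, map_add, this, add_zero]
      simpa using hg'

theorem pp_conj {pos : A → Prop} {c : ℕ} {f : PU A} (u : PU A) (h : PP pos c f) :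
    PP pos c (u * f * u⁻¹) := by
  obtain ⟨n, g, hn, hnc, hf, hg⟩ := h
  refine ⟨n, ps u * g * ps u⁻¹, hn, hnc, ?_, ?_⟩
  · have h1 : ps u * ps u⁻¹ = 1 := Units.mul_inv _
    have h2 : ps u * X ^ n = X ^ n * ps u := (commute_X_pow _ _).eq
    have key : ps (u * f * u⁻¹) = ps u * ps f * ps u⁻¹ := rfl
    rw [key, hf, mul_add, mul_one, add_mul, h1, ← mul_assoc, h2]
    simp only [mul_assoc]
  · rw [map_mul, map_mul, cc, cc, one_mul, mul_one]
    exact hg

theorem pp_not {pos : A → Prop} (h0 : ¬ pos 0) {c : ℕ} {f : PU A} (hf : f ∈ PK A c) :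
    ¬ PP pos c f := by
  rintro ⟨n, g, hn, hnc, hf', hg⟩
  obtain ⟨h, hh⟩ := hf
  have e : X ^ n * g = X ^ c * h := by
    have : (1 : PowerSeries A) + X ^ n * g = 1 + X ^ c * h := by rw [← hf', ← hh]
    exact add_left_cancel this
  have e2 := congrArg (coeff n) e
  rw [coeff_X_pow_mul', coeff_X_pow_mul', if_pos le_rfl, if_neg (by omega), Nat.sub_self,
    coeff_zero_eq_constantCoeff_apply] at e2
  rw [e2] at hg
  exact h0 hg

theorem pp_tot {pos : A → Prop} (htot : ∀ a, a ≠ 0 → pos a ∨ pos (-a)) {c : ℕ} {f : PU A}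
    (hf : f ∉ PK A c) : PP pos c f ∨ PP pos c f⁻¹ := by
  classical
  have hex : ∃ n, ¬ ∃ g : PowerSeries A, ps f = 1 + X ^ n * g := ⟨c, hf⟩
  set n := Nat.find hex with hn
  have hfail : ¬ ∃ g : PowerSeries A, ps f = 1 + X ^ n * g := Nat.find_spec hex
  have hnc : n ≤ c := Nat.find_min' hex hf
  have hn0 : n ≠ 0 := by
    intro h
    apply hfail
    exact ⟨ps f - 1, by rw [h, pow_zero, one_mul]; abel⟩
  have hn1 : n ≠ 1 := by
    intro h
    apply hfail
    have h2 : constantCoeff (ps f - 1) = 0 := by rw [map_sub, cc, map_one, sub_self]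
    obtain ⟨g, hg⟩ := X_dvd_iff.2 h2
    exact ⟨g, by rw [h, pow_one, ← hg]; abel⟩
  obtain ⟨m, hm⟩ : ∃ m, n = m + 1 := ⟨n - 1, by omega⟩
  have hm' : ∃ g : PowerSeries A, ps f = 1 + X ^ m * g := by
    have := Nat.find_min hex (show m < Nat.find hex by omega)
    simpa using this
  obtain ⟨g, hg⟩ := hm'
  have hg0 : constantCoeff g ≠ 0 := by
    intro h0
    obtain ⟨g', rfl⟩ := X_dvd_iff.2 h0
    apply hfail
    exact ⟨g', by rw [hg, hm, pow_succ, mul_assoc]⟩
  rcases htot _ hg0 with h | h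
  · exact Or.inl ⟨m, g, by omega, by omega, hg, h⟩
  · refine Or.inr ⟨m, -(g * ps f⁻¹), by omega, by omega, ?_, ?_⟩
    · have h1 : ps f * ps f⁻¹ = 1 := Units.mul_inv _
      rw [hg, add_mul, one_mul, mul_assoc] at h1
      rw [mul_neg, ← sub_eq_add_neg, eq_sub_iff_add_eq]
      exact h1
    · rw [map_neg, map_mul, cc, mul_one]
      exact h

end Ord

open Ord in
theorem s_order : S_order := by
  intro A _ _ _ c
  obtain ⟨pos, hadd, h0, htot⟩ := exists_pos A
  refine order_of_cone (fun q : UC A c => ∃ f : PU A, (f : UC A c) = q ∧ PP pos c f) ?_ ?_ ?_ ?_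
  · rintro _ _ ⟨f, rfl, hf⟩ ⟨g, rfl, hg⟩
    exact ⟨f * g, rfl, pp_mul hadd hf hg⟩
  · rintro ⟨f, hf, hP⟩
    exact pp_not h0 ((QuotientGroup.eq_one_iff f).1 hf) hP
  · intro a ha
    obtain ⟨f, rfl⟩ := QuotientGroup.mk_surjective a
    have hf : f ∉ PK A c := fun h => ha ((QuotientGroup.eq_one_iff f).2 h)
    rcases pp_tot htot hf with h | h
    · exact Or.inl ⟨f, rfl, h⟩
    · exact Or.inr ⟨f⁻¹, rfl, h⟩
  · rintro _ b ⟨f, rfl, hf⟩
    obtain ⟨u, rfl⟩ := QuotientGroup.mk_surjective b
    exact ⟨u * f * u⁻¹, rfl, pp_conj u hf⟩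

end SQ
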