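import Pool.Agent.SQ.Ring

/-!
# SQ, row T1: the Tits representation over `ℤ[[t]]`

The generator of `v` acts by `sg v + mm v * X`, a polynomial with diagonal constant coefficient. Faithfulness is
proved at `X = 1`: the orbit of the vector `(1, ..., 1)` is free.
-/

set_option autoImplicit false

namespace SQ

open Singer Polynomial

namespace TRep

variable {V : Type} (G : SimpleGraph V)

open Classical in
/-- the diagonal sign matrix of a vertex -/
noncomputable def sg (v : V) : Module.End ℤ (V → ℤ) where
  toFun f u := if u = v then -f v else f u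
  map_add' f g := by
    ext u
    simp only [Pi.add_apply]
    split_ifs <;> ring
  map_smul' c f := by
    ext u
    simp only [Pi.smul_apply, smul_eq_mul, RingHom.id_apply]
    split_ifs <;> ring

open Classical in
/-- the linear coefficient -/
noncomputable def mm (v : V) : Module.End ℤ (V → ℤ) where
  toFun f u := if u = v ∨ G.Adj u v then 0 else 2 * f v
  map_add' f g := by
    ext u
    simp only [Pi.add_apply]
    split_ifs <;> ring
  map_smul' c f := by
    ext u
    simp only [Pi.smul_apply, smul_eq_mul, RingHom.id_apply]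
    split_ifs <;> ring

open Classical in
lemma sg_apply (v : V) (f : V → ℤ) (u : V) : sg v f u = if u = v then -f v else f u := rfl

open Classical in
lemma mm_apply (v : V) (f : V → ℤ) (u : V) : mm G v f u = if u = v ∨ G.Adj u v then 0 else 2 * f v := rfl

lemma sg_sg (v : V) : sg v * sg v = 1 := by
  refine LinearMap.ext fun f => funext fun u => ?_
  rw [Module.End.mul_apply, Module.End.one_apply, sg_apply, sg_apply, sg_apply, if_pos rfl, neg_neg]
  split_ifs with h
  · rw [h]
  · rfl

lemma mm_self (v : V) (f : V → ℤ) : mm G v f v = 0 := by rw [mm_apply, if_pos (Or.inl rfl)]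

variable {G} in
lemma mm_adj {u v : V} (h : G.Adj u v) (f : V → ℤ) : mm G v f u = 0 := by rw [mm_apply, if_pos (Or.inr h)]

lemma mm_mm (v : V) : mm G v * mm G v = 0 := by
  refine LinearMap.ext fun f => funext fun u => ?_
  rw [Module.End.mul_apply, mm_apply, mm_self, mul_zero, ite_self]
  rfl

lemma sg_mm (v : V) : sg v * mm G v + mm G v * sg v = 0 := by
  refine LinearMap.ext fun f => funext fun u => ?_
  rw [LinearMap.add_apply, Module.End.mul_apply, Module.End.mul_apply, Pi.add_apply, sg_apply, mm_self, mm_apply,
    mm_apply, sg_apply, if_pos rfl]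
  show _ = (0 : ℤ)
  split_ifs with h1 h2 h3
  · simp
  · exact absurd (Or.inl h1) h2
  · simp
  · ring

lemma sg_comm (u v : V) : sg u * sg v = sg v * sg u := by
  refine LinearMap.ext fun f => funext fun x => ?_
  rw [Module.End.mul_apply, Module.End.mul_apply, sg_apply, sg_apply v f, sg_apply v f, sg_apply v (sg u f),
    sg_apply u f v, sg_apply u f x]
  by_cases h1 : x = u
  · by_cases h2 : x = v
    · have h3 : u = v := h1.symm.trans h2
      rw [if_pos h1, if_pos h2, if_pos h3, if_pos h3.symm, h3]
    · have h3 : ¬ u = v := fun h => h2 (h1.trans h)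
      rw [if_pos h1, if_neg h2, if_neg h3, if_pos h1]
  · by_cases h2 : x = v
    · have h3 : ¬ v = u := fun h => h1 (h2.trans h)
      rw [if_neg h1, if_pos h2, if_pos h2, if_neg h3]
    · rw [if_neg h1, if_neg h2, if_neg h2, if_neg h1]

variable {G}

lemma sg_mm_adj {u v : V} (h : G.Adj u v) : sg u * mm G v = mm G v := by
  refine LinearMap.ext fun f => funext fun x => ?_
  rw [Module.End.mul_apply, sg_apply, mm_adj h]
  split_ifs with h1
  · rw [h1, mm_adj h, neg_zero]
  · rfl

lemma mm_sg_adj {u v : V} (h : G.Adj u v) : mm G v * sg u = mm G v := by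
  refine LinearMap.ext fun f => funext fun x => ?_
  rw [Module.End.mul_apply, mm_apply, mm_apply, sg_apply, if_neg h.ne.symm]

lemma mm_mm_adj {u v : V} (h : G.Adj u v) : mm G u * mm G v = 0 := by
  refine LinearMap.ext fun f => funext fun x => ?_
  rw [Module.End.mul_apply, mm_apply, mm_adj h, mul_zero, ite_self]
  rfl

variable (G)

/-- the generator over the polynomial ring -/
noncomputable def T (v : V) : (Module.End ℤ (V → ℤ))[X] := C (sg v) + C (mm G v) * X

lemma lin_mul {A : Type} [Ring A] (a b c d : A) :
    (C a + C b * X) * (C c + C d * X) = C (a * c) + C (a * d + b * c) * X + C (b * d) * X ^ 2 := by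
  have h1 : (X : A[X]) * C c = C c * X := X_mul_C c
  have h2 : (X : A[X]) * C d = C d * X := X_mul_C d
  calc (C a + C b * X) * (C c + C d * X)
      = C a * C c + C a * C d * X + C b * (X * C c) + C b * (X * C d) * X := by noncomm_ring
    _ = C a * C c + C a * C d * X + C b * (C c * X) + C b * (C d * X) * X := by rw [h1, h2]
    _ = (C a * C c) + (C a * C d + C b * C c) * X + (C b * C d) * X ^ 2 := by noncomm_ring
    _ = _ := by simp only [C_mul, C_add]

lemma T_mul (v : V) : T G v * T G v = 1 := by
  rw [T, lin_mul, sg_sg, sg_mm, mm_mm]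
  simp

variable {G}

lemma T_comm {u v : V} (h : G.Adj u v) : T G u * T G v = T G v * T G u := by
  rw [T, T, lin_mul, lin_mul, sg_comm u v, sg_mm_adj h, mm_sg_adj h.symm, sg_mm_adj h.symm, mm_sg_adj h,
    mm_mm_adj h, mm_mm_adj h.symm, add_comm (mm G v) (mm G u)]

variable (G)

/-- the polynomial representation -/
noncomputable def P : RACG G →* ((Module.End ℤ (V → ℤ))[X])ˣ :=
  Racg.lift (fun v => ⟨T G v, T G v, T_mul G v, T_mul G v⟩) (fun v => Units.ext (T_mul G v))
    fun _ _ h => Units.ext (T_comm h)

lemma P_gen (v : V) : ((P G (Racg.gen G v) : ((Module.End ℤ (V → ℤ))[X])ˣ) : (Module.End ℤ (V → ℤ))[X]) = T G v := by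
  rw [P, Racg.lift_gen]

/-- evaluation at one -/
noncomputable def ev : (Module.End ℤ (V → ℤ))[X] →+* Module.End ℤ (V → ℤ) :=
  eval₂RingHom' (RingHom.id _) 1 fun _ => Commute.one_right _

lemma ev_T (v : V) : ev (T G v) = sg v + mm G v := by
  show eval₂ (RingHom.id _) 1 (C (sg v) + C (mm G v) * X) = _
  rw [eval₂_add, eval₂_mul_X, eval₂_C, eval₂_C, mul_one]
  rfl

/-- the orbit of `(1, ..., 1)` -/
noncomputable def act (w : RACG G) : V → ℤ := ev ((P G w : ((Module.End ℤ (V → ℤ))[X])ˣ) : (Module.End ℤ (V → ℤ))[X]) 1

lemma act_one (v : V) : act G 1 v = 1 := by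
  rw [act, (P G).map_one, Units.val_one, ev.map_one]
  rfl

open Classical in
lemma act_gen (v : V) (w : RACG G) (u : V) : act G (Racg.gen G v * w) u =
    (if u = v then -act G w v else act G w u) + if u = v ∨ G.Adj u v then 0 else 2 * act G w v := by
  rw [act, map_mul, Units.val_mul, map_mul, P_gen, ev_T, Module.End.mul_apply, LinearMap.add_apply, Pi.add_apply,
    sg_apply, mm_apply]
  rfl

lemma act_same (v : V) (w : RACG G) : act G (Racg.gen G v * w) v = -act G w v := by
  rw [act_gen, if_pos rfl, if_pos (Or.inl rfl), add_zero]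

lemma act_adj {u v : V} (h : G.Adj u v) (w : RACG G) : act G (Racg.gen G v * w) u = act G w u := by
  rw [act_gen, if_neg h.ne, if_pos (Or.inr h), add_zero]

lemma act_non {u v : V} (h : u ≠ v) (h' : ¬ G.Adj u v) (w : RACG G) :
    act G (Racg.gen G v * w) u = act G w u + 2 * act G w v := by
  rw [act_gen, if_neg h, if_neg (not_or.2 ⟨h, h'⟩)]

/-- reached from one by steps with positive coordinate -/
inductive Good : RACG G → Prop
  | one : Good 1
  | step (v : V) (w : RACG G) : Good w → 0 < act G w v → Good (Racg.gen G v * w)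

variable {G}

lemma Good.pos {w : RACG G} (h : Good G w) :
    (∀ v, act G w v ≠ 0) ∧ ∀ u v, u ≠ v → ¬ G.Adj u v → 0 < act G w u + act G w v := by
  induction h with
  | one =>
    refine ⟨fun v => ?_, fun u v _ _ => ?_⟩
    · rw [act_one]
      exact one_ne_zero
    · rw [act_one, act_one]
      norm_num
  | step x w hw hx ih =>
    obtain ⟨h1, h2⟩ := ih
    have h3 : ∀ v, v ≠ x → act G w v ≤ act G (Racg.gen G x * w) v := fun v hv => by
      by_cases hvx : G.Adj v x
      · rw [act_adj G hvx]
      · rw [act_non G hv hvx]
        linarith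
    refine ⟨fun v => ?_, fun u v huv hn => ?_⟩
    · by_cases hv : v = x
      · rw [hv, act_same]
        exact neg_ne_zero.2 (h1 x)
      · by_cases hvx : G.Adj v x
        · rw [act_adj G hvx]
          exact h1 v
        · rw [act_non G hv hvx]
          have := h2 v x hv hvx
          linarith
    · by_cases hu : u = x
      · subst hu
        rw [act_same, act_non G huv.symm fun h => hn h.symm]
        have := h2 u v huv hn
        linarith
      · by_cases hv : v = x
        · subst hv
          rw [act_same, act_non G huv hn]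
          have := h2 u v huv hn
          linarith
        · have := h2 u v huv hn
          linarith [h3 u hu, h3 v hv]

lemma Good.exch {w : RACG G} (h : Good G w) : ∀ v, act G w v < 0 → Good G (Racg.gen G v * w) := by
  induction h with
  | one =>
    intro v hv
    rw [act_one] at hv
    norm_num at hv
  | step x w hw hx ih =>
    intro v hv
    by_cases hvx : v = x
    · rw [hvx, ← mul_assoc, Racg.gen_mul_gen, one_mul]
      exact hw
    · by_cases ha : G.Adj v x
      · rw [act_adj G ha] at hv
        have h1 := ih v hv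
        rw [← mul_assoc, Racg.gen_comm ha, mul_assoc]
        refine Good.step x _ h1 ?_
        rw [act_adj G ha.symm]
        exact hx
      · rw [act_non G hvx ha] at hv
        have := hw.pos.2 v x hvx ha
        linarith

lemma good_all (w : RACG G) : Good G w := by
  refine Racg.induction Good.one (fun v w hw => ?_) w
  rcases lt_trichotomy (act G w v) 0 with h | h | h
  · exact hw.exch v h
  · exact absurd h (hw.pos.1 v)
  · exact Good.step v w hw h

/-- the orbit is free -/
theorem act_free {w : RACG G} (h : act G w = 1) : w = 1 := by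
  cases good_all w with
  | one => rfl
  | step v w hw hv =>
    have h1 := congrFun h v
    rw [act_same, Pi.one_apply] at h1
    linarith

variable (G)

theorem P_injective : Function.Injective (P G) := by
  rw [injective_iff_map_eq_one]
  intro w hw
  refine act_free ?_
  rw [act, hw, Units.val_one, ev.map_one]
  rfl

/-! ### the constant coefficient -/

open Classical in
/-- the sign vector of a vertex -/
noncomputable def sv (v : V) : V → ℤ := fun u => if u = v then -1 else 1

lemma sv_mul (v : V) : sv v * sv v = 1 := by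
  funext u
  show sv v u * sv v u = 1
  unfold sv
  split_ifs <;> norm_num

/-- the signs -/
noncomputable def dl : RACG G →* (V → ℤ)ˣ :=
  Racg.lift (fun v => ⟨sv v, sv v, sv_mul v, sv_mul v⟩) (fun v => Units.ext (sv_mul v)) fun _ _ _ => mul_comm _ _

/-- the constant coefficient is diagonal -/
lemma const_eq : (Units.map ((constantCoeff : (Module.End ℤ (V → ℤ))[X] →+* Module.End ℤ (V → ℤ)) :
    (Module.End ℤ (V → ℤ))[X] →* Module.End ℤ (V → ℤ))).comp (P G) =
    (Units.map (Algebra.lmul ℤ (V → ℤ) : (V → ℤ) →* Module.End ℤ (V → ℤ))).comp (dl G) := by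
  refine Racg.hom_ext fun v => Units.ext ?_
  rw [MonoidHom.comp_apply, MonoidHom.comp_apply, Units.coe_map, Units.coe_map, P_gen, dl, Racg.lift_gen]
  show constantCoeff (T G v) = Algebra.lmul ℤ (V → ℤ) (sv v)
  rw [T, map_add, map_mul, constantCoeff_apply X, coeff_X_zero, mul_zero, add_zero,
    constantCoeff_apply, coeff_C_zero]
  refine LinearMap.ext fun f => funext fun u => ?_
  show sg v f u = sv v u * f u
  rw [sg_apply, sv]
  split_ifs with h
  · rw [h]
    ring
  · ring

lemma const_one {g : RACG G} (hg : g ∈ commutator (RACG G)) :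
    constantCoeff ((P G g : ((Module.End ℤ (V → ℤ))[X])ˣ) : (Module.End ℤ (V → ℤ))[X]) = 1 := by
  have h1 : dl G g = 1 := Abelianization.commutator_subset_ker (dl G) hg
  have h2 := DFunLike.congr_fun (const_eq G) g
  rw [MonoidHom.comp_apply, MonoidHom.comp_apply, h1, map_one] at h2
  exact congrArg Units.val h2

end TRep

open TRep

/-- **T1** -/
theorem s_rep : S_rep := by
  intro V _ G
  let A := Module.End ℤ (V → ℤ)
  let R : RACG G →* (PowerSeries A)ˣ :=
    (Units.map ((coeToPowerSeries.ringHom : A[X] →+* PowerSeries A) : A[X] →* PowerSeries A)).comp (P G)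
  have hR : ∀ g, ((R g : (PowerSeries A)ˣ) : PowerSeries A) = ((P G g : (A[X])ˣ) : A[X]) := fun g => rfl
  have hc : ∀ g ∈ commutator (RACG G), R g ∈ PU A := fun g hg => by
    show PowerSeries.constantCoeff ((R g : (PowerSeries A)ˣ) : PowerSeries A) = 1
    rw [hR, ← PowerSeries.coeff_zero_eq_constantCoeff_apply, Polynomial.coeff_coe]
    exact const_one G hg
  refine ⟨(R.comp (commutator (RACG G)).subtype).codRestrict (PU A) fun g => hc g g.2, ?_⟩
  rw [injective_iff_map_eq_one]
  intro g hg
  have h1 : ((R g : (PowerSeries A)ˣ) : PowerSeries A) = 1 :=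
    congrArg (fun x : PU A => ((x : (PowerSeries A)ˣ) : PowerSeries A)) hg
  rw [hR, ← Polynomial.coe_one, Polynomial.coe_inj] at h1
  exact Subtype.ext (P_injective G ((Units.ext h1 : P G g = 1).trans (map_one _).symm))

end SQ
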