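import Pool.Agent.SQ.Ring

/-!
# SQ row E4: the ultraproduct of a sequence of division rings with involution
-/

set_option autoImplicit false

noncomputable section

namespace SQ

open Filter

namespace Ultra

/-! ### division rings -/

section Div

variable {I : Type} (U : Ultrafilter I) (D : I → Type) [∀ c, DivisionRing (D c)]

/-- eventual equality -/
def con : RingCon (∀ c, D c) where
  r f g := ∀ᶠ c in (U : Filter I), f c = g c
  iseqv := ⟨fun _ => Eventually.of_forall fun _ => rfl, fun h => h.mono fun _ h => h.symm,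
    fun h h' => by filter_upwards [h, h'] with c a b using a.trans b⟩
  mul' h h' := by filter_upwards [h, h'] with c a b using by simp only [Pi.mul_apply, a, b]
  add' h h' := by filter_upwards [h, h'] with c a b using by simp only [Pi.add_apply, a, b]

/-- the ultraproduct -/
def UD : Type := (con U D).Quotient

instance : Ring (UD U D) := inferInstanceAs (Ring (con U D).Quotient)

/-- the class of a sequence -/
def mk : (∀ c, D c) →+* UD U D := (con U D).mk'

theorem mk_surj : Function.Surjective (mk U D) := (con U D).mk'_surjective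

variable {U D}

theorem mk_eq {f g : ∀ c, D c} : mk U D f = mk U D g ↔ ∀ᶠ c in (U : Filter I), f c = g c :=
  (con U D).eq

theorem mk_eq_zero {f : ∀ c, D c} : mk U D f = 0 ↔ ∀ᶠ c in (U : Filter I), f c = 0 := by
  rw [← map_zero (mk U D), mk_eq]
  rfl

theorem mk_ne_zero {f : ∀ c, D c} : mk U D f ≠ 0 ↔ ∀ᶠ c in (U : Filter I), f c ≠ 0 := by
  rw [Ne, mk_eq_zero, Ultrafilter.eventually_not]

instance : Nontrivial (UD U D) := ⟨0, 1, by
  intro h
  rw [← map_one (mk U D), eq_comm, mk_eq_zero] at h
  obtain ⟨c, hc⟩ := h.exists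
  exact one_ne_zero hc⟩

theorem mk_mul_inv {f : ∀ c, D c} (h : mk U D f ≠ 0) : mk U D f * mk U D (fun c => (f c)⁻¹) = 1 := by
  rw [← map_mul, ← map_one (mk U D), mk_eq]
  filter_upwards [mk_ne_zero.1 h] with c hc
  exact mul_inv_cancel₀ hc

theorem mk_inv_mul {f : ∀ c, D c} (h : mk U D f ≠ 0) : mk U D (fun c => (f c)⁻¹) * mk U D f = 1 := by
  rw [← map_mul, ← map_one (mk U D), mk_eq]
  filter_upwards [mk_ne_zero.1 h] with c hc
  exact inv_mul_cancel₀ hc

instance instDiv : DivisionRing (UD U D) :=
  DivisionRing.ofIsUnitOrEqZero (R := UD U D) fun x => by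
    obtain ⟨f, rfl⟩ := mk_surj U D x
    by_cases h : mk U D f = 0
    · exact Or.inr h
    · exact Or.inl ⟨⟨_, _, mk_mul_inv h, mk_inv_mul h⟩, rfl⟩

theorem mk_inv (f : ∀ c, D c) : (mk U D f)⁻¹ = mk U D (fun c => (f c)⁻¹) := by
  by_cases h : mk U D f = 0
  · rw [h, inv_zero, eq_comm, mk_eq_zero]
    filter_upwards [mk_eq_zero.1 h] with c hc
    rw [hc, inv_zero]
  · exact inv_eq_of_mul_eq_one_right (mk_mul_inv h)

instance [∀ c, Algebra (ZMod 2) (D c)] : Algebra (ZMod 2) (UD U D) :=
  inferInstanceAs (Algebra (ZMod 2) (con U D).Quotient)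

/-- the star of a class -/
def starFun [∀ c, StarRing (D c)] (x : UD U D) : UD U D := mk U D (fun c => star ((mk_surj U D x).choose c))

theorem starFun_mk [∀ c, StarRing (D c)] (f : ∀ c, D c) :
    starFun (mk U D f) = mk U D (fun c => star (f c)) := by
  unfold starFun
  rw [mk_eq]
  filter_upwards [mk_eq.1 (mk_surj U D (mk U D f)).choose_spec] with c hc
  rw [hc]

instance [∀ c, StarRing (D c)] : StarRing (UD U D) where
  star := starFun
  star_involutive x := by
    obtain ⟨f, rfl⟩ := mk_surj U D x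
    rw [starFun_mk, starFun_mk]
    simp
  star_mul x y := by
    obtain ⟨f, rfl⟩ := mk_surj U D x
    obtain ⟨g, rfl⟩ := mk_surj U D y
    change starFun (mk U D f * mk U D g) = starFun (mk U D g) * starFun (mk U D f)
    rw [← map_mul, starFun_mk, starFun_mk, starFun_mk, ← map_mul]
    simp only [Pi.mul_apply, star_mul]
    rfl
  star_add x y := by
    obtain ⟨f, rfl⟩ := mk_surj U D x
    obtain ⟨g, rfl⟩ := mk_surj U D y
    change starFun (mk U D f + mk U D g) = starFun (mk U D f) + starFun (mk U D g)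
    rw [← map_add, starFun_mk, starFun_mk, starFun_mk, ← map_add]
    simp only [Pi.add_apply, star_add]
    rfl

theorem star_mk [∀ c, StarRing (D c)] (f : ∀ c, D c) :
    star (mk U D f) = mk U D (fun c => star (f c)) := starFun_mk f

/-- the ultraproduct of subfields -/
def sub (F : ∀ c, Subfield (D c)) : Subfield (UD U D) where
  carrier := {x | ∃ f : ∀ c, D c, mk U D f = x ∧ ∀ c, f c ∈ F c}
  one_mem' := ⟨1, map_one _, fun c => (F c).one_mem⟩
  zero_mem' := ⟨0, map_zero _, fun c => (F c).zero_mem⟩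
  mul_mem' := by
    rintro _ _ ⟨f, rfl, hf⟩ ⟨g, rfl, hg⟩
    exact ⟨f * g, map_mul _ _ _, fun c => (F c).mul_mem (hf c) (hg c)⟩
  add_mem' := by
    rintro _ _ ⟨f, rfl, hf⟩ ⟨g, rfl, hg⟩
    exact ⟨f + g, map_add _ _ _, fun c => (F c).add_mem (hf c) (hg c)⟩
  neg_mem' := by
    rintro _ ⟨f, rfl, hf⟩
    exact ⟨-f, map_neg _ _, fun c => (F c).neg_mem (hf c)⟩
  inv_mem' := by
    rintro _ ⟨f, rfl, hf⟩
    exact ⟨fun c => (f c)⁻¹, (mk_inv f).symm, fun c => (F c).inv_mem (hf c)⟩

/-- the units -/
def unit {f g : ∀ c, D c} (h : ∀ c, f c * g c = 1) (h' : ∀ c, g c * f c = 1) : (UD U D)ˣ where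
  val := mk U D f
  inv := mk U D g
  val_inv := by rw [← map_mul, ← map_one (mk U D)]; exact congrArg _ (funext h)
  inv_val := by rw [← map_mul, ← map_one (mk U D)]; exact congrArg _ (funext h')

/-- the product homomorphism -/
def hom {K : Type} [Group K] (u : ∀ c, K →* (D c)ˣ) : K →* (UD U D)ˣ where
  toFun g := unit (f := fun c => ((u c g : (D c)ˣ) : D c)) (g := fun c => (((u c g)⁻¹ : (D c)ˣ) : D c))
    (fun c => Units.mul_inv _) (fun c => Units.inv_mul _)
  map_one' := by
    ext
    change mk U D _ = 1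
    rw [← map_one (mk U D)]
    congr 1
    funext c
    simp
  map_mul' a b := by
    ext
    change mk U D _ = mk U D _ * mk U D _
    rw [← map_mul]
    congr 1
    funext c
    simp

theorem hom_val {K : Type} [Group K] (u : ∀ c, K →* (D c)ˣ) (g : K) :
    (((hom u : K →* (UD U D)ˣ) g : (UD U D)ˣ) : UD U D) = mk U D (fun c => ((u c g : (D c)ˣ) : D c)) := rfl

end Div

/-! ### ordered sets -/

section Ord

variable {I : Type} (U : Ultrafilter I) (L : I → Type)

/-- eventual equality -/
def setoidL : Setoid (∀ c, L c) where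
  r f g := ∀ᶠ c in (U : Filter I), f c = g c
  iseqv := ⟨fun _ => Eventually.of_forall fun _ => rfl, fun h => h.mono fun _ h => h.symm,
    fun h h' => by filter_upwards [h, h'] with c a b using a.trans b⟩

/-- the ultraproduct -/
def UL : Type := Quotient (setoidL U L)

/-- the class of a sequence -/
def mkL (f : ∀ c, L c) : UL U L := Quotient.mk (setoidL U L) f

theorem mkL_surj : Function.Surjective (mkL U L) := Quotient.mk_surjective

variable {U L}

theorem mkL_eq {f g : ∀ c, L c} : mkL U L f = mkL U L g ↔ ∀ᶠ c in (U : Filter I), f c = g c := by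
  constructor
  · intro h; exact Quotient.exact h
  · intro h; exact Quotient.sound (s := setoidL U L) h

instance [∀ c, LinearOrder (L c)] : LE (UL U L) :=
  ⟨fun x y => ∀ f g : ∀ c, L c, mkL U L f = x → mkL U L g = y → ∀ᶠ c in (U : Filter I), f c ≤ g c⟩

theorem mkL_le [∀ c, LinearOrder (L c)] {f g : ∀ c, L c} :
    mkL U L f ≤ mkL U L g ↔ ∀ᶠ c in (U : Filter I), f c ≤ g c := by
  constructor
  · intro h; exact h f g rfl rfl
  · intro h f' g' hf hg
    filter_upwards [h, mkL_eq.1 hf, mkL_eq.1 hg] with c h1 h2 h3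
    rw [h2, h3]
    exact h1

open Classical in
instance instLO [∀ c, LinearOrder (L c)] : LinearOrder (UL U L) where
  le_refl x := by
    obtain ⟨f, rfl⟩ := mkL_surj U L x
    exact mkL_le.2 (Eventually.of_forall fun _ => le_rfl)
  le_trans x y z hxy hyz := by
    obtain ⟨f, rfl⟩ := mkL_surj U L x
    obtain ⟨g, rfl⟩ := mkL_surj U L y
    obtain ⟨k, rfl⟩ := mkL_surj U L z
    rw [mkL_le] at *
    filter_upwards [hxy, hyz] with c a b using a.trans b
  le_antisymm x y hxy hyx := by
    obtain ⟨f, rfl⟩ := mkL_surj U L x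
    obtain ⟨g, rfl⟩ := mkL_surj U L y
    rw [mkL_le] at *
    rw [mkL_eq]
    filter_upwards [hxy, hyx] with c a b using le_antisymm a b
  le_total x y := by
    obtain ⟨f, rfl⟩ := mkL_surj U L x
    obtain ⟨g, rfl⟩ := mkL_surj U L y
    rw [mkL_le, mkL_le, ← Ultrafilter.eventually_or]
    exact Eventually.of_forall fun c => le_total _ _
  toDecidableLE := fun _ _ => Classical.propDecidable _

end Ord

end Ultra

open Ultra in
/-- **E4** -/
theorem s_ultra : S_ultra := by
  intro K _ S h N hN
  let U : Ultrafilter ℕ := Filter.hyperfilter ℕ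
  refine ⟨UD U S.D, inferInstance, inferInstance, inferInstance, hom S.u, ?_, ?_⟩
  · intro g
    rw [hom_val, hom_val, star_mk]
    congr 1
    funext c
    exact S.star_u c g
  · intro i hi
    obtain ⟨T⟩ := hN i hi
    let act : MulAction K (UL U T.L) :=
      { smul := fun g x => Quotient.map (fun f c => T.π c g * f c)
          (fun f f' (hf : ∀ᶠ c in (U : Filter ℕ), f c = f' c) => hf.mono fun c hc => by
            change T.π c g * f c = T.π c g * f' c
            rw [hc]) x
        one_smul := by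
          intro x
          obtain ⟨f, rfl⟩ := mkL_surj U T.L x
          change mkL U T.L (fun c => T.π c 1 * f c) = mkL U T.L f
          simp
        mul_smul := by
          intro a b x
          obtain ⟨f, rfl⟩ := mkL_surj U T.L x
          change mkL U T.L (fun c => T.π c (a * b) * f c) = mkL U T.L (fun c => T.π c a * (T.π c b * f c))
          simp only [map_mul, mul_assoc] }
    have act_mk : ∀ (g : K) (f : ∀ c, T.L c), g • mkL U T.L f = mkL U T.L (fun c => T.π c g * f c) := fun _ _ => rfl
    let v : UD U S.D → UL U T.L := fun x => mkL U T.L (fun c => T.v c ((mk_surj U S.D x).choose c))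
    have v_mk : ∀ f : ∀ c, S.D c, v (mk U S.D f) = mkL U T.L (fun c => T.v c (f c)) := by
      intro f
      change mkL U T.L _ = _
      rw [mkL_eq]
      filter_upwards [mk_eq.1 (mk_surj U S.D (mk U S.D f)).choose_spec] with c hc
      rw [hc]
    refine ⟨{ Om := UL U T.L, v := v, mono := ?_, free := ?_, v_add := ?_, v_act := ?_, v_sub := ?_ }⟩
    · intro g a b hab
      obtain ⟨f, rfl⟩ := mkL_surj U T.L a
      obtain ⟨f', rfl⟩ := mkL_surj U T.L b
      rw [act_mk, act_mk, mkL_le]
      rw [mkL_le] at hab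
      filter_upwards [hab] with c hc
      exact T.mono c _ _ _ hc
    · intro g a ha
      obtain ⟨f, rfl⟩ := mkL_surj U T.L a
      rw [act_mk, mkL_eq] at ha
      by_contra hg
      have h1 : ∀ᶠ c in (U : Filter ℕ), T.π c g ≠ 1 := by
        have := T.sep g hg
        rw [← Nat.cofinite_eq_atTop] at this
        exact Filter.hyperfilter_le_cofinite this
      obtain ⟨c, hc, hc'⟩ := (ha.and h1).exists
      exact hc' (by simpa using hc)
    · intro x y hx hy hxy
      obtain ⟨f, rfl⟩ := mk_surj U S.D x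
      obtain ⟨f', rfl⟩ := mk_surj U S.D y
      rw [← map_add] at hxy ⊢
      rw [mk_ne_zero] at hx hy hxy
      rw [v_mk, v_mk, v_mk, min_le_iff, mkL_le, mkL_le, ← Ultrafilter.eventually_or]
      filter_upwards [hx, hy, hxy] with c h1 h2 h3
      exact min_le_iff.1 (T.v_add c _ _ h1 h2 h3)
    · intro g x hx
      obtain ⟨f, rfl⟩ := mk_surj U S.D x
      rw [hom_val, ← map_mul, v_mk, v_mk, act_mk, mkL_eq]
      filter_upwards [mk_ne_zero.1 hx] with c hc
      exact T.v_act c g _ hc
    · intro d hd hd0 x hx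
      have hle : Subfield.closure ((fun g : K => (((hom S.u : K →* (UD U S.D)ˣ) g : (UD U S.D)ˣ) : UD U S.D)) ''
          (N i : Set K)) ≤ sub T.F := by
        rw [Subfield.closure_le]
        rintro _ ⟨g, hg, rfl⟩
        exact ⟨_, rfl, fun c => T.mem_F c g (T.ker g hg c)⟩
      obtain ⟨k, rfl, hk⟩ := hle hd
      obtain ⟨f, rfl⟩ := mk_surj U S.D x
      rw [← map_mul, v_mk, v_mk, mkL_eq]
      filter_upwards [mk_ne_zero.1 hd0, mk_ne_zero.1 hx] with c h1 h2
      exact T.v_F c _ (hk c) h1 _ h2

end SQ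

end
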