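import Pool.Agent.SQ.Assembly
import Pool.Agent.SQ.Order
import Pool.Agent.SQ.Growth
import Pool.Agent.SQ.Domain
import Pool.Agent.SQ.OreCond
import Pool.Agent.SQ.Div
import Pool.Agent.SQ.Ultra
import Pool.Agent.SQ.Rep
import Pool.Agent.SQ.Kill
import Pool.Agent.SQ.Free

/-!
# SQ: the tower of a subgroup of the commutator subgroup of a right-angled Coxeter group
-/

set_option autoImplicit false

namespace SQ

/-- **Target of the rows E, T.** -/
theorem tower : S_tower :=
  s_tower s_order s_growth (s_domain_of_order s_order) s_ore s_div s_ultra s_rep s_kill s_free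

end SQ
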