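import Pool.Agent.SQ.Ring

/-!
# SQ: assembly of the tower data from the rows E, T
-/

set_option autoImplicit false

namespace SQ

open Singer

namespace Asm

section kill
variable {V : Type} (G : SimpleGraph V)

open Classical in
theorem kill_gen (Z : Set V) (v : V) : kill G Z (Racg.gen G v) = if v ∈ Z then 1 else Racg.gen G v := by
  rw [kill, Racg.lift_gen]

theorem kill_empty : kill G ∅ = MonoidHom.id _ := by
  refine Racg.hom_ext fun v => ?_
  rw [kill_gen, if_neg (Set.notMem_empty v), MonoidHom.id_apply]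

theorem kill_univ : kill G Set.univ = 1 := by
  refine Racg.hom_ext fun v => ?_
  rw [kill_gen, if_pos (Set.mem_univ v), MonoidHom.one_apply]

theorem kill_comp {Z Z' Z'' : Set V} (h : ∀ v, v ∈ Z'' ↔ v ∈ Z ∨ v ∈ Z') :
    (kill G Z').comp (kill G Z) = kill G Z'' := by
  refine Racg.hom_ext fun v => ?_
  rw [MonoidHom.comp_apply, kill_gen, kill_gen]
  by_cases h1 : v ∈ Z
  · rw [if_pos h1, if_pos ((h v).2 (Or.inl h1)), map_one]
  · rw [if_neg h1, kill_gen]
    by_cases h2 : v ∈ Z'
    · rw [if_pos h2, if_pos ((h v).2 (Or.inr h2))]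
    · rw [if_neg h2, if_neg fun h3 => ((h v).1 h3).elim h1 h2]

theorem map_comm {H H' : Type} [Group H] [Group H'] (f : H →* H') {g : H} (hg : g ∈ commutator H) :
    f g ∈ commutator H' := by
  have h1 : (commutator H).map f ≤ commutator H' := by
    rw [commutator_def, commutator_def, Subgroup.map_commutator]
    exact Subgroup.commutator_mono le_top le_top
  exact h1 ⟨g, hg, rfl⟩

end kill

/-- a power series which is one modulo all powers is one -/
theorem sep {A : Type} [Ring A] (f : PU A) (hf : f ≠ 1) :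
    ∀ᶠ c in Filter.atTop, (QuotientGroup.mk' (PK A c)) f ≠ 1 := by
  have h1 : ((f : (PowerSeries A)ˣ) : PowerSeries A) ≠ 1 := fun h => hf (Subtype.ext (Units.ext h))
  obtain ⟨m, hm⟩ : ∃ m, PowerSeries.coeff m ((f : (PowerSeries A)ˣ) : PowerSeries A) ≠
      PowerSeries.coeff m (1 : PowerSeries A) := by
    by_contra h
    push Not at h
    exact h1 (PowerSeries.ext h)
  filter_upwards [Filter.eventually_gt_atTop m] with c hc h
  have h2 : f ∈ PK A c := (QuotientGroup.eq_one_iff f).1 h
  obtain ⟨g, hg⟩ := h2
  refine hm ?_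
  rw [hg, map_add, PowerSeries.coeff_X_pow_mul', if_neg (by omega), add_zero]

end Asm

open Asm

theorem s_tower (h_order : S_order) (h_growth : S_growth) (h_domain : S_domain) (h_ore : S_ore) (h_div : S_div)
    (h_ultra : S_ultra) (h_rep : S_rep) (h_kill : S_kill) (h_free : S_free) : S_tower := by
  intro V _ G K hK
  classical
  obtain ⟨ρ, hρ⟩ := h_rep V G
  let A := Module.End ℤ (V → ℤ)
  let h := Fintype.card V
  let e : V ≃ Fin h := Fintype.equivFin V
  let Z : ℕ → Set V := fun i => {v | (e v : ℕ) < i}
  let κ : ℕ → (K →* commutator (RACG G)) := fun i =>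
    ((kill G (Z i)).comp K.subtype).codRestrict (commutator (RACG G)) fun g => map_comm (kill G (Z i)) (hK g.2)
  let N : ℕ → Subgroup K := fun i => (κ i).ker
  have hκ : ∀ i (g : K), ((κ i g : commutator (RACG G)) : RACG G) = kill G (Z i) g := fun i g => rfl
  have hN : ∀ i (g : K), g ∈ N i ↔ kill G (Z i) g = 1 := fun i g => by
    rw [MonoidHom.mem_ker, ← hκ]
    exact ⟨fun h => by rw [h]; rfl, fun h => Subtype.ext h⟩
  let r : ℕ → (K →* PU A) := fun i => ρ.comp (κ i)
  have hr : ∀ i (g : K), r i g = 1 ↔ g ∈ N i := fun i g => by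
    rw [MonoidHom.mem_ker]
    exact ⟨fun h => hρ (by rw [map_one]; exact h), fun h => by
      show ρ (κ i g) = 1
      rw [h, map_one]⟩
  have hN0 : N 0 = ⊥ := by
    have h1 : Z 0 = ∅ := by
      ext v
      simp [Z]
    rw [eq_bot_iff]
    intro g hg
    have h2 := (hN 0 g).1 hg
    rw [h1, kill_empty, MonoidHom.id_apply] at h2
    rw [Subgroup.mem_bot]
    exact Subtype.ext h2
  have hNh : N h = ⊤ := by
    have h1 : Z h = Set.univ := by
      ext v
      simp [Z]
    rw [eq_top_iff]
    intro g _
    rw [hN, h1, kill_univ, MonoidHom.one_apply]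
  have hNle : ∀ i, N i ≤ N (i + 1) := by
    intro i g hg
    rw [hN] at hg ⊢
    have h1 : (kill G (Z (i + 1))).comp (kill G (Z i)) = kill G (Z (i + 1)) :=
      kill_comp G fun v => by
        simp only [Z, Set.mem_ofPred_eq]
        omega
    rw [← h1, MonoidHom.comp_apply, hg, map_one]
  -- the free quotients
  have hfq : ∀ i, i < h → Nonempty (FreeQuot K (N i) (N (i + 1))) := by
    intro i hi
    let v : V := e.symm ⟨i, hi⟩
    have h1 : (kill G {v}).comp (kill G (Z i)) = kill G (Z (i + 1)) :=
      kill_comp G fun w => by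
        simp only [Z, Set.mem_ofPred_eq, Set.mem_singleton_iff]
        have h2 : w = v ↔ (e w : ℕ) = i := by
          rw [Equiv.eq_symm_apply, Fin.ext_iff]
        rw [h2]
        omega
    obtain ⟨C, φ, hφ⟩ := h_kill V G v
    let ψ0 : N (i + 1) →* ((kill G {v}).ker ⊓ commutator (RACG G) : Subgroup (RACG G)) :=
      (((kill G (Z i)).comp K.subtype).comp (N (i + 1)).subtype).codRestrict _ fun g => by
        refine Subgroup.mem_inf.2 ⟨?_, map_comm (kill G (Z i)) (hK (g : K).2)⟩
        have h3 := (hN (i + 1) g).1 g.2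
        rw [← h1] at h3
        exact h3
    refine h_free K (N i) (N (i + 1)) C (φ.comp ψ0) (hNle i) fun g => ?_
    rw [hN, MonoidHom.comp_apply]
    constructor
    · intro h3
      have h4 : ψ0 g = 1 := hφ (by rw [h3, map_one])
      exact congrArg Subtype.val h4
    · intro h3
      have h4 : ψ0 g = 1 := Subtype.ext h3
      rw [h4, map_one]
  -- the sequence of division rings
  have hO : ∀ c, Nonempty (OreDiv (Fin h → UC A c)) := fun c =>
    h_div _ (h_domain A c h) (h_ore _ (h_growth A c h) (h_domain A c h))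
  let O : ∀ c, OreDiv (Fin h → UC A c) := fun c => (hO c).some
  let Φ : ∀ c, K →* (Fin h → UC A c) := fun c =>
    MonoidHom.pi fun i => (QuotientGroup.mk' (PK A c)).comp (r i)
  let S : DivSeq K :=
    { D := fun c => (O c).D
      u := fun c => (O c).u.comp (Φ c)
      star_u := fun c g => by
        rw [MonoidHom.comp_apply, MonoidHom.comp_apply, map_inv (Φ c)]
        exact (O c).star_u _ }
  choose lo hl using fun c => h_order A c
  have hS : ∀ i, i < h → Nonempty (SeqLevel S (N i)) := by
    intro i hi
    have hval := fun c => @OreDiv.val _ _ (O c) (UC A c) _ (lo c) (hl c).1 (hl c).2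
      (Pi.evalMonoidHom (fun _ : Fin h => UC A c) ⟨i, hi⟩)
    choose v F h1 h2 h3 h4 using hval
    exact ⟨{
      L := fun c => UC A c
      lo := lo
      mono := fun c => (hl c).1
      π := fun c => (QuotientGroup.mk' (PK A c)).comp (r i)
      v := v
      F := F
      v_add := h1
      v_act := fun c g x hx => h2 c (Φ c g) x hx
      mem_F := fun c g hg => h3 c (Φ c g) hg
      v_F := h4
      ker := fun g hg c => by
        rw [MonoidHom.comp_apply, (hr i g).2 hg, map_one]
      sep := fun g hg => Asm.sep (r i g) fun h5 => hg ((hr i g).1 h5) }⟩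
  obtain ⟨D, i1, i2, i3, rho, h1, h2⟩ := h_ultra K S h N hS
  exact ⟨{
    D := D
    rho := rho
    star_rho := h1
    h := h
    N := N
    N_zero := hN0
    N_top := hNh
    N_le := hNle
    level := fun i hi => (h2 i hi).some
    freeq := fun i hi => (hfq i hi).some }⟩

end SQ
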