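import Pool.Agent.SQ.Skel
import Pool.Agent.Singer.Subgr

/-!
# SQ: the algebraic main theorem from the modules
-/

set_option autoImplicit false

open scoped TensorProduct

namespace SQ

open Singer

/-- the commutator subgroup lies in the kernel of the homomorphism to `(ℤ/2)^V` -/
theorem commutator_le_ker2 {V : Type} (G : SimpleGraph V) : commutator (RACG G) ≤ ker2 G := by
  intro x hx
  have h1 : (ab2 G) x = 1 := by
    have h2 : commutator (RACG G) ≤ (ab2 G).ker := Abelianization.commutator_subset_ker _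
    exact h2 hx
  exact h1

/-- no involutions -/
theorem noInv_of_le {V : Type} [Finite V] {G : SimpleGraph V} {K : Subgroup (RACG G)}
    (hK : K ≤ commutator (RACG G)) (h : K) (hh : h * h = 1) : h = 1 := by
  have h1 := noInv_ker2 G (h : RACG G) (commutator_le_ker2 G (hK h.2)) (by
    rw [← Subgroup.coe_mul, hh, Subgroup.coe_one])
  exact Subtype.ext h1

/-- the vanishing theorem for a group with a tower -/
theorem vanish (hLEM : StmtLEM) (hPD : StmtPD) (hACR : StmtACR) (hDUA : StmtDUA) (hTOW : StmtTOW)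
    {K : Type} [Group K] (hinv : ∀ h : K, h * h = 1 → h = 1) (T : Tower K) {n : ℕ} (hn : IsPD n K)
    (R : FinRes K) (i : ℕ) (hi : 2 * i ≠ n) : ExH (lmul T.rho) R i ∧ Ex (lmul T.rho) R i := by
  have h1 : ∀ j, ExH (diag T.rho) R (j + 1) := hACR K R _ _ (hTOW K T)
  have h2 : ∀ j, j < n → Ex (diag T.rho) R j := by
    intro j hj
    refine ((hPD K n hn R _ (diag T.rho)).1 j hj.le).2 ?_
    obtain ⟨k, hk⟩ : ∃ k, n - j = k + 1 := ⟨n - j - 1, by omega⟩
    rw [hk]
    exact h1 k
  have h3 : ∀ m, 2 * m < n → Ex (lmul T.rho) R m := fun m hm =>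
    hLEM K hinv R _ (lmul T.rho) m fun j hj => h2 j (by omega)
  have hd := hDUA K R T.D T.rho T.star_rho
  have h4 : ExH (lmul T.rho) R i := by
    rcases lt_or_gt_of_ne hi with h | h
    · exact (hd i).1 (h3 i h)
    · by_cases hin : i ≤ n
      · have h5 := ((hPD K n hn R _ (lmul T.rho)).1 (n - i) (by omega)).1 (h3 (n - i) (by omega))
        rwa [Nat.sub_sub_self hin] at h5
      · exact (hPD K n hn R _ (lmul T.rho)).2 i (by omega)
  exact ⟨h4, (hd i).2 h4⟩

/-- the algebraic main theorem -/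
theorem alg_of (hLEM : StmtLEM) (hPD : StmtPD) (hACR : StmtACR) (hDUA : StmtDUA) (hTOW : StmtTOW)
    (hT : S_tower) : StmtALG := by
  intro V _ G K hK n hn
  obtain ⟨T⟩ := hT V G K hK
  exact ⟨T.D, T.div, T.alg, T.st, T.rho, T.star_rho, fun R i hi =>
    vanish hLEM hPD hACR hDUA hTOW (noInv_of_le hK) T hn R i hi⟩

end SQ
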