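import Pool.Agent.SQ.Defs

/-!
# Project MP_984acc_SQ: based complexes with a free action, equivariant functions on pairs of cells

`BC H`: a complex of vector spaces over `ZMod 2` with a basis `B` on which `H` acts freely.  `IsY C ν j f`: `f` is an
equivariant bilinear function of total degree `j` with values in the representation `ν`; `dY` is the coboundary;
`EY C ν j`: exactness in degree `j`.  `BC.ofRes R`: the complex of a resolution `R`, modulo two.
-/

set_option autoImplicit false

open scoped TensorProduct Matrix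

namespace SQ

open Singer

/-- a complex of vector spaces over `ZMod 2` with a basis `B` on which `H` acts freely -/
structure BC (H : Type) [Group H] where
  B : Type
  [act : MulAction H B]
  free : ∀ (h : H) (b : B), h • b = b → h = 1
  dim : B → ℕ
  dim_smul : ∀ (h : H) (b : B), dim (h • b) = dim b
  bd : (B →₀ ZMod 2) →ₗ[ZMod 2] (B →₀ ZMod 2)
  bd_bd : ∀ x, bd (bd x) = 0
  bd_smul : ∀ (h : H) (b : B), bd (Finsupp.single (h • b) 1) = (bd (Finsupp.single b 1)).mapDomain (h • ·)
  bd_dim : ∀ b c, bd (Finsupp.single b 1) c ≠ 0 → dim b = dim c + 1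

attribute [instance] BC.act

section Y
variable {H : Type} [Group H] (C : BC H) {N : Type} [AddCommGroup N] [Module (ZMod 2) N]
  (ν : Representation (ZMod 2) H N)

/-- bilinear functions on the chains -/
abbrev Bil (C : BC H) (N : Type) [AddCommGroup N] [Module (ZMod 2) N] : Type :=
  (C.B →₀ ZMod 2) →ₗ[ZMod 2] (C.B →₀ ZMod 2) →ₗ[ZMod 2] N

/-- `f` is equivariant of total degree `j` -/
structure IsY (j : ℕ) (f : Bil C N) : Prop where
  eqv : ∀ (h : H) (b b' : C.B), f (Finsupp.single (h • b) 1) (Finsupp.single (h • b') 1) =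
    ν h (f (Finsupp.single b 1) (Finsupp.single b' 1))
  deg : ∀ b b' : C.B, C.dim b + C.dim b' ≠ j → f (Finsupp.single b 1) (Finsupp.single b' 1) = 0

/-- the coboundary -/
noncomputable def dY (f : Bil C N) : Bil C N := f ∘ₗ C.bd + f.compl₂ C.bd

@[simp] lemma dY_apply (f : Bil C N) (x y : C.B →₀ ZMod 2) : dY C f x y = f (C.bd x) y + f x (C.bd y) := rfl

/-- exactness of the complex of the `IsY C ν j` in degree `j` -/
def EY : ℕ → Prop
  | 0 => ∀ f, IsY C ν 0 f → dY C f = 0 → f = 0
  | j + 1 => ∀ f, IsY C ν (j + 1) f → dY C f = 0 → ∃ g, IsY C ν j g ∧ dY C g = f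

end Y

/-! ### the complex of a resolution -/

namespace BC
variable {H : Type} [Group H]

/-- the cells of a resolution -/
abbrev Cell (R : FinRes H) : Type := Σ p : ℕ, H × R.ι p

instance (R : FinRes H) : MulAction H (Cell R) where
  smul h b := ⟨b.1, (h * b.2.1, b.2.2)⟩
  one_smul b := by
    rcases b with ⟨p, g, a⟩
    show (⟨p, (1 * g, a)⟩ : Cell R) = _
    rw [one_mul]
  mul_smul h k b := by
    rcases b with ⟨p, g, a⟩
    show (⟨p, (h * k * g, a)⟩ : Cell R) = ⟨p, (h * (k * g), a)⟩
    rw [mul_assoc]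

lemma smul_cell (R : FinRes H) (h : H) (p : ℕ) (g : H) (a : R.ι p) :
    h • (⟨p, (g, a)⟩ : Cell R) = ⟨p, (h * g, a)⟩ := rfl

/-- the chain `h z b` modulo two -/
noncomputable def lf (R : FinRes H) (p : ℕ) (b : R.ι p) (h : H) (z : MonoidAlgebra ℤ H) : Cell R →₀ ZMod 2 :=
  ∑ g ∈ z.coeff.support, (z.coeff g : ZMod 2) • Finsupp.single (⟨p, (h * g, b)⟩ : Cell R) (1 : ZMod 2)

lemma lf_eq_sum (R : FinRes H) (p : ℕ) (b : R.ι p) (h : H) (z : MonoidAlgebra ℤ H) :
    lf R p b h z = z.coeff.sum fun g r => (r : ZMod 2) • Finsupp.single (⟨p, (h * g, b)⟩ : Cell R) (1 : ZMod 2) := rfl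

lemma lf_zero (R : FinRes H) (p : ℕ) (b : R.ι p) (h : H) : lf R p b h 0 = 0 := by
  unfold lf
  simp

lemma lf_add (R : FinRes H) (p : ℕ) (b : R.ι p) (h : H) (z z' : MonoidAlgebra ℤ H) :
    lf R p b h (z + z') = lf R p b h z + lf R p b h z' := by
  rw [lf_eq_sum, lf_eq_sum, lf_eq_sum]
  show (z.coeff + z'.coeff).sum _ = _
  rw [Finsupp.sum_add_index']
  · intro g
    simp
  · intro g r s
    rw [Int.cast_add, add_smul]

lemma lf_sum (R : FinRes H) (p : ℕ) (b : R.ι p) (h : H) {κ : Type*} (s : Finset κ) (z : κ → MonoidAlgebra ℤ H) :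
    lf R p b h (∑ i ∈ s, z i) = ∑ i ∈ s, lf R p b h (z i) := by
  classical
  induction s using Finset.induction_on with
  | empty => simp [lf_zero]
  | insert a s ha ih => rw [Finset.sum_insert ha, Finset.sum_insert ha, lf_add, ih]

lemma lf_single (R : FinRes H) (p : ℕ) (b : R.ι p) (h g : H) (r : ℤ) :
    lf R p b h (MonoidAlgebra.single g r) = (r : ZMod 2) • Finsupp.single (⟨p, (h * g, b)⟩ : Cell R) (1 : ZMod 2) := by
  rw [lf_eq_sum]
  show (Finsupp.single g r).sum _ = _
  rw [Finsupp.sum_single_index]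
  simp

lemma lf_single_mul (R : FinRes H) (p : ℕ) (b : R.ι p) (h g : H) (r : ℤ) (z : MonoidAlgebra ℤ H) :
    lf R p b h (MonoidAlgebra.single g r * z) = (r : ZMod 2) • lf R p b (h * g) z := by
  induction z using MonoidAlgebra.induction_linear with
  | zero => simp [lf_zero]
  | add z z' h1 h2 => rw [mul_add, lf_add, lf_add, h1, h2, smul_add]
  | single k s =>
    rw [MonoidAlgebra.single_mul_single, lf_single, lf_single, Int.cast_mul, smul_smul, mul_assoc]

/-- the boundary of a cell -/
noncomputable def bdc (R : FinRes H) : Cell R → (Cell R →₀ ZMod 2)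
  | ⟨0, _⟩ => 0
  | ⟨p + 1, (h, a)⟩ => ∑ b, lf R p b h (R.d p a b)

/-- the boundary -/
noncomputable def bdl (R : FinRes H) : (Cell R →₀ ZMod 2) →ₗ[ZMod 2] (Cell R →₀ ZMod 2) :=
  Finsupp.linearCombination (ZMod 2) (bdc R)

lemma bdl_single (R : FinRes H) (b : Cell R) : bdl R (Finsupp.single b 1) = bdc R b := by
  rw [bdl, Finsupp.linearCombination_single, one_smul]

lemma bdl_lf (R : FinRes H) (p : ℕ) (a : R.ι (p + 1)) (h : H) (z : MonoidAlgebra ℤ H) :
    bdl R (lf R (p + 1) a h z) = ∑ b, lf R p b h (z * R.d p a b) := by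
  induction z using MonoidAlgebra.induction_linear with
  | zero => simp [lf_zero]
  | add z z' h1 h2 =>
    rw [lf_add, map_add, h1, h2, ← Finset.sum_add_distrib]
    refine Finset.sum_congr rfl fun b _ => ?_
    rw [add_mul, lf_add]
  | single k s =>
    rw [lf_single, map_smul, bdl_single]
    show _ • (∑ b, lf R p b (h * k) (R.d p a b)) = _
    rw [Finset.smul_sum]
    refine Finset.sum_congr rfl fun b _ => ?_
    rw [lf_single_mul]

lemma d_mul_d (R : FinRes H) (i : ℕ) : R.d (i + 1) * R.d i = 0 := by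
  classical
  ext1 a b
  have h1 := (R.exact_succ i (Pi.single a 1 ᵥ* R.d (i + 1))).2 ⟨_, rfl⟩
  rw [Matrix.vecMul_vecMul] at h1
  have h2 := congrFun h1 b
  rw [Matrix.single_one_vecMul] at h2
  exact h2

lemma bdl_bdl (R : FinRes H) (x : Cell R →₀ ZMod 2) : bdl R (bdl R x) = 0 := by
  have h : (bdl R) ∘ₗ (bdl R) = 0 := by
    refine Finsupp.lhom_ext' fun b => LinearMap.ext_ring ?_
    show bdl R (bdl R (Finsupp.single b 1)) = 0
    rw [bdl_single]
    rcases b with ⟨_ | _ | p, h, a⟩
    · simp [bdc]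
    · simp only [bdc, map_sum]
      refine Finset.sum_eq_zero fun b _ => ?_
      unfold lf
      rw [map_sum]
      refine Finset.sum_eq_zero fun g _ => ?_
      rw [map_smul, bdl_single]
      simp [bdc]
    · simp only [bdc, map_sum, bdl_lf]
      rw [Finset.sum_comm]
      refine Finset.sum_eq_zero fun c _ => ?_
      rw [← lf_sum]
      have h1 := congrFun (congrFun (d_mul_d R p) a) c
      rw [Matrix.mul_apply] at h1
      rw [h1]
      exact lf_zero _ _ _ _
  exact LinearMap.congr_fun h x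

lemma mapDomain_lf (R : FinRes H) (p : ℕ) (b : R.ι p) (k h : H) (z : MonoidAlgebra ℤ H) :
    (lf R p b h z).mapDomain (k • ·) = lf R p b (k * h) z := by
  unfold lf
  rw [Finsupp.mapDomain_finsetSum]
  refine Finset.sum_congr rfl fun g _ => ?_
  rw [Finsupp.mapDomain_smul, Finsupp.mapDomain_single, smul_cell, mul_assoc]

/-- the complex of a resolution, modulo two -/
noncomputable def ofRes (R : FinRes H) : BC H where
  B := Cell R
  free h b hb := by
    rcases b with ⟨p, g, a⟩
    rw [smul_cell] at hb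
    have h1 : (h * g, a) = (g, a) := by simpa using hb
    have h2 : h * g = g := congrArg Prod.fst h1
    exact mul_eq_right.1 h2
  dim b := b.1
  dim_smul h b := rfl
  bd := bdl R
  bd_bd := bdl_bdl R
  bd_smul h b := by
    rw [bdl_single, bdl_single]
    rcases b with ⟨_ | p, g, a⟩
    · show bdc R ⟨0, _⟩ = (bdc R ⟨0, _⟩).mapDomain _
      simp only [bdc]
      exact Finsupp.mapDomain_zero.symm
    · show (∑ b, lf R p b (h * g) (R.d p a b)) = (∑ b, lf R p b g (R.d p a b)).mapDomain _
      rw [Finsupp.mapDomain_finsetSum]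
      refine Finset.sum_congr rfl fun b _ => ?_
      rw [mapDomain_lf]
  bd_dim b c h := by
    rw [bdl_single] at h
    rcases b with ⟨_ | p, g, a⟩
    · exact absurd rfl h
    · have h1 : (∑ b, lf R p b g (R.d p a b)) c ≠ 0 := h
      rw [Finsupp.finsetSum_apply] at h1
      obtain ⟨b, _, h2⟩ := Finset.exists_ne_zero_of_sum_ne_zero h1
      unfold lf at h2
      rw [Finsupp.finsetSum_apply] at h2
      obtain ⟨k, _, h3⟩ := Finset.exists_ne_zero_of_sum_ne_zero h2
      rw [Finsupp.smul_apply, smul_eq_mul] at h3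
      have h4 := right_ne_zero_of_mul h3
      have h5 : (⟨p, (g * k, b)⟩ : Cell R) = c := by
        by_contra h6
        exact h4 (Finsupp.single_eq_of_ne (Ne.symm h6))
      rw [← h5]

end BC

end SQ
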