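import Mathlib

/-! # Coinvariants of `D ⊗ D` for a group which acts on a division ring of characteristic two

`D` is a division ring of characteristic two with involution, `ρ : G → Dˣ` with `star (ρ g) = ρ g⁻¹`.  `G` acts
diagonally on `D ⊗ D`; `CN ρ N` is the subgroup generated by the `n t - t`, `n ∈ N`; `kk ρ N` is the division
subring generated by `N`. -/

set_option autoImplicit false

namespace SQ
open TensorProduct

variable {G : Type} [Group G] {D : Type} [DivisionRing D] [Algebra (ZMod 2) D]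

/-- the diagonal action on `D ⊗ D` -/
noncomputable def act (ρ : G →* Dˣ) (g : G) : D ⊗[ZMod 2] D →ₗ[ZMod 2] D ⊗[ZMod 2] D :=
  TensorProduct.map (LinearMap.mulLeft (ZMod 2) (ρ g : D)) (LinearMap.mulLeft (ZMod 2) (ρ g : D))

theorem act_tmul (ρ : G →* Dˣ) (g : G) (x y : D) : act ρ g (x ⊗ₜ y) = (ρ g * x) ⊗ₜ[ZMod 2] (ρ g * y) := rfl

theorem act_mul (ρ : G →* Dˣ) (g h : G) (t : D ⊗[ZMod 2] D) : act ρ (g * h) t = act ρ g (act ρ h t) := by
  induction t with
  | zero => simp
  | tmul x y => rw [act_tmul, act_tmul, act_tmul, map_mul, Units.val_mul, mul_assoc, mul_assoc]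
  | add a b ha hb => rw [map_add, map_add, map_add, ha, hb]

theorem act_one (ρ : G →* Dˣ) (t : D ⊗[ZMod 2] D) : act ρ 1 t = t := by
  induction t with
  | zero => simp
  | tmul x y => rw [act_tmul, map_one, Units.val_one, one_mul, one_mul]
  | add a b ha hb => rw [map_add, ha, hb]

/-- the subgroup of `D ⊗ D` generated by the `n t - t` -/
def CN (ρ : G →* Dˣ) (N : Subgroup G) : AddSubgroup (D ⊗[ZMod 2] D) :=
  AddSubgroup.closure {t | ∃ n ∈ N, ∃ s : D ⊗[ZMod 2] D, t = act ρ n s - s}

theorem sub_mem_CN (ρ : G →* Dˣ) {N : Subgroup G} {n : G} (hn : n ∈ N) (t : D ⊗[ZMod 2] D) :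
    act ρ n t - t ∈ CN ρ N :=
  AddSubgroup.subset_closure ⟨n, hn, t, rfl⟩

theorem act_mem_CN (ρ : G →* Dˣ) (N : Subgroup G) [hN : N.Normal] (g : G) {t : D ⊗[ZMod 2] D}
    (ht : t ∈ CN ρ N) : act ρ g t ∈ CN ρ N := by
  induction ht using AddSubgroup.closure_induction with
  | mem t h =>
    obtain ⟨n, hn, s, rfl⟩ := h
    have h1 : act ρ g (act ρ n s - s) = act ρ (g * n * g⁻¹) (act ρ g s) - act ρ g s := by
      rw [map_sub, ← act_mul, ← act_mul]
      congr 2
      group
    rw [h1]
    exact sub_mem_CN ρ (hN.conj_mem n hn g) _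
  | zero => rw [map_zero]; exact zero_mem _
  | add a b _ _ ha hb => rw [map_add]; exact add_mem ha hb
  | neg a _ ha => rw [map_neg]; exact neg_mem ha

/-- the division subring generated by `N` -/
def kk (ρ : G →* Dˣ) (N : Subgroup G) : Subfield D :=
  Subfield.closure ((fun g : G => ((ρ g : Dˣ) : D)) '' (N : Set G))

end SQ
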