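import Pool.Agent.Singer.Racg

/-!
# SQ: interface of the ring (E), of the tower (T) and of their consumers (B)

Paper: team-store MP_984acc_SQ_h25.md.

Consumers (rows LCD, ACY) use the structure `Tower K`; the target of the rows E, T is `S_tower`.
Every row proves one of the statements `S_...` (a `Prop`) of this file.
-/

set_option autoImplicit false

namespace SQ

open Singer
open scoped Pointwise

/-! ### What the consumers get -/

/-- The value data of one level: a totally ordered `K`-set `Om` whose stabilisers lie in `N`, and a map `v : D → Om`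
(the values at `0` are junk) which is trivial on the division closure of `N`. -/
structure Level (K : Type) [Group K] (D : Type) [DivisionRing D] (rho : K →* Dˣ) (N : Subgroup K) where
  Om : Type
  [lo : LinearOrder Om]
  [act : MulAction K Om]
  mono : ∀ (g : K) (a b : Om), a ≤ b → g • a ≤ g • b
  free : ∀ (g : K) (a : Om), g • a = a → g ∈ N
  v : D → Om
  v_add : ∀ x y : D, x ≠ 0 → y ≠ 0 → x + y ≠ 0 → min (v x) (v y) ≤ v (x + y)
  v_act : ∀ (g : K) (x : D), x ≠ 0 → v (((rho g : Dˣ) : D) * x) = g • v x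
  v_sub : ∀ c ∈ Subfield.closure ((fun g : K => ((rho g : Dˣ) : D)) '' (N : Set K)), c ≠ 0 →
    ∀ x : D, x ≠ 0 → v (c * x) = v x

attribute [instance] Level.lo Level.act

/-- `N'` is generated by `N` and by the lifts `x a` of a free basis of `N' / N` -/
structure FreeQuot (K : Type) [Group K] (N N' : Subgroup K) [N.Normal] where
  X : Type
  x : X → K
  mem : ∀ a, x a ∈ N'
  gen : N' = N ⊔ Subgroup.closure (Set.range x)
  inj : Function.Injective ((QuotientGroup.mk' N).comp (FreeGroup.lift x))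

/-- The input of the vanishing theorem `H_j(K; D ⊗ D) = 0`, `j > 0`. -/
structure Tower (K : Type) [Group K] where
  D : Type
  [div : DivisionRing D]
  [alg : Algebra (ZMod 2) D]
  [st : StarRing D]
  rho : K →* Dˣ
  star_rho : ∀ g, star ((rho g : Dˣ) : D) = ((rho g⁻¹ : Dˣ) : D)
  h : ℕ
  N : ℕ → Subgroup K
  [normal : ∀ i, (N i).Normal]
  N_zero : N 0 = ⊥
  N_top : N h = ⊤
  N_le : ∀ i, N i ≤ N (i + 1)
  level : ∀ i, i < h → Level K D rho (N i)
  freeq : ∀ i, i < h → FreeQuot K (N i) (N (i + 1))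

attribute [instance] Tower.div Tower.alg Tower.st Tower.normal

/-- **Target of the rows E, T.** -/
def S_tower : Prop :=
  ∀ (V : Type) [Fintype V] (G : SimpleGraph V) (K : Subgroup (RACG G)), K ≤ commutator (RACG G) → Nonempty (Tower K)

/-! ### E1: the groups `UC A c = 1 + X A[X] / X^c` -/

section UC
variable (A : Type) [Ring A]

/-- power series with constant coefficient one -/
def PU : Subgroup (PowerSeries A)ˣ where
  carrier := {f | PowerSeries.constantCoeff (f : PowerSeries A) = 1}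
  one_mem' := by simp
  mul_mem' := by
    intro f g hf hg
    simp only [Set.mem_ofPred_eq, Units.val_mul, map_mul] at *
    rw [hf, hg, one_mul]
  inv_mem' := by
    intro f hf
    simp only [Set.mem_ofPred_eq] at *
    have h : PowerSeries.constantCoeff ((f : PowerSeries A) * ((f⁻¹ : (PowerSeries A)ˣ) : PowerSeries A)) = 1 := by
      rw [Units.mul_inv, map_one]
    rwa [map_mul, hf, one_mul] at h

/-- those congruent to one modulo `X ^ c` -/
def PK (c : ℕ) : Subgroup (PU A) where
  carrier := {f | ∃ g : PowerSeries A, ((f : (PowerSeries A)ˣ) : PowerSeries A) = 1 + PowerSeries.X ^ c * g}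
  one_mem' := ⟨0, by simp⟩
  mul_mem' := by
    rintro f f' ⟨g, hg⟩ ⟨g', hg'⟩
    refine ⟨g + g' + g * (PowerSeries.X ^ c * g'), ?_⟩
    rw [Subgroup.coe_mul, Units.val_mul, hg, hg']
    simp only [mul_add, add_mul, one_mul, mul_one, mul_assoc]
    abel
  inv_mem' := by
    rintro f ⟨g, hg⟩
    refine ⟨-(g * (((f : (PowerSeries A)ˣ)⁻¹ : (PowerSeries A)ˣ) : PowerSeries A)), ?_⟩
    have h : ((f : (PowerSeries A)ˣ) : PowerSeries A) * (((f : (PowerSeries A)ˣ)⁻¹ : (PowerSeries A)ˣ) : PowerSeries A) = 1 :=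
      Units.mul_inv _
    rw [hg, add_mul, one_mul, mul_assoc] at h
    rw [Subgroup.coe_inv, mul_neg, ← sub_eq_add_neg, eq_sub_iff_add_eq]
    exact h

instance (c : ℕ) : (PK A c).Normal := ⟨by
  rintro f ⟨g, hg⟩ u
  refine ⟨((u : (PowerSeries A)ˣ) : PowerSeries A) * g * (((u : (PowerSeries A)ˣ)⁻¹ : (PowerSeries A)ˣ) : PowerSeries A), ?_⟩
  have h : ((u : (PowerSeries A)ˣ) : PowerSeries A) * (((u : (PowerSeries A)ˣ)⁻¹ : (PowerSeries A)ˣ) : PowerSeries A) = 1 :=
    Units.mul_inv _
  have h2 : ((u : (PowerSeries A)ˣ) : PowerSeries A) * PowerSeries.X ^ c = PowerSeries.X ^ c * ((u : (PowerSeries A)ˣ) : PowerSeries A) :=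
    (PowerSeries.commute_X_pow _ _).eq
  rw [Subgroup.coe_mul, Subgroup.coe_mul, Subgroup.coe_inv, Units.val_mul, Units.val_mul, hg, mul_add, mul_one, add_mul, h,
    ← mul_assoc, h2]
  simp only [mul_assoc]⟩

/-- the truncated group -/
abbrev UC (c : ℕ) : Type := PU A ⧸ PK A c

end UC

/-- **E1a** the bi-invariant order (first non-zero coefficient) -/
def S_order : Prop :=
  ∀ (A : Type) [Ring A] [Module.Finite ℤ A] [Module.Free ℤ A] (c : ℕ), ∃ _ : LinearOrder (UC A c),
    (∀ a b d : UC A c, a ≤ b → d * a ≤ d * b) ∧ ∀ a b d : UC A c, a ≤ b → a * d ≤ b * d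

open Classical in
/-- polynomial growth of all finite sets -/
def PolyGrowth (G : Type) [Group G] : Prop :=
  ∀ S : Finset G, ∃ C k : ℕ, ∀ n : ℕ, (S ^ n).card ≤ C * (n + 1) ^ k

/-- **E1b** polynomial growth -/
def S_growth : Prop :=
  ∀ (A : Type) [Ring A] [Module.Finite ℤ A] [Module.Free ℤ A] (c h : ℕ), PolyGrowth (Fin h → UC A c)

/-- **E1c** no zero divisors (may use `S_order`) -/
def S_domain : Prop :=
  ∀ (A : Type) [Ring A] [Module.Finite ℤ A] [Module.Free ℤ A] (c h : ℕ),
    NoZeroDivisors (MonoidAlgebra (ZMod 2) (Fin h → UC A c))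

/-- the element `a` of the group ring is supported in `H` -/
def SuppIn {G : Type} [Group G] (H : Subgroup G) (a : MonoidAlgebra (ZMod 2) G) : Prop := ∀ g, a.coeff g ≠ 0 → g ∈ H

/-- the Ore condition, with supports in subgroups -/
def OreG (G : Type) [Group G] : Prop :=
  ∀ (H : Subgroup G) (a s : MonoidAlgebra (ZMod 2) G), SuppIn H a → SuppIn H s → s ≠ 0 →
    ∃ r q : MonoidAlgebra (ZMod 2) G, SuppIn H r ∧ SuppIn H q ∧ r ≠ 0 ∧ r * a = q * s

/-- **E1d** growth gives the Ore condition -/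
def S_ore : Prop :=
  ∀ (G : Type) [Group G], PolyGrowth G → NoZeroDivisors (MonoidAlgebra (ZMod 2) G) → OreG G

/-! ### E2: the Ore field of fractions with its involution and its valuations -/

/-- the Ore field of fractions of `F_2[G]` -/
structure OreDiv (G : Type) [Group G] where
  D : Type
  [div : DivisionRing D]
  [alg : Algebra (ZMod 2) D]
  [st : StarRing D]
  u : G →* Dˣ
  star_u : ∀ g, star ((u g : Dˣ) : D) = ((u g⁻¹ : Dˣ) : D)
  val : ∀ (L : Type) [Group L] [LinearOrder L], (∀ a b d : L, a ≤ b → d * a ≤ d * b) →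
    (∀ a b d : L, a ≤ b → a * d ≤ b * d) → ∀ π : G →* L, ∃ (v : D → L) (F : Subfield D),
      (∀ x y : D, x ≠ 0 → y ≠ 0 → x + y ≠ 0 → min (v x) (v y) ≤ v (x + y)) ∧
      (∀ (g : G) (x : D), x ≠ 0 → v (((u g : Dˣ) : D) * x) = π g * v x) ∧
      (∀ g : G, π g = 1 → ((u g : Dˣ) : D) ∈ F) ∧
      ∀ c ∈ F, c ≠ 0 → ∀ x : D, x ≠ 0 → v (c * x) = v x

attribute [instance] OreDiv.div OreDiv.alg OreDiv.st

/-- **E2** -/
def S_div : Prop :=
  ∀ (G : Type) [Group G], NoZeroDivisors (MonoidAlgebra (ZMod 2) G) → OreG G → Nonempty (OreDiv G)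

/-! ### E4: ultraproducts -/

/-- a sequence of division rings with involution and homomorphisms of `K` -/
structure DivSeq (K : Type) [Group K] where
  D : ℕ → Type
  [div : ∀ c, DivisionRing (D c)]
  [alg : ∀ c, Algebra (ZMod 2) (D c)]
  [st : ∀ c, StarRing (D c)]
  u : ∀ c, K →* (D c)ˣ
  star_u : ∀ c g, star ((u c g : (D c)ˣ) : D c) = ((u c g⁻¹ : (D c)ˣ) : D c)

attribute [instance] DivSeq.div DivSeq.alg DivSeq.st

/-- a sequence of valuations which in the limit separates `K / N` -/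
structure SeqLevel {K : Type} [Group K] (S : DivSeq K) (N : Subgroup K) where
  L : ℕ → Type
  [grp : ∀ c, Group (L c)]
  [lo : ∀ c, LinearOrder (L c)]
  mono : ∀ c (a b d : L c), a ≤ b → d * a ≤ d * b
  π : ∀ c, K →* L c
  v : ∀ c, S.D c → L c
  F : ∀ c, Subfield (S.D c)
  v_add : ∀ c (x y : S.D c), x ≠ 0 → y ≠ 0 → x + y ≠ 0 → min (v c x) (v c y) ≤ v c (x + y)
  v_act : ∀ c (g : K) (x : S.D c), x ≠ 0 → v c (((S.u c g : (S.D c)ˣ) : S.D c) * x) = π c g * v c x
  mem_F : ∀ c (g : K), π c g = 1 → ((S.u c g : (S.D c)ˣ) : S.D c) ∈ F c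
  v_F : ∀ c, ∀ d ∈ F c, d ≠ 0 → ∀ x : S.D c, x ≠ 0 → v c (d * x) = v c x
  ker : ∀ g ∈ N, ∀ c, π c g = 1
  sep : ∀ g, g ∉ N → ∀ᶠ c in Filter.atTop, π c g ≠ 1

attribute [instance] SeqLevel.grp SeqLevel.lo

/-- **E4** the ultraproduct along `Filter.hyperfilter ℕ` -/
def S_ultra : Prop :=
  ∀ (K : Type) [Group K] (S : DivSeq K) (h : ℕ) (N : ℕ → Subgroup K), (∀ i, i < h → Nonempty (SeqLevel S (N i))) →
    ∃ (D : Type) (_ : DivisionRing D) (_ : Algebra (ZMod 2) D) (_ : StarRing D) (rho : K →* Dˣ),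
      (∀ g, star ((rho g : Dˣ) : D) = ((rho g⁻¹ : Dˣ) : D)) ∧ ∀ i, i < h → Nonempty (Level K D rho (N i))

/-! ### T1: the Tits representation over `ℤ[[t]]` -/

/-- **T1** -/
def S_rep : Prop :=
  ∀ (V : Type) [Fintype V] (G : SimpleGraph V), ∃ ρ : commutator (RACG G) →* PU (Module.End ℤ (V → ℤ)),
    Function.Injective ρ

/-! ### T2: the tower -/

open Classical in
/-- the retraction which kills the generators of the vertices in `Z` -/
noncomputable def kill {V : Type} (G : SimpleGraph V) (Z : Set V) : RACG G →* RACG G :=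
  Racg.lift (fun v => if v ∈ Z then 1 else Racg.gen G v) (fun v => by split_ifs <;> simp)
    fun u v h => by
      split_ifs
      · simp
      · simp
      · simp
      · exact Racg.gen_comm h

/-- **T2a** the even part of the kernel of the map which kills one vertex embeds in a free group -/
def S_kill : Prop :=
  ∀ (V : Type) [Fintype V] (G : SimpleGraph V) (v : V), ∃ (C : Type)
    (φ : ((kill G {v}).ker ⊓ commutator (RACG G) : Subgroup (RACG G)) →* FreeGroup C), Function.Injective φ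

/-- **T2b** Nielsen-Schreier -/
def S_free : Prop :=
  ∀ (K : Type) [Group K] (N N' : Subgroup K) [N.Normal] (C : Type) (ψ : N' →* FreeGroup C), N ≤ N' →
    (∀ g : N', ψ g = 1 ↔ (g : K) ∈ N) → Nonempty (FreeQuot K N N')

end SQ
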