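import Mathlib
import Pool.Agent.Singer.TDefs
import Pool.Agent.Singer.FinStmt
import Pool.Agent.Singer.PDStmt
import Pool.Agent.SQ.Ring

/-!
# Project MP_984acc_SQ: definitions

Everything is over `ZMod 2`.
-/

set_option autoImplicit false

open scoped TensorProduct

namespace SQ

open Singer

/-! ### coinvariants, induced modules, acyclic modules -/

section coin
variable {K : Type} [Group K] {M : Type} [AddCommGroup M] [Module (ZMod 2) M]

/-- the span of the elements `n m - m`, `n ∈ N`; the coinvariants of `N` are the quotient by it -/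
def coin (τ : Representation (ZMod 2) K M) (N : Subgroup K) : Submodule (ZMod 2) M :=
  Submodule.span (ZMod 2) {m | ∃ n ∈ N, ∃ x, m = τ n x - x}

end coin

/-- the induced module `⊕_K Z` with the left translations -/
noncomputable def trans (K Z : Type) [Group K] [AddCommGroup Z] [Module (ZMod 2) Z] :
    Representation (ZMod 2) K (K →₀ Z) where
  toFun g := Finsupp.lmapDomain Z (ZMod 2) fun h => g * h
  map_one' := by
    ext x y : 2
    simp
  map_mul' a b := by
    ext x y : 2
    simp [mul_assoc]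

/-- a direct summand of an induced module (e.g. a projective module, and its tensor products with any module) -/
def Ind {K : Type} [Group K] {M : Type} [AddCommGroup M] [Module (ZMod 2) M]
    (σ : Representation (ZMod 2) K M) : Prop :=
  ∃ (Z : Type) (_ : AddCommGroup Z) (_ : Module (ZMod 2) Z) (i : M →ₗ[ZMod 2] (K →₀ Z))
    (p : (K →₀ Z) →ₗ[ZMod 2] M), (∀ m, p (i m) = m) ∧ (∀ g m, i (σ g m) = trans K Z g (i m)) ∧
      ∀ g f, p (trans K Z g f) = σ g (p f)

/-- an augmented exact complex `… → M 1 → M 0 → Y → 0` of representations with `M j` summands of induced modules -/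
structure Cx {K : Type} [Group K] {Y : Type} [AddCommGroup Y] [Module (ZMod 2) Y]
    (τ : Representation (ZMod 2) K Y) where
  M : ℕ → Type
  [acg : ∀ j, AddCommGroup (M j)]
  [mod : ∀ j, Module (ZMod 2) (M j)]
  σ : ∀ j, Representation (ZMod 2) K (M j)
  d : ∀ j, M (j + 1) →ₗ[ZMod 2] M j
  e : M 0 →ₗ[ZMod 2] Y
  d_act : ∀ j g x, d j (σ (j + 1) g x) = σ j g (d j x)
  e_act : ∀ g x, e (σ 0 g x) = τ g (e x)
  surj : Function.Surjective e
  ex0 : ∀ x, e x = 0 ↔ ∃ y, d 0 y = x
  ex : ∀ j x, d j x = 0 ↔ ∃ y, d (j + 1) y = x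
  ind : ∀ j, Ind (σ j)

attribute [instance] Cx.acg Cx.mod

/-- the complex of coinvariants under `N` is exact (including the augmentation) -/
structure Cx.CoEx {K : Type} [Group K] {Y : Type} [AddCommGroup Y] [Module (ZMod 2) Y]
    {τ : Representation (ZMod 2) K Y} (C : Cx τ) (N : Subgroup K) : Prop where
  zero : ∀ x, C.e x ∈ coin τ N → ∃ y, x - C.d 0 y ∈ coin (C.σ 0) N
  succ : ∀ j x, C.d j x ∈ coin (C.σ j) N → ∃ y, x - C.d (j + 1) y ∈ coin (C.σ (j + 1)) N

/-- `Y` is acyclic: `H_j(K; Y) = 0` for `j > 0` -/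
def Acy {K : Type} [Group K] {Y : Type} [AddCommGroup Y] [Module (ZMod 2) Y]
    (τ : Representation (ZMod 2) K Y) : Prop := ∀ C : Cx τ, C.CoEx ⊤

/-! ### the skew field with its valuations -/

section ring
variable {K : Type} [Group K] {D : Type} [DivisionRing D]

/-- left multiplications -/
noncomputable def lmul [Algebra (ZMod 2) D] (ρ : K →* Dˣ) : Representation (ZMod 2) K D where
  toFun g := LinearMap.mulLeft (ZMod 2) (ρ g : D)
  map_one' := by ext x; simp
  map_mul' a b := by ext x; simp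

/-- the diagonal action on `D ⊗ D` -/
noncomputable def diag [Algebra (ZMod 2) D] (ρ : K →* Dˣ) : Representation (ZMod 2) K (D ⊗[ZMod 2] D) :=
  (lmul ρ).tprod (lmul ρ)

end ring

/-! ### complexes of a resolution with coefficients -/

section res
variable {H : Type} [Group H] {Y : Type} [AddCommGroup Y] [Module (ZMod 2) Y]

/-- the coboundary of `Hom_H(R, Y)` -/
noncomputable def cobd {α β : Type} [Fintype β] (τ : Representation (ZMod 2) H Y)
    (P : Matrix α β (MonoidAlgebra ℤ H)) (f : β → Y) (a : α) : Y :=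
  ∑ b, ∑ g ∈ (P a b).coeff.support, ((P a b).coeff g : ZMod 2) • τ g (f b)

/-- the boundary of `R ⊗_H Y` -/
noncomputable def bdry {α β : Type} [Fintype α] (τ : Representation (ZMod 2) H Y)
    (P : Matrix α β (MonoidAlgebra ℤ H)) (f : α → Y) (b : β) : Y :=
  ∑ a, ∑ g ∈ (P a b).coeff.support, ((P a b).coeff g : ZMod 2) • τ g⁻¹ (f a)

/-- `H^j(H; Y) = 0`, computed with the resolution `R` -/
def Ex (τ : Representation (ZMod 2) H Y) (R : FinRes H) : ℕ → Prop
  | 0 => ∀ f, cobd τ (R.d 0) f = 0 → f = 0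
  | j + 1 => ∀ f, cobd τ (R.d (j + 1)) f = 0 → ∃ e, cobd τ (R.d j) e = f

/-- `H_j(H; Y) = 0`, computed with the resolution `R` -/
def ExH (τ : Representation (ZMod 2) H Y) (R : FinRes H) : ℕ → Prop
  | 0 => ∀ f, ∃ e, bdry τ (R.d 0) e = f
  | j + 1 => ∀ f, bdry τ (R.d j) f = 0 → ∃ e, bdry τ (R.d (j + 1)) e = f

end res

end SQ
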