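import Mathlib

/-!
# A free action of a free group is a forest

`exists_far`: edges `(l, ω)` join `ω` and `τ l ω`; to every edge one of its two ends can be assigned, injectively, and
a given vertex is avoided.
-/

set_option autoImplicit false

namespace SQ


section forest
variable {ι Ω : Type*}

/-- the word of `of l * w` -/
lemma head_of_mul [DecidableEq ι] (l : ι) (w : FreeGroup ι) :
    ((FreeGroup.of l * w).toWord.head? = some (l, true) ∧ w.toWord.head? ≠ some (l, false)) ∨
      (w.toWord.head? = some (l, false) ∧ (FreeGroup.of l * w).toWord.head? ≠ some (l, true)) := by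
  have h1 : FreeGroup.of l * w = FreeGroup.mk ((l, true) :: w.toWord) := by
    conv_lhs => rw [← FreeGroup.mk_toWord (x := w)]
    rfl
  have h2 : (FreeGroup.of l * w).toWord = FreeGroup.reduce ((l, true) :: w.toWord) := by
    rw [h1, FreeGroup.toWord_mk]
  have hred : FreeGroup.reduce w.toWord = w.toWord := FreeGroup.reduce_toWord w
  rw [FreeGroup.reduce.cons, hred] at h2
  have hred' : FreeGroup.IsReduced w.toWord := FreeGroup.isReduced_toWord
  cases hL : w.toWord with
  | nil =>
    left
    rw [hL] at h2
    simp only at h2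
    rw [h2]
    simp
  | cons a L =>
    rw [hL] at h2
    simp only at h2
    by_cases ha : l = a.1 ∧ true = !a.2
    · right
      rw [if_pos (by simpa using ha)] at h2
      obtain ⟨ha1, ha2⟩ := ha
      have ha3 : a = (l, false) := by
        rcases a with ⟨b, c⟩
        simp at ha1 ha2 ⊢
        exact ⟨ha1.symm, ha2⟩
      refine ⟨by rw [ha3]; rfl, ?_⟩
      rw [h2]
      intro h3
      rw [hL] at hred'
      cases L with
      | nil => simp at h3
      | cons b L' =>
        simp only [List.head?_cons, Option.some.injEq] at h3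
        rw [ha3, h3] at hred'
        have := FreeGroup.isReduced_cons_cons.1 hred'
        simp at this
    · left
      rw [if_neg (by simpa using ha)] at h2
      rw [h2]
      refine ⟨rfl, ?_⟩
      intro h3
      simp only [List.head?_cons, Option.some.injEq] at h3
      apply ha
      rw [h3]
      simp

/-- a free action of a free group is a forest: every edge gets one of its ends, injectively, avoiding `ω₀` -/
theorem exists_far (τ : ι → Equiv.Perm Ω)
    (hfree : ∀ (w : FreeGroup ι) (ω : Ω), FreeGroup.lift τ w ω = ω → w = 1) (ω₀ : Ω) :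
    ∃ far : ι × Ω → Ω, Function.Injective far ∧ (∀ e, far e = e.2 ∨ far e = τ e.1 e.2) ∧ ∀ e, far e ≠ ω₀ := by
  classical
  let r : Ω → Ω → Prop := fun a b => ∃ w : FreeGroup ι, FreeGroup.lift τ w a = b
  have hr : Equivalence r :=
    { refl := fun a => ⟨1, by simp⟩
      symm := by
        rintro a b ⟨w, hw⟩
        refine ⟨w⁻¹, ?_⟩
        rw [map_inv, ← hw]
        exact (FreeGroup.lift τ w).symm_apply_apply a
      trans := by
        rintro a b c ⟨w, hw⟩ ⟨w', hw'⟩
        refine ⟨w' * w, ?_⟩
        rw [map_mul, Equiv.Perm.mul_apply, hw, hw'] }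
  let S : Setoid Ω := ⟨r, hr⟩
  let ρ : Ω → Ω := fun a => if r a ω₀ then ω₀ else (Quotient.mk S a).out
  have hρ0 : ρ ω₀ = ω₀ := if_pos (hr.refl ω₀)
  have hρ : ∀ a b, r a b → ρ a = ρ b := by
    intro a b hab
    have h1 : r a ω₀ ↔ r b ω₀ := ⟨fun h => hr.trans (hr.symm hab) h, fun h => hr.trans hab h⟩
    have h2 : Quotient.mk S a = Quotient.mk S b := Quotient.sound hab
    simp only [ρ, h1, h2]
  have hρr : ∀ a, r (ρ a) a := by
    intro a
    by_cases h : r a ω₀
    · simp only [ρ, if_pos h]
      exact hr.symm h
    · simp only [ρ, if_neg h]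
      exact Quotient.exact (Quotient.out_eq (Quotient.mk S a))
  choose w hw using hρr
  have huniq : ∀ (u u' : FreeGroup ι) (a : Ω), FreeGroup.lift τ u a = FreeGroup.lift τ u' a → u = u' := by
    intro u u' a h
    have : u'⁻¹ * u = 1 := hfree _ a (by
      rw [map_mul, map_inv, Equiv.Perm.mul_apply, h]
      exact (FreeGroup.lift τ u').symm_apply_apply a)
    exact (inv_mul_eq_one.1 this).symm
  have hw0 : w ω₀ = 1 := hfree _ ω₀ (by
    have := hw ω₀
    rwa [hρ0] at this)
  have hstep : ∀ l a, w (τ l a) = FreeGroup.of l * w a := by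
    intro l a
    have h1 : ρ a = ρ (τ l a) := hρ _ _ ⟨FreeGroup.of l, by simp⟩
    refine huniq _ _ (ρ a) ?_
    rw [map_mul, Equiv.Perm.mul_apply, hw a]
    have := hw (τ l a)
    rw [← h1] at this
    rw [this]
    simp
  refine ⟨fun e => if (w (τ e.1 e.2)).toWord.head? = some (e.1, true) then τ e.1 e.2 else e.2, ?_, ?_, ?_⟩
  · have key : ∀ e : ι × Ω, ∃ b : Bool,
        (w (if (w (τ e.1 e.2)).toWord.head? = some (e.1, true) then τ e.1 e.2 else e.2)).toWord.head? = some (e.1, b) ∧
        (b = true → (if (w (τ e.1 e.2)).toWord.head? = some (e.1, true) then τ e.1 e.2 else e.2) = τ e.1 e.2) ∧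
        (b = false → (if (w (τ e.1 e.2)).toWord.head? = some (e.1, true) then τ e.1 e.2 else e.2) = e.2) := by
      rintro ⟨l, a⟩
      by_cases h : (w (τ l a)).toWord.head? = some (l, true)
      · refine ⟨true, ?_, ?_, ?_⟩
        · simp only [h, if_true]
        · intro _
          simp only [h, if_true]
        · intro h'
          exact absurd h' (by simp)
      · refine ⟨false, ?_, ?_, ?_⟩
        · simp only [if_neg h]
          rw [hstep] at h
          rcases head_of_mul l (w a) with h1 | h1
          · exact absurd h1.1 h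
          · exact h1.1
        · intro h'
          exact absurd h' (by simp)
        · intro _
          simp only [if_neg h]
    intro e e' hee
    simp only at hee
    obtain ⟨b, hb1, hb2, hb3⟩ := key e
    obtain ⟨b', hb1', hb2', hb3'⟩ := key e'
    rw [hee, hb1'] at hb1
    simp only [Option.some.injEq, Prod.mk.injEq] at hb1
    obtain ⟨h1, h2⟩ := hb1
    subst h2
    cases b' with
    | true =>
      have h3 := hb2 rfl
      have h4 := hb2' rfl
      rw [hee, h4, h1] at h3
      exact Prod.ext h1.symm ((τ e.1).injective h3).symm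
    | false =>
      have h3 := hb3 rfl
      have h4 := hb3' rfl
      rw [hee, h4] at h3
      exact Prod.ext h1.symm h3.symm
  · intro e
    by_cases h : (w (τ e.1 e.2)).toWord.head? = some (e.1, true)
    · right
      simp only [h, if_true]
    · left
      simp only [if_neg h]
  · rintro ⟨l, a⟩ h0
    by_cases h : (w (τ l a)).toWord.head? = some (l, true)
    · simp only [h, if_true] at h0
      rw [h0, hw0] at h
      simp at h
    · simp only [if_neg h] at h0
      rw [hstep] at h
      rcases head_of_mul l (w a) with h1 | h1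
      · exact absurd h1.1 h
      · rw [h0, hw0] at h1
        simp at h1

end forest

end SQ
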