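import Mathlib
import Pool.Agent.SQ.Forest

/-!
# The expansion inequality

A vector space with a valuation in a totally ordered set on which a free group acts freely, compatibly with
semilinear operators `T s`. For finite-dimensional subspaces `A s`, not all zero, the dimension of
`∑ (A s + T s (A s))` is greater than the sum of the dimensions of the `A s`.
-/

set_option autoImplicit false

namespace SQ

section val
variable {K X Ω : Type*} [DivisionRing K] [AddCommGroup X] [Module K X] [LinearOrder Ω]

/-- a valuation, constant on the nonzero multiples of a vector (the value at `0` is irrelevant) -/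
structure IsVal (K : Type*) {X Ω : Type*} [DivisionRing K] [AddCommGroup X] [Module K X] [LinearOrder Ω]
    (v : X → Ω) : Prop where
  add : ∀ x y : X, x ≠ 0 → y ≠ 0 → x + y ≠ 0 → min (v x) (v y) ≤ v (x + y)
  smul : ∀ (c : K) (x : X), c ≠ 0 → x ≠ 0 → v (c • x) = v x

variable {v : X → Ω}

lemma IsVal.neg (hv : IsVal K v) {x : X} (hx : x ≠ 0) : v (-x) = v x := by
  rw [← neg_one_smul K x]
  exact hv.smul (-1) x (neg_ne_zero.2 one_ne_zero) hx

/-- strict inequality of the values -/
lemma IsVal.add_of_lt (hv : IsVal K v) {x y : X} (hx : x ≠ 0) (hy : y ≠ 0) (h : v x < v y) :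
    x + y ≠ 0 ∧ v (x + y) = v x := by
  have h0 : x + y ≠ 0 := by
    intro h0
    have h1 : y = -x := (neg_eq_of_add_eq_zero_right h0).symm
    rw [h1, hv.neg hx] at h
    exact lt_irrefl _ h
  refine ⟨h0, le_antisymm ?_ ?_⟩
  · by_contra hlt
    push Not at hlt
    have h1 : x = (x + y) + -y := by abel
    have h2 := hv.add (x + y) (-y) h0 (neg_ne_zero.2 hy) (by rw [← h1]; exact hx)
    rw [← h1, hv.neg hy] at h2
    exact absurd (lt_of_lt_of_le (lt_min hlt h) h2) (lt_irrefl _)
  · have := hv.add x y hx hy h0
    rwa [min_eq_left h.le] at this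

/-- a sum of vectors of value greater than `ω` is zero or has value greater than `ω` -/
lemma IsVal.lt_sum (hv : IsVal K v) {I : Type*} (s : Finset I) (f : I → X) (ω : Ω)
    (h : ∀ i ∈ s, f i ≠ 0 → ω < v (f i)) : ∑ i ∈ s, f i ≠ 0 → ω < v (∑ i ∈ s, f i) := by
  classical
  induction s using Finset.induction_on with
  | empty => simp
  | insert a s ha ih =>
    intro h0
    rw [Finset.sum_insert ha] at h0 ⊢
    have ih' := ih fun i hi => h i (Finset.mem_insert_of_mem hi)
    by_cases h1 : f a = 0
    · rw [h1, zero_add] at h0 ⊢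
      exact ih' h0
    by_cases h2 : ∑ i ∈ s, f i = 0
    · rw [h2, add_zero] at h0 ⊢
      exact h a (Finset.mem_insert_self _ _) h1
    exact lt_of_lt_of_le (lt_min (h a (Finset.mem_insert_self _ _) h1) (ih' h2)) (hv.add _ _ h1 h2 h0)

/-- the vectors of the same value are independent modulo vectors of greater value -/
def Fib (K : Type*) {X Ω I : Type*} [DivisionRing K] [AddCommGroup X] [Module K X] [LinearOrder Ω] [Fintype I]
    (v : X → Ω) (q : I → X) : Prop :=
  ∀ (ω : Ω) (c : I → K), (∃ i, c i ≠ 0) → (∀ i, c i ≠ 0 → v (q i) = ω) →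
    ∑ i, c i • q i ≠ 0 ∧ v (∑ i, c i • q i) = ω

lemma Fib.ne_zero {I : Type*} [Fintype I] {q : I → X} (h : Fib K v q) (i : I) : q i ≠ 0 := by
  classical
  have h1 := (h (v (q i)) (Pi.single i 1) ⟨i, by simp⟩ (fun j hj => by
    by_cases hji : j = i
    · rw [hji]
    · exact absurd (Pi.single_eq_of_ne hji 1) hj)).1
  intro h0
  apply h1
  refine Finset.sum_eq_zero fun j _ => ?_
  by_cases hji : j = i
  · rw [hji, h0, smul_zero]
  · rw [Pi.single_eq_of_ne hji, zero_smul]

theorem Fib.indep {I : Type*} [Fintype I] {q : I → X} (hv : IsVal K v) (h : Fib K v q) : LinearIndependent K q := by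
  classical
  rw [Fintype.linearIndependent_iff]
  intro c hc
  by_contra hne
  push Not at hne
  obtain ⟨i₀, hi₀⟩ := hne
  let S : Finset I := Finset.univ.filter fun i => c i ≠ 0
  have hS : S.Nonempty := ⟨i₀, by simp [S, hi₀]⟩
  obtain ⟨i₁, hi₁, hmin⟩ := S.exists_min_image (fun i => v (q i)) hS
  set ω := v (q i₁) with hω
  let c₁ : I → K := fun i => if v (q i) = ω then c i else 0
  let c₂ : I → K := fun i => if v (q i) = ω then 0 else c i
  have h1 := h ω c₁ ⟨i₁, by
    rw [show c₁ i₁ = c i₁ from if_pos rfl]
    exact (Finset.mem_filter.1 hi₁).2⟩ (fun i hi => by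
    by_contra hne
    exact hi (if_neg hne))
  have hsum : ∑ i, c₁ i • q i + ∑ i, c₂ i • q i = 0 := by
    rw [← Finset.sum_add_distrib, ← hc]
    refine Finset.sum_congr rfl fun i _ => ?_
    by_cases hi : v (q i) = ω
    · simp only [c₁, c₂, if_pos hi, zero_smul, add_zero]
    · simp only [c₁, c₂, if_neg hi, zero_smul, zero_add]
  have h2 : ∑ i, c₂ i • q i = -∑ i, c₁ i • q i := (neg_eq_of_add_eq_zero_right hsum).symm
  have h3 : ∑ i, c₂ i • q i ≠ 0 := by
    rw [h2]
    exact neg_ne_zero.2 h1.1
  have h4 := hv.lt_sum Finset.univ (fun i => c₂ i • q i) ω (fun i _ hi => by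
    have hc2 : c₂ i ≠ 0 := fun h0 => hi (by simp only [h0, zero_smul])
    have hiω : v (q i) ≠ ω := fun h0 => hc2 (if_pos h0)
    have hci : c i ≠ 0 := by simpa only [c₂, if_neg hiω] using hc2
    show ω < v (c₂ i • q i)
    rw [hv.smul _ _ hc2 (h.ne_zero i)]
    exact lt_of_le_of_ne (hmin i (by simp [S, hci])) (Ne.symm hiω)) h3
  rw [h2, hv.neg h1.1, h1.2] at h4
  exact lt_irrefl _ h4

/-- the value of a combination of orthogonal vectors is the least of the values -/
def Orth (K : Type*) {X Ω I : Type*} [DivisionRing K] [AddCommGroup X] [Module K X] [LinearOrder Ω] [Fintype I]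
    (v : X → Ω) (q : I → X) : Prop :=
  ∀ c : I → K, (∃ i, c i ≠ 0) →
    ∑ i, c i • q i ≠ 0 ∧ ∃ i, c i ≠ 0 ∧ v (∑ i, c i • q i) = v (q i) ∧ ∀ j, c j ≠ 0 → v (q i) ≤ v (q j)

lemma Orth.fib {I : Type*} [Fintype I] {q : I → X} (h : Orth K v q) : Fib K v q := by
  intro ω c hc hω
  obtain ⟨h1, i, hi, h2, -⟩ := h c hc
  exact ⟨h1, by rw [h2, hω i hi]⟩

/-- orthogonal vectors can be found in the span of any given independent vectors -/
theorem exists_orth (hv : IsVal K v) : ∀ (n : ℕ) (b : Fin n → X), LinearIndependent K b →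
    ∃ u : Fin n → X, Orth K v u ∧ ∀ j, u j ∈ Submodule.span K (Set.range b) := by
  intro n
  induction n with
  | zero =>
    intro b _
    exact ⟨Fin.elim0, fun c ⟨i, _⟩ => i.elim0, fun j => j.elim0⟩
  | succ n ih =>
    intro b hb
    let b' : Fin n → X := fun j => b (Fin.castSucc j)
    have hb' : LinearIndependent K b' := hb.comp _ (Fin.castSucc_injective n)
    obtain ⟨u, hu, hub⟩ := ih b' hb'
    set A : Submodule K X := Submodule.span K (Set.range b') with hA
    set x : X := b (Fin.last n) with hx
    have hxA : x ∉ A := by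
      intro hmem
      have h1 : Set.range b' = b '' {j | j ≠ Fin.last n} := by
        ext y
        constructor
        · rintro ⟨j, rfl⟩
          exact ⟨Fin.castSucc j, (Fin.castSucc_lt_last j).ne, rfl⟩
        · rintro ⟨j, hj, rfl⟩
          obtain ⟨k, rfl⟩ := Fin.exists_castSucc_eq.2 hj
          exact ⟨k, rfl⟩
      rw [hA, h1] at hmem
      exact hb.notMem_span_image (by simp) hmem
    -- the orthogonal vectors span `A`
    have hui : LinearIndependent K u := (hu.fib).indep hv
    have huA : Submodule.span K (Set.range u) = A := by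
      have h1 : Submodule.span K (Set.range u) ≤ A := Submodule.span_le.2 (by rintro _ ⟨j, rfl⟩; exact hub j)
      have : FiniteDimensional K A := FiniteDimensional.span_of_finite K (Set.finite_range b')
      refine Submodule.eq_of_le_of_finrank_eq h1 ?_
      rw [finrank_span_eq_card hui, hA, finrank_span_eq_card hb']
    have hval : ∀ y ∈ A, y ≠ 0 → ∃ j, v y = v (u j) := by
      intro y hy hy0
      rw [← huA] at hy
      obtain ⟨c, rfl⟩ := (Submodule.mem_span_range_iff_exists_fun K).1 hy
      have hc : ∃ i, c i ≠ 0 := by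
        by_contra hne
        push Not at hne
        exact hy0 (Finset.sum_eq_zero fun i _ => by rw [hne i, zero_smul])
      obtain ⟨-, i, -, h2, -⟩ := hu c hc
      exact ⟨i, h2⟩
    have hne0 : ∀ y ∈ A, x + y ≠ 0 := by
      intro y hy h0
      apply hxA
      rw [show x = -y from (neg_eq_of_add_eq_zero_left h0).symm]
      exact A.neg_mem hy
    -- an element of maximal value in the coset of `x`
    obtain ⟨y, hyA, hmax⟩ : ∃ y ∈ A, ∀ y' ∈ A, v (x + y') ≤ v (x + y) := by
      by_cases hcase : ∃ y ∈ A, ∀ j, v (x + y) ≠ v (u j)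
      · obtain ⟨y, hyA, hy⟩ := hcase
        refine ⟨y, hyA, fun y' hy' => ?_⟩
        by_contra hlt
        push Not at hlt
        have hd : y' - y ∈ A := A.sub_mem hy' hyA
        have hd0 : y' - y ≠ 0 := by
          intro h0
          rw [sub_eq_zero.1 h0] at hlt
          exact lt_irrefl _ hlt
        have h1 : y' - y = -(x + y) + (x + y') := by abel
        have h2 := hv.add_of_lt (neg_ne_zero.2 (hne0 y hyA)) (hne0 y' hy') (by rwa [hv.neg (hne0 y hyA)])
        rw [← h1, hv.neg (hne0 y hyA)] at h2
        obtain ⟨j, hj⟩ := hval _ hd hd0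
        exact hy j (by rw [← h2.2, hj])
      · push Not at hcase
        have hfin : (Set.range fun y : A => v (x + y)).Finite := by
          refine (Set.finite_range fun j => v (u j)).subset ?_
          rintro _ ⟨y, rfl⟩
          obtain ⟨j, hj⟩ := hcase y y.2
          exact ⟨j, hj.symm⟩
        obtain ⟨ω, ⟨y, hy⟩, hω⟩ := Set.exists_max_image _ id hfin ⟨_, ⟨(0 : A), rfl⟩⟩
        refine ⟨y, y.2, fun y' hy' => ?_⟩
        have := hω _ ⟨⟨y', hy'⟩, rfl⟩
        simp only [id] at this
        rw [← hy] at this
        exact this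
    let q : Fin (n + 1) → X := Fin.snoc u (x + y)
    have hqc : ∀ j : Fin n, q (Fin.castSucc j) = u j := fun j => by simp [q]
    have hql : q (Fin.last n) = x + y := by simp [q]
    have hAb : A ≤ Submodule.span K (Set.range b) := Submodule.span_mono (by
      rintro _ ⟨j, rfl⟩
      exact ⟨_, rfl⟩)
    refine ⟨q, ?_, ?_⟩
    · intro c hc
      have hsum : ∑ i, c i • q i = ∑ j : Fin n, c (Fin.castSucc j) • u j + c (Fin.last n) • (x + y) := by
        rw [Fin.sum_univ_castSucc]
        simp only [hqc, hql]
      by_cases hl : c (Fin.last n) = 0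
      · have hc' : ∃ j : Fin n, c (Fin.castSucc j) ≠ 0 := by
          obtain ⟨i, hi⟩ := hc
          have hne : i ≠ Fin.last n := fun h => hi (h ▸ hl)
          obtain ⟨j, rfl⟩ := Fin.exists_castSucc_eq.2 hne
          exact ⟨j, hi⟩
        obtain ⟨h1, i, hi, h2, h3⟩ := hu (fun j => c (Fin.castSucc j)) hc'
        rw [hsum, hl, zero_smul, add_zero]
        refine ⟨h1, Fin.castSucc i, hi, by rw [h2, hqc], fun j hj => ?_⟩
        have hne : j ≠ Fin.last n := fun h => hj (h ▸ hl)
        obtain ⟨k, rfl⟩ := Fin.exists_castSucc_eq.2 hne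
        rw [hqc, hqc]
        exact h3 k hj
      · set a : K := c (Fin.last n) with ha
        have hxy0 := hne0 y hyA
        by_cases hw : ∃ j : Fin n, c (Fin.castSucc j) ≠ 0
        · obtain ⟨h1, i, hi, h2, h3⟩ := hu (fun j => c (Fin.castSucc j)) hw
          set w := ∑ j : Fin n, c (Fin.castSucc j) • u j with hwdef
          have hwA : w ∈ A := A.sum_mem fun j _ => A.smul_mem _ (hub j)
          have hz : ∑ i, c i • q i = a • (x + (y + a⁻¹ • w)) := by
            rw [hsum, ← add_assoc, smul_add a (x + y), smul_smul, mul_inv_cancel₀ hl, one_smul, add_comm]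
          have hz0 : x + (y + a⁻¹ • w) ≠ 0 := hne0 _ (A.add_mem hyA (A.smul_mem _ hwA))
          have hzv : v (∑ i, c i • q i) = v (x + (y + a⁻¹ • w)) := by rw [hz, hv.smul _ _ hl hz0]
          have hzle : v (∑ i, c i • q i) ≤ v (x + y) := by
            rw [hzv]
            exact hmax _ (A.add_mem hyA (A.smul_mem _ hwA))
          have hzne : ∑ i, c i • q i ≠ 0 := by
            rw [hz]
            exact smul_ne_zero hl hz0
          have hax0 : a • (x + y) ≠ 0 := smul_ne_zero hl hxy0
          have hax : v (a • (x + y)) = v (x + y) := hv.smul _ _ hl hxy0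
          rcases lt_or_ge (v w) (v (x + y)) with hlt | hge
          · have h4 := hv.add_of_lt h1 hax0 (by rw [hax]; exact hlt)
            refine ⟨hzne, Fin.castSucc i, hi, ?_, fun j hj => ?_⟩
            · rw [hsum, h4.2, h2, hqc]
            · rcases Fin.eq_castSucc_or_eq_last j with ⟨k, rfl⟩ | rfl
              · rw [hqc, hqc]
                exact h3 k hj
              · rw [hqc, hql, ← h2]
                exact hlt.le
          · refine ⟨hzne, Fin.last n, hl, ?_, fun j hj => ?_⟩
            · rw [hql]
              refine le_antisymm hzle ?_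
              have h5 := hv.add w (a • (x + y)) h1 hax0 (by rw [← hsum]; exact hzne)
              rw [← hsum, hax, min_eq_right hge] at h5
              exact h5
            · rcases Fin.eq_castSucc_or_eq_last j with ⟨k, rfl⟩ | rfl
              · rw [hql, hqc]
                refine hge.trans ?_
                rw [h2]
                exact h3 k hj
              · exact le_rfl
        · push Not at hw
          have h0 : ∑ j : Fin n, c (Fin.castSucc j) • u j = 0 := Finset.sum_eq_zero fun j _ => by
            rw [hw j, zero_smul]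
          rw [hsum, h0, zero_add]
          refine ⟨smul_ne_zero hl hxy0, Fin.last n, hl, by rw [hql, hv.smul _ _ hl hxy0], fun j hj => ?_⟩
          rcases Fin.eq_castSucc_or_eq_last j with ⟨k, rfl⟩ | rfl
          · exact absurd (hw k) hj
          · exact le_rfl
    · intro j
      rcases Fin.eq_castSucc_or_eq_last j with ⟨k, rfl⟩ | rfl
      · rw [hqc]
        exact hAb (hub k)
      · rw [hql]
        exact Submodule.add_mem _ (Submodule.subset_span ⟨Fin.last n, rfl⟩) (hAb hyA)

/-- **the expansion inequality**: the dimension of `∑ (A s + T s (A s))` is greater than `∑ dim A s` -/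
theorem expansion {S : Type*} (hv : IsVal K v) (T : S → X →+ X) (τ : S → Equiv.Perm Ω)
    (hTK : ∀ s (c : K), ∃ c' : K, ∀ x, c • T s x = T s (c' • x))
    (hT : ∀ s x, x ≠ 0 → T s x ≠ 0 ∧ v (T s x) = τ s (v x))
    (hfree : ∀ (w : FreeGroup S) (ω : Ω), FreeGroup.lift τ w ω = ω → w = 1)
    (t : Finset S) (A : S → Submodule K X) [∀ s, FiniteDimensional K (A s)]
    (W : Submodule K X) [FiniteDimensional K W] (hA : ∀ s ∈ t, A s ≤ W) (hTA : ∀ s ∈ t, ∀ x ∈ A s, T s x ∈ W)
    (hne : ∃ s ∈ t, A s ≠ ⊥) :
    ∑ s ∈ t, Module.finrank K (A s) + 1 ≤ Module.finrank K W := by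
  classical
  -- orthogonal bases
  have hu : ∀ s : S, ∃ u : Fin (Module.finrank K (A s)) → X, Orth K v u ∧ ∀ j, u j ∈ A s := by
    intro s
    let b := Module.finBasis K (A s)
    have hb : LinearIndependent K fun j => (b j : X) := b.linearIndependent.map' (A s).subtype (A s).ker_subtype
    obtain ⟨u, hu1, hu2⟩ := exists_orth hv _ _ hb
    refine ⟨u, hu1, fun j => ?_⟩
    refine Submodule.span_le.2 ?_ (hu2 j)
    rintro _ ⟨j, rfl⟩
    exact (b j).2
  choose u huo hum using hu
  have hu0 : ∀ s j, u s j ≠ 0 := fun s j => (huo s).fib.ne_zero j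
  obtain ⟨s₀, hs₀, hAs₀⟩ := hne
  have hpos : 0 < Module.finrank K (A s₀) := by
    rw [Module.finrank_pos_iff]
    exact (Submodule.nontrivial_iff_ne_bot).2 hAs₀
  obtain ⟨far, hinj, hend, havoid⟩ := exists_far τ hfree (v (u s₀ ⟨0, hpos⟩))
  let sel : S → Ω → X → X := fun s ω x => if far (s, ω) = ω then x else T s x
  have hsel : ∀ s j, sel s (v (u s j)) (u s j) ≠ 0 ∧ v (sel s (v (u s j)) (u s j)) = far (s, v (u s j)) := by
    intro s j
    by_cases h : far (s, v (u s j)) = v (u s j)
    · simp only [sel, if_pos h]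
      exact ⟨hu0 s j, h.symm⟩
    · simp only [sel, if_neg h]
      have h1 := hT s _ (hu0 s j)
      refine ⟨h1.1, ?_⟩
      rw [h1.2]
      exact ((hend (s, v (u s j))).resolve_left h).symm
  let J := (s : {s // s ∈ t}) × Fin (Module.finrank K (A s))
  let q : Option J → X := fun i => match i with
    | none => u s₀ ⟨0, hpos⟩
    | some j => sel j.1 (v (u j.1 j.2)) (u j.1 j.2)
  have hqW : ∀ i, q i ∈ W := by
    rintro (_ | ⟨s, j⟩)
    · exact hA s₀ hs₀ (hum _ _)
    · show sel s (v (u s j)) (u s j) ∈ W
      by_cases h : far (s, v (u s j)) = v (u s j)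
      · simp only [sel, if_pos h]
        exact hA s s.2 (hum _ _)
      · simp only [sel, if_neg h]
        exact hTA s s.2 _ (hum _ _)
  have hfib : Fib K v q := by
    intro ω c hc hω
    by_cases hnone : c none = 0
    · -- no contribution of the additional vector
      have hsum : ∑ i, c i • q i = ∑ s : {s // s ∈ t}, ∑ j : Fin (Module.finrank K (A s)),
          c (some ⟨s, j⟩) • sel s (v (u s j)) (u s j) := by
        rw [Fintype.sum_option, hnone, zero_smul, zero_add, Fintype.sum_sigma]
      obtain ⟨i, hi⟩ := hc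
      obtain ⟨s, j, rfl⟩ : ∃ (s : {s // s ∈ t}) (j : Fin (Module.finrank K (A s))), i = some ⟨s, j⟩ := by
        rcases i with _ | ⟨s, j⟩
        · exact absurd hnone hi
        · exact ⟨s, j, rfl⟩
      have hfar : far (s, v (u s j)) = ω := by
        rw [← (hsel s j).2]
        exact hω _ hi
      have hsame : ∀ (s' : {s // s ∈ t}) (j' : Fin (Module.finrank K (A s'))), c (some ⟨s', j'⟩) ≠ 0 →
          s' = s ∧ v (u s' j') = v (u s j) := by
        intro s' j' h'
        have h1 : far (s', v (u s' j')) = ω := by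
          rw [← (hsel s' j').2]
          exact hω _ h'
        have h2 := hinj (h1.trans hfar.symm)
        simp only [Prod.mk.injEq] at h2
        exact ⟨Subtype.ext h2.1, h2.2⟩
      have hsum2 : ∑ i, c i • q i = ∑ j' : Fin (Module.finrank K (A s)),
          c (some ⟨s, j'⟩) • sel s (v (u s j)) (u s j') := by
        rw [hsum, Finset.sum_eq_single s]
        · refine Finset.sum_congr rfl fun j' _ => ?_
          by_cases h' : c (some ⟨s, j'⟩) = 0
          · rw [h', zero_smul, zero_smul]
          · rw [(hsame s j' h').2]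
        · intro s' _ hs'
          refine Finset.sum_eq_zero fun j' _ => ?_
          by_cases h' : c (some ⟨s', j'⟩) = 0
          · rw [h', zero_smul]
          · exact absurd (hsame s' j' h').1 hs'
        · intro h
          exact absurd (Finset.mem_univ s) h
      rw [hsum2]
      by_cases h : far (s, v (u s j)) = v (u s j)
      · simp only [sel, if_pos h]
        have h1 := (huo s).fib (v (u s j)) (fun j' => c (some ⟨s, j'⟩)) ⟨j, hi⟩ fun j' hj' => (hsame s j' hj').2
        rw [← hfar, h]
        exact h1
      · simp only [sel, if_neg h]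
        choose c' hc' using hTK s
        let d : Fin (Module.finrank K (A s)) → K := fun j' => if c (some ⟨s, j'⟩) = 0 then 0 else c' (c (some ⟨s, j'⟩))
        have hd : ∀ j', c (some ⟨s, j'⟩) • T s (u s j') = T s (d j' • u s j') := by
          intro j'
          by_cases h' : c (some ⟨s, j'⟩) = 0
          · simp only [d, if_pos h', h', zero_smul, map_zero]
          · simp only [d, if_neg h']
            exact hc' _ _
        have hd0 : ∀ j', d j' ≠ 0 → c (some ⟨s, j'⟩) ≠ 0 := by
          intro j' h1 h2
          exact h1 (if_pos h2)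
        have hdj : d j ≠ 0 := by
          intro h0
          have h1 := hd j
          rw [h0, zero_smul, map_zero] at h1
          exact smul_ne_zero hi (hT s _ (hu0 s j)).1 h1
        have h1 := (huo s).fib (v (u s j)) d ⟨j, hdj⟩ fun j' hj' => (hsame s j' (hd0 j' hj')).2
        have h2 : ∑ j', c (some ⟨s, j'⟩) • T s (u s j') = T s (∑ j', d j' • u s j') := by
          rw [map_sum]
          exact Finset.sum_congr rfl fun j' _ => hd j'
        rw [h2]
        have h3 := hT s _ h1.1
        refine ⟨h3.1, ?_⟩
        rw [h3.2, h1.2, ← hfar]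
        exact ((hend (s, v (u s j))).resolve_left h).symm
    · have hω0 : v (u s₀ ⟨0, hpos⟩) = ω := hω none hnone
      have hsome : ∀ j : J, c (some j) = 0 := by
        rintro ⟨s, j⟩
        by_contra h'
        have h1 : far (s, v (u s j)) = ω := by
          rw [← (hsel s j).2]
          exact hω _ h'
        exact havoid _ (h1.trans hω0.symm)
      have hsum : ∑ i, c i • q i = c none • u s₀ ⟨0, hpos⟩ := by
        rw [Fintype.sum_option]
        have : ∑ j : J, c (some j) • q (some j) = 0 := Finset.sum_eq_zero fun j _ => by rw [hsome j, zero_smul]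
        rw [this, add_zero]
      rw [hsum]
      refine ⟨smul_ne_zero hnone (hu0 _ _), ?_⟩
      rw [hv.smul _ _ hnone (hu0 _ _), hω0]
  have hli := hfib.indep hv
  have hliW : LinearIndependent K fun i => (⟨q i, hqW i⟩ : W) := LinearIndependent.of_comp W.subtype hli
  have hcard := hliW.fintype_card_le_finrank
  rw [Fintype.card_option, Fintype.card_sigma] at hcard
  simp only [Fintype.card_fin] at hcard
  rw [Finset.sum_coe_sort t fun s => Module.finrank K (A s)] at hcard
  exact hcard

end val

end SQ
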