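import Pool.Agent.SQ.Coinv

/-! # The first homology of the free quotients with coefficients in the coinvariants of `D ⊗ D`

* `exists_min`: every `t : D ⊗ D` is congruent modulo `CN ρ N` to a sum of tensors `α l ⊗ β l` with left
  `kk ρ N`-linearly independent families `α`, `β`;
* `h1`: if `∑ x_s t_s - t_s ∈ CN ρ N` then all `t_s ∈ CN ρ N`, from Lemma C (sums of `m` tensors) and Lemma D
  (expansion). -/

set_option autoImplicit false

namespace SQ
open TensorProduct

variable {G : Type} [Group G] {D : Type} [DivisionRing D] [Algebra (ZMod 2) D]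

/-- the balanced relation (B1a) -/
def Bal [StarRing D] (ρ : G →* Dˣ) (N : Subgroup G) : Prop :=
  ∀ d ∈ kk ρ N, ∀ x y : D, (star d * x) ⊗ₜ[ZMod 2] y - x ⊗ₜ[ZMod 2] (d * y) ∈ CN ρ N

/-- Lemma C: a sum of `m` tensors which is zero in the coinvariants -/
def LemC (ρ : G →* Dˣ) (N : Subgroup G) : Prop :=
  ∀ {ι : Type} [Fintype ι] (α β : ι → D), ∑ l, α l ⊗ₜ[ZMod 2] β l ∈ CN ρ N →
    Module.finrank (kk ρ N) (Submodule.span (kk ρ N) (Set.range α)) +
      Module.finrank (kk ρ N) (Submodule.span (kk ρ N) (Set.range β)) ≤ Fintype.card ι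

/-- Lemma D: expansion.  `x` are lifts of finitely many elements of a basis of a free group -/
def LemD (ρ : G →* Dˣ) (N : Subgroup G) {ι : Type} [Fintype ι] (x : ι → G) : Prop :=
  ∀ (r : ι → ℕ) (α : (s : ι) → Fin (r s) → D), (∀ s, LinearIndependent (kk ρ N) (α s)) → (∃ s, 0 < r s) →
    1 + ∑ s, r s ≤ Module.finrank (kk ρ N) (Submodule.span (kk ρ N)
      (Set.range (Sum.elim (fun p : (s : ι) × Fin (r s) => (ρ (x p.1) : D) * α p.1 p.2)
        (fun p : (s : ι) × Fin (r s) => α p.1 p.2))))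

section char
variable {M : Type} [AddCommGroup M] [Module (ZMod 2) M]

theorem neg_eq (m : M) : -m = m := by
  have h : (2 : ZMod 2) • m = 0 := by
    rw [show (2 : ZMod 2) = 0 from rfl, zero_smul]
  rw [two_smul] at h
  exact neg_eq_of_add_eq_zero_left h

end char

section min

/-- the sum of the tensors -/
noncomputable def ts {r : ℕ} (α β : Fin r → D) : D ⊗[ZMod 2] D := ∑ l, α l ⊗ₜ[ZMod 2] β l

theorem exists_ts (t : D ⊗[ZMod 2] D) : ∃ (r : ℕ) (α β : Fin r → D), t = ts α β := by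
  induction t with
  | zero => exact ⟨0, Fin.elim0, Fin.elim0, by simp [ts]⟩
  | tmul x y => exact ⟨1, fun _ => x, fun _ => y, by simp [ts]⟩
  | add a b ha hb =>
    obtain ⟨r, α, β, rfl⟩ := ha
    obtain ⟨s, γ, δ, rfl⟩ := hb
    exact ⟨r + s, Fin.append α γ, Fin.append β δ, by simp [ts, Fin.sum_univ_add]⟩

variable [StarRing D]

/-- a relation between the `α` shortens the sum -/
theorem shorten_left {ρ : G →* Dˣ} {N : Subgroup G} (hB : Bal ρ N) (hs : ∀ d ∈ kk ρ N, star d ∈ kk ρ N)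
    {r : ℕ} (α β : Fin (r + 1) → D) (g : Fin (r + 1) → kk ρ N) (hg : ∑ l, g l • α l = 0) (i : Fin (r + 1))
    (hi : g i ≠ 0) : ∃ α' β' : Fin r → D, ts α β - ts α' β' ∈ CN ρ N := by
  have h1 : α i = ∑ l : Fin r, ((-(g i)⁻¹ * g (i.succAbove l) : kk ρ N) : D) * α (i.succAbove l) := by
    rw [Fin.sum_univ_succAbove _ i] at hg
    have h2 : (g i) • α i = - ∑ l, g (i.succAbove l) • α (i.succAbove l) := eq_neg_of_add_eq_zero_left hg
    have h3 : α i = (g i)⁻¹ • ((g i) • α i) := by rw [smul_smul, inv_mul_cancel₀ hi, one_smul]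
    rw [h3, h2, smul_neg, Finset.smul_sum, ← Finset.sum_neg_distrib]
    refine Finset.sum_congr rfl fun l _ => ?_
    rw [smul_smul, ← neg_smul, Subfield.smul_def, smul_eq_mul, neg_mul]
  refine ⟨fun l => α (i.succAbove l), fun l => β (i.succAbove l) +
    star ((-(g i)⁻¹ * g (i.succAbove l) : kk ρ N) : D) * β i, ?_⟩
  have h2 : ts α β - ts (fun l => α (i.succAbove l)) (fun l => β (i.succAbove l) +
      star ((-(g i)⁻¹ * g (i.succAbove l) : kk ρ N) : D) * β i) =
      ∑ l : Fin r, ((star (star ((-(g i)⁻¹ * g (i.succAbove l) : kk ρ N) : D)) * α (i.succAbove l)) ⊗ₜ[ZMod 2] β i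
        - α (i.succAbove l) ⊗ₜ[ZMod 2] (star ((-(g i)⁻¹ * g (i.succAbove l) : kk ρ N) : D) * β i)) := by
    unfold ts
    rw [Fin.sum_univ_succAbove _ i]
    nth_rewrite 1 [h1]
    rw [TensorProduct.sum_tmul, Finset.sum_sub_distrib]
    simp only [TensorProduct.tmul_add, Finset.sum_add_distrib, star_star]
    abel
  rw [h2]
  exact sum_mem fun l _ => hB _ (hs _ (SetLike.coe_mem _)) _ _

/-- a relation between the `β` shortens the sum -/
theorem shorten_right {ρ : G →* Dˣ} {N : Subgroup G} (hB : Bal ρ N)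
    {r : ℕ} (α β : Fin (r + 1) → D) (g : Fin (r + 1) → kk ρ N) (hg : ∑ l, g l • β l = 0) (i : Fin (r + 1))
    (hi : g i ≠ 0) : ∃ α' β' : Fin r → D, ts α β - ts α' β' ∈ CN ρ N := by
  have h1 : β i = ∑ l : Fin r, ((-(g i)⁻¹ * g (i.succAbove l) : kk ρ N) : D) * β (i.succAbove l) := by
    rw [Fin.sum_univ_succAbove _ i] at hg
    have h2 : (g i) • β i = - ∑ l, g (i.succAbove l) • β (i.succAbove l) := eq_neg_of_add_eq_zero_left hg
    have h3 : β i = (g i)⁻¹ • ((g i) • β i) := by rw [smul_smul, inv_mul_cancel₀ hi, one_smul]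
    rw [h3, h2, smul_neg, Finset.smul_sum, ← Finset.sum_neg_distrib]
    refine Finset.sum_congr rfl fun l _ => ?_
    rw [smul_smul, ← neg_smul, Subfield.smul_def, smul_eq_mul, neg_mul]
  refine ⟨fun l => α (i.succAbove l) + star ((-(g i)⁻¹ * g (i.succAbove l) : kk ρ N) : D) * α i,
    fun l => β (i.succAbove l), ?_⟩
  have h2 : ts α β - ts (fun l => α (i.succAbove l) +
      star ((-(g i)⁻¹ * g (i.succAbove l) : kk ρ N) : D) * α i) (fun l => β (i.succAbove l)) =
      - ∑ l : Fin r, ((star ((-(g i)⁻¹ * g (i.succAbove l) : kk ρ N) : D) * α i) ⊗ₜ[ZMod 2] β (i.succAbove l)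
        - α i ⊗ₜ[ZMod 2] (((-(g i)⁻¹ * g (i.succAbove l) : kk ρ N) : D) * β (i.succAbove l))) := by
    unfold ts
    rw [Fin.sum_univ_succAbove _ i]
    nth_rewrite 1 [h1]
    rw [TensorProduct.tmul_sum, Finset.sum_sub_distrib]
    simp only [TensorProduct.add_tmul, Finset.sum_add_distrib]
    abel
  rw [h2]
  exact neg_mem (sum_mem fun l _ => hB _ (SetLike.coe_mem _) _ _)

/-- reduced representatives -/
theorem exists_min {ρ : G →* Dˣ} {N : Subgroup G} (hB : Bal ρ N) (hs : ∀ d ∈ kk ρ N, star d ∈ kk ρ N)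
    (t : D ⊗[ZMod 2] D) : ∃ (r : ℕ) (α β : Fin r → D), t - ts α β ∈ CN ρ N ∧
      LinearIndependent (kk ρ N) α ∧ LinearIndependent (kk ρ N) β := by
  classical
  have hex : ∃ r : ℕ, ∃ α β : Fin r → D, t - ts α β ∈ CN ρ N := by
    obtain ⟨r, α, β, h⟩ := exists_ts t
    exact ⟨r, α, β, by rw [h, sub_self]; exact zero_mem _⟩
  obtain ⟨α, β, h⟩ := Nat.find_spec hex
  have hmin : ∀ r < Nat.find hex, ¬ ∃ α β : Fin r → D, t - ts α β ∈ CN ρ N := fun r hr => Nat.find_min hex hr
  generalize Nat.find hex = r at α β h hmin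
  refine ⟨r, α, β, h, ?_, ?_⟩
  · by_contra hc
    rw [Fintype.not_linearIndependent_iff] at hc
    obtain ⟨g, hg, i, hi⟩ := hc
    obtain _ | r := r
    · exact i.elim0
    · obtain ⟨α', β', h'⟩ := shorten_left hB hs α β g hg i hi
      exact hmin r (Nat.lt_succ_self r) ⟨α', β', by
        have := add_mem h h'
        rwa [sub_add_sub_cancel] at this⟩
  · by_contra hc
    rw [Fintype.not_linearIndependent_iff] at hc
    obtain ⟨g, hg, i, hi⟩ := hc
    obtain _ | r := r
    · exact i.elim0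
    · obtain ⟨α', β', h'⟩ := shorten_right hB α β g hg i hi
      exact hmin r (Nat.lt_succ_self r) ⟨α', β', by
        have := add_mem h h'
        rwa [sub_add_sub_cancel] at this⟩

end min

/-- **the first homology is zero** -/
theorem h1 [StarRing D] {ρ : G →* Dˣ} {N : Subgroup G} [N.Normal] (hB : Bal ρ N)
    (hs : ∀ d ∈ kk ρ N, star d ∈ kk ρ N) (hC : LemC ρ N) {ι : Type} [Fintype ι] (x : ι → G)
    (hD : LemD ρ N x) (p : ι → D ⊗[ZMod 2] D) (hp : ∑ s, (act ρ (x s) (p s) - p s) ∈ CN ρ N) :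
    ∀ s, p s ∈ CN ρ N := by
  classical
  choose r α β h hα hβ using fun s => exists_min hB hs (p s)
  by_cases hr : ∃ s, 0 < r s
  · exfalso
    have h1 := hD r α hα hr
    have h2 := hD r β hβ hr
    have h3 : ∑ l : ((s : ι) × Fin (r s)) ⊕ ((s : ι) × Fin (r s)),
        Sum.elim (fun p : (s : ι) × Fin (r s) => (ρ (x p.1) : D) * α p.1 p.2)
          (fun p : (s : ι) × Fin (r s) => α p.1 p.2) l ⊗ₜ[ZMod 2]
        Sum.elim (fun p : (s : ι) × Fin (r s) => (ρ (x p.1) : D) * β p.1 p.2)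
          (fun p : (s : ι) × Fin (r s) => β p.1 p.2) l ∈ CN ρ N := by
      rw [Fintype.sum_sum_type]
      simp only [Sum.elim_inl, Sum.elim_inr]
      rw [Fintype.sum_sigma, Fintype.sum_sigma]
      have e1 : ∀ s, ∑ l, ((ρ (x s) : D) * α s l) ⊗ₜ[ZMod 2] ((ρ (x s) : D) * β s l) = act ρ (x s) (ts (α s) (β s)) := by
        intro s
        rw [ts, map_sum]
        exact Finset.sum_congr rfl fun l _ => (act_tmul ρ (x s) _ _).symm
      have e2 : ∀ s, ∑ l, α s l ⊗ₜ[ZMod 2] β s l = ts (α s) (β s) := fun s => rfl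
      rw [Finset.sum_congr rfl fun s _ => e1 s, Finset.sum_congr rfl fun s _ => e2 s, ← Finset.sum_add_distrib]
      have e3 : ∀ s, act ρ (x s) (ts (α s) (β s)) + ts (α s) (β s) =
          (act ρ (x s) (p s) - p s) - (act ρ (x s) (p s - ts (α s) (β s)) - (p s - ts (α s) (β s))) := by
        intro s
        rw [map_sub]
        have : -(ts (α s) (β s)) = ts (α s) (β s) := neg_eq _
        nth_rewrite 2 [← this]
        abel
      rw [Finset.sum_congr rfl fun s _ => e3 s, Finset.sum_sub_distrib]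
      exact sub_mem hp (sum_mem fun s _ => sub_mem (act_mem_CN ρ N _ (h s)) (h s))
    have h4 := hC _ _ h3
    rw [Fintype.card_sum, Fintype.card_sigma] at h4
    simp only [Fintype.card_fin] at h4
    omega
  · push Not at hr
    intro s
    have h0 : r s = 0 := Nat.le_zero.1 (hr s)
    have h1 : ts (α s) (β s) = 0 := by
      unfold ts
      have : IsEmpty (Fin (r s)) := by rw [h0]; infer_instance
      exact Finset.sum_of_isEmpty _
    have := h s
    rwa [h1, sub_zero] at this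

end SQ
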