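import Pool.Agent.SQ.H1
import Pool.Agent.SQ.Expand

/-! # Lemma D from a valuation -/

set_option autoImplicit false
set_option linter.unusedSectionVars false

namespace SQ
open TensorProduct

variable {G : Type} [Group G] {D : Type} [DivisionRing D] [Algebra (ZMod 2) D]

theorem mem_kk (ρ : G →* Dˣ) {N : Subgroup G} {n : G} (hn : n ∈ N) : (ρ n : D) ∈ kk ρ N :=
  Subfield.subset_closure ⟨n, hn, rfl⟩

theorem conj_mem_kk (ρ : G →* Dˣ) (N : Subgroup G) [hN : N.Normal] (g : G) {d : D} (hd : d ∈ kk ρ N) :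
    (ρ g : D) * d * (ρ g⁻¹ : D) ∈ kk ρ N := by
  have h1 : (ρ g⁻¹ : D) * (ρ g : D) = 1 := by rw [← Units.val_mul, ← map_mul, inv_mul_cancel, map_one, Units.val_one]
  have h2 : (ρ g : D) * (ρ g⁻¹ : D) = 1 := by rw [← Units.val_mul, ← map_mul, mul_inv_cancel, map_one, Units.val_one]
  induction hd using Subfield.closure_induction with
  | mem d hd =>
    obtain ⟨n, hn, rfl⟩ := hd
    rw [← Units.val_mul, ← Units.val_mul, ← map_mul, ← map_mul]
    exact mem_kk ρ (hN.conj_mem n hn g)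
  | one => rw [mul_one, h2]; exact one_mem _
  | add a b _ _ ha hb => rw [mul_add, add_mul]; exact add_mem ha hb
  | neg a _ ha => rw [mul_neg, neg_mul]; exact neg_mem ha
  | inv a _ ha =>
    have h3 : (ρ g : D) * a⁻¹ * (ρ g⁻¹ : D) = ((ρ g : D) * a * (ρ g⁻¹ : D))⁻¹ := by
      rw [mul_inv_rev, mul_inv_rev]
      have e1 : (ρ g⁻¹ : D)⁻¹ = ρ g := inv_eq_of_mul_eq_one_right h1
      have e2 : (ρ g : D)⁻¹ = ρ g⁻¹ := inv_eq_of_mul_eq_one_right h2
      rw [e1, e2, mul_assoc]
    rw [h3]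
    exact inv_mem ha
  | mul a b _ _ ha hb =>
    have h3 : (ρ g : D) * (a * b) * (ρ g⁻¹ : D) = ((ρ g : D) * a * (ρ g⁻¹ : D)) * ((ρ g : D) * b * (ρ g⁻¹ : D)) := by
      calc (ρ g : D) * (a * b) * (ρ g⁻¹ : D) = (ρ g : D) * a * ((ρ g⁻¹ : D) * (ρ g : D)) * b * (ρ g⁻¹ : D) := by
            rw [h1, mul_one]
            simp only [mul_assoc]
        _ = _ := by simp only [mul_assoc]
    rw [h3]
    exact mul_mem ha hb

theorem star_mem_kk [StarRing D] (ρ : G →* Dˣ) (hρ : ∀ g, star (ρ g : D) = (ρ g⁻¹ : D)) (N : Subgroup G) {d : D}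
    (hd : d ∈ kk ρ N) : star d ∈ kk ρ N := by
  induction hd using Subfield.closure_induction with
  | mem d hd =>
    obtain ⟨n, hn, rfl⟩ := hd
    rw [hρ]
    exact mem_kk ρ (inv_mem hn)
  | one => rw [star_one]; exact one_mem _
  | add a b _ _ ha hb => rw [star_add]; exact add_mem ha hb
  | neg a _ ha => rw [star_neg]; exact neg_mem ha
  | inv a _ ha => rw [star_inv₀]; exact inv_mem ha
  | mul a b _ _ ha hb => rw [star_mul]; exact mul_mem hb ha

/-- **Lemma D** from a valuation, such that the group generated by the lifts `x` acts freely on the values -/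
theorem lemD_of {Ω : Type*} [LinearOrder Ω] (ρ : G →* Dˣ) (N : Subgroup G) [hN : N.Normal] {v : D → Ω}
    (hv : IsVal (kk ρ N) v) {ι : Type} [Fintype ι] (x : ι → G) (τ : ι → Equiv.Perm Ω)
    (hτ : ∀ s (d : D), d ≠ 0 → v ((ρ (x s) : D) * d) = τ s (v d))
    (hfree : ∀ (w : FreeGroup ι) (ω : Ω), FreeGroup.lift τ w ω = ω → w = 1) : LemD ρ N x := by
  classical
  intro r α hα hr
  have hx : ∀ s, (ρ (x s)⁻¹ : D) * (ρ (x s) : D) = 1 := fun s => by
    rw [← Units.val_mul, ← map_mul, inv_mul_cancel, map_one, Units.val_one]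
  have hx' : ∀ s, (ρ (x s) : D) * (ρ (x s)⁻¹ : D) = 1 := fun s => by
    rw [← Units.val_mul, ← map_mul, mul_inv_cancel, map_one, Units.val_one]
  set W : Submodule (kk ρ N) D := Submodule.span (kk ρ N)
      (Set.range (Sum.elim (fun p : (s : ι) × Fin (r s) => (ρ (x p.1) : D) * α p.1 p.2)
        (fun p : (s : ι) × Fin (r s) => α p.1 p.2))) with hW
  have hWf : FiniteDimensional (kk ρ N) W := FiniteDimensional.span_of_finite _ (Set.finite_range _)
  have hA : ∀ s, FiniteDimensional (kk ρ N) (Submodule.span (kk ρ N) (Set.range (α s))) := fun s =>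
    FiniteDimensional.span_of_finite _ (Set.finite_range _)
  have key := expansion hv (fun s => (AddMonoidHom.mulLeft (ρ (x s) : D))) τ
    (fun s c => ⟨⟨(ρ (x s)⁻¹ : D) * c * (ρ (x s) : D), by
        have := conj_mem_kk ρ N (x s)⁻¹ (SetLike.coe_mem c)
        rwa [inv_inv] at this⟩, fun y => by
      show (c : D) * ((ρ (x s) : D) * y) = (ρ (x s) : D) * (((ρ (x s)⁻¹ : D) * c * (ρ (x s) : D)) * y)
      rw [← mul_assoc (ρ (x s) : D), ← mul_assoc (ρ (x s) : D), ← mul_assoc (ρ (x s) : D), hx', one_mul, mul_assoc]⟩)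
    (fun s y hy => ⟨mul_ne_zero (Units.ne_zero _) hy, hτ s y hy⟩) hfree Finset.univ
    (fun s => Submodule.span (kk ρ N) (Set.range (α s))) W
    (fun s _ => Submodule.span_mono (by
      rintro _ ⟨l, rfl⟩
      exact ⟨Sum.inr ⟨s, l⟩, rfl⟩))
    (fun s _ y hy => by
      show (ρ (x s) : D) * y ∈ W
      induction hy using Submodule.span_induction with
      | mem y hy =>
        obtain ⟨l, rfl⟩ := hy
        exact Submodule.subset_span ⟨Sum.inl ⟨s, l⟩, rfl⟩
      | zero => rw [mul_zero]; exact zero_mem _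
      | add a b _ _ ha hb => rw [mul_add]; exact add_mem ha hb
      | smul c a _ ha =>
        have h1 : (ρ (x s) : D) * (c • a) =
            (⟨(ρ (x s) : D) * c * (ρ (x s)⁻¹ : D), conj_mem_kk ρ N (x s) (SetLike.coe_mem c)⟩ : kk ρ N) •
              ((ρ (x s) : D) * a) := by
          show (ρ (x s) : D) * ((c : D) * a) = ((ρ (x s) : D) * c * (ρ (x s)⁻¹ : D)) * ((ρ (x s) : D) * a)
          rw [mul_assoc _ (ρ (x s)⁻¹ : D), ← mul_assoc (ρ (x s)⁻¹ : D), hx, one_mul, mul_assoc]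
        rw [h1]
        exact Submodule.smul_mem _ _ ha)
    (by
      obtain ⟨s, hs⟩ := hr
      refine ⟨s, Finset.mem_univ _, fun h0 => ?_⟩
      have h1 : α s ⟨0, hs⟩ ∈ Submodule.span (kk ρ N) (Set.range (α s)) := Submodule.subset_span ⟨_, rfl⟩
      rw [h0, Submodule.mem_bot] at h1
      exact (hα s).ne_zero _ h1)
  have h2 : ∀ s, Module.finrank (kk ρ N) (Submodule.span (kk ρ N) (Set.range (α s))) = r s := fun s => by
    rw [finrank_span_eq_card (hα s), Fintype.card_fin]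
  have h3 : ∑ s, Module.finrank (kk ρ N) (Submodule.span (kk ρ N) (Set.range (α s))) = ∑ s, r s :=
    Finset.sum_congr rfl fun s _ => h2 s
  rw [h3] at key
  rw [add_comm]
  exact key

end SQ
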