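import Pool.Agent.SQ.Skel
import Pool.Agent.SQ.LemD

/-! # The balanced relations and the first homology of the free quotients

`bal_CN`: the balanced relations; `hon_of`: the claim `StmtHON` from Lemma C. -/

set_option autoImplicit false
set_option linter.unusedSectionVars false

namespace SQ
open TensorProduct

variable {K : Type} [Group K] {D : Type} [DivisionRing D] [Algebra (ZMod 2) D]

theorem diag_eq_act (ρ : K →* Dˣ) (g : K) (t : D ⊗[ZMod 2] D) : diag ρ g t = act ρ g t := rfl

theorem mem_coin (ρ : K →* Dˣ) (N : Subgroup K) (t : D ⊗[ZMod 2] D) : t ∈ coin (diag ρ) N ↔ t ∈ CN ρ N := by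
  constructor
  · intro h
    induction h using Submodule.span_induction with
    | mem t h =>
      obtain ⟨n, hn, s, rfl⟩ := h
      exact sub_mem_CN ρ hn s
    | zero => exact zero_mem _
    | add a b _ _ ha hb => exact add_mem ha hb
    | smul c a _ ha =>
      obtain h | h : c = 0 ∨ c = 1 := by
        revert c
        decide
      · rw [h, zero_smul]; exact zero_mem _
      · rw [h, one_smul]; exact ha
  · intro h
    induction h using AddSubgroup.closure_induction with
    | mem t h =>
      obtain ⟨n, hn, s, rfl⟩ := h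
      exact Submodule.subset_span ⟨n, hn, s, rfl⟩
    | zero => exact zero_mem _
    | add a b _ _ ha hb => exact add_mem ha hb
    | neg a _ ha => exact neg_mem ha

section bal
variable [StarRing D] {ρ : K →* Dˣ} (hρ : ∀ g, star ((ρ g : Dˣ) : D) = ((ρ g⁻¹ : Dˣ) : D))
include hρ

/-- **BAL** -/
theorem bal_CN (N : Subgroup K) : Bal ρ N := by
  intro d hd
  induction hd using Subfield.closure_induction with
  | mem d hd =>
    obtain ⟨n, hn, rfl⟩ := hd
    intro x y
    have h1 : act ρ n ((((ρ n)⁻¹ : Dˣ) * x : D) ⊗ₜ[ZMod 2] y) - (((ρ n)⁻¹ : Dˣ) * x : D) ⊗ₜ[ZMod 2] y ∈ CN ρ N :=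
      sub_mem_CN ρ hn _
    rw [act_tmul, Units.mul_inv_cancel_left] at h1
    have h2 := neg_mem h1
    rw [neg_sub] at h2
    simp only [hρ, map_inv]
    exact h2
  | one => intro x y; rw [star_one, one_mul, one_mul, sub_self]; exact zero_mem _
  | add a b _ _ ha hb =>
    intro x y
    rw [star_add, add_mul, add_mul, TensorProduct.add_tmul, TensorProduct.tmul_add, add_sub_add_comm]
    exact add_mem (ha x y) (hb x y)
  | neg a _ ha =>
    intro x y
    rw [star_neg, neg_mul, neg_mul, TensorProduct.neg_tmul, TensorProduct.tmul_neg, ← neg_sub_neg, neg_neg, neg_neg]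
    have := neg_mem (ha x y)
    rwa [neg_sub] at this
  | inv a _ ha =>
    intro x y
    by_cases h0 : a = 0
    · rw [h0, inv_zero, star_zero, zero_mul, zero_mul, TensorProduct.zero_tmul, TensorProduct.tmul_zero, sub_zero]
      exact zero_mem _
    · have h1 := ha (star a⁻¹ * x) (a⁻¹ * y)
      have e1 : star a * (star a⁻¹ * x) = x := by
        rw [← mul_assoc, ← star_mul, inv_mul_cancel₀ h0, star_one, one_mul]
      have e2 : a * (a⁻¹ * y) = y := by rw [← mul_assoc, mul_inv_cancel₀ h0, one_mul]
      rw [e1, e2] at h1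
      have := neg_mem h1
      rwa [neg_sub] at this
  | mul a b _ _ ha hb =>
    intro x y
    have h1 := hb (star a * x) y
    have h2 := ha x (b * y)
    have := add_mem h1 h2
    rw [sub_add_sub_cancel] at this
    rwa [star_mul, mul_assoc, mul_assoc]


end bal

/-- the valuation of a level -/
theorem Level.isVal {ρ : K →* Dˣ} {N : Subgroup K} (L : Level K D ρ N) : IsVal (kk ρ N) L.v where
  add x y hx hy hxy := L.v_add x y hx hy hxy
  smul c x hc hx := L.v_sub c.1 c.2 (fun h => hc (Subtype.ext h)) x hx

theorem perm_lift {Ω : Type} [MulAction K Ω] {ι : Type} (x : ι → K) (w : FreeGroup ι) (ω : Ω) :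
    FreeGroup.lift (fun s => (MulAction.toPerm (x s) : Equiv.Perm Ω)) w ω = FreeGroup.lift x w • ω := by
  have h : FreeGroup.lift (fun s => (MulAction.toPerm (x s) : Equiv.Perm Ω)) =
      (MulAction.toPermHom K Ω).comp (FreeGroup.lift x) := by
    ext1 s
    simp
  rw [h]
  rfl

/-- **HON**, from Lemma C -/
theorem hon_of (hC : ∀ (K : Type) [Group K] (D : Type) [DivisionRing D] [Algebra (ZMod 2) D] [StarRing D] (ρ : K →* Dˣ),
    (∀ g, star ((ρ g : Dˣ) : D) = ((ρ g⁻¹ : Dˣ) : D)) → ∀ N : Subgroup K, LemC ρ N) : StmtHON := by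
  intro K _ D _ _ _ ρ hρ N N' _ L B X₀ y hy
  have hfree : ∀ (w : FreeGroup X₀) (ω : L.Om),
      FreeGroup.lift (fun s : X₀ => (MulAction.toPerm (B.x s) : Equiv.Perm L.Om)) w ω = ω → w = 1 := by
    intro w ω h
    rw [perm_lift] at h
    have h1 := L.free _ _ h
    have h2 : (QuotientGroup.mk' N).comp (FreeGroup.lift B.x) (FreeGroup.map Subtype.val w) = 1 := by
      rw [MonoidHom.comp_apply]
      have h3 : FreeGroup.lift B.x (FreeGroup.map Subtype.val w) = FreeGroup.lift (fun s : X₀ => B.x s) w := by
        have : (FreeGroup.lift B.x).comp (FreeGroup.map (Subtype.val : X₀ → B.X)) =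
            FreeGroup.lift (fun s : X₀ => B.x s) := by
          ext1 s
          simp
        exact DFunLike.congr_fun this w
      rw [h3]
      exact (QuotientGroup.eq_one_iff _).2 h1
    have h3 : FreeGroup.map (Subtype.val : X₀ → B.X) w = 1 := B.inj (by rw [h2, map_one])
    exact FreeGroup.map_injective Subtype.val_injective (by rw [h3, map_one])
  have hD := lemD_of ρ N L.isVal (fun s : X₀ => B.x s) (fun s => MulAction.toPerm (B.x s))
    (fun s d hd => L.v_act (B.x s) d hd) hfree
  have key := h1 (bal_CN hρ N) (fun d hd => star_mem_kk ρ hρ N hd) (hC K D ρ hρ N) (fun s : X₀ => B.x s) hD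
    (fun s => y s) (by
      rw [← mem_coin]
      rw [← Finset.sum_coe_sort] at hy
      exact hy)
  intro x hx
  exact (mem_coin ρ N _).2 (key ⟨x, hx⟩)

end SQ
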