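import Mathlib

/-!
# Symmetric tensors modulo norms in characteristic two (project MP_984acc_SQ, module A3)

For a vector space `M` over `ZMod 2` every symmetric tensor is `x ⊗ x` modulo norms `u + τ u`, for a unique `x = psi s`.
-/

set_option autoImplicit false
set_option linter.unusedSectionVars false
set_option linter.unusedVariables false

open TensorProduct

namespace SQ

variable {M : Type*} [AddCommGroup M] [Module (ZMod 2) M]

/-- the swap -/
noncomputable abbrev tau (M : Type*) [AddCommGroup M] [Module (ZMod 2) M] :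
    (M ⊗[ZMod 2] M) ≃ₗ[ZMod 2] (M ⊗[ZMod 2] M) := TensorProduct.comm (ZMod 2) M M

theorem two_zero {A : Type*} [AddCommGroup A] [Module (ZMod 2) A] (x : A) : x + x = 0 := by
  have h : (2 : ZMod 2) • x = 0 := by
    rw [show (2 : ZMod 2) = 0 from rfl, zero_smul]
  rw [two_smul] at h
  exact h

theorem exists_psi : ∃ psi : M ⊗[ZMod 2] M →ₗ[ZMod 2] M, (∀ x, psi (x ⊗ₜ x) = x) ∧
    (∀ u, psi (tau M u) = psi u) ∧
    ∀ s, tau M s = s → ∃ u, s = psi s ⊗ₜ psi s + (u + tau M u) := by
  classical
  obtain ⟨ι, b⟩ : ∃ ι : Type _, Nonempty (Module.Basis ι (ZMod 2) M) :=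
    ⟨_, ⟨Module.Basis.ofVectorSpace (ZMod 2) M⟩⟩
  obtain ⟨b⟩ := b
  let T := (b.tensorProduct b).repr
  have hT : ∀ x y : M, ∀ a c : ι, T (x ⊗ₜ y) (a, c) = b.repr x a * b.repr y c := fun x y a c => by
    rw [Module.Basis.tensorProduct_repr_tmul_apply, smul_eq_mul, mul_comm]
  have hτ : ∀ s : M ⊗[ZMod 2] M, ∀ a c : ι, T (tau M s) (a, c) = T s (c, a) := by
    intro s a c
    induction s using TensorProduct.induction_on with
    | zero => simp
    | tmul x y => rw [TensorProduct.comm_tmul, hT, hT, mul_comm]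
    | add x y hx hy => rw [map_add, map_add, map_add, Finsupp.add_apply, Finsupp.add_apply, hx, hy]
  let psi : M ⊗[ZMod 2] M →ₗ[ZMod 2] M :=
    { toFun := fun s => b.repr.symm (Finsupp.comapDomain (fun a => (a, a)) (T s)
        (fun a _ c _ h => (Prod.mk.inj h).1))
      map_add' := fun s t => by
        rw [← map_add]
        refine congrArg b.repr.symm (Finsupp.ext fun a => ?_)
        rw [Finsupp.add_apply]
        show T (s + t) (a, a) = T s (a, a) + T t (a, a)
        rw [map_add, Finsupp.add_apply]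
      map_smul' := fun r s => by
        rw [RingHom.id_apply, ← map_smul]
        refine congrArg b.repr.symm (Finsupp.ext fun a => ?_)
        rw [Finsupp.smul_apply]
        show T (r • s) (a, a) = r • T s (a, a)
        rw [map_smul, Finsupp.smul_apply] }
  have hpsi : ∀ s a, b.repr (psi s) a = T s (a, a) := by
    intro s a
    show b.repr (b.repr.symm _) a = _
    rw [LinearEquiv.apply_symm_apply]
    rfl
  have hz : ∀ z : ZMod 2, z * z = z := by decide
  have hz2 : ∀ z : ZMod 2, z + z = 0 := by decide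
  refine ⟨psi, fun x => ?_, fun u => ?_, fun s hs => ?_⟩
  · apply b.repr.injective
    ext a
    rw [hpsi, hT, hz]
  · apply b.repr.injective
    ext a
    rw [hpsi, hpsi, hτ]
  · let lo : LinearOrder ι := IsWellOrder.linearOrder (WellOrderingRel : ι → ι → Prop)
    have hsym : ∀ a c : ι, T s (a, c) = T s (c, a) := fun a c => by rw [← hτ, hs]
    let t : ι × ι →₀ ZMod 2 := (T s + T (psi s ⊗ₜ psi s)).filter fun p => p.1 < p.2
    have ht : ∀ a c, t (a, c) = if a < c then T s (a, c) + T s (a, a) * T s (c, c) else 0 := by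
      intro a c
      show (Finsupp.filter _ _) (a, c) = _
      rw [Finsupp.filter_apply, Finsupp.add_apply, hT, hpsi, hpsi]
    refine ⟨T.symm t, ?_⟩
    apply T.injective
    ext ⟨a, c⟩
    rw [map_add, map_add, Finsupp.add_apply, Finsupp.add_apply, hτ, LinearEquiv.apply_symm_apply, hT, hpsi,
      hpsi, ht, ht]
    rcases lt_trichotomy a c with h | h | h
    · rw [if_pos h, if_neg h.asymm, add_zero, add_comm (T s (a, c)), ← add_assoc, hz2, zero_add]
    · subst h
      rw [if_neg (lt_irrefl a), add_zero, add_zero, hz]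
    · rw [if_neg h.asymm, if_pos h, zero_add, hsym c a, mul_comm (T s (c, c)),
        add_comm (T s (a, c)), ← add_assoc, hz2, zero_add]

/-- the class of a tensor -/
noncomputable def psi : M ⊗[ZMod 2] M →ₗ[ZMod 2] M := exists_psi.choose

theorem psi_tmul_self (x : M) : psi (x ⊗ₜ[ZMod 2] x) = x := (exists_psi (M := M)).choose_spec.1 x

theorem psi_comm (u : M ⊗[ZMod 2] M) : psi (tau M u) = psi u := (exists_psi (M := M)).choose_spec.2.1 u

theorem sym_eq (s : M ⊗[ZMod 2] M) (hs : tau M s = s) :
    ∃ u, s = psi s ⊗ₜ psi s + (u + tau M u) := (exists_psi (M := M)).choose_spec.2.2 s hs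

/-- norms have class zero -/
theorem psi_norm (u : M ⊗[ZMod 2] M) : psi (u + tau M u) = 0 := by
  rw [map_add, psi_comm, two_zero]

/-- a symmetric tensor of class zero is a norm -/
theorem norm_of_psi (s : M ⊗[ZMod 2] M) (hs : tau M s = s) (h : psi s = 0) : ∃ u, s = u + tau M u := by
  obtain ⟨u, hu⟩ := sym_eq s hs
  rw [h, zero_tmul, zero_add] at hu
  exact ⟨u, hu⟩

theorem tau_map {M' : Type*} [AddCommGroup M'] [Module (ZMod 2) M'] (f g : M →ₗ[ZMod 2] M')
    (s : M ⊗[ZMod 2] M) : tau M' (TensorProduct.map f g s) = TensorProduct.map g f (tau M s) := by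
  induction s using TensorProduct.induction_on with
  | zero => simp
  | tmul x y => simp
  | add x y hx hy => rw [map_add, map_add, hx, hy, map_add, map_add]

/-- naturality -/
theorem psi_map {M' : Type*} [AddCommGroup M'] [Module (ZMod 2) M'] (f : M →ₗ[ZMod 2] M')
    (s : M ⊗[ZMod 2] M) (hs : tau M s = s) : psi (TensorProduct.map f f s) = f (psi s) := by
  obtain ⟨u, hu⟩ := sym_eq s hs
  have h1 : TensorProduct.map f f s = f (psi s) ⊗ₜ f (psi s) +
      (TensorProduct.map f f u + tau M' (TensorProduct.map f f u)) := by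
    conv_lhs => rw [hu]
    rw [map_add, map_add, map_tmul, tau_map]
  rw [h1, map_add, psi_tmul_self, psi_norm, add_zero]

theorem tmul_self_add (x y : M) : (x + y) ⊗ₜ[ZMod 2] (x + y) =
    x ⊗ₜ x + y ⊗ₜ y + (x ⊗ₜ[ZMod 2] y + tau M (x ⊗ₜ[ZMod 2] y)) := by
  rw [TensorProduct.comm_tmul, add_tmul, tmul_add, tmul_add]
  abel

end SQ
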