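import Pool.Agent.SQ.BC
import Pool.Agent.SQ.Psi

/-!
# Project MP_984acc_SQ: the squaring lemma

`lem_core`: if the complex of equivariant functions on pairs of cells with values in `M ⊗ M` is exact in degrees at most
`2 m`, then every cocycle of degree `m` with values in `M` is a coboundary.
-/

set_option autoImplicit false

open scoped TensorProduct Matrix

namespace SQ

open Singer

section lem
variable {H : Type} [Group H] (C : BC H) {M : Type} [AddCommGroup M] [Module (ZMod 2) M]
  (τ : Representation (ZMod 2) H M)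

lemma Bil.ext {N : Type} [AddCommGroup N] [Module (ZMod 2) N] {f g : Bil C N}
    (h : ∀ b b' : C.B, f (Finsupp.single b 1) (Finsupp.single b' 1) = g (Finsupp.single b 1) (Finsupp.single b' 1)) :
    f = g := by
  refine Finsupp.lhom_ext' fun b => LinearMap.ext_ring ?_
  refine Finsupp.lhom_ext' fun b' => LinearMap.ext_ring ?_
  exact h b b'

/-- the swap -/
noncomputable def sw (f : Bil C (M ⊗[ZMod 2] M)) : Bil C (M ⊗[ZMod 2] M) :=
  f.flip.compr₂ (TensorProduct.comm (ZMod 2) M M).toLinearMap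

@[simp] lemma sw_apply (f : Bil C (M ⊗[ZMod 2] M)) (x y : C.B →₀ ZMod 2) :
    sw C f x y = TensorProduct.comm (ZMod 2) M M (f y x) := rfl

lemma sw_add (f g : Bil C (M ⊗[ZMod 2] M)) : sw C (f + g) = sw C f + sw C g := by
  refine LinearMap.ext fun x => LinearMap.ext fun y => ?_
  simp

lemma comm_comm (u : M ⊗[ZMod 2] M) :
    TensorProduct.comm (ZMod 2) M M (TensorProduct.comm (ZMod 2) M M u) = u :=
  (TensorProduct.comm (ZMod 2) M M).symm_apply_apply u

lemma sw_sw (f : Bil C (M ⊗[ZMod 2] M)) : sw C (sw C f) = f := by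
  refine LinearMap.ext fun x => LinearMap.ext fun y => ?_
  simp only [sw_apply, comm_comm]

lemma add_self2 {N : Type} [AddCommGroup N] [Module (ZMod 2) N] (x : N) : x + x = 0 := by
  have h : ((1 : ZMod 2) + 1) • x = x + x := by rw [add_smul, one_smul]
  rw [← h]
  have h2 : (1 : ZMod 2) + 1 = 0 := by decide
  rw [h2, zero_smul]

lemma eq_of_add_eq_zero2 {N : Type} [AddCommGroup N] [Module (ZMod 2) N] {x y : N} (h : x + y = 0) : x = y := by
  have h1 := add_self2 y
  calc x = x + (y + y) := by rw [h1, add_zero]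
    _ = (x + y) + y := by rw [add_assoc]
    _ = y := by rw [h, zero_add]

lemma dY_add {N : Type} [AddCommGroup N] [Module (ZMod 2) N] (f g : Bil C N) : dY C (f + g) = dY C f + dY C g := by
  refine LinearMap.ext fun x => LinearMap.ext fun y => ?_
  simp only [dY_apply, LinearMap.add_apply]
  abel

lemma dY_sw (f : Bil C (M ⊗[ZMod 2] M)) : dY C (sw C f) = sw C (dY C f) := by
  refine LinearMap.ext fun x => LinearMap.ext fun y => ?_
  simp only [dY_apply, sw_apply, map_add]
  abel

lemma dY_dY {N : Type} [AddCommGroup N] [Module (ZMod 2) N] (f : Bil C N) : dY C (dY C f) = 0 := by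
  refine LinearMap.ext fun x => LinearMap.ext fun y => ?_
  simp only [dY_apply, C.bd_bd, map_zero, LinearMap.zero_apply, zero_add, add_zero]
  exact add_self2 _

lemma IsY.add {N : Type} [AddCommGroup N] [Module (ZMod 2) N] {ν : Representation (ZMod 2) H N} {j : ℕ} {f g : Bil C N}
    (hf : IsY C ν j f) (hg : IsY C ν j g) : IsY C ν j (f + g) where
  eqv h b b' := by
    simp only [LinearMap.add_apply, hf.eqv, hg.eqv, map_add]
  deg b b' h := by
    simp only [LinearMap.add_apply, hf.deg b b' h, hg.deg b b' h, add_zero]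

lemma IsY.sw {j : ℕ} {f : Bil C (M ⊗[ZMod 2] M)} (hf : IsY C (τ.tprod τ) j f) : IsY C (τ.tprod τ) j (sw C f) where
  eqv h b b' := by
    rw [sw_apply, sw_apply, hf.eqv]
    show TensorProduct.comm (ZMod 2) M M (TensorProduct.map (τ h) (τ h) _) = TensorProduct.map (τ h) (τ h) _
    rw [TensorProduct.map_comm]
  deg b b' h := by
    rw [sw_apply, hf.deg b' b (by rwa [add_comm]), map_zero]

/-- expansion of a linear map -/
lemma lin_eq {N : Type} [AddCommGroup N] [Module (ZMod 2) N] (q : (C.B →₀ ZMod 2) →ₗ[ZMod 2] N) (x : C.B →₀ ZMod 2) :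
    q x = ∑ c ∈ x.support, x c • q (Finsupp.single c 1) := by
  conv_lhs => rw [← Finsupp.sum_single x]
  rw [Finsupp.sum, map_sum]
  refine Finset.sum_congr rfl fun c _ => ?_
  rw [← map_smul, Finsupp.smul_single, smul_eq_mul, mul_one]

lemma mapDomain_eq (h : H) (x : C.B →₀ ZMod 2) : x.mapDomain (h • ·) =
    ∑ c ∈ x.support, x c • Finsupp.single (h • c) (1 : ZMod 2) := by
  rw [Finsupp.mapDomain, Finsupp.sum]
  refine Finset.sum_congr rfl fun c _ => ?_
  rw [Finsupp.smul_single, smul_eq_mul, mul_one]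

lemma lin_eqv {N : Type} [AddCommGroup N] [Module (ZMod 2) N] {ν : Representation (ZMod 2) H N} (h : H)
    (q q' : (C.B →₀ ZMod 2) →ₗ[ZMod 2] N)
    (hq : ∀ b, q' (Finsupp.single (h • b) 1) = ν h (q (Finsupp.single b 1))) (x : C.B →₀ ZMod 2) :
    q' (x.mapDomain (h • ·)) = ν h (q x) := by
  rw [mapDomain_eq, lin_eq C q x, map_sum, map_sum]
  refine Finset.sum_congr rfl fun c _ => ?_
  rw [map_smul, map_smul, hq]

lemma IsY.dY {N : Type} [AddCommGroup N] [Module (ZMod 2) N] {ν : Representation (ZMod 2) H N} {j : ℕ} {f : Bil C N}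
    (hf : IsY C ν j f) : IsY C ν (j + 1) (dY C f) where
  eqv h b b' := by
    rw [dY_apply, dY_apply, C.bd_smul, C.bd_smul, map_add]
    congr 1
    · exact lin_eqv C h (f.flip (Finsupp.single b' 1)) (f.flip (Finsupp.single (h • b') 1))
        (fun c => hf.eqv h c b') _
    · exact lin_eqv C h (f (Finsupp.single b 1)) (f (Finsupp.single (h • b) 1)) (fun c => hf.eqv h b c) _
  deg b b' h := by
    have h1 : f (C.bd (Finsupp.single b 1)) (Finsupp.single b' 1) = 0 := by
      have h2 := lin_eq C (f.flip (Finsupp.single b' 1)) (C.bd (Finsupp.single b 1))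
      rw [LinearMap.flip_apply] at h2
      rw [h2]
      refine Finset.sum_eq_zero fun c hc => ?_
      have h3 := C.bd_dim b c (Finsupp.mem_support_iff.1 hc)
      rw [LinearMap.flip_apply, hf.deg c b' (by omega), smul_zero]
    have h2 : f (Finsupp.single b 1) (C.bd (Finsupp.single b' 1)) = 0 := by
      rw [lin_eq C (f (Finsupp.single b 1)) (C.bd (Finsupp.single b' 1))]
      refine Finset.sum_eq_zero fun c hc => ?_
      have h3 := C.bd_dim b' c (Finsupp.mem_support_iff.1 hc)
      rw [hf.deg b c (by omega), smul_zero]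
    rw [dY_apply, h1, h2, add_zero]

/-! ### the quadratic map -/

/-- `x ↦ ψ (f x x)` is linear for symmetric `f` -/
noncomputable def qd (f : Bil C (M ⊗[ZMod 2] M)) (hf : sw C f = f) : (C.B →₀ ZMod 2) →ₗ[ZMod 2] M where
  toFun x := psi (f x x)
  map_add' x y := by
    have h : f y x = TensorProduct.comm (ZMod 2) M M (f x y) := by
      conv_lhs => rw [← hf]
      rfl
    simp only [map_add, LinearMap.add_apply, h, psi_comm]
    have h2 := add_self2 (psi (f x y))
    calc _ = psi (f x x) + psi (f y y) + (psi (f x y) + psi (f x y)) := by abel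
      _ = _ := by rw [h2, add_zero]
  map_smul' c x := by
    have h : c * c = c := by
      revert c
      decide
    simp only [map_smul, LinearMap.smul_apply, smul_smul, h, RingHom.id_apply]

lemma qd_apply (f : Bil C (M ⊗[ZMod 2] M)) (hf : sw C f = f) (x : C.B →₀ ZMod 2) : qd C f hf x = psi (f x x) := rfl

/-- the key computation -/
lemma key (f g : Bil C (M ⊗[ZMod 2] M)) (h : dY C f = g + sw C g) (x : C.B →₀ ZMod 2) :
    psi (f (C.bd x) (C.bd x)) = psi (dY C g x x) := by
  have h1 := LinearMap.congr_fun (LinearMap.congr_fun h x) (C.bd x)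
  rw [dY_apply, C.bd_bd, map_zero, add_zero, LinearMap.add_apply, LinearMap.add_apply, sw_apply] at h1
  rw [h1, map_add, psi_comm, dY_apply, map_add, add_comm]

/-- linear equivariant maps which live in the cells `b` with `P (dim b)` -/
structure IsL (P : ℕ → Prop) (q : (C.B →₀ ZMod 2) →ₗ[ZMod 2] M) : Prop where
  eqv : ∀ (h : H) (b : C.B), q (Finsupp.single (h • b) 1) = τ h (q (Finsupp.single b 1))
  deg : ∀ b : C.B, ¬ P (C.dim b) → q (Finsupp.single b 1) = 0

lemma isL_qd {j : ℕ} {f : Bil C (M ⊗[ZMod 2] M)} (hj : IsY C (τ.tprod τ) j f) (hf : sw C f = f) :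
    IsL C τ (fun p => p + p = j) (qd C f hf) where
  eqv h b := by
    rw [qd_apply, hj.eqv]
    show psi (TensorProduct.map (τ h) (τ h) _) = _
    rw [psi_map, qd_apply]
    conv_rhs => rw [← hf]
    rfl
  deg b h := by
    rw [qd_apply, hj.deg b b h, map_zero]

/-- the square of a linear map -/
noncomputable def sq (q : (C.B →₀ ZMod 2) →ₗ[ZMod 2] M) : Bil C (M ⊗[ZMod 2] M) :=
  (TensorProduct.mk (ZMod 2) M M).compl₁₂ q q

@[simp] lemma sq_apply (q : (C.B →₀ ZMod 2) →ₗ[ZMod 2] M) (x y : C.B →₀ ZMod 2) : sq C q x y = q x ⊗ₜ q y := rfl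

lemma sw_sq (q : (C.B →₀ ZMod 2) →ₗ[ZMod 2] M) : sw C (sq C q) = sq C q := by
  refine LinearMap.ext fun x => LinearMap.ext fun y => ?_
  simp

lemma dY_sq (q : (C.B →₀ ZMod 2) →ₗ[ZMod 2] M) (h : ∀ x, q (C.bd x) = 0) : dY C (sq C q) = 0 := by
  refine LinearMap.ext fun x => LinearMap.ext fun y => ?_
  simp [h]

lemma isY_sq {j : ℕ} {q : (C.B →₀ ZMod 2) →ₗ[ZMod 2] M} (hq : IsL C τ (fun p => p + p = j) q) :
    IsY C (τ.tprod τ) j (sq C q) where
  eqv h b b' := by
    rw [sq_apply, sq_apply, hq.eqv, hq.eqv]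
    rfl
  deg b b' h := by
    rw [sq_apply]
    by_cases h1 : C.dim b + C.dim b = j
    · by_cases h2 : C.dim b' + C.dim b' = j
      · omega
      · rw [hq.deg b' h2, TensorProduct.tmul_zero]
    · rw [hq.deg b h1, TensorProduct.zero_tmul]

/-! ### norms -/

/-- equivariant choice -/
lemma exists_eqv {N : Type} [AddCommGroup N] [Module (ZMod 2) N] (ν : Representation (ZMod 2) H N)
    (r : C.B → N → Prop) (hr : ∀ h b x, r b x → r (h • b) (ν h x)) (hex : ∀ b, ∃ x, r b x) :
    ∃ φ : C.B → N, (∀ (h : H) (b : C.B), φ (h • b) = ν h (φ b)) ∧ ∀ b, r b (φ b) := by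
  classical
  let o : C.B → C.B := fun b => Quotient.out (Quotient.mk (MulAction.orbitRel H C.B) b)
  have ho : ∀ b, ∃ h : H, h • o b = b := by
    intro b
    have h1 : (MulAction.orbitRel H C.B).r (o b) b := Quotient.exact (Quotient.out_eq _)
    have h2 : b ∈ MulAction.orbit H (o b) := (MulAction.orbitRel H C.B).symm h1
    exact h2
  have ho2 : ∀ (h : H) (b : C.B), o (h • b) = o b := by
    intro h b
    show Quotient.out _ = Quotient.out _
    congr 1
    exact Quotient.sound (MulAction.mem_orbit b h)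
  choose g hg using ho
  choose x hx using hex
  have hg2 : ∀ (h : H) (b : C.B), g (h • b) = h * g b := by
    intro h b
    have h1 : g (h • b) • o b = (h * g b) • o b := by
      rw [mul_smul, hg b, ← ho2 h b, hg (h • b)]
    have h2 : ((h * g b)⁻¹ * g (h • b)) • o b = o b := by
      rw [mul_smul, h1, inv_smul_smul]
    exact (inv_mul_eq_one.1 (C.free _ _ h2)).symm
  refine ⟨fun b => ν (g b) (x (o b)), fun h b => ?_, fun b => ?_⟩
  · show ν (g (h • b)) (x (o (h • b))) = ν h (ν (g b) (x (o b)))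
    rw [hg2, ho2, map_mul]
    rfl
  · have h1 := hr (g b) (o b) (x (o b)) (hx (o b))
    rwa [hg b] at h1

/-- a choice of one half of the pairs of different cells -/
lemma exists_half (hH : ∀ h : H, h * h = 1 → h = 1) : ∃ P : C.B → C.B → Prop,
    (∀ (h : H) b b', P (h • b) (h • b') ↔ P b b') ∧ ∀ b b', b ≠ b' → (P b b' ↔ ¬ P b' b) := by
  classical
  let Q := Quotient (MulAction.orbitRel H (C.B × C.B))
  let mk : C.B → C.B → Q := fun b b' => Quotient.mk _ (b, b')
  have h1 : ∀ (h : H) b b', mk (h • b) (h • b') = mk b b' := fun h b b' =>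
    Quotient.sound (MulAction.mem_orbit (b, b') h)
  have h2 : ∀ b b', b ≠ b' → mk b b' ≠ mk b' b := by
    intro b b' hb h
    have h3 : (b, b') ∈ MulAction.orbit H (b', b) := Quotient.exact h
    obtain ⟨g, hg⟩ := h3
    have h4 : g • b' = b := congrArg Prod.fst hg
    have h5 : g • b = b' := congrArg Prod.snd hg
    have h6 : (g * g) • b = b := by rw [mul_smul, h5, h4]
    have h7 := hH g (C.free _ _ h6)
    rw [h7, one_smul] at h5
    exact hb h5
  refine ⟨fun b b' => WellOrderingRel (mk b b') (mk b' b), fun h b b' => ?_, fun b b' hb => ?_⟩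
  · show WellOrderingRel (mk (h • b) (h • b')) (mk (h • b') (h • b)) ↔ _
    rw [h1, h1]
  · constructor
    · intro h h'
      exact irrefl_of WellOrderingRel _ (trans_of WellOrderingRel h h')
    · intro h
      rcases trichotomous_of WellOrderingRel (mk b b') (mk b' b) with h3 | h3 | h3
      · exact h3
      · exact absurd h3 (h2 b b' hb)
      · exact absurd h3 h

/-- symmetric functions which are norms on the diagonal are norms -/
lemma exists_norm (hH : ∀ h : H, h * h = 1 → h = 1) {j : ℕ} {u : Bil C (M ⊗[ZMod 2] M)}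
    (hu : IsY C (τ.tprod τ) j u) (hs : sw C u = u) (hd : ∀ x, psi (u x x) = 0) :
    ∃ v, IsY C (τ.tprod τ) j v ∧ v + sw C v = u := by
  classical
  obtain ⟨P, hP1, hP2⟩ := exists_half C hH
  have hsd : ∀ b, TensorProduct.comm (ZMod 2) M M (u (Finsupp.single b 1) (Finsupp.single b 1)) =
      u (Finsupp.single b 1) (Finsupp.single b 1) := by
    intro b
    conv_rhs => rw [← hs]
    rfl
  obtain ⟨w, hw1, hw2⟩ := exists_eqv C (τ.tprod τ) (fun b x => (C.dim b + C.dim b ≠ j → x = 0) ∧
    x + TensorProduct.comm (ZMod 2) M M x = u (Finsupp.single b 1) (Finsupp.single b 1))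
    (by
      rintro h b x ⟨h1, h2⟩
      refine ⟨fun h3 => ?_, ?_⟩
      · rw [C.dim_smul] at h3
        rw [h1 h3, map_zero]
      · rw [hu.eqv, ← h2, map_add]
        congr 1
        show TensorProduct.comm (ZMod 2) M M (TensorProduct.map (τ h) (τ h) _) = TensorProduct.map (τ h) (τ h) _
        rw [TensorProduct.map_comm])
    (by
      intro b
      by_cases h : C.dim b + C.dim b = j
      · obtain ⟨x, hx⟩ := sym_eq _ (hsd b)
        refine ⟨x, fun h1 => absurd h h1, ?_⟩
        rw [hd, TensorProduct.zero_tmul, zero_add] at hx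
        exact hx.symm
      · refine ⟨0, fun _ => rfl, ?_⟩
        rw [hu.deg b b h, map_zero, add_zero])
  let v0 : C.B → C.B → M ⊗[ZMod 2] M := fun b b' =>
    if b = b' then w b else if P b b' then u (Finsupp.single b 1) (Finsupp.single b' 1) else 0
  let v : Bil C (M ⊗[ZMod 2] M) :=
    Finsupp.linearCombination (ZMod 2) fun b => Finsupp.linearCombination (ZMod 2) fun b' => v0 b b'
  have hv : ∀ b b', v (Finsupp.single b 1) (Finsupp.single b' 1) = v0 b b' := by
    intro b b'
    have h1 : v (Finsupp.single b 1) = Finsupp.linearCombination (ZMod 2) fun b' => v0 b b' := by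
      show Finsupp.linearCombination (ZMod 2) (fun b => Finsupp.linearCombination (ZMod 2) fun b' => v0 b b')
        (Finsupp.single b 1) = _
      rw [Finsupp.linearCombination_single, one_smul]
    rw [h1, Finsupp.linearCombination_single, one_smul]
  refine ⟨v, ⟨fun h b b' => ?_, fun b b' h => ?_⟩, Bil.ext C fun b b' => ?_⟩
  · rw [hv, hv]
    show (if h • b = h • b' then w (h • b) else if P (h • b) (h • b') then _ else 0) =
      (τ.tprod τ) h (if b = b' then w b else if P b b' then _ else 0)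
    have h1 : h • b = h • b' ↔ b = b' := (MulAction.injective h).eq_iff
    simp only [h1, hP1, hw1, hu.eqv]
    split_ifs
    · rfl
    · rfl
    · rw [map_zero]
  · rw [hv]
    show (if b = b' then w b else if P b b' then _ else 0) = _
    split_ifs with h1 h2
    · subst h1
      exact (hw2 b).1 h
    · exact hu.deg b b' h
    · rfl
  · rw [LinearMap.add_apply, LinearMap.add_apply, sw_apply, hv, hv]
    show (if b = b' then w b else if P b b' then _ else 0) +
      TensorProduct.comm (ZMod 2) M M (if b' = b then w b' else if P b' b then _ else 0) = _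
    by_cases h1 : b = b'
    · subst h1
      simp only [if_true]
      exact (hw2 b).2
    · have h2 : ¬ b' = b := fun h => h1 h.symm
      simp only [if_neg h1, if_neg h2]
      by_cases h3 : P b b'
      · rw [if_pos h3, if_neg ((hP2 b b' h1).1 h3), map_zero, add_zero]
      · have h4 : P b' b := (hP2 b' b h2).2 h3
        rw [if_neg h3, if_pos h4, zero_add]
        conv_rhs => rw [← hs]
        rfl

/-! ### the zigzag -/

lemma zigzag (hH : ∀ h : H, h * h = 1 → h = 1) (n : ℕ) (hE : ∀ j, j ≤ n → EY C (τ.tprod τ) j) :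
    ∀ q, q ≤ n → ∀ f, IsY C (τ.tprod τ) q f → dY C (f + sw C f) = 0 → (∀ x, psi (dY C f x x) = 0) →
      ∃ f', IsY C (τ.tprod τ) q f' ∧ sw C f' = f' ∧ dY C f' = dY C f := by
  intro q
  induction q with
  | zero =>
    intro _ f hf h1 _
    have h2 := hE 0 (Nat.zero_le _) (f + sw C f) (hf.add C (hf.sw C τ)) h1
    exact ⟨f, hf, (eq_of_add_eq_zero2 h2).symm, rfl⟩
  | succ p ih =>
    intro hp f hf h1 h2
    obtain ⟨g, hg1, hg2⟩ := hE (p + 1) hp (f + sw C f) (hf.add C (hf.sw C τ)) h1
    have h3 : dY C (g + sw C g) = 0 := by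
      rw [dY_add, dY_sw, hg2, sw_add, sw_sw]
      have h9 : f + sw C f + (sw C f + f) = (f + sw C f) + (f + sw C f) := by abel
      rw [h9]
      exact add_self2 (N := Bil C (M ⊗[ZMod 2] M)) (f + sw C f)
    obtain ⟨g', hg'1, hg'2, hg'3⟩ := ih (by omega) g hg1 h3 (by
      intro x
      rw [hg2, LinearMap.add_apply, LinearMap.add_apply, sw_apply, map_add, psi_comm]
      exact add_self2 (psi (f x x)))
    rw [hg2] at hg'3
    have h4 : ∀ x, qd C g' hg'2 (C.bd x) = 0 := by
      intro x
      rw [qd_apply, key C g' f hg'3, h2]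
    have hL := isL_qd C τ hg'1 hg'2
    have hu : IsY C (τ.tprod τ) p (g' + sq C (qd C g' hg'2)) := hg'1.add C (isY_sq C τ hL)
    obtain ⟨v, hv1, hv2⟩ := exists_norm C τ hH hu (by rw [sw_add, hg'2, sw_sq]) (by
      intro x
      rw [LinearMap.add_apply, LinearMap.add_apply, map_add, sq_apply, psi_tmul_self, qd_apply]
      exact add_self2 (psi (g' x x)))
    have h5 : dY C (v + sw C v) = f + sw C f := by
      rw [hv2, dY_add, dY_sq C _ h4, add_zero, hg'3]
    refine ⟨f + dY C v, hf.add C (hv1.dY C), ?_, ?_⟩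
    · refine (eq_of_add_eq_zero2 ?_).symm
      rw [sw_add, ← dY_sw]
      have : f + dY C v + (sw C f + dY C (sw C v)) = (f + sw C f) + (dY C v + dY C (sw C v)) := by abel
      rw [this, ← dY_add, h5]
      exact add_self2 (N := Bil C (M ⊗[ZMod 2] M)) (f + sw C f)
    · rw [dY_add, dY_dY, add_zero]

/-- **The squaring lemma.** -/
theorem lem_core (hH : ∀ h : H, h * h = 1 → h = 1) (m : ℕ) (hE : ∀ j, j ≤ 2 * m → EY C (τ.tprod τ) j)
    (y : (C.B →₀ ZMod 2) →ₗ[ZMod 2] M) (hy : IsL C τ (fun p => p = m) y) (hc : ∀ x, y (C.bd x) = 0) :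
    ∃ x : (C.B →₀ ZMod 2) →ₗ[ZMod 2] M, IsL C τ (fun p => p + 1 = m) x ∧ ∀ c, x (C.bd c) = y c := by
  have hy2 : IsL C τ (fun p => p + p = 2 * m) y := ⟨hy.eqv, fun b h => hy.deg b (by omega)⟩
  have h0 : IsY C (τ.tprod τ) (2 * m) (sq C y) := isY_sq C τ hy2
  have hd : dY C (sq C y) = 0 := dY_sq C y hc
  rcases m with _ | m
  · have h1 := hE 0 le_rfl (sq C y) h0 hd
    have h2 : y = 0 := by
      refine Finsupp.lhom_ext' fun b => LinearMap.ext_ring ?_
      show y (Finsupp.single b 1) = 0
      rw [← psi_tmul_self (y (Finsupp.single b 1)), ← sq_apply C, h1]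
      simp
    refine ⟨0, ⟨fun h b => by simp, fun b _ => rfl⟩, fun c => by rw [h2]; rfl⟩
  · have e1 : 2 * (m + 1) = 2 * m + 1 + 1 := by ring
    rw [e1] at h0 hE
    obtain ⟨f, hf1, hf2⟩ := hE (2 * m + 1 + 1) le_rfl (sq C y) h0 hd
    have h1 : dY C (f + sw C f) = 0 := by
      rw [dY_add, dY_sw, hf2, sw_sq]
      exact add_self2 (N := Bil C (M ⊗[ZMod 2] M)) (sq C y)
    obtain ⟨g, hg1, hg2⟩ := hE (2 * m + 1) (by omega) (f + sw C f) (hf1.add C (hf1.sw C τ)) h1
    obtain ⟨g', hg'1, hg'2, hg'3⟩ := zigzag C τ hH _ hE (2 * m) (by omega) g hg1 (by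
      rw [dY_add, dY_sw, hg2, sw_add, sw_sw]
      have h9 : f + sw C f + (sw C f + f) = (f + sw C f) + (f + sw C f) := by abel
      rw [h9]
      exact add_self2 (N := Bil C (M ⊗[ZMod 2] M)) (f + sw C f)) (by
      intro x
      rw [hg2, LinearMap.add_apply, LinearMap.add_apply, sw_apply, map_add, psi_comm]
      exact add_self2 (psi (f x x)))
    rw [hg2] at hg'3
    have hL := isL_qd C τ hg'1 hg'2
    refine ⟨qd C g' hg'2, ⟨hL.eqv, fun b h => hL.deg b (by omega)⟩, fun c => ?_⟩
    rw [qd_apply, key C g' f hg'3, hf2, sq_apply, psi_tmul_self]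

end lem

end SQ
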