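import Pool.Agent.SQ.Lem
import Pool.Agent.SQ.Skel

/-!
# Project MP_984acc_SQ: the squaring lemma for resolutions
-/

set_option autoImplicit false

open scoped TensorProduct Matrix

namespace SQ

open Singer

section
variable {H : Type} [Group H] {M : Type} [AddCommGroup M] [Module (ZMod 2) M]

/-- the equivariant linear map on the chains which is given by a function on the basis elements of degree `m` -/
noncomputable def ofFun (R : FinRes H) (τ : Representation (ZMod 2) H M) (m : ℕ) (f : R.ι m → M) :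
    (BC.Cell R →₀ ZMod 2) →ₗ[ZMod 2] M :=
  Finsupp.linearCombination (ZMod 2) fun c : BC.Cell R =>
    if h : c.1 = m then τ c.2.1 (f (h ▸ c.2.2)) else 0

lemma ofFun_self (R : FinRes H) (τ : Representation (ZMod 2) H M) (m : ℕ) (f : R.ι m → M) (g : H) (a : R.ι m) :
    ofFun R τ m f (Finsupp.single (⟨m, (g, a)⟩ : BC.Cell R) (1 : ZMod 2)) = τ g (f a) := by
  unfold ofFun
  rw [Finsupp.linearCombination_single, one_smul, dif_pos rfl]

lemma ofFun_ne (R : FinRes H) (τ : Representation (ZMod 2) H M) (m : ℕ) (f : R.ι m → M) (c : BC.Cell R)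
    (hc : c.1 ≠ m) : ofFun R τ m f (Finsupp.single c (1 : ZMod 2)) = 0 := by
  unfold ofFun
  rw [Finsupp.linearCombination_single, one_smul, dif_neg hc]

lemma ofFun_eqv (R : FinRes H) (τ : Representation (ZMod 2) H M) (m : ℕ) (f : R.ι m → M) (h : H) (b : BC.Cell R) :
    ofFun R τ m f (Finsupp.single (h • b) 1) = τ h (ofFun R τ m f (Finsupp.single b 1)) := by
  obtain ⟨p, g, a⟩ := b
  rw [BC.smul_cell]
  by_cases hp : p = m
  · subst hp
    rw [ofFun_self, ofFun_self, map_mul]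
    rfl
  · rw [ofFun_ne R τ m f _ hp, ofFun_ne R τ m f _ hp, map_zero]

/-- an equivariant linear map and the coboundary -/
lemma lin_bd (R : FinRes H) (τ : Representation (ZMod 2) H M) (q : (BC.Cell R →₀ ZMod 2) →ₗ[ZMod 2] M)
    (hq : ∀ (h : H) (b : BC.Cell R), q (Finsupp.single (h • b) 1) = τ h (q (Finsupp.single b 1)))
    (p : ℕ) (h : H) (a : R.ι (p + 1)) :
    q (BC.bdl R (Finsupp.single (⟨p + 1, (h, a)⟩ : BC.Cell R) (1 : ZMod 2))) =
      τ h (cobd τ (R.d p) (fun b => q (Finsupp.single (⟨p, (1, b)⟩ : BC.Cell R) (1 : ZMod 2))) a) := by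
  have h1 : BC.bdl R (Finsupp.single (⟨p + 1, (h, a)⟩ : BC.Cell R) (1 : ZMod 2)) =
      ∑ b, BC.lf R p b h (R.d p a b) := BC.bdl_single R _
  rw [h1, map_sum]
  unfold cobd
  rw [map_sum]
  refine Finset.sum_congr rfl fun b _ => ?_
  unfold BC.lf
  rw [map_sum, map_sum]
  refine Finset.sum_congr rfl fun g _ => ?_
  rw [map_smul, map_smul]
  congr 1
  have h2 : ∀ k : H, q (Finsupp.single (⟨p, (k, b)⟩ : BC.Cell R) (1 : ZMod 2)) =
      τ k (q (Finsupp.single (⟨p, (1, b)⟩ : BC.Cell R) (1 : ZMod 2))) := by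
    intro k
    have h4 : (k • (⟨p, (1, b)⟩ : BC.Cell R)) = ⟨p, (k, b)⟩ := by
      rw [BC.smul_cell, mul_one]
    rw [← h4]
    exact hq k _
  rw [h2 (h * g), map_mul]
  rfl

lemma bdl_zero (R : FinRes H) (g : H) (a : R.ι 0) :
    BC.bdl R (Finsupp.single (⟨0, (g, a)⟩ : BC.Cell R) (1 : ZMod 2)) = 0 := BC.bdl_single R _

lemma ofFun_bdl (R : FinRes H) (τ : Representation (ZMod 2) H M) (m : ℕ) (f : R.ι m → M)
    (hf : cobd τ (R.d m) f = 0) (x : BC.Cell R →₀ ZMod 2) : ofFun R τ m f (BC.bdl R x) = 0 := by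
  have h : (ofFun R τ m f) ∘ₗ (BC.bdl R) = 0 := by
    refine Finsupp.lhom_ext' fun b => LinearMap.ext_ring ?_
    show ofFun R τ m f (BC.bdl R (Finsupp.single b 1)) = 0
    obtain ⟨p, g, a⟩ := b
    rcases p with _ | p
    · rw [bdl_zero, map_zero]
    · rw [lin_bd R τ _ (ofFun_eqv R τ m f)]
      by_cases hp : p = m
      · subst hp
        have h1 : (fun b => ofFun R τ p f (Finsupp.single (⟨p, (1, b)⟩ : BC.Cell R) (1 : ZMod 2))) = f := by
          funext b
          rw [ofFun_self, map_one]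
          rfl
        rw [h1, hf]
        exact map_zero _
      · have h1 : (fun b => ofFun R τ m f (Finsupp.single (⟨p, (1, b)⟩ : BC.Cell R) (1 : ZMod 2))) = 0 := by
          funext b
          exact ofFun_ne R τ m f _ hp
        rw [h1]
        have h2 : cobd τ (R.d p) (0 : R.ι p → M) a = 0 := by
          unfold cobd
          refine Finset.sum_eq_zero fun b _ => Finset.sum_eq_zero fun g _ => ?_
          rw [Pi.zero_apply, map_zero, smul_zero]
        rw [h2, map_zero]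
  exact LinearMap.congr_fun h x

/-- the squaring lemma for a resolution, with linear maps -/
theorem lem_lin (hH : ∀ h : H, h * h = 1 → h = 1) (R : FinRes H) (τ : Representation (ZMod 2) H M) (m : ℕ)
    (hE : ∀ j, j ≤ 2 * m → EY (BC.ofRes R) (τ.tprod τ) j) (f : R.ι m → M) (hf : cobd τ (R.d m) f = 0) :
    ∃ x : (BC.Cell R →₀ ZMod 2) →ₗ[ZMod 2] M,
      (∀ (h : H) (b : BC.Cell R), x (Finsupp.single (h • b) 1) = τ h (x (Finsupp.single b 1))) ∧
      (∀ b : BC.Cell R, b.1 + 1 ≠ m → x (Finsupp.single b 1) = 0) ∧ ∀ c, x (BC.bdl R c) = ofFun R τ m f c := by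
  obtain ⟨x, hx1, hx2⟩ := lem_core (BC.ofRes R) τ hH m hE (ofFun R τ m f)
    { eqv := ofFun_eqv R τ m f
      deg := fun b hb => ofFun_ne R τ m f b hb } (ofFun_bdl R τ m f hf)
  exact ⟨x, hx1.eqv, hx1.deg, hx2⟩

/-- the squaring lemma for a resolution -/
theorem lem_of_row (hH : ∀ h : H, h * h = 1 → h = 1) (R : FinRes H) (τ : Representation (ZMod 2) H M) (m : ℕ)
    (hE : ∀ j, j ≤ 2 * m → EY (BC.ofRes R) (τ.tprod τ) j) : Ex τ R m := by
  rcases m with _ | m
  · intro f hf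
    obtain ⟨x, hx1, hx0, hx2⟩ := lem_lin hH R τ 0 hE f hf
    funext a
    have h1 := hx2 (Finsupp.single (⟨0, (1, a)⟩ : BC.Cell R) (1 : ZMod 2))
    rw [bdl_zero, map_zero, ofFun_self, map_one] at h1
    exact h1.symm
  · intro f hf
    obtain ⟨x, hx1, hx0, hx2⟩ := lem_lin hH R τ (m + 1) hE f hf
    refine ⟨fun b => x (Finsupp.single (⟨m, (1, b)⟩ : BC.Cell R) (1 : ZMod 2)), ?_⟩
    funext a
    have h1 := hx2 (Finsupp.single (⟨m + 1, (1, a)⟩ : BC.Cell R) (1 : ZMod 2))
    rw [lin_bd R τ x hx1, ofFun_self, map_one] at h1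
    exact h1

end

end SQ
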