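import Mathlib

/-!
# Ore fraction fields: involution, non-commutative valuations, sub-fraction-fields (row E2)
-/

set_option autoImplicit false
set_option linter.unusedSectionVars false

noncomputable section

namespace SQ.Ore

/-- `E` is the division ring of left fractions of the domain `R`. -/
structure IsFrac {R E : Type*} [Ring R] [DivisionRing E] (i : R →+* E) : Prop where
  inj : Function.Injective i
  ore : ∀ a s : R, s ≠ 0 → ∃ a' s' : R, s' ≠ 0 ∧ s' * a = a' * s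
  gen : ∀ x : E, ∃ s a : R, s ≠ 0 ∧ x = (i s)⁻¹ * i a

section Frac

variable {R E : Type*} [Ring R] [DivisionRing E] {i : R →+* E}

theorem IsFrac.ne (h : IsFrac i) {s : R} (hs : s ≠ 0) : i s ≠ 0 :=
  fun h0 => hs (h.inj (by rw [h0, map_zero]))

theorem IsFrac.mul_ne (h : IsFrac i) {s t : R} (hs : s ≠ 0) (ht : t ≠ 0) : s * t ≠ 0 := by
  intro h0
  have := congrArg i h0
  rw [map_mul, map_zero] at this
  exact (mul_ne_zero (h.ne hs) (h.ne ht)) this

/-- two fractions agree iff they have a common expansion -/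
theorem IsFrac.eq_exp (h : IsFrac i) {s a t b : R} (hs : s ≠ 0) (ht : t ≠ 0)
    (he : (i s)⁻¹ * i a = (i t)⁻¹ * i b) :
    ∃ s' t' : R, s' ≠ 0 ∧ t' ≠ 0 ∧ s' * s = t' * t ∧ s' * a = t' * b := by
  obtain ⟨t', s', hs', hst⟩ := h.ore s t ht
  have ht' : t' ≠ 0 := by
    rintro rfl
    rw [zero_mul] at hst
    exact h.mul_ne hs' hs hst
  refine ⟨s', t', hs', ht', hst, h.inj ?_⟩
  have e1 : i a = i s * ((i t)⁻¹ * i b) := by
    rw [← he, mul_inv_cancel_left₀ (h.ne hs)]
  rw [map_mul, map_mul, e1, ← mul_assoc, ← map_mul, hst, map_mul, mul_assoc,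
    mul_inv_cancel_left₀ (h.ne ht)]

/-- common denominators -/
theorem IsFrac.common (h : IsFrac i) (x y : E) :
    ∃ s a b : R, s ≠ 0 ∧ x = (i s)⁻¹ * i a ∧ y = (i s)⁻¹ * i b := by
  obtain ⟨s, a, hs, rfl⟩ := h.gen x
  obtain ⟨t, b, ht, rfl⟩ := h.gen y
  obtain ⟨t', s', hs', hst⟩ := h.ore s t ht
  have ht' : t' ≠ 0 := by
    rintro rfl
    rw [zero_mul] at hst
    exact h.mul_ne hs' hs hst
  refine ⟨s' * s, s' * a, t' * b, h.mul_ne hs' hs, ?_, ?_⟩
  · rw [map_mul, map_mul, mul_inv_rev, mul_assoc, inv_mul_cancel_left₀ (h.ne hs')]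
  · rw [hst, map_mul, map_mul, mul_inv_rev, mul_assoc, inv_mul_cancel_left₀ (h.ne ht')]

end Frac

section Existence

variable (R : Type*) [Ring R] [NoZeroDivisors R] [Nontrivial R]

open nonZeroDivisors OreLocalization

/-- the Ore set structure from the elementwise condition -/
@[instance_reducible]
def oreSet (ore : ∀ a s : R, s ≠ 0 → ∃ a' s' : R, s' ≠ 0 ∧ s' * a = a' * s) :
    OreSet (nonZeroDivisors R) := by
  refine (nonempty_oreSet_iff_of_noZeroDivisors.2 ?_).some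
  intro r s
  obtain ⟨a', s', hs', h⟩ := ore r s (nonZeroDivisors.ne_zero s.2)
  exact ⟨a', ⟨s', mem_nonZeroDivisors_of_ne_zero hs'⟩, h⟩

theorem isFrac_loc [OreSet (nonZeroDivisors R)] :
    IsFrac (numeratorRingHom : R →+* R[R⁰⁻¹]) := by
  have hinj : Function.Injective (numeratorHom : R → R[R⁰⁻¹]) :=
    numeratorHom_inj inf_le_left
  refine ⟨hinj, ?_, ?_⟩
  · intro a s hs
    obtain ⟨a', s', h⟩ := oreCondition a (⟨s, mem_nonZeroDivisors_of_ne_zero hs⟩ : R⁰)
    exact ⟨a', s', nonZeroDivisors.ne_zero s'.2, h⟩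
  · intro x
    induction x using OreLocalization.ind with | _ r s
    refine ⟨s, r, nonZeroDivisors.ne_zero s.2, ?_⟩
    have hs : (numeratorHom (s : R) : R[R⁰⁻¹]) ≠ 0 := by
      intro h0
      apply nonZeroDivisors.ne_zero s.2
      apply hinj
      rw [h0]
      exact (map_zero (numeratorRingHom : R →+* R[R⁰⁻¹])).symm
    have e : (numeratorHom (s : R) : R[R⁰⁻¹]) * (r /ₒ s) = numeratorHom r := by
      rw [numeratorHom_apply, numeratorHom_apply]
      exact OreLocalization.mul_cancel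
    change r /ₒ s = (numeratorHom (s : R) : R[R⁰⁻¹])⁻¹ * numeratorHom r
    rw [← e, inv_mul_cancel_left₀ hs]

end Existence

section Star

variable {R : Type*} [Ring R] [NoZeroDivisors R] [Nontrivial R]

open nonZeroDivisors OreLocalization

variable [OreSet (nonZeroDivisors R)]

/-- image in `E^op` -/
def opHom (σ : R →+* Rᵐᵒᵖ) : R →+* (R[R⁰⁻¹])ᵐᵒᵖ :=
  (RingHom.op (numeratorRingHom : R →+* R[R⁰⁻¹])).comp σ

theorem opHom_ne (σ : R →+* Rᵐᵒᵖ) (hσ : Function.Injective σ) {r : R} (hr : r ≠ 0) :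
    opHom σ r ≠ 0 := by
  intro h
  apply hr
  apply hσ
  have h1 : (numeratorRingHom : R →+* R[R⁰⁻¹]) (σ r).unop = 0 := by
    have := congrArg MulOpposite.unop h
    simpa [opHom] using this
  have h2 : (σ r).unop = 0 := (isFrac_loc R).inj (by rw [h1, map_zero])
  rw [map_zero]
  exact MulOpposite.unop_injective h2

/-- units -/
def opUnits (σ : R →+* Rᵐᵒᵖ) (hσ : Function.Injective σ) : R⁰ →* ((R[R⁰⁻¹])ᵐᵒᵖ)ˣ where
  toFun s := Units.mk0 (opHom σ s) (opHom_ne σ hσ (nonZeroDivisors.ne_zero s.2))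
  map_one' := by ext; simp
  map_mul' a b := by ext; simp

/-- the extension of an anti-endomorphism to the fraction field -/
def starHom (σ : R →+* Rᵐᵒᵖ) (hσ : Function.Injective σ) : R[R⁰⁻¹] →+* (R[R⁰⁻¹])ᵐᵒᵖ :=
  universalHom (opHom σ) (opUnits σ hσ) (fun _ => rfl)

theorem starHom_num (σ : R →+* Rᵐᵒᵖ) (hσ : Function.Injective σ) (r : R) :
    (starHom σ hσ (numeratorRingHom r)).unop = numeratorRingHom (σ r).unop := by
  have : starHom σ hσ (numeratorRingHom r) = opHom σ r :=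
    universalHom_commutes (opHom σ) (opUnits σ hσ) (fun _ => rfl)
  rw [this]
  rfl

theorem hom_ext' {R E T : Type*} [Ring R] [DivisionRing E] [DivisionRing T] {i : R →+* E}
    (h : IsFrac i) (f g : E →+* T) (hfg : ∀ r, f (i r) = g (i r)) : f = g := by
  ext x
  obtain ⟨s, a, hs, rfl⟩ := h.gen x
  rw [map_mul, map_mul, map_inv₀, map_inv₀, hfg, hfg]

theorem starHom_starHom (σ : R →+* Rᵐᵒᵖ) (hσ : Function.Injective σ)
    (hinv : ∀ r, (σ (σ r).unop).unop = r) (x : R[R⁰⁻¹]) :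
    (starHom σ hσ (starHom σ hσ x).unop).unop = x := by
  let f : R[R⁰⁻¹] →+* R[R⁰⁻¹] :=
    { toFun := fun x => (starHom σ hσ (starHom σ hσ x).unop).unop
      map_one' := by simp
      map_mul' := by intro a b; simp
      map_zero' := by simp
      map_add' := by intro a b; simp }
  have : f = RingHom.id _ := by
    apply hom_ext' (isFrac_loc R)
    intro r
    change (starHom σ hσ (starHom σ hσ (numeratorRingHom r)).unop).unop = numeratorRingHom r
    rw [starHom_num, starHom_num, hinv]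
  exact congrArg (fun f : R[R⁰⁻¹] →+* R[R⁰⁻¹] => f x) this

/-- the involution on the fraction field -/
@[instance_reducible]
def starRing (σ : R →+* Rᵐᵒᵖ) (hσ : Function.Injective σ)
    (hinv : ∀ r, (σ (σ r).unop).unop = r) : StarRing (R[R⁰⁻¹]) where
  star x := (starHom σ hσ x).unop
  star_involutive := starHom_starHom σ hσ hinv
  star_mul a b := by simp
  star_add a b := by simp

end Star

/-- non-commutative valuations (value at `0` is junk) -/
structure IsVal {R Λ : Type*} [Ring R] [Group Λ] [LinearOrder Λ] (v : R → Λ) : Prop where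
  mul : ∀ x y : R, x ≠ 0 → y ≠ 0 → v (x * y) = v x * v y
  add : ∀ x y : R, x ≠ 0 → y ≠ 0 → x + y ≠ 0 → min (v x) (v y) ≤ v (x + y)

section Val

variable {R E Λ : Type*} [Ring R] [DivisionRing E] {i : R →+* E} [Group Λ] [LinearOrder Λ]

theorem IsVal.one' {v : E → Λ} (h : IsVal v) : v 1 = 1 := by
  have := h.mul 1 1 one_ne_zero one_ne_zero
  rw [mul_one] at this
  exact (mul_eq_left.1 this.symm)

theorem IsVal.inv {v : E → Λ} (h : IsVal v) {x : E} (hx : x ≠ 0) : v x⁻¹ = (v x)⁻¹ := by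
  have := h.mul x⁻¹ x (inv_ne_zero hx) hx
  rw [inv_mul_cancel₀ hx, h.one'] at this
  exact eq_inv_of_mul_eq_one_left this.symm

/-- extension of a valuation to the fraction field -/
def ext (h : IsFrac i) (v : R → Λ) (x : E) : Λ :=
  (v (h.gen x).choose)⁻¹ * v (h.gen x).choose_spec.choose

theorem ext_frac (h : IsFrac i) {v : R → Λ} (hv : IsVal v) {s a : R} (hs : s ≠ 0) (ha : a ≠ 0) :
    ext h v ((i s)⁻¹ * i a) = (v s)⁻¹ * v a := by
  have hx : (i s)⁻¹ * i a ≠ 0 := mul_ne_zero (inv_ne_zero (h.ne hs)) (h.ne ha)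
  obtain ⟨ht, he⟩ := (h.gen ((i s)⁻¹ * i a)).choose_spec.choose_spec
  unfold ext
  generalize (h.gen ((i s)⁻¹ * i a)).choose_spec.choose = b at *
  generalize (h.gen ((i s)⁻¹ * i a)).choose = t at *
  have hb : b ≠ 0 := by
    rintro rfl
    rw [map_zero, mul_zero] at he
    exact hx he
  obtain ⟨s', t', hs', ht', h1, h2⟩ := h.eq_exp hs ht he
  have e1 : v s' * v s = v t' * v t := by
    rw [← hv.mul _ _ hs' hs, ← hv.mul _ _ ht' ht, h1]
  have e2 : v s' * v a = v t' * v b := by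
    rw [← hv.mul _ _ hs' ha, ← hv.mul _ _ ht' hb, h2]
  have e3 : (v s)⁻¹ = (v t)⁻¹ * (v t')⁻¹ * v s' := by
    rw [← mul_inv_rev, ← e1, mul_inv_rev, inv_mul_cancel_right]
  have e4 : v a = (v s')⁻¹ * (v t' * v b) := by
    rw [← e2, inv_mul_cancel_left]
  rw [e3, e4]
  group

theorem ext_num (h : IsFrac i) {v : R → Λ} (hv : IsVal v) {a : R} (ha : a ≠ 0) :
    ext h v (i a) = v a := by
  have h1 : (1 : R) ≠ 0 := by
    intro h0
    apply ha
    rw [← one_mul a, h0, zero_mul]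
  have h2 := ext_frac h hv h1 ha
  have h3 : v 1 = 1 := by
    have := hv.mul 1 1 h1 h1
    rw [mul_one] at this
    exact (mul_eq_left.1 this.symm)
  rw [map_one, inv_one, one_mul, h3, inv_one, one_mul] at h2
  exact h2

theorem ext_isVal [MulLeftMono Λ] (h : IsFrac i) {v : R → Λ} (hv : IsVal v) :
    IsVal (ext h v : E → Λ) := by
  constructor
  · intro x y hx hy
    obtain ⟨s, a, hs, rfl⟩ := h.gen x
    obtain ⟨t, b, ht, rfl⟩ := h.gen y
    have ha : a ≠ 0 := by
      rintro rfl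
      exact hx (by simp)
    have hb : b ≠ 0 := by
      rintro rfl
      exact hy (by simp)
    obtain ⟨a', t', ht', hat⟩ := h.ore a t ht
    have ha' : a' ≠ 0 := by
      rintro rfl
      rw [zero_mul] at hat
      exact h.mul_ne ht' ha hat
    have e : (i s)⁻¹ * i a * ((i t)⁻¹ * i b) = (i (t' * s))⁻¹ * i (a' * b) := by
      have e1 : i a * (i t)⁻¹ = (i t')⁻¹ * i a' := by
        rw [eq_inv_mul_iff_mul_eq₀ (h.ne ht'), ← mul_assoc, mul_inv_eq_iff_eq_mul₀ (h.ne ht),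
          ← map_mul, ← map_mul, hat]
      rw [map_mul, map_mul, mul_inv_rev]
      calc (i s)⁻¹ * i a * ((i t)⁻¹ * i b) = (i s)⁻¹ * (i a * (i t)⁻¹) * i b := by
            simp only [mul_assoc]
        _ = _ := by rw [e1]; simp only [mul_assoc]
    rw [e, ext_frac h hv (h.mul_ne ht' hs) (h.mul_ne ha' hb), ext_frac h hv hs ha,
      ext_frac h hv ht hb, hv.mul _ _ ht' hs, hv.mul _ _ ha' hb]
    have e2 : v t' * v a = v a' * v t := by
      rw [← hv.mul _ _ ht' ha, ← hv.mul _ _ ha' ht, hat]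
    have e3 : v a' = v t' * v a * (v t)⁻¹ := by rw [e2]; group
    rw [e3]
    group
  · intro x y hx hy hxy
    obtain ⟨s, a, b, hs, rfl, rfl⟩ := h.common x y
    have ha : a ≠ 0 := by
      rintro rfl
      exact hx (by simp)
    have hb : b ≠ 0 := by
      rintro rfl
      exact hy (by simp)
    rw [← mul_add, ← map_add] at hxy ⊢
    have hab : a + b ≠ 0 := by
      intro h0
      rw [h0] at hxy
      exact hxy (by simp)
    rw [ext_frac h hv hs ha, ext_frac h hv hs hb, ext_frac h hv hs hab, ← mul_min]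
    exact mul_le_mul_right (hv.add a b ha hb hab) _

end Val

section Sub

variable {R E : Type*} [Ring R] [DivisionRing E] {i : R →+* E}

/-- fractions of a subring with the inner Ore condition -/
def fracSub (h : IsFrac i) (R₀ : Subring R)
    (ore : ∀ a ∈ R₀, ∀ s ∈ R₀, s ≠ 0 → ∃ a' ∈ R₀, ∃ s' ∈ R₀, s' ≠ 0 ∧ s' * a = a' * s) :
    Subfield E where
  carrier := {x | ∃ s ∈ R₀, ∃ a ∈ R₀, s ≠ 0 ∧ x = (i s)⁻¹ * i a}
  one_mem' := by
    have h1 : (1 : R) ≠ 0 := by
      intro h0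
      have := congrArg i h0
      rw [map_one, map_zero] at this
      exact one_ne_zero this
    exact ⟨1, R₀.one_mem, 1, R₀.one_mem, h1, by simp⟩
  zero_mem' := by
    have h1 : (1 : R) ≠ 0 := by
      intro h0
      have := congrArg i h0
      rw [map_one, map_zero] at this
      exact one_ne_zero this
    exact ⟨1, R₀.one_mem, 0, R₀.zero_mem, h1, by simp⟩
  mul_mem' := by
    rintro x y ⟨s, hsR, a, haR, hs, rfl⟩ ⟨t, htR, b, hbR, ht, rfl⟩
    obtain ⟨a', ha'R, t', ht'R, ht', hat⟩ := ore a haR t htR ht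
    refine ⟨t' * s, R₀.mul_mem ht'R hsR, a' * b, R₀.mul_mem ha'R hbR, h.mul_ne ht' hs, ?_⟩
    have e1 : i a * (i t)⁻¹ = (i t')⁻¹ * i a' := by
      rw [eq_inv_mul_iff_mul_eq₀ (h.ne ht'), ← mul_assoc, mul_inv_eq_iff_eq_mul₀ (h.ne ht),
        ← map_mul, ← map_mul, hat]
    rw [map_mul, map_mul, mul_inv_rev]
    calc (i s)⁻¹ * i a * ((i t)⁻¹ * i b) = (i s)⁻¹ * (i a * (i t)⁻¹) * i b := by
          simp only [mul_assoc]
      _ = _ := by rw [e1]; simp only [mul_assoc]
  add_mem' := by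
    rintro x y ⟨s, hsR, a, haR, hs, rfl⟩ ⟨t, htR, b, hbR, ht, rfl⟩
    obtain ⟨t', ht'R, s', hs'R, hs', hst⟩ := ore s hsR t htR ht
    have ht' : t' ≠ 0 := by
      rintro rfl
      rw [zero_mul] at hst
      exact h.mul_ne hs' hs hst
    refine ⟨s' * s, R₀.mul_mem hs'R hsR, s' * a + t' * b,
      R₀.add_mem (R₀.mul_mem hs'R haR) (R₀.mul_mem ht'R hbR), h.mul_ne hs' hs, ?_⟩
    rw [map_add, mul_add]
    congr 1
    · rw [map_mul, map_mul, mul_inv_rev, mul_assoc, inv_mul_cancel_left₀ (h.ne hs')]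
    · rw [hst, map_mul, map_mul, mul_inv_rev, mul_assoc, inv_mul_cancel_left₀ (h.ne ht')]
  neg_mem' := by
    rintro x ⟨s, hsR, a, haR, hs, rfl⟩
    exact ⟨s, hsR, -a, R₀.neg_mem haR, hs, by rw [map_neg, mul_neg]⟩
  inv_mem' := by
    rintro x ⟨s, hsR, a, haR, hs, rfl⟩
    by_cases ha : a = 0
    · subst ha
      exact ⟨s, hsR, 0, R₀.zero_mem, hs, by simp⟩
    · exact ⟨a, haR, s, hsR, ha, by rw [mul_inv_rev, inv_inv]⟩

theorem closure_le_fracSub (h : IsFrac i) (R₀ : Subring R)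
    (ore : ∀ a ∈ R₀, ∀ s ∈ R₀, s ≠ 0 → ∃ a' ∈ R₀, ∃ s' ∈ R₀, s' ≠ 0 ∧ s' * a = a' * s) :
    Subfield.closure (i '' (R₀ : Set R)) ≤ fracSub h R₀ ore := by
  rw [Subfield.closure_le]
  rintro _ ⟨r, hr, rfl⟩
  have h1 : (1 : R) ≠ 0 := by
    intro h0
    have := congrArg i h0
    rw [map_one, map_zero] at this
    exact one_ne_zero this
  exact ⟨1, R₀.one_mem, r, hr, h1, by simp⟩

/-- the valuation is trivial on the sub-fraction-field -/
theorem ext_sub {Λ : Type*} [Group Λ] [LinearOrder Λ] (h : IsFrac i) {v : R → Λ} (hv : IsVal v)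
    (R₀ : Subring R)
    (ore : ∀ a ∈ R₀, ∀ s ∈ R₀, s ≠ 0 → ∃ a' ∈ R₀, ∃ s' ∈ R₀, s' ≠ 0 ∧ s' * a = a' * s)
    (hv0 : ∀ r ∈ R₀, r ≠ 0 → v r = 1) {x : E} (hx : x ∈ fracSub h R₀ ore) (hx0 : x ≠ 0) :
    ext h v x = 1 := by
  obtain ⟨s, hsR, a, haR, hs, rfl⟩ := hx
  have ha : a ≠ 0 := by
    rintro rfl
    exact hx0 (by simp)
  rw [ext_frac h hv hs ha, hv0 s hsR hs, hv0 a haR ha]
  simp

end Sub

end SQ.Ore
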