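import Pool.Agent.SQ.PdComp

/-!
# SQ, row PDM: Poincare duality with coefficients

`CoVan R N i` : the cohomology `H^i(Γ; N)` vanishes; `HoVan R N j` : the homology `H_j(Γ; N)` vanishes (both computed
with the given resolution `R`, in matrix form).
`pdm` : for a Poincare duality group of dimension `n` and a module `N` with `2 N = 0`.
-/

set_option autoImplicit false

open scoped Matrix

namespace SQ

open Singer

/-! ### the twisted involution -/

section stc
variable {Γ : Type} [Group Γ] (χ : Γ →* ℤ)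

/-- the anti-automorphism `g ↦ χ(g) g⁻¹` -/
noncomputable def stc : ZG Γ →+* (ZG Γ)ᵐᵒᵖ :=
  (MonoidAlgebra.lift ℤ (ZG Γ)ᵐᵒᵖ Γ
    { toFun := fun g => MulOpposite.op (MonoidAlgebra.single g⁻¹ (χ g))
      map_one' := by
        rw [inv_one, map_one]
        rfl
      map_mul' := fun g h => by
        rw [← MulOpposite.op_mul, MonoidAlgebra.single_mul_single, map_mul, mul_inv_rev, mul_comm (χ g)] }).toRingHom

/-- the anti-automorphism as an additive map -/
noncomputable def sx : ZG Γ →+ ZG Γ := (MulOpposite.opAddEquiv.symm).toAddMonoidHom.comp (stc χ).toAddMonoidHom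

lemma sx_eq (a : ZG Γ) : sx χ a = (stc χ a).unop := rfl

lemma sx_mul (a b : ZG Γ) : sx χ (a * b) = sx χ b * sx χ a := by
  rw [sx_eq, map_mul]
  rfl

lemma sx_single (g : Γ) (c : ℤ) : sx χ (MonoidAlgebra.single g c) = MonoidAlgebra.single g⁻¹ (c * χ g) := by
  show (MonoidAlgebra.lift ℤ (ZG Γ)ᵐᵒᵖ Γ _ (MonoidAlgebra.single g c)).unop = _
  rw [MonoidAlgebra.lift_single]
  show c • (MonoidAlgebra.single g⁻¹ (χ g) : ZG Γ) = _
  rw [MonoidAlgebra.smul_single, smul_eq_mul]

lemma chi_mul_inv (g : Γ) : χ g * χ g⁻¹ = 1 := by rw [← map_mul, mul_inv_cancel, map_one]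

lemma sx_sx (a : ZG Γ) : sx χ (sx χ a) = a := by
  induction a using MonoidAlgebra.induction_linear with
  | zero => rw [map_zero, map_zero]
  | add a b ha hb => rw [map_add, map_add, ha, hb]
  | single g c => rw [sx_single, sx_single, inv_inv, mul_assoc, chi_mul_inv, mul_one]

lemma star'_single (g : Γ) (c : ℤ) : star' (MonoidAlgebra.single g c : ZG Γ) = MonoidAlgebra.single g⁻¹ c := by
  apply MonoidAlgebra.coeff_injective
  ext k
  rw [coeff_star', MonoidAlgebra.coeff_single, MonoidAlgebra.coeff_single]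
  classical
  rw [Finsupp.single_apply, Finsupp.single_apply]
  by_cases h : g = k⁻¹
  · rw [if_pos h, if_pos (by rw [h, inv_inv])]
  · rw [if_neg h, if_neg (fun h1 => h (by rw [← h1, inv_inv]))]

/-- on modules of characteristic two the twist does not matter -/
lemma sx_smul_eq {N : Type*} [AddCommGroup N] [Module (ZG Γ) N] (h2 : ∀ x : N, x + x = 0) (a : ZG Γ) (x : N) :
    sx χ a • x = star' a • x := by
  induction a using MonoidAlgebra.induction_linear with
  | zero => rw [map_zero, map_zero]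
  | add a b ha hb => rw [map_add, map_add, add_smul, add_smul, ha, hb]
  | single g c =>
    rw [sx_single, star'_single]
    have hu : IsUnit (χ g) := IsUnit.of_mul_eq_one _ (chi_mul_inv χ g)
    rcases Int.isUnit_iff.1 hu with h | h
    · rw [h, mul_one]
    · rw [h]
      have h3 : (MonoidAlgebra.single g⁻¹ (c * -1) : ZG Γ) + MonoidAlgebra.single g⁻¹ c = 0 := by
        rw [← MonoidAlgebra.single_add]
        rw [show c * -1 + c = 0 by ring, MonoidAlgebra.single_zero]
      have h4 := congrArg (· • x) h3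
      simp only [add_smul, zero_smul] at h4
      have h5 := h2 ((MonoidAlgebra.single g⁻¹ c : ZG Γ) • x)
      exact add_right_cancel (h4.trans h5.symm)

end stc

/-! ### the complexes -/

section cpx
variable {Γ : Type} [Group Γ] (R : FinRes Γ)

/-- the index types, shifted by one -/
def kap : ℕ → Type
  | 0 => Empty
  | i + 1 => R.ι i

instance kapFt : ∀ i, Fintype (kap R i)
  | 0 => inferInstanceAs (Fintype Empty)
  | i + 1 => R.ft i

/-- the coboundary matrices, shifted by one -/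
noncomputable def cm : ∀ i, Matrix (kap R (i + 1)) (kap R i) (ZG Γ)
  | 0 => fun _ j => Empty.elim j
  | i + 1 => R.d i

lemma d_mul_d (i : ℕ) : R.d (i + 1) * R.d i = 0 := by
  classical
  funext k l
  have h := bdR_bdR R i (Pi.single k 1)
  rw [bdR_apply, bdR_apply, Matrix.vecMul_vecMul, Matrix.single_one_vecMul] at h
  exact congrFun h l

lemma cm_cm (i : ℕ) : cm R (i + 1) * cm R i = 0 := by
  cases i with
  | zero =>
    funext k l
    exact Empty.elim l
  | succ i => exact d_mul_d R i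

lemma cm_zero (z : kap R 0 → ZG Γ) : (cm R 0 *ᵥ z) = (0 : R.ι 0 → ZG Γ) := by
  funext k
  show ∑ j : Empty, (Empty.elim j : ZG Γ) * z j = 0
  rw [Fintype.sum_empty]

/-- the cohomology with coefficients in `N` vanishes in degree `i` -/
def CoVan (N : Type*) [AddCommGroup N] [Module (ZG Γ) N] (i : ℕ) : Prop :=
  ∀ y : R.ι i → N, mact (R.d i) y = 0 → ∃ z : kap R i → N, mact (cm R i) z = y

/-- the homology with coefficients in `N` vanishes in degree `j` -/
def HoVan (N : Type*) [AddCommGroup N] [Module (ZG Γ) N] : ℕ → Prop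
  | 0 => ∀ x : R.ι 0 → N, ∃ z : R.ι 1 → N, mact (fun l k => star' (R.d 0 k l) : Matrix (R.ι 0) (R.ι 1) (ZG Γ)) z = x
  | j + 1 => ∀ x : R.ι (j + 1) → N, mact (fun l k => star' (R.d j k l) : Matrix (R.ι j) (R.ι (j + 1)) (ZG Γ)) x = 0 →
      ∃ z : R.ι (j + 2) → N, mact (fun l k => star' (R.d (j + 1) k l) : Matrix (R.ι (j + 1)) (R.ι (j + 2)) (ZG Γ)) z = x

lemma coVan_zero {N : Type*} [AddCommGroup N] [Module (ZG Γ) N] :
    CoVan R N 0 ↔ ∀ y : R.ι 0 → N, (∀ k, ∑ l, R.d 0 k l • y l = 0) → y = 0 := by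
  constructor
  · intro h y hy
    obtain ⟨z, hz⟩ := h y (funext hy)
    rw [← hz]
    funext k
    show ∑ j : Empty, _ = _
    rw [Fintype.sum_empty]
    rfl
  · intro h y hy
    refine ⟨fun e => Empty.elim e, ?_⟩
    rw [h y fun k => congrFun hy k]
    funext k
    show ∑ j : Empty, _ = _
    rw [Fintype.sum_empty]
    rfl

lemma coVan_succ {N : Type*} [AddCommGroup N] [Module (ZG Γ) N] (i : ℕ) :
    CoVan R N (i + 1) ↔ ∀ y : R.ι (i + 1) → N, (∀ k, ∑ l, R.d (i + 1) k l • y l = 0) →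
      ∃ z : R.ι i → N, ∀ k, y k = ∑ l, R.d i k l • z l := by
  constructor
  · intro h y hy
    obtain ⟨z, hz⟩ := h y (funext hy)
    exact ⟨z, fun k => by rw [← hz]; rfl⟩
  · intro h y hy
    obtain ⟨z, hz⟩ := h y fun k => congrFun hy k
    exact ⟨z, funext fun k => (hz k).symm⟩

/-- pairing with a column -/
noncomputable def dotL {i : ℕ} (y : R.ι i → ZG Γ) : (R.ι i → ZG Γ) →ₗ[ZG Γ] ZG Γ where
  toFun x := x ⬝ᵥ y
  map_add' x x' := add_dotProduct x x' y
  map_smul' a x := smul_dotProduct a x y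

lemma dotL_apply {i : ℕ} (y x : R.ι i → ZG Γ) : dotL R y x = x ⬝ᵥ y := rfl

lemma dotL_bdR {i : ℕ} (y : R.ι i → ZG Γ) (x : R.ι (i + 1) → ZG Γ) : dotL R y (bdR R i x) = dotL R (R.d i *ᵥ y) x := by
  rw [dotL_apply, dotL_apply, bdR_apply, Matrix.dotProduct_mulVec]

lemma dotL_surj {i : ℕ} (φ : (R.ι i → ZG Γ) →ₗ[ZG Γ] ZG Γ) : ∃ y, dotL R y = φ := by
  classical
  refine ⟨fun l => φ (Pi.single l 1), LinearMap.pi_ext' fun l => LinearMap.ext_ring ?_⟩
  simp [dotL_apply]

lemma dotL_inj {i : ℕ} {y y' : R.ι i → ZG Γ} (h : ∀ x, dotL R y x = dotL R y' x) : y = y' := by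
  classical
  funext l
  have := h (Pi.single l 1)
  simpa [dotL_apply] using this

lemma dotL_add {i : ℕ} (y y' : R.ι i → ZG Γ) : dotL R (y + y') = dotL R y + dotL R y' := by
  refine LinearMap.ext fun x => ?_
  simp [dotL_apply]

lemma dotL_zero {i : ℕ} (x : R.ι i → ZG Γ) : dotL R 0 x = 0 := by
  simp [dotL_apply]

end cpx

/-! ### transfer of cocycles -/

section transfer
variable {Γ : Type} [Group Γ] {R : FinRes Γ} {P : ProjRes Γ} {α : ∀ i, (R.ι i → ZG Γ) →ₗ[ZG Γ] P.P i}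
    {β : ∀ i, P.P i →ₗ[ZG Γ] (R.ι i → ZG Γ)} {h : ∀ i, (R.ι i → ZG Γ) →ₗ[ZG Γ] (R.ι (i + 1) → ZG Γ)}
    {k : ∀ i, P.P i →ₗ[ZG Γ] P.P (i + 1)}

lemma mem_Zn (hβ : ∀ i x, bdR R i (β (i + 1) x) = β i (P.d i x)) {i : ℕ} {y : R.ι i → ZG Γ} (hy : R.d i *ᵥ y = 0) :
    (dotL R y).comp (β i) ∈ P.Zn i := by
  show ((dotL R y).comp (β i)).comp (P.d i) = 0
  refine LinearMap.ext fun x => ?_
  rw [LinearMap.comp_apply, LinearMap.comp_apply, ← hβ, dotL_bdR, hy, dotL_zero]
  rfl

theorem bd_iff (hα : ∀ i x, P.d i (α (i + 1) x) = α i (bdR R i x)) (hβ : ∀ i x, bdR R i (β (i + 1) x) = β i (P.d i x))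
    (hh0 : ∀ x, x = β 0 (α 0 x) + bdR R 0 (h 0 x))
    (hh : ∀ i x, x = β (i + 1) (α (i + 1) x) + bdR R (i + 1) (h (i + 1) x) + h i (bdR R i x))
    {i : ℕ} {y : R.ι i → ZG Γ} (hy : R.d i *ᵥ y = 0) :
    (∃ z : kap R i → ZG Γ, cm R i *ᵥ z = y) ↔ (dotL R y).comp (β i) ∈ P.Bn i := by
  cases i with
  | zero =>
    constructor
    · rintro ⟨z, hz⟩
      have h0 : y = 0 := hz.symm.trans (cm_zero R z)
      show (dotL R y).comp (β 0) = 0
      rw [h0]
      exact LinearMap.ext fun x => dotL_zero R (β 0 x)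
    · intro h1
      have h2 : (dotL R y).comp (β 0) = 0 := h1
      refine ⟨fun e => Empty.elim e, (cm_zero R _).trans ?_⟩
      symm
      refine dotL_inj R fun x => ?_
      rw [hh0 x, map_add, dotL_bdR, hy, dotL_zero, add_zero, dotL_zero]
      exact LinearMap.congr_fun h2 (α 0 x)
  | succ i =>
    constructor
    · rintro ⟨z, rfl⟩
      refine ⟨(dotL R z).comp (β i), ?_⟩
      show ((dotL R z).comp (β i)).comp (P.d i) = (dotL R (R.d i *ᵥ z)).comp (β (i + 1))
      refine LinearMap.ext fun x => ?_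
      rw [LinearMap.comp_apply, LinearMap.comp_apply, LinearMap.comp_apply, ← hβ, dotL_bdR]
    · rintro ⟨ψ, hψ⟩
      have h2 : ψ.comp (P.d i) = (dotL R y).comp (β (i + 1)) := hψ
      obtain ⟨z, hz⟩ := dotL_surj R (ψ.comp (α i) + (dotL R y).comp (h i))
      refine ⟨z, ?_⟩
      refine dotL_inj R fun x => ?_
      show dotL R (R.d i *ᵥ z) x = _
      rw [← dotL_bdR, hz]
      conv_rhs => rw [hh i x]
      rw [map_add, map_add, dotL_bdR R y (h (i + 1) x), hy, dotL_zero, add_zero, LinearMap.add_apply,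
        LinearMap.comp_apply, LinearMap.comp_apply, ← hα]
      have h3 : ψ (P.d i (α (i + 1) x)) = dotL R y (β (i + 1) (α (i + 1) x)) := LinearMap.congr_fun h2 (α (i + 1) x)
      rw [h3]

/-- every class of `P` comes from a cocycle of `R` -/
theorem exists_cocycle (hα : ∀ i x, P.d i (α (i + 1) x) = α i (bdR R i x))
    (hk0 : ∀ x, x = α 0 (β 0 x) + P.d 0 (k 0 x))
    (hk : ∀ i x, x = α (i + 1) (β (i + 1) x) + P.d (i + 1) (k (i + 1) x) + k i (P.d i x)) {i : ℕ}
    {φ : P.P i →ₗ[ZG Γ] ZG Γ} (hφ : φ ∈ P.Zn i) : ∃ y, R.d i *ᵥ y = 0 ∧ φ - (dotL R y).comp (β i) ∈ P.Bn i := by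
  have hφ' : ∀ x, φ (P.d i x) = 0 := fun x => LinearMap.congr_fun (show φ.comp (P.d i) = 0 from hφ) x
  obtain ⟨y, hy⟩ := dotL_surj R (φ.comp (α i))
  refine ⟨y, ?_, ?_⟩
  · refine dotL_inj R fun x => ?_
    rw [← dotL_bdR, hy, LinearMap.comp_apply, ← hα, hφ', dotL_zero]
  · rw [hy]
    cases i with
    | zero =>
      show φ - (φ.comp (α 0)).comp (β 0) = 0
      refine LinearMap.ext fun x => ?_
      rw [LinearMap.sub_apply, LinearMap.comp_apply, LinearMap.comp_apply]
      have h1 := congrArg φ (hk0 x)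
      rw [map_add, hφ', add_zero] at h1
      rw [h1, sub_self]
      rfl
    | succ i =>
      refine ⟨φ.comp (k i), ?_⟩
      show (φ.comp (k i)).comp (P.d i) = φ - (φ.comp (α (i + 1))).comp (β (i + 1))
      refine LinearMap.ext fun x => ?_
      rw [LinearMap.sub_apply, LinearMap.comp_apply, LinearMap.comp_apply, LinearMap.comp_apply, LinearMap.comp_apply]
      have h1 := congrArg φ (hk i x)
      rw [map_add, map_add, hφ', add_zero] at h1
      rw [h1]
      abel

end transfer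

/-! ### the data of a Poincare duality group -/

section data
variable {Γ : Type} [Group Γ] (R : FinRes Γ)

/-- the cocycles in degree `n` with values in the group ring -/
def Zc (n : ℕ) : AddSubgroup (R.ι n → ZG Γ) where
  carrier := {y | R.d n *ᵥ y = 0}
  zero_mem' := Matrix.mulVec_zero _
  add_mem' {a b} ha hb := by
    show R.d n *ᵥ (a + b) = 0
    rw [Matrix.mulVec_add, show R.d n *ᵥ a = 0 from ha, show R.d n *ᵥ b = 0 from hb, add_zero]
  neg_mem' {a} ha := by
    show R.d n *ᵥ (-a) = 0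
    rw [Matrix.mulVec_neg, show R.d n *ᵥ a = 0 from ha, neg_zero]

lemma exists_matrix {i j : ℕ} (φ : (R.ι i → ZG Γ) →ₗ[ZG Γ] (R.ι j → ZG Γ)) :
    ∃ M : Matrix (R.ι i) (R.ι j) (ZG Γ), ∀ x, φ x = x ᵥ* M := by
  classical
  refine ⟨fun k => φ (Pi.single k 1), fun x => ?_⟩
  have h : φ = Matrix.vecMulLinear (fun k => φ (Pi.single k 1) : Matrix (R.ι i) (R.ι j) (ZG Γ)) := by
    refine LinearMap.pi_ext' fun l => LinearMap.ext_ring ?_
    show φ (Pi.single l 1) = (Pi.single l 1) ᵥ* _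
    rw [Matrix.single_one_vecMul]
    rfl
  conv_lhs => rw [h]
  rfl

theorem pd_data {n : ℕ} (hPD : IsPD n Γ) :
    (∀ i, i ≠ n → ∀ y : R.ι i → ZG Γ, R.d i *ᵥ y = 0 → ∃ z : kap R i → ZG Γ, cm R i *ᵥ z = y) ∧
    (∃ N₀, ∀ i, N₀ ≤ i → ∃ u : Matrix (kap R i) (kap R (i + 1)) (ZG Γ), cm R i * u * cm R i = cm R i) ∧
    ∃ η : Zc R n →+ ℤ, (∀ y : Zc R n, η y = 0 ↔ ∃ z : kap R n → ZG Γ, cm R n *ᵥ z = y.1) ∧ ∃ t, η t = 1 := by
  obtain ⟨P, ⟨N, hN⟩, hvan, ⟨e⟩⟩ := hPD
  obtain ⟨α, β, h, k, hα, hβ, hh0, hh, hk0, hk⟩ := exists_compare P R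
  have hZ : ∀ {i : ℕ} {y : R.ι i → ZG Γ} (hy : R.d i *ᵥ y = 0), (dotL R y).comp (β i) ∈ P.Zn i := fun hy => mem_Zn hβ hy
  have hB := fun {i : ℕ} {y : R.ι i → ZG Γ} (hy : R.d i *ᵥ y = 0) => bd_iff hα hβ hh0 hh hy
  refine ⟨?_, ⟨N + 2, ?_⟩, ?_⟩
  · intro i hi y hy
    rw [hB hy]
    have := hvan i hi
    have h1 : (QuotientAddGroup.mk ⟨_, hZ hy⟩ : P.Hn i) = 0 := Subsingleton.elim _ _
    rw [QuotientAddGroup.eq_zero_iff] at h1
    exact h1
  · intro i hi
    obtain ⟨i, rfl⟩ : ∃ i', i = i' + 1 := ⟨i - 1, by omega⟩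
    obtain ⟨H, hH⟩ := exists_matrix R (h i)
    refine ⟨H, ?_⟩
    show R.d i * H * R.d i = R.d i
    classical
    funext a b
    have h1 := hh i (Pi.single a 1)
    have := hN (i + 1) (by omega)
    rw [Subsingleton.elim (α (i + 1) (Pi.single a 1)) 0, map_zero, zero_add] at h1
    have h2 := congrArg (bdR R i) h1
    rw [map_add, bdR_bdR, zero_add, hH, bdR_apply, bdR_apply, Matrix.vecMul_vecMul, Matrix.vecMul_vecMul,
      Matrix.single_one_vecMul, Matrix.single_one_vecMul, ← Matrix.mul_assoc] at h2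
    exact (congrFun h2 b).symm
  · let η : Zc R n →+ ℤ :=
      { toFun := fun y => e (QuotientAddGroup.mk ⟨_, hZ y.2⟩)
        map_zero' := by
          have h1 : (⟨_, hZ (0 : Zc R n).2⟩ : P.Zn n) = 0 := by
            apply Subtype.ext
            exact LinearMap.ext fun x => dotL_zero R _
          rw [h1]
          exact map_zero e
        map_add' := fun y y' => by
          have h1 : (⟨_, hZ (y + y').2⟩ : P.Zn n) = ⟨_, hZ y.2⟩ + ⟨_, hZ y'.2⟩ := by
            apply Subtype.ext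
            show (dotL R (y.1 + y'.1)).comp (β n) = _
            rw [dotL_add]
            rfl
          rw [h1, QuotientAddGroup.mk_add, map_add] }
    have hη : ∀ y : Zc R n, η y = e (QuotientAddGroup.mk ⟨_, hZ y.2⟩) := fun _ => rfl
    refine ⟨η, fun y => ?_, ?_⟩
    · rw [hB y.2, hη]
      have h1 : e (QuotientAddGroup.mk ⟨_, hZ y.2⟩) = 0 ↔ (QuotientAddGroup.mk ⟨_, hZ y.2⟩ : P.Hn n) = 0 :=
        e.map_eq_zero_iff
      rw [h1, QuotientAddGroup.eq_zero_iff]
      rfl
    · obtain ⟨c, hc⟩ := e.surjective 1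
      obtain ⟨φ, rfl⟩ := QuotientAddGroup.mk_surjective c
      obtain ⟨y, hy, hy'⟩ := exists_cocycle (R := R) (P := P) hα hk0 hk φ.2
      refine ⟨⟨y, hy⟩, ?_⟩
      rw [hη, ← hc]
      congr 1
      rw [QuotientAddGroup.eq, AddSubgroup.mem_addSubgroupOf]
      have h2 : ((-(⟨_, hZ hy⟩ : P.Zn n) + φ : P.Zn n) : P.P n →ₗ[ZG Γ] ZG Γ) = φ.1 - (dotL R y).comp (β n) := by
        show -((dotL R y).comp (β n)) + φ.1 = _
        abel
      rw [h2]
      exact hy'

end data

/-! ### the duality theorem -/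

section main
variable {Γ : Type} [Group Γ]

theorem pdm {n : ℕ} (hPD : IsPD n Γ) (R : FinRes Γ) {N : Type*} [AddCommGroup N] [Module (ZG Γ) N]
    (h2 : ∀ x : N, x + x = 0) : (∀ i ≤ n, CoVan R N i ↔ HoVan R N (n - i)) ∧ (∀ i, n < i → CoVan R N i) ∧
      ∀ j, n < j → HoVan R N j := by
  classical
  obtain ⟨hex, ⟨N₀, hN₀⟩, η₀, hη₀, t₀, ht₀⟩ := pd_data R hPD
  have hreg := pd_reg (κ := kap R) (n := n) (cm_cm R) hN₀ fun i hi x hx => hex i (by omega) x hx
  -- the top degree
  obtain ⟨u, hu⟩ : ∃ u : Matrix (R.ι n) (R.ι (n + 1)) (ZG Γ), R.d n * u * R.d n = R.d n := hreg (n + 1) (by omega)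
  have hce : ∀ y : R.ι n → ZG Γ, R.d n *ᵥ (y - u *ᵥ (R.d n *ᵥ y)) = 0 := by
    intro y
    rw [Matrix.mulVec_sub, Matrix.mulVec_mulVec, Matrix.mulVec_mulVec, hu, sub_self]
  let η : (R.ι n → ZG Γ) →+ ℤ :=
    { toFun := fun y => η₀ ⟨y - u *ᵥ (R.d n *ᵥ y), hce y⟩
      map_zero' := by
        have h1 : (⟨(0 : R.ι n → ZG Γ) - u *ᵥ (R.d n *ᵥ 0), hce 0⟩ : Zc R n) = 0 := by
          apply Subtype.ext
          show (0 : R.ι n → ZG Γ) - u *ᵥ (R.d n *ᵥ 0) = 0
          rw [Matrix.mulVec_zero, Matrix.mulVec_zero, sub_zero]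
        rw [h1, map_zero]
      map_add' := fun y y' => by
        rw [← map_add]
        congr 1
        apply Subtype.ext
        show (y + y') - u *ᵥ (R.d n *ᵥ (y + y')) = (y - u *ᵥ (R.d n *ᵥ y)) + (y' - u *ᵥ (R.d n *ᵥ y'))
        rw [Matrix.mulVec_add, Matrix.mulVec_add]
        abel }
  have hη : ∀ y, η y = η₀ ⟨y - u *ᵥ (R.d n *ᵥ y), hce y⟩ := fun _ => rfl
  have hηZ : ∀ y (hy : R.d n *ᵥ y = 0), η y = η₀ ⟨y, hy⟩ := by
    intro y hy
    rw [hη]
    congr 1
    apply Subtype.ext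
    show y - u *ᵥ (R.d n *ᵥ y) = y
    rw [hy, Matrix.mulVec_zero, sub_zero]
  obtain ⟨t, ht⟩ := t₀
  have ht' : R.d n *ᵥ t = 0 := ht
  have hη1 : η t = 1 := by
    rw [hηZ t ht', ← ht₀]
  have hmr : ∀ {p q : Type} [Fintype q] (M : Matrix p q (ZG Γ)) (y : q → ZG Γ) (a : ZG Γ),
      M *ᵥ (fun l => y l * a) = fun l => (M *ᵥ y) l * a := by
    intro p q _ M y a
    funext i
    show ∑ j, M i j * (y j * a) = (∑ j, M i j * y j) * a
    rw [Finset.sum_mul]
    exact Finset.sum_congr rfl fun j _ => by rw [mul_assoc]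
  have hker : ∀ y : R.ι n → ZG Γ, R.d n *ᵥ y = 0 → (η y = 0 ↔ ∃ z : kap R n → ZG Γ, cm R n *ᵥ z = y) := by
    intro y hy
    rw [hηZ y hy, hη₀]
  -- the character
  let X : ZG Γ → ℤ := fun a => η fun l => t l * a
  have hX : ∀ a, X a = η fun l => t l * a := fun _ => rfl
  have hηX : ∀ (y : R.ι n → ZG Γ) a, η (fun l => y l * a) = η y * X a := by
    intro y a
    have key : ∀ y : R.ι n → ZG Γ, R.d n *ᵥ y = 0 → η (fun l => y l * a) = η y * X a := by
      intro y hy
      have h1 : R.d n *ᵥ (y - η y • t) = 0 := by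
        rw [Matrix.mulVec_sub, Matrix.mulVec_smul, hy, ht', smul_zero, sub_zero]
      obtain ⟨z, hz⟩ := (hker _ h1).1 (by rw [map_sub, map_zsmul, hη1, smul_eq_mul, mul_one, sub_self])
      have h3 : cm R n *ᵥ (fun l => z l * a) = fun l => (y - η y • t) l * a := by
        rw [hmr, hz]
        rfl
      have h4 : R.d n *ᵥ (fun l => (y - η y • t) l * a) = 0 := by
        rw [hmr, h1]
        funext l
        exact zero_mul a
      have h5 := (hker _ h4).2 ⟨_, h3⟩
      have h6 : (fun l => (y - η y • t) l * a) = (fun l => y l * a) - η y • fun l => t l * a := by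
        funext l
        simp [sub_mul, mul_assoc]
      rw [h6, map_sub, map_zsmul, ← hX, smul_eq_mul] at h5
      omega
    have h7 : ∀ y : R.ι n → ZG Γ, η y = η (y - u *ᵥ (R.d n *ᵥ y)) := by
      intro y
      rw [hηZ _ (hce y), hη]
    rw [h7, h7 y]
    have h8 : (fun l => y l * a) - u *ᵥ (R.d n *ᵥ fun l => y l * a) = fun l => (y - u *ᵥ (R.d n *ᵥ y)) l * a := by
      rw [hmr, hmr]
      funext l
      simp [sub_mul]
    rw [h8]
    exact key _ (hce y)
  have hX1 : X 1 = 1 := by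
    rw [hX]
    simpa using hη1
  have hXmul : ∀ a b, X (a * b) = X a * X b := by
    intro a b
    have h1 : (fun l => t l * (a * b)) = fun l => (t l * a) * b := by
      funext l
      rw [mul_assoc]
    rw [hX, h1, hηX]
  have hXadd : ∀ a b, X (a + b) = X a + X b := by
    intro a b
    have h1 : (fun l => t l * (a + b)) = (fun l => t l * a) + fun l => t l * b := by
      funext l
      exact mul_add _ _ _
    rw [hX, h1, map_add]
  let XR : ZG Γ →+* ℤ :=
    { toFun := X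
      map_one' := hX1
      map_mul' := hXmul
      map_zero' := by
        have := hXadd 0 0
        rw [add_zero] at this
        omega
      map_add' := hXadd }
  have hXR : ∀ a, XR a = X a := fun _ => rfl
  let χ : Γ →* ℤ := (XR : ZG Γ →* ℤ).comp (MonoidAlgebra.of ℤ Γ)
  have hχ : ∀ g, χ g = X (MonoidAlgebra.single g 1) := fun _ => rfl
  have haug : ∀ a, aug Γ (sx χ a) = X a := by
    intro a
    rw [← hXR]
    induction a using MonoidAlgebra.induction_linear with
    | zero => rw [map_zero, map_zero, map_zero]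
    | add a b ha hb => rw [map_add, map_add, map_add, ha, hb]
    | single g c =>
      rw [sx_single, aug_single, hχ, ← hXR]
      have h1 : (MonoidAlgebra.single g c : ZG Γ) = c • MonoidAlgebra.single g 1 := by
        rw [MonoidAlgebra.smul_single, smul_eq_mul, mul_one]
      rw [h1, map_zsmul, smul_eq_mul]
  -- the dual resolution
  let D : ∀ j, Matrix (R.ι j) (R.ι (j + 1)) (ZG Γ) := fun j l k => sx χ (R.d j k l)
  have hD : ∀ j l k, D j l k = sx χ (R.d j k l) := fun _ _ _ => rfl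
  have hDv : ∀ j (x : R.ι (j + 1) → ZG Γ), (fun k => sx χ (x k)) ᵥ* R.d j = fun l => sx χ ((D j *ᵥ x) l) := by
    intro j x
    funext l
    show ∑ k, sx χ (x k) * R.d j k l = sx χ (∑ k, D j l k * x k)
    rw [map_sum]
    exact Finset.sum_congr rfl fun k _ => by rw [sx_mul, hD, sx_sx]
  have hss : ∀ {p : Type} (x : p → ZG Γ), (fun k => sx χ (sx χ (x k))) = x := by
    intro p x
    funext k
    exact sx_sx χ _
  have hsx0 : ∀ {p : Type} {x : p → ZG Γ}, (fun k => sx χ (x k)) = 0 → x = 0 := by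
    intro p x hx
    rw [← hss x]
    funext k
    rw [congrFun hx k]
    exact map_zero _
  have hDv' : ∀ j (z : R.ι (j + 1) → ZG Γ), D j *ᵥ (fun k => sx χ (z k)) = fun l => sx χ ((z ᵥ* R.d j) l) := by
    intro j z
    have h1 := hDv j (fun k => sx χ (z k))
    rw [hss] at h1
    rw [h1]
    exact (hss _).symm
  have hDD : ∀ j, D j * D (j + 1) = 0 := by
    intro j
    funext l m
    show ∑ k, D j l k * D (j + 1) k m = 0
    have h1 : ∑ k, D j l k * D (j + 1) k m = sx χ ((R.d (j + 1) * R.d j) m l) := by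
      rw [Matrix.mul_apply, map_sum]
      exact Finset.sum_congr rfl fun k _ => by rw [sx_mul]
    rw [h1, d_mul_d]
    exact map_zero _
  have hexD : ∀ j (x : R.ι (j + 1) → ZG Γ), D j *ᵥ x = 0 → ∃ z, D (j + 1) *ᵥ z = x := by
    intro j x hx
    obtain ⟨z, hz⟩ := (R.exact_succ j fun k => sx χ (x k)).1 (by
      rw [hDv, hx]
      funext l
      exact map_zero _)
    refine ⟨fun k => sx χ (z k), ?_⟩
    rw [hDv', hz]
    exact hss x
  let ε : (R.ι 0 → ZG Γ) →+ ℤ :=
    { toFun := fun x => ∑ i, R.w i * XR (x i)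
      map_zero' := by simp
      map_add' := fun x y => by simp [mul_add, Finset.sum_add_distrib] }
  have hε : ∀ x, ε x = ∑ i, R.w i * XR (x i) := fun _ => rfl
  have hεX : ∀ y a, ε (fun l => y l * a) = ε y * X a := by
    intro y a
    rw [hε, hε, Finset.sum_mul]
    exact Finset.sum_congr rfl fun i _ => by rw [map_mul, mul_assoc, hXR a]
  have hεaug : ∀ x, ε x = augw R.w fun k => sx χ (x k) := by
    intro x
    rw [hε]
    unfold augw
    refine Finset.sum_congr rfl fun i _ => ?_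
    rw [← aug_eq, haug, hXR]
  have hεex : ∀ x, ε x = 0 ↔ ∃ z, D 0 *ᵥ z = x := by
    intro x
    rw [hεaug, R.exact_zero]
    constructor
    · rintro ⟨z, hz⟩
      refine ⟨fun k => sx χ (z k), ?_⟩
      rw [hDv', hz]
      exact hss x
    · rintro ⟨z, rfl⟩
      exact ⟨fun k => sx χ (z k), hDv 0 z⟩
  obtain ⟨r, hr⟩ : ∃ r, ε r = 1 := by
    obtain ⟨x, hx⟩ := R.surj
    refine ⟨fun k => sx χ (x k), ?_⟩
    rw [hεaug, hss, hx]
  -- homology in terms of `D`
  have hDN : ∀ j (x : R.ι (j + 1) → N), mact (D j) x = mact (fun l k => star' (R.d j k l) : Matrix (R.ι j) (R.ι (j + 1)) (ZG Γ)) x := by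
    intro j x
    funext l
    exact Finset.sum_congr rfl fun k _ => sx_smul_eq χ h2 _ _
  obtain ⟨hbase, htop, htop'⟩ := pd_top (κ := kap R) (ι := R.ι) (c := cm R) (D := D) (n := n) (cm_cm R) hu ε hεX hr hεex η
    hηX hη1 ht' hker
  have hstep := pd_step (κ := kap R) (ι := R.ι) (c := cm R) (D := D) (n := n) (cm_cm R) hDD hexD
    (fun i hi x hx => hex i (by omega) x hx) hbase
  refine ⟨fun i hi => ?_, fun i hi => ?_, fun i hi => ?_⟩
  · obtain ⟨j, hj⟩ : ∃ j, j = n - i := ⟨_, rfl⟩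
    rw [← hj]
    cases j with
    | zero =>
      have hi' : i = n := by omega
      subst hi'
      constructor
      · intro hC x
        obtain ⟨z, hz⟩ := htop' (N := N) (fun y hy => hC y hy) x
        exact ⟨z, by rw [← hDN, hz]⟩
      · intro hH y hy
        exact htop (fun x => by
          obtain ⟨z, hz⟩ := hH x
          exact ⟨z, by rw [hDN, hz]⟩) y hy
    | succ j =>
      have hst := hstep j (i + 1) (by omega)
      constructor
      · intro hC x hx
        obtain ⟨z, hz⟩ := pd_low_rev (κ := kap R) (ι := R.ι) (c := cm R) (D := D) (cm_cm R) (hexD j) hst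
          (fun y hy => hC y hy) x (by rw [hDN]; exact hx)
        exact ⟨z, by rw [← hDN, hz]⟩
      · intro hH y hy
        exact pd_low (κ := kap R) (ι := R.ι) (c := cm R) (D := D) hDD (fun x hx => hex i (by omega) x hx) hst
          (fun x hx => by
            rw [hDN] at hx
            obtain ⟨z, hz⟩ := hH x hx
            exact ⟨z, by rw [hDN, hz]⟩) y hy
  · obtain ⟨u, hu⟩ := hreg (i + 1) (by omega)
    intro y hy
    exact pd_high (κ := kap R) (c := cm R) hu (fun x hx => hex i (by omega) x hx) y hy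
  · -- above the top
    obtain ⟨f, g, -, -, -, k, -, -, -, hk⟩ := hstep n 0 (by omega)
    have hfg : f * g = 0 := by
      funext a b
      show ∑ e : Empty, f a e * g e b = 0
      rw [Fintype.sum_empty]
    rw [hfg, sub_zero] at hk
    obtain ⟨m, rfl⟩ : ∃ m, i = n + m + 1 := ⟨i - n - 1, by omega⟩
    intro x hx
    obtain ⟨z, hz⟩ := pd_high_rev (ι := R.ι) (D := D) (hexD (n + m)) (pd_split (ι := R.ι) (D := D) hDD hexD ⟨k, hk⟩ m) x
      (by rw [hDN]; exact hx)
    exact ⟨z, by rw [← hDN, hz]⟩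

end main

end SQ
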