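import Pool.Agent.SQ.Acr
import Pool.Agent.SQ.PdMain
import Pool.Agent.Helper6.CD.PD2Stmt

/-!
# Poincare duality modulo two
-/

set_option autoImplicit false
set_option linter.unusedSectionVars false

open scoped Matrix

namespace SQ.PD2

open Singer Helper6CD SQ.Acr

/-! ### the top degree -/

section base
variable {k₀ A : Type*} [CommRing k₀] [Ring A] [Algebra k₀ A] {κ ι : ℕ → Type} [∀ i, Fintype (κ i)] [∀ i, Fintype (ι i)]
  [∀ i, DecidableEq (κ i)] [∀ i, DecidableEq (ι i)]
  {c : ∀ i, Matrix (κ (i + 1)) (κ i) A} {D : ∀ j, Matrix (ι j) (ι (j + 1)) A} {n : ℕ}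

lemma fun_mulVec2 {m k : Type*} [Fintype m] [Fintype k] [DecidableEq k] {X : A → k₀} (φ : (m → A) →ₗ[k₀] k₀)
    (hφ : ∀ y a, φ (fun l => y l * a) = φ y * X a) (ψ : (k → A) →ₗ[k₀] k₀) (hψ : ∀ y a, ψ (fun l => y l * a) = ψ y * X a)
    {t : m → A} (ht : φ t = 1) {M : Matrix m k A} (hM : ∀ i j, M i j = t i * algebraMap k₀ A (ψ (Pi.single j 1)))
    (y : k → A) : φ (M *ᵥ y) = ψ y := by
  have h1 : M *ᵥ y = ∑ j, fun i => t i * (algebraMap k₀ A (ψ (Pi.single j 1)) * y j) := by
    funext i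
    rw [Finset.sum_apply]
    show ∑ j, M i j * y j = _
    exact Finset.sum_congr rfl fun j _ => by rw [hM, mul_assoc]
  have h2 : y = ∑ j, fun l => (Pi.single j 1 : k → A) l * y j := by
    funext l
    rw [Finset.sum_apply, Finset.sum_eq_single_of_mem l (Finset.mem_univ l)]
    · rw [Pi.single_eq_same, one_mul]
    · intro j _ hj
      rw [Pi.single_eq_of_ne hj.symm, zero_mul]
  have h3 : ∀ (z : k₀) (a : A), φ (fun i => t i * (algebraMap k₀ A z * a)) = z * X a := by
    intro z a
    have : (fun i => t i * (algebraMap k₀ A z * a)) = z • fun i => t i * a := by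
      funext i
      rw [Pi.smul_apply, Algebra.smul_def, Algebra.left_comm]
    rw [this, map_smul, hφ, ht, one_mul, smul_eq_mul]
  rw [h1, map_sum]
  conv_rhs => rw [h2]
  rw [map_sum]
  exact Finset.sum_congr rfl fun j _ => by rw [h3, hψ]

/-- the data in the top degree -/
theorem pd_top2 (cc : ∀ i, c (i + 1) * c i = 0)
    {u : Matrix (κ (n + 1)) (κ (n + 2)) A} (hu : c (n + 1) * u * c (n + 1) = c (n + 1))
    {X : A → k₀} (ε : (ι 0 → A) →ₗ[k₀] k₀) (hε : ∀ y a, ε (fun l => y l * a) = ε y * X a) {r : ι 0 → A} (hr : ε r = 1)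
    (exε : ∀ x, ε x = 0 ↔ ∃ z, D 0 *ᵥ z = x)
    (η : (κ (n + 1) → A) →ₗ[k₀] k₀) (hη : ∀ y a, η (fun l => y l * a) = η y * X a) {t : κ (n + 1) → A}
    (ht : η t = 1) (ht' : c (n + 1) *ᵥ t = 0)
    (exη : ∀ x, c (n + 1) *ᵥ x = 0 → (η x = 0 ↔ ∃ z, c n *ᵥ z = x)) :
    (∃ (f : Matrix (ι 1) (κ n) A) (g : Matrix (κ n) (ι 1) A) (h : Matrix (κ n) (κ (n + 1)) A)
      (f' : Matrix (ι 0) (κ (n + 1)) A) (g' : Matrix (κ (n + 1)) (ι 0) A) (k : Matrix (ι 1) (ι 0) A),
      D 0 * f = f' * c n ∧ c n * g = g' * D 0 ∧ c n * (1 - g * f - h * c n) = 0 ∧ D 0 * (1 - f * g - k * D 0) = 0) ∧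
    (∀ {N : Type*} [AddCommGroup N] [Module A N], (∀ x : ι 0 → N, ∃ z, mact (D 0) z = x) →
      ∀ y : κ (n + 1) → N, mact (c (n + 1)) y = 0 → ∃ z, mact (c n) z = y) ∧
    ∀ {N : Type*} [AddCommGroup N] [Module A N],
      (∀ y : κ (n + 1) → N, mact (c (n + 1)) y = 0 → ∃ z, mact (c n) z = y) →
      ∀ x : ι 0 → N, ∃ z, mact (D 0) z = x := by
  let f' : Matrix (ι 0) (κ (n + 1)) A := fun i j => r i * algebraMap k₀ A (η (Pi.single j 1))
  let g' : Matrix (κ (n + 1)) (ι 0) A := fun i j => t i * algebraMap k₀ A (ε (Pi.single j 1))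
  let e : Matrix (κ (n + 1)) (κ (n + 1)) A := 1 - u * c (n + 1)
  have hf' : ∀ y, ε (f' *ᵥ y) = η y := fun y => fun_mulVec2 ε hε η hη hr (fun _ _ => rfl) y
  have hg' : ∀ y, η (g' *ᵥ y) = ε y := fun y => fun_mulVec2 η hη ε hε ht (fun _ _ => rfl) y
  have hcg : c (n + 1) * g' = 0 := by
    funext i j
    have h1 := congrFun ht' i
    show ∑ k, c (n + 1) i k * (t k * algebraMap k₀ A (ε (Pi.single j 1))) = 0
    have h2 : ∑ k, c (n + 1) i k * (t k * algebraMap k₀ A (ε (Pi.single j 1))) = (∑ k, c (n + 1) i k * t k) * algebraMap k₀ A (ε (Pi.single j 1)) := by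
      rw [Finset.sum_mul]
      exact Finset.sum_congr rfl fun k _ => by rw [mul_assoc]
    rw [h2]
    have h3 : ∑ k, c (n + 1) i k * t k = 0 := h1
    rw [h3, zero_mul]
  have hce : c (n + 1) * e = 0 := by
    show c (n + 1) * (1 - u * c (n + 1)) = 0
    rw [Matrix.mul_sub, Matrix.mul_one, ← Matrix.mul_assoc, hu, sub_self]
  have hec : e * c n = c n := by
    show (1 - u * c (n + 1)) * c n = c n
    rw [Matrix.sub_mul, Matrix.one_mul, Matrix.mul_assoc, cc, Matrix.mul_zero, sub_zero]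
  have hcol : ∀ {p : Type} [Fintype p] [DecidableEq p] (Q : Matrix (κ (n + 1)) p A) (k : p),
      (fun i => Q i k) = Q *ᵥ Pi.single k 1 := by
    intro p _ _ Q k
    funext i
    rw [Matrix.mulVec_single_one]
    rfl
  obtain ⟨f, hf⟩ : ∃ f : Matrix (ι 1) (κ n) A, D 0 * f = f' * c n := by
    refine exists_mul_of_col fun k => (exε _).1 ?_
    have h1 : (fun i => (f' * c n) i k) = f' *ᵥ (fun i => c n i k) := rfl
    rw [h1, hf']
    refine (exη _ ?_).2 ⟨Pi.single k 1, ?_⟩
    · exact col_of_mul_eq_zero (cc n) k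
    · exact (hcol (c n) k).symm
  obtain ⟨g, hg⟩ : ∃ g : Matrix (κ n) (ι 1) A, c n * g = g' * D 0 := by
    refine exists_mul_of_col fun k => (exη _ ?_).1 ?_
    · refine col_of_mul_eq_zero ?_ k
      rw [← Matrix.mul_assoc, hcg, Matrix.zero_mul]
    · have h1 : (fun i => (g' * D 0) i k) = g' *ᵥ (fun i => D 0 i k) := rfl
      rw [h1, hg']
      classical
      refine (exε _).2 ⟨Pi.single k 1, ?_⟩
      funext i
      rw [Matrix.mulVec_single_one]
      rfl
  obtain ⟨h, hh⟩ : ∃ h : Matrix (κ n) (κ (n + 1)) A, c n * h = e - g' * f' * e := by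
    refine exists_mul_of_col fun k => (exη _ ?_).1 ?_
    · refine col_of_mul_eq_zero ?_ k
      rw [Matrix.mul_sub, hce, ← Matrix.mul_assoc, ← Matrix.mul_assoc, hcg, Matrix.zero_mul, Matrix.zero_mul, sub_zero]
    · have h1 : (fun i => (e - g' * f' * e) i k) = (fun i => e i k) - g' *ᵥ (f' *ᵥ fun i => e i k) := by
        funext i
        rw [Matrix.mulVec_mulVec]
        rfl
      rw [h1, map_sub, hg', hf', sub_self]
  obtain ⟨k, hk⟩ : ∃ k : Matrix (ι 1) (ι 0) A, D 0 * k = 1 - f' * g' := by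
    refine exists_mul_of_col fun l => (exε _).1 ?_
    have h1 : (fun i => (1 - f' * g' : Matrix (ι 0) (ι 0) A) i l) = (fun i => (1 : Matrix (ι 0) (ι 0) A) i l) -
        f' *ᵥ (g' *ᵥ fun i => (1 : Matrix (ι 0) (ι 0) A) i l) := by
      funext i
      rw [Matrix.mulVec_mulVec]
      show _ = _ - ((f' * g') * (1 : Matrix (ι 0) (ι 0) A)) i l
      rw [Matrix.mul_one]
      rfl
    rw [h1, map_sub, hf', hg', sub_self]
  refine ⟨⟨f, g, h, f', g', k, hf, hg, ?_, ?_⟩, ?_, ?_⟩
  · rw [Matrix.mul_sub, Matrix.mul_sub, Matrix.mul_one, ← Matrix.mul_assoc, hg, Matrix.mul_assoc, hf, ← Matrix.mul_assoc,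
      ← Matrix.mul_assoc, hh, Matrix.sub_mul, hec, Matrix.mul_assoc (g' * f'), hec]
    abel
  · rw [Matrix.mul_sub, Matrix.mul_sub, Matrix.mul_one, ← Matrix.mul_assoc, hf, Matrix.mul_assoc, hg, ← Matrix.mul_assoc,
      ← Matrix.mul_assoc, hk, Matrix.sub_mul, Matrix.one_mul]
    abel
  · intro N _ _ hN y hy
    obtain ⟨z, hz⟩ := hN (mact f' y)
    refine ⟨mact g z + mact h y, ?_⟩
    have hey : mact e y = y := by
      show mact (1 - u * c (n + 1)) y = y
      rw [mact_sub, mact_one, mact_mul, hy, mact_vzero, sub_zero]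
    rw [mact_vadd, ← mact_mul, ← mact_mul, hg, hh, mact_sub, mact_mul g', hz, mact_mul (g' * f'), hey, mact_mul g']
    abel
  · intro N _ _ hN x
    obtain ⟨z, hz⟩ := hN (mact g' x) (by rw [← mact_mul, hcg, mact_zero])
    refine ⟨mact f z + mact k x, ?_⟩
    rw [mact_vadd, ← mact_mul, ← mact_mul, hf, hk, mact_sub, mact_one, mact_mul, mact_mul, hz]
    abel

end base

/-! ### the group algebra -/

section alg
variable {H : Type} [Group H]

/-- the anti-automorphism `g ↦ g⁻¹` -/
noncomputable def stc2 : MonoidAlgebra (ZMod 2) H →+* (MonoidAlgebra (ZMod 2) H)ᵐᵒᵖ :=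
  (MonoidAlgebra.lift (ZMod 2) (MonoidAlgebra (ZMod 2) H)ᵐᵒᵖ H
    { toFun := fun g => MulOpposite.op (MonoidAlgebra.single g⁻¹ 1)
      map_one' := by
        rw [inv_one]
        rfl
      map_mul' := fun g h => by
        rw [← MulOpposite.op_mul, MonoidAlgebra.single_mul_single, mul_inv_rev, mul_one] }).toRingHom

/-- the anti-automorphism as an additive map -/
noncomputable def s2 : MonoidAlgebra (ZMod 2) H →+ MonoidAlgebra (ZMod 2) H :=
  (MulOpposite.opAddEquiv.symm).toAddMonoidHom.comp (stc2).toAddMonoidHom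

lemma s2_eq (a : MonoidAlgebra (ZMod 2) H) : s2 a = (stc2 a).unop := rfl

lemma s2_mul (a b : MonoidAlgebra (ZMod 2) H) : s2 (a * b) = s2 b * s2 a := by
  rw [s2_eq, map_mul]
  rfl

lemma s2_single (g : H) (c : ZMod 2) :
    s2 (MonoidAlgebra.single g c : MonoidAlgebra (ZMod 2) H) = MonoidAlgebra.single g⁻¹ c := by
  show (MonoidAlgebra.lift (ZMod 2) (MonoidAlgebra (ZMod 2) H)ᵐᵒᵖ H _ (MonoidAlgebra.single g c)).unop = _
  rw [MonoidAlgebra.lift_single]
  show c • (MonoidAlgebra.single g⁻¹ 1 : MonoidAlgebra (ZMod 2) H) = _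
  rw [MonoidAlgebra.smul_single, smul_eq_mul, mul_one]

lemma s2_s2 (a : MonoidAlgebra (ZMod 2) H) : s2 (s2 a) = a := by
  induction a using MonoidAlgebra.induction_linear with
  | zero => rw [map_zero, map_zero]
  | add a b ha hb => rw [map_add, map_add, ha, hb]
  | single g c => rw [s2_single, s2_single, inv_inv]

/-- the augmentation -/
noncomputable def au (a : MonoidAlgebra (ZMod 2) H) : ZMod 2 := a.coeff.sum fun _ c => c

lemma au_zero : au (0 : MonoidAlgebra (ZMod 2) H) = 0 := rfl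

lemma au_add (a b : MonoidAlgebra (ZMod 2) H) : au (a + b) = au a + au b := by
  unfold au
  rw [MonoidAlgebra.coeff_add, Finsupp.sum_add_index' (fun _ => rfl) (fun _ _ _ => rfl)]

lemma au_single (g : H) (c : ZMod 2) : au (MonoidAlgebra.single g c : MonoidAlgebra (ZMod 2) H) = c := by
  unfold au
  rw [MonoidAlgebra.coeff_single, Finsupp.sum_single_index rfl]

lemma au_mul (a b : MonoidAlgebra (ZMod 2) H) : au (a * b) = au a * au b := by
  induction a using MonoidAlgebra.induction_linear with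
  | zero => rw [zero_mul, au_zero, zero_mul]
  | add a a' ha ha' => rw [add_mul, au_add, au_add, ha, ha', add_mul]
  | single g c =>
    induction b using MonoidAlgebra.induction_linear with
    | zero => rw [mul_zero, au_zero, mul_zero]
    | add b b' hb hb' => rw [mul_add, au_add, au_add, hb, hb', mul_add]
    | single g' c' => rw [MonoidAlgebra.single_mul_single, au_single, au_single, au_single]

lemma au_s2 (a : MonoidAlgebra (ZMod 2) H) : au (s2 a) = au a := by
  induction a using MonoidAlgebra.induction_linear with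
  | zero => rw [map_zero]
  | add a b ha hb => rw [map_add, au_add, au_add, ha, hb]
  | single g c => rw [s2_single, au_single, au_single]

/-- the augmentation of a column -/
lemma ee_au {α : Type} [Fintype α] (w : α → ℤ) (x : α → MonoidAlgebra (ZMod 2) H) :
    ee w x = ∑ a, (w a : ZMod 2) * au (x a) := rfl

/-! ### the actions -/

variable {Y : Type} [AddCommGroup Y] [Module (ZMod 2) Y] (τ : Representation (ZMod 2) H Y)

lemma act_red (x : MonoidAlgebra ℤ H) (y : Y) :
    τ.asAlgebraHom (red H x) y = ∑ g ∈ x.coeff.support, (x.coeff g : ZMod 2) • τ g y := by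
  show _ = x.coeff.sum fun g c => (c : ZMod 2) • τ g y
  induction x using MonoidAlgebra.induction_linear with
  | zero =>
    rw [map_zero, map_zero, MonoidAlgebra.coeff_zero, Finsupp.sum_zero_index]
    rfl
  | add a b ha hb =>
    rw [map_add, map_add, LinearMap.add_apply, ha, hb, MonoidAlgebra.coeff_add, Finsupp.sum_add_index']
    · intro g
      rw [Int.cast_zero, zero_smul]
    · intro g c c'
      rw [Int.cast_add, add_smul]
  | single g c =>
    have h1 : red H (MonoidAlgebra.single g c) = MonoidAlgebra.single g (c : ZMod 2) := by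
      ext k
      rw [red_coeff, MonoidAlgebra.coeff_single, MonoidAlgebra.coeff_single]
      classical
      rw [Finsupp.single_apply, Finsupp.single_apply]
      split_ifs
      · rfl
      · exact Int.cast_zero
    rw [h1, Representation.asAlgebraHom_single, MonoidAlgebra.coeff_single, Finsupp.sum_single_index]
    · rfl
    · rw [Int.cast_zero, zero_smul]

lemma act_s2_red (x : MonoidAlgebra ℤ H) (y : Y) :
    τ.asAlgebraHom (s2 (red H x)) y = ∑ g ∈ x.coeff.support, (x.coeff g : ZMod 2) • τ g⁻¹ y := by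
  show _ = x.coeff.sum fun g c => (c : ZMod 2) • τ g⁻¹ y
  induction x using MonoidAlgebra.induction_linear with
  | zero =>
    rw [map_zero, map_zero, map_zero, MonoidAlgebra.coeff_zero, Finsupp.sum_zero_index]
    rfl
  | add a b ha hb =>
    rw [map_add, map_add, map_add, LinearMap.add_apply, ha, hb, MonoidAlgebra.coeff_add, Finsupp.sum_add_index']
    · intro g
      rw [Int.cast_zero, zero_smul]
    · intro g c c'
      rw [Int.cast_add, add_smul]
  | single g c =>
    have h1 : red H (MonoidAlgebra.single g c) = MonoidAlgebra.single g (c : ZMod 2) := by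
      ext k
      rw [red_coeff, MonoidAlgebra.coeff_single, MonoidAlgebra.coeff_single]
      classical
      rw [Finsupp.single_apply, Finsupp.single_apply]
      split_ifs
      · rfl
      · exact Int.cast_zero
    rw [h1, s2_single, Representation.asAlgebraHom_single, MonoidAlgebra.coeff_single, Finsupp.sum_single_index]
    · rfl
    · rw [Int.cast_zero, zero_smul]

/-- the induced module is the group algebra -/
lemma act_trans (a : MonoidAlgebra (ZMod 2) H) (f : H →₀ ZMod 2) :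
    (trans H (ZMod 2)).asAlgebraHom a f = (a * MonoidAlgebra.ofCoeff f).coeff := by
  induction a using MonoidAlgebra.induction_linear with
  | zero =>
    rw [map_zero, zero_mul]
    rfl
  | add a b ha hb =>
    rw [map_add, LinearMap.add_apply, ha, hb, add_mul, MonoidAlgebra.coeff_add]
  | single g c =>
    rw [Representation.asAlgebraHom_single]
    induction f using Finsupp.induction_linear with
    | zero =>
      rw [map_zero]
      have h1 : (MonoidAlgebra.ofCoeff (0 : H →₀ ZMod 2)) = 0 := rfl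
      rw [h1, mul_zero, MonoidAlgebra.coeff_zero]
    | add f f' h h' =>
      have h1 : MonoidAlgebra.ofCoeff (f + f') = MonoidAlgebra.ofCoeff f + MonoidAlgebra.ofCoeff f' := rfl
      rw [map_add, h, h', h1, mul_add, MonoidAlgebra.coeff_add]
    | single h d =>
      have h1 : MonoidAlgebra.ofCoeff (Finsupp.single h d) = MonoidAlgebra.single h d := rfl
      rw [h1, MonoidAlgebra.single_mul_single, MonoidAlgebra.coeff_single]
      show c • Finsupp.mapDomain (fun k => g * k) (Finsupp.single h d) = _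
      rw [Finsupp.mapDomain_single, Finsupp.smul_single, smul_eq_mul]

end alg

/-! ### the complexes -/

section cpx
variable {H : Type} [Group H] (R : FinRes H)

/-- the coboundary matrices modulo two -/
noncomputable def d2 (i : ℕ) : Matrix (R.ι (i + 1)) (R.ι i) (MonoidAlgebra (ZMod 2) H) := (R.d i).map (red H)

/-- the coboundary matrices modulo two, shifted by one -/
noncomputable def c2 : ∀ i, Matrix (kap R (i + 1)) (kap R i) (MonoidAlgebra (ZMod 2) H)
  | 0 => fun _ j => Empty.elim j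
  | i + 1 => d2 R i

/-- the dual matrices modulo two -/
noncomputable def D2 (j : ℕ) : Matrix (R.ι j) (R.ι (j + 1)) (MonoidAlgebra (ZMod 2) H) :=
  fun l k => s2 (red H (R.d j k l))

lemma c2_c2 (i : ℕ) : c2 R (i + 1) * c2 R i = 0 := by
  cases i with
  | zero =>
    funext k l
    exact Empty.elim l
  | succ i =>
    have h : (R.d (i + 1) * R.d i).map (red H) = d2 R (i + 1) * d2 R i := Matrix.map_mul
    show d2 R (i + 1) * d2 R i = 0
    rw [← h, d_mul_d]
    funext a b
    exact map_zero (red H)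

lemma c2_zero (z : kap R 0 → MonoidAlgebra (ZMod 2) H) : (c2 R 0 *ᵥ z) = (0 : R.ι 0 → MonoidAlgebra (ZMod 2) H) := by
  funext k
  show ∑ j : Empty, (Empty.elim j : MonoidAlgebra (ZMod 2) H) * z j = 0
  rw [Fintype.sum_empty]

lemma D2_D2 (j : ℕ) : D2 R j * D2 R (j + 1) = 0 := by
  funext l m
  show ∑ k, s2 (red H (R.d j k l)) * s2 (red H (R.d (j + 1) m k)) = 0
  have h1 : ∑ k, s2 (red H (R.d j k l)) * s2 (red H (R.d (j + 1) m k)) = s2 (red H ((R.d (j + 1) * R.d j) m l)) := by
    rw [Matrix.mul_apply, map_sum, map_sum]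
    exact Finset.sum_congr rfl fun k _ => by rw [map_mul, s2_mul]
  rw [h1, d_mul_d]
  show s2 (red H 0) = 0
  rw [map_zero, map_zero]

lemma s2s2 {p : Type} (x : p → MonoidAlgebra (ZMod 2) H) : (fun k => s2 (s2 (x k))) = x := funext fun _ => s2_s2 _

lemma dd_s2 (j : ℕ) (x : R.ι (j + 1) → MonoidAlgebra (ZMod 2) H) :
    dd (R.d j) (fun k => s2 (x k)) = fun l => s2 ((D2 R j *ᵥ x) l) := by
  funext l
  show ∑ k, s2 (x k) * red H (R.d j k l) = s2 (∑ k, s2 (red H (R.d j k l)) * x k)
  rw [map_sum]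
  exact Finset.sum_congr rfl fun k _ => by rw [s2_mul, s2_s2]

lemma D2_s2 (j : ℕ) (x : R.ι (j + 1) → MonoidAlgebra (ZMod 2) H) :
    D2 R j *ᵥ (fun k => s2 (x k)) = fun l => s2 (dd (R.d j) x l) := by
  have h1 := dd_s2 R j (fun k => s2 (x k))
  rw [s2s2] at h1
  rw [h1, s2s2]

lemma exD2 (j : ℕ) (x : R.ι (j + 1) → MonoidAlgebra (ZMod 2) H) (hx : D2 R j *ᵥ x = 0) :
    ∃ z, D2 R (j + 1) *ᵥ z = x := by
  obtain ⟨z, hz⟩ := (ex_succ R j fun k => s2 (x k)).1 (by
    rw [dd_s2, hx]
    funext l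
    exact map_zero _)
  exact ⟨fun k => s2 (z k), by rw [D2_s2, hz, s2s2]⟩

lemma exε2 (x : R.ι 0 → MonoidAlgebra (ZMod 2) H) : ee R.w x = 0 ↔ ∃ z, D2 R 0 *ᵥ z = x := by
  have h1 : ee R.w x = ee R.w fun k => s2 (x k) := by
    rw [ee_au, ee_au]
    exact Finset.sum_congr rfl fun a _ => by rw [au_s2]
  rw [h1, ex_zero R]
  constructor
  · rintro ⟨z, hz⟩
    exact ⟨fun k => s2 (z k), by rw [D2_s2, hz, s2s2]⟩
  · rintro ⟨z, rfl⟩
    exact ⟨fun k => s2 (z k), dd_s2 R 0 z⟩

lemma cobd_trans {α β : Type} [Fintype β] (P : Matrix α β (MonoidAlgebra ℤ H)) (f : β → MonoidAlgebra (ZMod 2) H) :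
    cobd (trans H (ZMod 2)) P (fun b => (f b).coeff) = fun a => ((P.map (red H) *ᵥ f) a).coeff := by
  funext a
  show _ = (∑ b, red H (P a b) * f b).coeff
  rw [MonoidAlgebra.coeff_sum]
  exact Finset.sum_congr rfl fun b _ => by rw [← act_red, act_trans]

lemma coeff_fun {β : Type} {f g : β → MonoidAlgebra (ZMod 2) H} (h : (fun b => (f b).coeff) = fun b => (g b).coeff) :
    f = g := funext fun b => MonoidAlgebra.coeff_injective (congrFun h b)

/-- coboundaries -/
lemma isCob_iff (i : ℕ) (y : R.ι i → MonoidAlgebra (ZMod 2) H) :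
    IsCob (trans H (ZMod 2)) R i (fun b => (y b).coeff) ↔ ∃ z : kap R i → MonoidAlgebra (ZMod 2) H, c2 R i *ᵥ z = y := by
  cases i with
  | zero =>
    constructor
    · intro h
      have h1 : (fun b => (y b).coeff) = (0 : R.ι 0 → (H →₀ ZMod 2)) := h
      refine ⟨fun e => Empty.elim e, ?_⟩
      rw [c2_zero]
      exact (coeff_fun (f := y) (g := 0) h1).symm
    · rintro ⟨z, hz⟩
      rw [c2_zero] at hz
      show (fun b => (y b).coeff) = 0
      rw [← hz]
      rfl
  | succ i =>
    constructor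
    · rintro ⟨e, he⟩
      refine ⟨fun b => MonoidAlgebra.ofCoeff (e b), ?_⟩
      exact coeff_fun ((cobd_trans (R.d i) fun b => MonoidAlgebra.ofCoeff (e b)).symm.trans he)
    · rintro ⟨z, rfl⟩
      refine ⟨fun b => (z b).coeff, ?_⟩
      rw [cobd_trans]
      rfl

/-- cocycles -/
lemma cocycle_iff (i : ℕ) (y : R.ι i → MonoidAlgebra (ZMod 2) H) :
    cobd (trans H (ZMod 2)) (R.d i) (fun b => (y b).coeff) = 0 ↔ d2 R i *ᵥ y = 0 := by
  rw [cobd_trans]
  constructor
  · intro h
    exact coeff_fun (f := d2 R i *ᵥ y) (g := 0) h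
  · intro h
    have h1 : ((R.d i).map (red H) *ᵥ y) = 0 := h
    rw [h1]
    rfl

lemma ex_iff (i : ℕ) (h : Ex (trans H (ZMod 2)) R i) (y : R.ι i → MonoidAlgebra (ZMod 2) H)
    (hy : d2 R i *ᵥ y = 0) : ∃ z : kap R i → MonoidAlgebra (ZMod 2) H, c2 R i *ᵥ z = y := by
  rw [← isCob_iff]
  rw [← cocycle_iff] at hy
  cases i with
  | zero => exact h _ hy
  | succ i => exact h _ hy

end cpx

/-! ### the duality theorem -/

section main
variable {H : Type} [Group H] {Y : Type} [AddCommGroup Y] [Module (ZMod 2) Y] (τ : Representation (ZMod 2) H Y)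

theorem pd2_iff {n : ℕ} (R : FinRes H) (hPD : IsPD2 n R) :
    (∀ i, i ≤ n → (Ex τ R i ↔ ExH τ R (n - i))) ∧ (∀ i, n < i → Ex τ R i) ∧ ∀ j, n < j → ExH τ R j := by
  classical
  obtain ⟨⟨N, hN⟩, hvan, η₀, hη₀, t₀, ht₀, ht₁⟩ := hPD
  have hex : ∀ i, i ≠ n → ∀ y : R.ι i → MonoidAlgebra (ZMod 2) H, d2 R i *ᵥ y = 0 →
      ∃ z : kap R i → MonoidAlgebra (ZMod 2) H, c2 R i *ᵥ z = y := fun i hi y hy => ex_iff R i (hvan i hi) y hy
  have hN₀ : ∀ i, N + 2 ≤ i → ∃ u : Matrix (kap R i) (kap R (i + 1)) (MonoidAlgebra (ZMod 2) H),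
      c2 R i * u * c2 R i = c2 R i := by
    intro i hi
    obtain ⟨i, rfl⟩ : ∃ i', i = i' + 1 := ⟨i - 1, by omega⟩
    refine ⟨0, ?_⟩
    funext a b
    exact ((hN i (by omega)).false b).elim
  have hreg := pd_reg (κ := kap R) (n := n) (c2_c2 R) hN₀ fun i hi x hx => hex i (by omega) x hx
  -- the top degree
  obtain ⟨u, hu⟩ : ∃ u : Matrix (R.ι n) (R.ι (n + 1)) (MonoidAlgebra (ZMod 2) H),
      d2 R n * u * d2 R n = d2 R n := hreg (n + 1) (by omega)
  have hce : ∀ y : R.ι n → MonoidAlgebra (ZMod 2) H, d2 R n *ᵥ (y - u *ᵥ (d2 R n *ᵥ y)) = 0 := by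
    intro y
    rw [Matrix.mulVec_sub, Matrix.mulVec_mulVec, Matrix.mulVec_mulVec, hu, sub_self]
  let η₁ : (R.ι n → MonoidAlgebra (ZMod 2) H) →+ ZMod 2 :=
    { toFun := fun y => η₀ fun b => ((y - u *ᵥ (d2 R n *ᵥ y)) b).coeff
      map_zero' := by
        rw [Matrix.mulVec_zero, Matrix.mulVec_zero, sub_zero]
        exact map_zero η₀
      map_add' := fun y y' => by
        rw [← map_add]
        congr 1
        have h1 : (y + y') - u *ᵥ (d2 R n *ᵥ (y + y')) =
            (y - u *ᵥ (d2 R n *ᵥ y)) + (y' - u *ᵥ (d2 R n *ᵥ y')) := by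
          rw [Matrix.mulVec_add, Matrix.mulVec_add]
          abel
        rw [h1]
        rfl }
  have hη₁ : ∀ y, η₁ y = η₀ fun b => ((y - u *ᵥ (d2 R n *ᵥ y)) b).coeff := fun _ => rfl
  have hηZ : ∀ y (hy : d2 R n *ᵥ y = 0), η₁ y = η₀ fun b => (y b).coeff := by
    intro y hy
    rw [hη₁, hy, Matrix.mulVec_zero, sub_zero]
  let t : R.ι n → MonoidAlgebra (ZMod 2) H := fun b => MonoidAlgebra.ofCoeff (t₀ b)
  have ht' : d2 R n *ᵥ t = 0 := (cocycle_iff R n t).1 ht₀
  have hη1 : η₁ t = 1 := (hηZ t ht').trans ht₁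
  have hmr : ∀ {p q : Type} [Fintype q] (M : Matrix p q (MonoidAlgebra (ZMod 2) H)) (y : q → MonoidAlgebra (ZMod 2) H)
      (a : MonoidAlgebra (ZMod 2) H), M *ᵥ (fun l => y l * a) = fun l => (M *ᵥ y) l * a := by
    intro p q _ M y a
    funext i
    show ∑ j, M i j * (y j * a) = (∑ j, M i j * y j) * a
    rw [Finset.sum_mul]
    exact Finset.sum_congr rfl fun j _ => by rw [mul_assoc]
  have hker : ∀ y : R.ι n → MonoidAlgebra (ZMod 2) H, d2 R n *ᵥ y = 0 →
      (η₁ y = 0 ↔ ∃ z : kap R n → MonoidAlgebra (ZMod 2) H, c2 R n *ᵥ z = y) := by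
    intro y hy
    rw [hηZ y hy, ← isCob_iff]
    exact hη₀ _ ((cocycle_iff R n y).2 hy)
  have hηs : ∀ (z : ZMod 2) y, η₁ (z • y) = z * η₁ y := by
    intro z y
    fin_cases z
    · show η₁ ((0 : ZMod 2) • y) = 0 * η₁ y
      rw [zero_smul, map_zero, zero_mul]
    · show η₁ ((1 : ZMod 2) • y) = 1 * η₁ y
      rw [one_smul, one_mul]
  -- the action of the group on the top cohomology is trivial
  have hZg : ∀ (g : H) (y : R.ι n → MonoidAlgebra (ZMod 2) H), d2 R n *ᵥ y = 0 →
      η₁ (fun l => y l * MonoidAlgebra.single g 1) = η₁ y := by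
    have h1 : ∀ (g : H) (y : R.ι n → MonoidAlgebra (ZMod 2) H), d2 R n *ᵥ y = 0 → η₁ y = 0 →
        η₁ (fun l => y l * MonoidAlgebra.single g 1) = 0 := by
      intro g y hy h0
      obtain ⟨z, hz⟩ := (hker y hy).1 h0
      refine (hker _ ?_).2 ⟨fun l => z l * MonoidAlgebra.single g 1, ?_⟩
      · rw [hmr, hy]
        funext l
        exact zero_mul _
      · rw [hmr, hz]
        rfl
    intro g y hy
    by_cases h0 : η₁ y = 0
    · rw [h0, h1 g y hy h0]
    · have h2 : η₁ (fun l => y l * MonoidAlgebra.single g 1) ≠ 0 := by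
        intro h3
        have h4 := h1 g⁻¹ _ (by
          rw [hmr, hy]
          funext l
          exact zero_mul _) h3
        refine h0 ?_
        rw [← h4]
        congr 1
        funext l
        rw [mul_assoc, MonoidAlgebra.single_mul_single, mul_inv_cancel, mul_one]
        exact (mul_one _).symm
      have key : ∀ a b : ZMod 2, a ≠ 0 → b ≠ 0 → a = b := by decide
      exact key _ _ h2 h0
  have hηX : ∀ (y : R.ι n → MonoidAlgebra (ZMod 2) H) a, η₁ (fun l => y l * a) = η₁ y * au a := by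
    intro y a
    have key : ∀ y : R.ι n → MonoidAlgebra (ZMod 2) H, d2 R n *ᵥ y = 0 → η₁ (fun l => y l * a) = η₁ y * au a := by
      intro y hy
      induction a using MonoidAlgebra.induction_linear with
      | zero =>
        have h1 : (fun l => y l * 0) = (0 : R.ι n → MonoidAlgebra (ZMod 2) H) := funext fun l => mul_zero _
        rw [h1, map_zero, au_zero, mul_zero]
      | add a b ha hb =>
        have h1 : (fun l => y l * (a + b)) = (fun l => y l * a) + fun l => y l * b := funext fun l => mul_add _ _ _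
        rw [h1, map_add, ha, hb, au_add, mul_add]
      | single g c =>
        have h1 : (fun l => y l * MonoidAlgebra.single g c) = c • fun l => y l * MonoidAlgebra.single g 1 := by
          funext l
          rw [Pi.smul_apply, ← mul_smul_comm, MonoidAlgebra.smul_single, smul_eq_mul, mul_one]
        rw [h1, hηs, hZg g y hy, au_single, mul_comm]
    have h7 : ∀ y : R.ι n → MonoidAlgebra (ZMod 2) H, η₁ y = η₁ (y - u *ᵥ (d2 R n *ᵥ y)) := by
      intro y
      rw [hηZ _ (hce y), hη₁]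
    rw [h7, h7 y]
    have h8 : (fun l => y l * a) - u *ᵥ (d2 R n *ᵥ fun l => y l * a) =
        fun l => (y - u *ᵥ (d2 R n *ᵥ y)) l * a := by
      rw [hmr, hmr]
      funext l
      simp [sub_mul]
    rw [h8]
    exact key _ (hce y)
  let η : (R.ι n → MonoidAlgebra (ZMod 2) H) →ₗ[ZMod 2] ZMod 2 :=
    { toFun := η₁
      map_add' := map_add η₁
      map_smul' := fun z y => hηs z y }
  obtain ⟨r, hr⟩ := ee_surj R (1 : ZMod 2)
  have hεX : ∀ (y : R.ι 0 → MonoidAlgebra (ZMod 2) H) a, ee R.w (fun l => y l * a) = ee R.w y * au a := by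
    intro y a
    rw [ee_au, ee_au, Finset.sum_mul]
    exact Finset.sum_congr rfl fun i _ => by rw [au_mul, mul_assoc]
  -- the module
  let _ : Module (MonoidAlgebra (ZMod 2) H) Y :=
    Module.compHom Y (τ.asAlgebraHom : MonoidAlgebra (ZMod 2) H →+* Module.End (ZMod 2) Y)
  have hs : ∀ (a : MonoidAlgebra (ZMod 2) H) (y : Y), a • y = τ.asAlgebraHom a y := fun _ _ => rfl
  have hc : ∀ i (y : R.ι i → Y), mact (d2 R i) y = cobd τ (R.d i) y := by
    intro i y
    funext k
    exact Finset.sum_congr rfl fun l _ => by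
      rw [hs]
      exact act_red τ _ _
  have hb : ∀ i (y : R.ι (i + 1) → Y), mact (D2 R i) y = bdry τ (R.d i) y := by
    intro i y
    funext k
    exact Finset.sum_congr rfl fun l _ => by
      rw [hs]
      exact act_s2_red τ _ _
  have hCo : ∀ i, Ex τ R i ↔ ∀ y : R.ι i → Y, mact (d2 R i) y = 0 → ∃ z : kap R i → Y, mact (c2 R i) z = y := by
    intro i
    cases i with
    | zero =>
      constructor
      · intro h y hy
        refine ⟨fun e => Empty.elim e, ?_⟩
        rw [h y (by rw [← hc]; exact hy)]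
        funext k
        show ∑ j : Empty, _ = _
        rw [Fintype.sum_empty]
        rfl
      · intro h y hy
        obtain ⟨z, hz⟩ := h y (by rw [hc]; exact hy)
        rw [← hz]
        funext k
        show ∑ j : Empty, _ = _
        rw [Fintype.sum_empty]
        rfl
    | succ i =>
      constructor
      · intro h y hy
        obtain ⟨e, he⟩ := h y (by rw [← hc]; exact hy)
        exact ⟨e, (hc i e).trans he⟩
      · intro h y hy
        obtain ⟨e, he⟩ := h y (by rw [hc]; exact hy)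
        exact ⟨e, (hc i e).symm.trans he⟩
  obtain ⟨hbase, htop, htop'⟩ := pd_top2 (k₀ := ZMod 2) (κ := kap R) (ι := R.ι) (c := c2 R) (D := D2 R) (n := n) (c2_c2 R) hu
    (ee R.w) hεX hr (exε2 R) η hηX hη1 ht' hker
  have hstep := pd_step (κ := kap R) (ι := R.ι) (c := c2 R) (D := D2 R) (n := n) (c2_c2 R) (D2_D2 R) (exD2 R)
    (fun i hi x hx => hex i (by omega) x hx) hbase
  refine ⟨fun i hi => ?_, fun i hi => ?_, fun i hi => ?_⟩
  · rw [hCo]
    obtain ⟨j, hj⟩ : ∃ j, j = n - i := ⟨_, rfl⟩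
    rw [← hj]
    cases j with
    | zero =>
      have hi' : i = n := by omega
      subst hi'
      constructor
      · intro hC x
        obtain ⟨z, hz⟩ := htop' (N := Y) (fun y hy => hC y hy) x
        exact ⟨z, (hb 0 z).symm.trans hz⟩
      · intro hH y hy
        exact htop (fun x => by
          obtain ⟨z, hz⟩ := hH x
          exact ⟨z, (hb 0 z).trans hz⟩) y hy
    | succ j =>
      have hst := hstep j (i + 1) (by omega)
      constructor
      · intro hC x hx
        obtain ⟨z, hz⟩ := pd_low_rev (κ := kap R) (ι := R.ι) (c := c2 R) (D := D2 R) (c2_c2 R) (exD2 R j) hst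
          (fun y hy => hC y hy) x (by rw [hb]; exact hx)
        exact ⟨z, (hb (j + 1) z).symm.trans hz⟩
      · intro hH y hy
        exact pd_low (κ := kap R) (ι := R.ι) (c := c2 R) (D := D2 R) (D2_D2 R) (fun x hx => hex i (by omega) x hx) hst
          (fun x hx => by
            rw [hb] at hx
            obtain ⟨z, hz⟩ := hH x hx
            exact ⟨z, (hb (j + 1) z).trans hz⟩) y hy
  · rw [hCo]
    obtain ⟨u, hu⟩ := hreg (i + 1) (by omega)
    intro y hy
    exact pd_high (κ := kap R) (c := c2 R) hu (fun x hx => hex i (by omega) x hx) y hy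
  · -- above the top
    obtain ⟨f, g, -, -, -, k, -, -, -, hk⟩ := hstep n 0 (by omega)
    have hfg : f * g = 0 := by
      funext a b
      show ∑ e : Empty, f a e * g e b = 0
      rw [Fintype.sum_empty]
    rw [hfg, sub_zero] at hk
    obtain ⟨m, rfl⟩ : ∃ m, i = n + m + 1 := ⟨i - n - 1, by omega⟩
    intro x hx
    obtain ⟨z, hz⟩ := pd_high_rev (ι := R.ι) (D := D2 R) (exD2 R (n + m))
      (pd_split (ι := R.ι) (D := D2 R) (D2_D2 R) (exD2 R) ⟨k, hk⟩ m) x (by rw [hb]; exact hx)
    exact ⟨z, (hb _ z).symm.trans hz⟩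

end main

/-- Poincare duality modulo two -/
theorem pd2 : StmtPD2 := fun _ _ _ R h _ _ _ τ =>
  ⟨fun i hi => ((pd2_iff τ R h).1 i hi).2, (pd2_iff τ R h).2.1⟩

end SQ.PD2
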