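import Pool.Agent.SQ.PdCore
import Pool.Agent.Singer.Davis
import Pool.Agent.Singer.FinStmt
import Pool.Agent.Singer.PDStmt

/-!
# SQ, row PDM: comparison of resolutions, over any ring, in terms of linear maps
-/

set_option autoImplicit false

open scoped Matrix

namespace SQ

open Singer

lemma exists_seq' {X : ℕ → Type*} (good : ∀ i, X i → Prop) (rel : ∀ i, X i → X (i + 1) → Prop) (x0 : X 0)
    (h0 : good 0 x0) (hs : ∀ i x, good i x → ∃ y, good (i + 1) y ∧ rel i x y) :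
    ∃ x : ∀ i, X i, x 0 = x0 ∧ (∀ i, good i (x i)) ∧ ∀ i, rel i (x i) (x (i + 1)) := by
  classical
  let F : ∀ i, {x : X i // good i x} := fun i => Nat.rec ⟨x0, h0⟩
    (fun i x => ⟨(hs i x.1 x.2).choose, (hs i x.1 x.2).choose_spec.1⟩) i
  exact ⟨fun i => (F i).1, rfl, fun i => (F i).2, fun i => (hs i (F i).1 (F i).2).choose_spec.2⟩

section lin
variable {A : Type*} [Ring A]

/-- lifting of maps from a projective module -/
lemma exists_lift {P Y Z : Type*} [AddCommGroup P] [AddCommGroup Y] [AddCommGroup Z] [Module A P] [Module A Y]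
    [Module A Z] [Module.Projective A P] (q : P →ₗ[A] Z) (d : Y →ₗ[A] Z) (h : ∀ x, ∃ y, d y = q x) :
    ∃ f : P →ₗ[A] Y, ∀ x, d (f x) = q x := by
  obtain ⟨f, hf⟩ := Module.projective_lifting_property d.rangeRestrict
    (q.codRestrict (LinearMap.range d) fun x => (h x)) d.surjective_rangeRestrict
  refine ⟨f, fun x => ?_⟩
  have := congrArg Subtype.val (LinearMap.congr_fun hf x)
  exact this

variable {X Y : ℕ → Type*} [∀ i, AddCommGroup (X i)] [∀ i, AddCommGroup (Y i)] [∀ i, Module A (X i)]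
  [∀ i, Module A (Y i)] {E : Type*} [AddCommGroup E] [Module A E]
  (dX : ∀ i, X (i + 1) →ₗ[A] X i) (dY : ∀ i, Y (i + 1) →ₗ[A] Y i) (εX : X 0 →ₗ[A] E) (εY : Y 0 →ₗ[A] E)

/-- existence of chain maps -/
theorem exists_chain [∀ i, Module.Projective A (X i)] (hX : ∀ i x, dX i (dX (i + 1) x) = 0)
    (hX0 : ∀ x, εX (dX 0 x) = 0) (exY : ∀ i y, dY i y = 0 → ∃ z, dY (i + 1) z = y)
    (exY0 : ∀ y, εY y = 0 → ∃ z, dY 0 z = y) (surj : ∀ x, ∃ y, εY y = εX x) :
    ∃ f : ∀ i, X i →ₗ[A] Y i, (∀ x, εY (f 0 x) = εX x) ∧ ∀ i x, dY i (f (i + 1) x) = f i (dX i x) := by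
  obtain ⟨f0, hf0⟩ := exists_lift εX εY surj
  obtain ⟨f, h1, h2, h3⟩ := exists_seq' (X := fun i => X i →ₗ[A] Y i)
    (fun i f => ∀ x : X (i + 1), ∃ y : Y (i + 1), dY i y = f (dX i x))
    (fun i f f' => ∀ x, dY i (f' x) = f (dX i x)) f0 (fun x => exY0 _ (by rw [hf0, hX0])) (by
      intro i f hf
      obtain ⟨f', hf'⟩ := exists_lift (f.comp (dX i)) (dY i) hf
      refine ⟨f', fun x => exY i _ ?_, hf'⟩
      rw [hf', LinearMap.comp_apply, hX, map_zero])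
  exact ⟨f, fun x => by rw [h1, hf0], h3⟩

/-- existence of homotopies -/
theorem exists_htpy [∀ i, Module.Projective A (X i)] (hX : ∀ i x, dX i (dX (i + 1) x) = 0)
    (exY : ∀ i y, dY i y = 0 → ∃ z, dY (i + 1) z = y)
    (exY0 : ∀ y, εY y = 0 → ∃ z, dY 0 z = y) (f : ∀ i, X i →ₗ[A] Y i) (hf0 : ∀ x, εY (f 0 x) = 0)
    (hf : ∀ i x, dY i (f (i + 1) x) = f i (dX i x)) :
    ∃ h : ∀ i, X i →ₗ[A] Y (i + 1), (∀ x, dY 0 (h 0 x) = f 0 x) ∧
      ∀ i x, dY (i + 1) (h (i + 1) x) + h i (dX i x) = f (i + 1) x := by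
  obtain ⟨h0, hh0⟩ := exists_lift (f 0) (dY 0) fun x => exY0 _ (hf0 x)
  obtain ⟨h, h1, h2, h3⟩ := exists_seq' (X := fun i => X i →ₗ[A] Y (i + 1))
    (fun i h => ∀ x : X (i + 1), dY i (h (dX i x)) = f i (dX i x))
    (fun i h h' => ∀ x, dY (i + 1) (h' x) + h (dX i x) = f (i + 1) x) h0 (fun x => hh0 _) (by
      intro i h hh
      obtain ⟨h', hh'⟩ := exists_lift (f (i + 1) - h.comp (dX i)) (dY (i + 1)) (fun x => exY i _ (by
        rw [LinearMap.sub_apply, map_sub, hf, LinearMap.comp_apply, hh, sub_self]))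
      refine ⟨h', fun x => ?_, fun x => ?_⟩
      · rw [hh', LinearMap.sub_apply, LinearMap.comp_apply, hX, map_zero, sub_zero]
      · rw [hh', LinearMap.sub_apply, LinearMap.comp_apply, sub_add_cancel])
  exact ⟨h, fun x => by rw [h1, hh0], h3⟩

end lin

/-! ### the trivial module -/

/-- the integers as a trivial module -/
@[nolint unusedArguments]
def Tr (_ : Type*) : Type := ℤ

section triv
variable (Γ : Type*) [Group Γ]

/-- the augmentation of the group ring -/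
noncomputable def aug : MonoidAlgebra ℤ Γ →+* ℤ := (MonoidAlgebra.lift ℤ ℤ Γ (1 : Γ →* ℤ)).toRingHom

lemma aug_single (g : Γ) (c : ℤ) : aug Γ (MonoidAlgebra.single g c) = c := by
  show MonoidAlgebra.lift ℤ ℤ Γ (1 : Γ →* ℤ) (MonoidAlgebra.single g c) = c
  rw [MonoidAlgebra.lift_single]
  simp

lemma aug_eq (a : MonoidAlgebra ℤ Γ) : aug Γ a = ∑ g ∈ a.coeff.support, a.coeff g := by
  show MonoidAlgebra.lift ℤ ℤ Γ (1 : Γ →* ℤ) a = _
  rw [MonoidAlgebra.lift_apply]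
  show ∑ g ∈ a.coeff.support, a.coeff g • (1 : ℤ) = _
  simp

noncomputable instance : AddCommGroup (Tr Γ) := inferInstanceAs (AddCommGroup ℤ)

noncomputable instance : Module (MonoidAlgebra ℤ Γ) (Tr Γ) := Module.compHom ℤ (aug Γ)

variable {Γ}

variable (R : FinRes Γ)

/-- the boundary maps of the resolution as linear maps -/
noncomputable def bdR (i : ℕ) : (R.ι (i + 1) → MonoidAlgebra ℤ Γ) →ₗ[MonoidAlgebra ℤ Γ] (R.ι i → MonoidAlgebra ℤ Γ) :=
  Matrix.vecMulLinear (R.d i)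

lemma bdR_apply (i : ℕ) (x : R.ι (i + 1) → MonoidAlgebra ℤ Γ) : bdR R i x = x ᵥ* R.d i := rfl

/-- the augmentation of the resolution as a linear map -/
noncomputable def epR : (R.ι 0 → MonoidAlgebra ℤ Γ) →ₗ[MonoidAlgebra ℤ Γ] Tr Γ where
  toFun x := (augw R.w x : ℤ)
  map_add' x y := by
    show augw R.w (x + y) = augw R.w x + augw R.w y
    unfold augw
    simp only [← aug_eq, Pi.add_apply, map_add, mul_add, Finset.sum_add_distrib]
  map_smul' a x := by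
    show augw R.w (a • x) = aug Γ a * augw R.w x
    unfold augw
    simp only [← aug_eq, Pi.smul_apply, smul_eq_mul, map_mul, Finset.mul_sum]
    exact Finset.sum_congr rfl fun i _ => by ring

lemma epR_apply (x : R.ι 0 → MonoidAlgebra ℤ Γ) : epR R x = (augw R.w x : ℤ) := rfl

lemma bdR_bdR (i : ℕ) (x : R.ι (i + 2) → MonoidAlgebra ℤ Γ) : bdR R i (bdR R (i + 1) x) = 0 :=
  (R.exact_succ i _).2 ⟨x, rfl⟩

lemma epR_bdR (x : R.ι 1 → MonoidAlgebra ℤ Γ) : epR R (bdR R 0 x) = 0 := (R.exact_zero _).2 ⟨x, rfl⟩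

lemma bdR_ex (i : ℕ) (x : R.ι (i + 1) → MonoidAlgebra ℤ Γ) (h : bdR R i x = 0) : ∃ z, bdR R (i + 1) z = x :=
  (R.exact_succ i _).1 h

lemma epR_ex (x : R.ι 0 → MonoidAlgebra ℤ Γ) (h : epR R x = 0) : ∃ z, bdR R 0 z = x := (R.exact_zero _).1 h

lemma epR_surj (z : Tr Γ) : ∃ x, epR R x = z := by
  obtain ⟨x, hx⟩ := R.surj
  refine ⟨(show ℤ from z) • x, ?_⟩
  rw [map_zsmul]
  show (show ℤ from z) * augw R.w x = z
  rw [hx, mul_one]

end triv

section pr
variable {Γ : Type} [Group Γ] (P : ProjRes Γ)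

/-- the augmentation of a projective resolution -/
noncomputable def epP : P.P 0 →ₗ[ZG Γ] Tr Γ := linOf (P.aug : P.P 0 →+ Tr Γ) (by
  intro g x
  show P.aug (MonoidAlgebra.single g (1 : ℤ) • x) = aug Γ (MonoidAlgebra.single g 1) * P.aug x
  rw [P.aug_smul, aug_single, one_mul])

lemma epP_apply (x : P.P 0) : epP P x = (P.aug x : ℤ) := rfl

lemma epP_ex (x : P.P 0) (h : epP P x = 0) : ∃ z, P.d 0 z = x := (P.exact_zero x).1 h

lemma dP_dP (i : ℕ) (x : P.P (i + 2)) : P.d i (P.d (i + 1) x) = 0 := (P.exact_succ i _).2 ⟨x, rfl⟩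

lemma epP_dP (x : P.P 1) : epP P (P.d 0 x) = 0 := (P.exact_zero _).2 ⟨x, rfl⟩

lemma epP_surj (z : Tr Γ) : ∃ x, epP P x = z := P.aug_surj z

/-- the comparison of the two resolutions -/
theorem exists_compare (R : FinRes Γ) : ∃ (α : ∀ i, (R.ι i → ZG Γ) →ₗ[ZG Γ] P.P i)
    (β : ∀ i, P.P i →ₗ[ZG Γ] (R.ι i → ZG Γ)) (h : ∀ i, (R.ι i → ZG Γ) →ₗ[ZG Γ] (R.ι (i + 1) → ZG Γ))
    (k : ∀ i, P.P i →ₗ[ZG Γ] P.P (i + 1)),
    (∀ i x, P.d i (α (i + 1) x) = α i (bdR R i x)) ∧ (∀ i x, bdR R i (β (i + 1) x) = β i (P.d i x)) ∧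
    (∀ x, x = β 0 (α 0 x) + bdR R 0 (h 0 x)) ∧
    (∀ i x, x = β (i + 1) (α (i + 1) x) + bdR R (i + 1) (h (i + 1) x) + h i (bdR R i x)) ∧
    (∀ x, x = α 0 (β 0 x) + P.d 0 (k 0 x)) ∧
    (∀ i x, x = α (i + 1) (β (i + 1) x) + P.d (i + 1) (k (i + 1) x) + k i (P.d i x)) := by
  have := P.proj
  obtain ⟨α, hα0, hα⟩ := exists_chain (X := fun i => R.ι i → ZG Γ) (Y := P.P) (bdR R) P.d (epR R) (epP P) (bdR_bdR R) (epR_bdR R)
    (fun i x => (P.exact_succ i x).1) (epP_ex P) fun x => epP_surj P _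
  obtain ⟨β, hβ0, hβ⟩ := exists_chain (X := P.P) (Y := fun i => R.ι i → ZG Γ) P.d (bdR R) (epP P) (epR R) (dP_dP P) (epP_dP P)
    (bdR_ex R) (epR_ex R) fun x => epR_surj R _
  obtain ⟨h, hh0, hh⟩ := exists_htpy (X := fun i => R.ι i → ZG Γ) (Y := fun i => R.ι i → ZG Γ) (bdR R) (bdR R) (epR R) (bdR_bdR R) (bdR_ex R) (epR_ex R)
    (fun i => LinearMap.id - (β i).comp (α i)) (fun x => by
      show epR R (x - β 0 (α 0 x)) = 0
      rw [map_sub, hβ0, hα0, sub_self]) (fun i x => by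
      show bdR R i (x - β (i + 1) (α (i + 1) x)) = bdR R i x - β i (α i (bdR R i x))
      rw [map_sub, hβ, hα])
  obtain ⟨k, hk0, hk⟩ := exists_htpy (X := P.P) (Y := P.P) P.d P.d (epP P) (dP_dP P) (fun i x => (P.exact_succ i x).1) (epP_ex P)
    (fun i => LinearMap.id - (α i).comp (β i)) (fun x => by
      show epP P (x - α 0 (β 0 x)) = 0
      rw [map_sub, hα0, hβ0, sub_self]) (fun i x => by
      show P.d i (x - α (i + 1) (β (i + 1) x)) = P.d i x - α i (β i (P.d i x))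
      rw [map_sub, hα, hβ])
  refine ⟨α, β, h, k, hα, hβ, ?_, ?_, ?_, ?_⟩
  · intro x
    rw [hh0]
    show x = β 0 (α 0 x) + (x - β 0 (α 0 x))
    abel
  · intro i x
    rw [add_assoc, hh]
    show x = β (i + 1) (α (i + 1) x) + (x - β (i + 1) (α (i + 1) x))
    abel
  · intro x
    rw [hk0]
    show x = α 0 (β 0 x) + (x - α 0 (β 0 x))
    abel
  · intro i x
    rw [add_assoc, hk]
    show x = α (i + 1) (β (i + 1) x) + (x - α (i + 1) (β (i + 1) x))
    abel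

end pr

end SQ
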