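import Mathlib

/-!
# SQ, row PDM: the matrix form of Poincare duality

`mact M y` : the action of a matrix over a ring `A` on columns with entries in an `A`-module.
`SQ.pd_core` : a cochain complex of columns, exact except in degree `n`, with cohomology `ℤ` there, compared with a
resolution; vanishing of the homology with coefficients implies vanishing of the cohomology.
-/

set_option autoImplicit false

open scoped Matrix

namespace SQ

section mact
variable {A N : Type*} [Ring A] [AddCommGroup N] [Module A N] {l m n p : Type*}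

/-- the action of a matrix on columns with entries in a module -/
def mact [Fintype n] (M : Matrix m n A) (y : n → N) : m → N := fun i => ∑ j, M i j • y j

lemma mact_apply [Fintype n] (M : Matrix m n A) (y : n → N) (i : m) : mact M y i = ∑ j, M i j • y j := rfl

lemma mact_mul [Fintype n] [Fintype p] (M : Matrix m n A) (M' : Matrix n p A) (y : p → N) :
    mact (M * M') y = mact M (mact M' y) := by
  funext i
  simp only [mact_apply, Matrix.mul_apply, Finset.sum_smul, Finset.smul_sum, mul_smul]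
  rw [Finset.sum_comm]

lemma mact_one [Fintype n] [DecidableEq n] (y : n → N) : mact (1 : Matrix n n A) y = y := by
  funext i
  rw [mact_apply, Finset.sum_eq_single_of_mem i (Finset.mem_univ i)]
  · rw [Matrix.one_apply_eq, one_smul]
  · intro j _ hj
    rw [Matrix.one_apply_ne hj.symm, zero_smul]

lemma mact_add [Fintype n] (M M' : Matrix m n A) (y : n → N) : mact (M + M') y = mact M y + mact M' y := by
  funext i
  simp only [mact_apply, Matrix.add_apply, Pi.add_apply, add_smul, Finset.sum_add_distrib]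

lemma mact_sub [Fintype n] (M M' : Matrix m n A) (y : n → N) : mact (M - M') y = mact M y - mact M' y := by
  funext i
  simp only [mact_apply, Matrix.sub_apply, Pi.sub_apply, sub_smul, Finset.sum_sub_distrib]

lemma mact_zero [Fintype n] (y : n → N) : mact (0 : Matrix m n A) y = 0 := by
  funext i
  simp [mact_apply]

lemma mact_vadd [Fintype n] (M : Matrix m n A) (y z : n → N) : mact M (y + z) = mact M y + mact M z := by
  funext i
  simp only [mact_apply, Pi.add_apply, smul_add, Finset.sum_add_distrib]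

lemma mact_vsub [Fintype n] (M : Matrix m n A) (y z : n → N) : mact M (y - z) = mact M y - mact M z := by
  funext i
  simp only [mact_apply, Pi.sub_apply, smul_sub, Finset.sum_sub_distrib]

lemma mact_vzero [Fintype n] (M : Matrix m n A) : mact M (0 : n → N) = 0 := by
  funext i
  simp [mact_apply]

/-- lifting of matrices, column by column -/
lemma exists_mul_of_col [Fintype n] {c : Matrix m n A} {Q : Matrix m p A}
    (h : ∀ k, ∃ z : n → A, c *ᵥ z = fun i => Q i k) : ∃ M : Matrix n p A, c * M = Q := by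
  choose z hz using h
  refine ⟨fun i k => z k i, ?_⟩
  funext i k
  have := congrFun (hz k) i
  rw [← this]
  rfl

lemma col_of_mul_eq_zero [Fintype m] {M : Matrix l m A} {Q : Matrix m p A} (h : M * Q = 0) (k : p) :
    M *ᵥ (fun i => Q i k) = 0 := by
  funext i
  exact congrFun (congrFun h i) k

end mact

section core
variable {A : Type*} [Ring A] {κ ι : ℕ → Type} [∀ i, Fintype (κ i)] [∀ i, Fintype (ι i)]
  [∀ i, DecidableEq (κ i)] [∀ i, DecidableEq (ι i)]
  {c : ∀ i, Matrix (κ (i + 1)) (κ i) A} {D : ∀ j, Matrix (ι j) (ι (j + 1)) A} {n : ℕ}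

/-- the inductive construction of the comparison maps -/
theorem pd_step (cc : ∀ i, c (i + 1) * c i = 0) (DD : ∀ j, D j * D (j + 1) = 0)
    (exD : ∀ j (x : ι (j + 1) → A), D j *ᵥ x = 0 → ∃ z, D (j + 1) *ᵥ z = x)
    (exc : ∀ i < n, ∀ x : κ (i + 1) → A, c (i + 1) *ᵥ x = 0 → ∃ z, c i *ᵥ z = x)
    (base : ∃ (f : Matrix (ι 1) (κ n) A) (g : Matrix (κ n) (ι 1) A) (h : Matrix (κ n) (κ (n + 1)) A)
      (f' : Matrix (ι 0) (κ (n + 1)) A) (g' : Matrix (κ (n + 1)) (ι 0) A) (k : Matrix (ι 1) (ι 0) A),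
      D 0 * f = f' * c n ∧ c n * g = g' * D 0 ∧ c n * (1 - g * f - h * c n) = 0 ∧ D 0 * (1 - f * g - k * D 0) = 0)
    (j : ℕ) :
    ∀ i, i + j = n → ∃ (f : Matrix (ι (j + 1)) (κ i) A) (g : Matrix (κ i) (ι (j + 1)) A)
      (h : Matrix (κ i) (κ (i + 1)) A) (f' : Matrix (ι j) (κ (i + 1)) A) (g' : Matrix (κ (i + 1)) (ι j) A)
      (k : Matrix (ι (j + 1)) (ι j) A),
      D j * f = f' * c i ∧ c i * g = g' * D j ∧ c i * (1 - g * f - h * c i) = 0 ∧
        D j * (1 - f * g - k * D j) = 0 := by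
  induction j with
  | zero =>
    intro i hi
    have hi' : i = n := hi
    subst hi'
    exact base
  | succ j ih =>
    intro i hi
    obtain ⟨f, g, h, f', g', k, h1, h2, h3, h4⟩ := ih (i + 1) (by omega)
    -- the next maps
    obtain ⟨F, hF⟩ : ∃ F : Matrix (ι (j + 2)) (κ i) A, D (j + 1) * F = f * c i := by
      refine exists_mul_of_col fun k => exD j _ (col_of_mul_eq_zero (M := D j) (Q := f * c i) ?_ k)
      rw [← Matrix.mul_assoc, h1, Matrix.mul_assoc, cc, Matrix.mul_zero]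
    obtain ⟨G, hG⟩ : ∃ G : Matrix (κ i) (ι (j + 2)) A, c i * G = g * D (j + 1) := by
      refine exists_mul_of_col fun k => exc i (by omega) _ (col_of_mul_eq_zero (M := c (i + 1)) (Q := g * D (j + 1)) ?_ k)
      rw [← Matrix.mul_assoc, h2, Matrix.mul_assoc, DD, Matrix.mul_zero]
    obtain ⟨S, hS⟩ : ∃ S : Matrix (κ i) (κ (i + 1)) A, c i * S = 1 - g * f - h * c (i + 1) := by
      exact exists_mul_of_col fun k => exc i (by omega) _ (col_of_mul_eq_zero (M := c (i + 1)) h3 k)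
    obtain ⟨K, hK⟩ : ∃ K : Matrix (ι (j + 2)) (ι (j + 1)) A, D (j + 1) * K = 1 - f * g - k * D j := by
      exact exists_mul_of_col fun l => exD j _ (col_of_mul_eq_zero (M := D j) h4 l)
    refine ⟨F, G, S, f, g, K, hF, hG, ?_, ?_⟩
    · rw [Matrix.mul_sub, Matrix.mul_sub, Matrix.mul_one, ← Matrix.mul_assoc, hG, Matrix.mul_assoc, hF, ← Matrix.mul_assoc,
        ← Matrix.mul_assoc, hS, Matrix.sub_mul, Matrix.sub_mul, Matrix.one_mul, Matrix.mul_assoc h, cc, Matrix.mul_zero,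
        sub_zero, Matrix.mul_assoc g]
      abel
    · rw [Matrix.mul_sub, Matrix.mul_sub, Matrix.mul_one, ← Matrix.mul_assoc, hF, Matrix.mul_assoc, hG, ← Matrix.mul_assoc,
        ← Matrix.mul_assoc, hK, Matrix.sub_mul, Matrix.sub_mul, Matrix.one_mul, Matrix.mul_assoc k, DD, Matrix.mul_zero,
        sub_zero, Matrix.mul_assoc f]
      abel

/-- the vanishing statement in degrees below the top -/
theorem pd_low (DD : ∀ j, D j * D (j + 1) = 0) {N : Type*} [AddCommGroup N] [Module A N] {i j : ℕ}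
    (exc : ∀ x : κ (i + 1) → A, c (i + 1) *ᵥ x = 0 → ∃ z, c i *ᵥ z = x)
    (base : ∃ (f : Matrix (ι (j + 1)) (κ (i + 1)) A) (g : Matrix (κ (i + 1)) (ι (j + 1)) A)
      (h : Matrix (κ (i + 1)) (κ (i + 2)) A)
      (f' : Matrix (ι j) (κ (i + 2)) A) (g' : Matrix (κ (i + 2)) (ι j) A) (k : Matrix (ι (j + 1)) (ι j) A),
      D j * f = f' * c (i + 1) ∧ c (i + 1) * g = g' * D j ∧ c (i + 1) * (1 - g * f - h * c (i + 1)) = 0 ∧
        D j * (1 - f * g - k * D j) = 0)
    (hN : ∀ x : ι (j + 1) → N, mact (D j) x = 0 → ∃ z, mact (D (j + 1)) z = x)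
    (y : κ (i + 1) → N) (hy : mact (c (i + 1)) y = 0) : ∃ z, mact (c i) z = y := by
  obtain ⟨f, g, h, f', g', -, h1, h2, h3, -⟩ := base
  obtain ⟨z, hz⟩ := hN (mact f y) (by rw [← mact_mul, h1, mact_mul, hy, mact_vzero])
  obtain ⟨G, hG⟩ : ∃ G : Matrix (κ i) (ι (j + 2)) A, c i * G = g * D (j + 1) := by
    refine exists_mul_of_col fun k => exc _ (col_of_mul_eq_zero (M := c (i + 1)) (Q := g * D (j + 1)) ?_ k)
    rw [← Matrix.mul_assoc, h2, Matrix.mul_assoc, DD, Matrix.mul_zero]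
  obtain ⟨S, hS⟩ : ∃ S : Matrix (κ i) (κ (i + 1)) A, c i * S = 1 - g * f - h * c (i + 1) :=
    exists_mul_of_col fun k => exc _ (col_of_mul_eq_zero (M := c (i + 1)) h3 k)
  refine ⟨mact G z + mact S y, ?_⟩
  rw [mact_vadd, ← mact_mul, ← mact_mul, hG, hS, mact_sub, mact_sub, mact_one, mact_mul, mact_mul, mact_mul, hz, hy,
    mact_vzero, sub_zero, add_sub_cancel]

/-- the reverse direction below the top -/
theorem pd_low_rev (cc : ∀ i, c (i + 1) * c i = 0) {N : Type*} [AddCommGroup N] [Module A N] {i j : ℕ}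
    (exD : ∀ x : ι (j + 1) → A, D j *ᵥ x = 0 → ∃ z, D (j + 1) *ᵥ z = x)
    (base : ∃ (f : Matrix (ι (j + 1)) (κ (i + 1)) A) (g : Matrix (κ (i + 1)) (ι (j + 1)) A)
      (h : Matrix (κ (i + 1)) (κ (i + 2)) A)
      (f' : Matrix (ι j) (κ (i + 2)) A) (g' : Matrix (κ (i + 2)) (ι j) A) (k : Matrix (ι (j + 1)) (ι j) A),
      D j * f = f' * c (i + 1) ∧ c (i + 1) * g = g' * D j ∧ c (i + 1) * (1 - g * f - h * c (i + 1)) = 0 ∧
        D j * (1 - f * g - k * D j) = 0)
    (hN : ∀ y : κ (i + 1) → N, mact (c (i + 1)) y = 0 → ∃ z, mact (c i) z = y)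
    (x : ι (j + 1) → N) (hx : mact (D j) x = 0) : ∃ z, mact (D (j + 1)) z = x := by
  obtain ⟨f, g, h, f', g', k, h1, h2, -, h4⟩ := base
  obtain ⟨z, hz⟩ := hN (mact g x) (by rw [← mact_mul, h2, mact_mul, hx, mact_vzero])
  obtain ⟨F, hF⟩ : ∃ F : Matrix (ι (j + 2)) (κ i) A, D (j + 1) * F = f * c i := by
    refine exists_mul_of_col fun k => exD _ (col_of_mul_eq_zero (M := D j) (Q := f * c i) ?_ k)
    rw [← Matrix.mul_assoc, h1, Matrix.mul_assoc, cc, Matrix.mul_zero]
  obtain ⟨K, hK⟩ : ∃ K : Matrix (ι (j + 2)) (ι (j + 1)) A, D (j + 1) * K = 1 - f * g - k * D j :=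
    exists_mul_of_col fun l => exD _ (col_of_mul_eq_zero (M := D j) h4 l)
  refine ⟨mact F z + mact K x, ?_⟩
  rw [mact_vadd, ← mact_mul, ← mact_mul, hF, hK, mact_sub, mact_sub, mact_one, mact_mul, mact_mul, mact_mul, hz, hx,
    mact_vzero, sub_zero, add_sub_cancel]

/-- above the top the resolution splits -/
theorem pd_split (DD : ∀ j, D j * D (j + 1) = 0)
    (exD : ∀ j (x : ι (j + 1) → A), D j *ᵥ x = 0 → ∃ z, D (j + 1) *ᵥ z = x)
    (h0 : ∃ k : Matrix (ι (n + 1)) (ι n) A, D n * (1 - k * D n) = 0) (m : ℕ) :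
    ∃ k : Matrix (ι (n + m + 1)) (ι (n + m)) A, D (n + m) * (1 - k * D (n + m)) = 0 := by
  induction m with
  | zero => exact h0
  | succ m ih =>
    obtain ⟨k, hk⟩ := ih
    obtain ⟨K, hK⟩ : ∃ K : Matrix (ι (n + m + 2)) (ι (n + m + 1)) A, D (n + m + 1) * K = 1 - k * D (n + m) :=
      exists_mul_of_col fun l => exD _ _ (col_of_mul_eq_zero (M := D (n + m)) hk l)
    refine ⟨K, ?_⟩
    show D (n + m + 1) * (1 - K * D (n + m + 1)) = 0
    rw [Matrix.mul_sub, Matrix.mul_one, ← Matrix.mul_assoc, hK, Matrix.sub_mul, Matrix.one_mul, Matrix.mul_assoc, DD,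
      Matrix.mul_zero, sub_zero, sub_self]

theorem pd_high_rev {N : Type*} [AddCommGroup N] [Module A N] {j : ℕ}
    (exD : ∀ x : ι (j + 1) → A, D j *ᵥ x = 0 → ∃ z, D (j + 1) *ᵥ z = x)
    (h0 : ∃ k : Matrix (ι (j + 1)) (ι j) A, D j * (1 - k * D j) = 0)
    (x : ι (j + 1) → N) (hx : mact (D j) x = 0) : ∃ z, mact (D (j + 1)) z = x := by
  obtain ⟨k, hk⟩ := h0
  obtain ⟨K, hK⟩ : ∃ K : Matrix (ι (j + 2)) (ι (j + 1)) A, D (j + 1) * K = 1 - k * D j :=
    exists_mul_of_col fun l => exD _ (col_of_mul_eq_zero (M := D j) hk l)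
  refine ⟨mact K x, ?_⟩
  rw [← mact_mul, hK, mact_sub, mact_one, mact_mul, hx, mact_vzero, sub_zero]

end core

section base
variable {A : Type*} [Ring A] {κ ι : ℕ → Type} [∀ i, Fintype (κ i)] [∀ i, Fintype (ι i)]
  [∀ i, DecidableEq (κ i)] [∀ i, DecidableEq (ι i)]
  {c : ∀ i, Matrix (κ (i + 1)) (κ i) A} {D : ∀ j, Matrix (ι j) (ι (j + 1)) A} {n : ℕ}

/-- right multiplication by a scalar, on columns: an additive functional which is multiplicative on the right is
determined by its values on the basis -/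
lemma fun_mulVec {m k : Type*} [Fintype m] [Fintype k] [DecidableEq k] {X : A → ℤ} (φ : (m → A) →+ ℤ)
    (hφ : ∀ y a, φ (fun l => y l * a) = φ y * X a) (ψ : (k → A) →+ ℤ) (hψ : ∀ y a, ψ (fun l => y l * a) = ψ y * X a)
    {t : m → A} (ht : φ t = 1) {M : Matrix m k A} (hM : ∀ i j, M i j = t i * (ψ (Pi.single j 1) : A)) (y : k → A) :
    φ (M *ᵥ y) = ψ y := by
  have h1 : M *ᵥ y = ∑ j, fun i => t i * ((ψ (Pi.single j 1) : A) * y j) := by
    funext i
    rw [Finset.sum_apply]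
    show ∑ j, M i j * y j = _
    exact Finset.sum_congr rfl fun j _ => by rw [hM, mul_assoc]
  have h2 : y = ∑ j, fun l => (Pi.single j 1 : k → A) l * y j := by
    funext l
    rw [Finset.sum_apply, Finset.sum_eq_single_of_mem l (Finset.mem_univ l)]
    · rw [Pi.single_eq_same, one_mul]
    · intro j _ hj
      rw [Pi.single_eq_of_ne hj.symm, zero_mul]
  have h3 : ∀ (z : ℤ) (a : A), φ (fun i => t i * ((z : A) * a)) = z * X a := by
    intro z a
    have : (fun i => t i * ((z : A) * a)) = z • fun i => t i * a := by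
      funext i
      rw [Pi.smul_apply, ← mul_assoc, (Int.cast_commute z (t i)).eq.symm, mul_assoc, zsmul_eq_mul]
    rw [this, map_zsmul, hφ, ht, one_mul, smul_eq_mul]
  rw [h1, map_sum]
  conv_rhs => rw [h2]
  rw [map_sum]
  exact Finset.sum_congr rfl fun j _ => by rw [h3, hψ]

/-- the data in the top degree -/
theorem pd_top (cc : ∀ i, c (i + 1) * c i = 0)
    {u : Matrix (κ (n + 1)) (κ (n + 2)) A} (hu : c (n + 1) * u * c (n + 1) = c (n + 1))
    {X : A → ℤ} (ε : (ι 0 → A) →+ ℤ) (hε : ∀ y a, ε (fun l => y l * a) = ε y * X a) {r : ι 0 → A} (hr : ε r = 1)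
    (exε : ∀ x, ε x = 0 ↔ ∃ z, D 0 *ᵥ z = x)
    (η : (κ (n + 1) → A) →+ ℤ) (hη : ∀ y a, η (fun l => y l * a) = η y * X a) {t : κ (n + 1) → A}
    (ht : η t = 1) (ht' : c (n + 1) *ᵥ t = 0)
    (exη : ∀ x, c (n + 1) *ᵥ x = 0 → (η x = 0 ↔ ∃ z, c n *ᵥ z = x)) :
    (∃ (f : Matrix (ι 1) (κ n) A) (g : Matrix (κ n) (ι 1) A) (h : Matrix (κ n) (κ (n + 1)) A)
      (f' : Matrix (ι 0) (κ (n + 1)) A) (g' : Matrix (κ (n + 1)) (ι 0) A) (k : Matrix (ι 1) (ι 0) A),
      D 0 * f = f' * c n ∧ c n * g = g' * D 0 ∧ c n * (1 - g * f - h * c n) = 0 ∧ D 0 * (1 - f * g - k * D 0) = 0) ∧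
    (∀ {N : Type*} [AddCommGroup N] [Module A N], (∀ x : ι 0 → N, ∃ z, mact (D 0) z = x) →
      ∀ y : κ (n + 1) → N, mact (c (n + 1)) y = 0 → ∃ z, mact (c n) z = y) ∧
    ∀ {N : Type*} [AddCommGroup N] [Module A N],
      (∀ y : κ (n + 1) → N, mact (c (n + 1)) y = 0 → ∃ z, mact (c n) z = y) →
      ∀ x : ι 0 → N, ∃ z, mact (D 0) z = x := by
  let f' : Matrix (ι 0) (κ (n + 1)) A := fun i j => r i * (η (Pi.single j 1) : A)
  let g' : Matrix (κ (n + 1)) (ι 0) A := fun i j => t i * (ε (Pi.single j 1) : A)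
  let e : Matrix (κ (n + 1)) (κ (n + 1)) A := 1 - u * c (n + 1)
  have hf' : ∀ y, ε (f' *ᵥ y) = η y := fun y => fun_mulVec ε hε η hη hr (fun _ _ => rfl) y
  have hg' : ∀ y, η (g' *ᵥ y) = ε y := fun y => fun_mulVec η hη ε hε ht (fun _ _ => rfl) y
  have hcg : c (n + 1) * g' = 0 := by
    funext i j
    have h1 := congrFun ht' i
    show ∑ k, c (n + 1) i k * (t k * (ε (Pi.single j 1) : A)) = 0
    have h2 : ∑ k, c (n + 1) i k * (t k * (ε (Pi.single j 1) : A)) = (∑ k, c (n + 1) i k * t k) * (ε (Pi.single j 1) : A) := by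
      rw [Finset.sum_mul]
      exact Finset.sum_congr rfl fun k _ => by rw [mul_assoc]
    rw [h2]
    have h3 : ∑ k, c (n + 1) i k * t k = 0 := h1
    rw [h3, zero_mul]
  have hce : c (n + 1) * e = 0 := by
    show c (n + 1) * (1 - u * c (n + 1)) = 0
    rw [Matrix.mul_sub, Matrix.mul_one, ← Matrix.mul_assoc, hu, sub_self]
  have hec : e * c n = c n := by
    show (1 - u * c (n + 1)) * c n = c n
    rw [Matrix.sub_mul, Matrix.one_mul, Matrix.mul_assoc, cc, Matrix.mul_zero, sub_zero]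
  have hcol : ∀ {p : Type} [Fintype p] [DecidableEq p] (Q : Matrix (κ (n + 1)) p A) (k : p),
      (fun i => Q i k) = Q *ᵥ Pi.single k 1 := by
    intro p _ _ Q k
    funext i
    rw [Matrix.mulVec_single_one]
    rfl
  obtain ⟨f, hf⟩ : ∃ f : Matrix (ι 1) (κ n) A, D 0 * f = f' * c n := by
    refine exists_mul_of_col fun k => (exε _).1 ?_
    have h1 : (fun i => (f' * c n) i k) = f' *ᵥ (fun i => c n i k) := rfl
    rw [h1, hf']
    refine (exη _ ?_).2 ⟨Pi.single k 1, ?_⟩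
    · exact col_of_mul_eq_zero (cc n) k
    · exact (hcol (c n) k).symm
  obtain ⟨g, hg⟩ : ∃ g : Matrix (κ n) (ι 1) A, c n * g = g' * D 0 := by
    refine exists_mul_of_col fun k => (exη _ ?_).1 ?_
    · refine col_of_mul_eq_zero ?_ k
      rw [← Matrix.mul_assoc, hcg, Matrix.zero_mul]
    · have h1 : (fun i => (g' * D 0) i k) = g' *ᵥ (fun i => D 0 i k) := rfl
      rw [h1, hg']
      classical
      refine (exε _).2 ⟨Pi.single k 1, ?_⟩
      funext i
      rw [Matrix.mulVec_single_one]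
      rfl
  obtain ⟨h, hh⟩ : ∃ h : Matrix (κ n) (κ (n + 1)) A, c n * h = e - g' * f' * e := by
    refine exists_mul_of_col fun k => (exη _ ?_).1 ?_
    · refine col_of_mul_eq_zero ?_ k
      rw [Matrix.mul_sub, hce, ← Matrix.mul_assoc, ← Matrix.mul_assoc, hcg, Matrix.zero_mul, Matrix.zero_mul, sub_zero]
    · have h1 : (fun i => (e - g' * f' * e) i k) = (fun i => e i k) - g' *ᵥ (f' *ᵥ fun i => e i k) := by
        funext i
        rw [Matrix.mulVec_mulVec]
        rfl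
      rw [h1, map_sub, hg', hf', sub_self]
  obtain ⟨k, hk⟩ : ∃ k : Matrix (ι 1) (ι 0) A, D 0 * k = 1 - f' * g' := by
    refine exists_mul_of_col fun l => (exε _).1 ?_
    have h1 : (fun i => (1 - f' * g' : Matrix (ι 0) (ι 0) A) i l) = (fun i => (1 : Matrix (ι 0) (ι 0) A) i l) -
        f' *ᵥ (g' *ᵥ fun i => (1 : Matrix (ι 0) (ι 0) A) i l) := by
      funext i
      rw [Matrix.mulVec_mulVec]
      show _ = _ - ((f' * g') * (1 : Matrix (ι 0) (ι 0) A)) i l
      rw [Matrix.mul_one]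
      rfl
    rw [h1, map_sub, hf', hg', sub_self]
  refine ⟨⟨f, g, h, f', g', k, hf, hg, ?_, ?_⟩, ?_, ?_⟩
  · rw [Matrix.mul_sub, Matrix.mul_sub, Matrix.mul_one, ← Matrix.mul_assoc, hg, Matrix.mul_assoc, hf, ← Matrix.mul_assoc,
      ← Matrix.mul_assoc, hh, Matrix.sub_mul, hec, Matrix.mul_assoc (g' * f'), hec]
    abel
  · rw [Matrix.mul_sub, Matrix.mul_sub, Matrix.mul_one, ← Matrix.mul_assoc, hf, Matrix.mul_assoc, hg, ← Matrix.mul_assoc,
      ← Matrix.mul_assoc, hk, Matrix.sub_mul, Matrix.one_mul]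
    abel
  · intro N _ _ hN y hy
    obtain ⟨z, hz⟩ := hN (mact f' y)
    refine ⟨mact g z + mact h y, ?_⟩
    have hey : mact e y = y := by
      show mact (1 - u * c (n + 1)) y = y
      rw [mact_sub, mact_one, mact_mul, hy, mact_vzero, sub_zero]
    rw [mact_vadd, ← mact_mul, ← mact_mul, hg, hh, mact_sub, mact_mul g', hz, mact_mul (g' * f'), hey, mact_mul g']
    abel
  · intro N _ _ hN x
    obtain ⟨z, hz⟩ := hN (mact g' x) (by rw [← mact_mul, hcg, mact_zero])
    refine ⟨mact f z + mact k x, ?_⟩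
    rw [mact_vadd, ← mact_mul, ← mact_mul, hf, hk, mact_sub, mact_one, mact_mul, mact_mul, hz]
    abel

/-- the degrees above the top: `e = c v` -/
theorem pd_high {i : ℕ} {u : Matrix (κ (i + 1)) (κ (i + 2)) A} (hu : c (i + 1) * u * c (i + 1) = c (i + 1))
    (exc : ∀ x : κ (i + 1) → A, c (i + 1) *ᵥ x = 0 → ∃ z, c i *ᵥ z = x)
    {N : Type*} [AddCommGroup N] [Module A N] (y : κ (i + 1) → N) (hy : mact (c (i + 1)) y = 0) :
    ∃ z, mact (c i) z = y := by
  have hce : c (i + 1) * (1 - u * c (i + 1)) = 0 := by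
    rw [Matrix.mul_sub, Matrix.mul_one, ← Matrix.mul_assoc, hu, sub_self]
  obtain ⟨v, hv⟩ : ∃ v : Matrix (κ i) (κ (i + 1)) A, c i * v = 1 - u * c (i + 1) :=
    exists_mul_of_col fun k => exc _ (col_of_mul_eq_zero hce k)
  refine ⟨mact v y, ?_⟩
  rw [← mact_mul, hv, mact_sub, mact_one, mact_mul, hy, mact_vzero, sub_zero]

/-- von Neumann regularity of the boundary maps in the degrees `≥ n` -/
theorem pd_reg (cc : ∀ i, c (i + 1) * c i = 0) {N₀ : ℕ}
    (hN₀ : ∀ i, N₀ ≤ i → ∃ u : Matrix (κ i) (κ (i + 1)) A, c i * u * c i = c i)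
    (exc : ∀ i, n < i → ∀ x : κ (i + 1) → A, c (i + 1) *ᵥ x = 0 → ∃ z, c i *ᵥ z = x) :
    ∀ i, n < i → ∃ u : Matrix (κ i) (κ (i + 1)) A, c i * u * c i = c i := by
  suffices H : ∀ k i, n < i → N₀ ≤ i + k → ∃ u : Matrix (κ i) (κ (i + 1)) A, c i * u * c i = c i from
    fun i hi => H N₀ i hi (by omega)
  intro k
  induction k with
  | zero => exact fun i _ hi => hN₀ i hi
  | succ k ih =>
    intro i hi hk
    obtain ⟨u, hu⟩ := ih (i + 1) (by omega) (by omega)
    have hce : c (i + 1) * (1 - u * c (i + 1)) = 0 := by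
      rw [Matrix.mul_sub, Matrix.mul_one, ← Matrix.mul_assoc, hu, sub_self]
    obtain ⟨v, hv⟩ : ∃ v : Matrix (κ i) (κ (i + 1)) A, c i * v = 1 - u * c (i + 1) :=
      exists_mul_of_col fun k => exc i hi _ (col_of_mul_eq_zero hce k)
    refine ⟨v, ?_⟩
    rw [hv, Matrix.sub_mul, Matrix.one_mul, Matrix.mul_assoc, cc, Matrix.mul_zero, sub_zero]

end base

end SQ
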