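import Pool.Agent.SQ.Lem

/-!
# Project MP_984acc_SQ, row ROW: exactness of the functions on pairs of cells

`Aug C`: the augmented complex `C` is exact.  `ey_of_lin`: if the equivariant functions on the cells with values in `ν`
form an exact complex in degrees at most `n`, so do the equivariant functions on pairs of cells.
-/

set_option autoImplicit false
set_option linter.unusedSectionVars false
set_option linter.unusedVariables false

open scoped TensorProduct Matrix

namespace SQ

open Singer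

/-- an augmentation, with an exact augmented complex -/
structure Aug {H : Type} [Group H] (C : BC H) where
  aug : (C.B →₀ ZMod 2) →ₗ[ZMod 2] ZMod 2
  aug_dim : ∀ b, C.dim b ≠ 0 → aug (Finsupp.single b 1) = 0
  aug_bd : ∀ x, aug (C.bd x) = 0
  aug_smul : ∀ (h : H) (b : C.B), aug (Finsupp.single (h • b) 1) = aug (Finsupp.single b 1)
  z : C.B →₀ ZMod 2
  z_dim : ∀ b, z b ≠ 0 → C.dim b = 0
  aug_z : aug z = 1
  ex : ∀ (n : ℕ) (x : C.B →₀ ZMod 2), (∀ b, x b ≠ 0 → C.dim b = n + 1) → C.bd x = 0 →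
    ∃ y : C.B →₀ ZMod 2, (∀ b, y b ≠ 0 → C.dim b = n + 2) ∧ C.bd y = x
  ex0 : ∀ x : C.B →₀ ZMod 2, (∀ b, x b ≠ 0 → C.dim b = 0) → aug x = 0 →
    ∃ y : C.B →₀ ZMod 2, (∀ b, y b ≠ 0 → C.dim b = 1) ∧ C.bd y = x

section
variable {H : Type} [Group H] (C : BC H) {N : Type} [AddCommGroup N] [Module (ZMod 2) N]
  (ν : Representation (ZMod 2) H N)

/-- an equivariant linear map on the chains which lives in degree `j` -/
structure IsQ (j : ℕ) (q : (C.B →₀ ZMod 2) →ₗ[ZMod 2] N) : Prop where
  eqv : ∀ (h : H) (b : C.B), q (Finsupp.single (h • b) 1) = ν h (q (Finsupp.single b 1))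
  deg : ∀ b : C.B, C.dim b ≠ j → q (Finsupp.single b 1) = 0

/-- exactness in degree `j` -/
def EQ : ℕ → Prop
  | 0 => ∀ q, IsQ C ν 0 q → (∀ c, q (C.bd c) = 0) → q = 0
  | j + 1 => ∀ q, IsQ C ν (j + 1) q → (∀ c, q (C.bd c) = 0) → ∃ x, IsQ C ν j x ∧ ∀ c, x (C.bd c) = q c

/-- factorisation of linear maps -/
theorem exists_factor {V W : Type*} [AddCommGroup V] [Module (ZMod 2) V] [AddCommGroup W] [Module (ZMod 2) W]
    (d : V →ₗ[ZMod 2] W) (F : V →ₗ[ZMod 2] N)
    (h : ∀ x, d x = 0 → F x = 0) : ∃ G : W →ₗ[ZMod 2] N, ∀ x, G (d x) = F x := by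
  have hk : LinearMap.ker d ≤ LinearMap.ker F := fun x hx => h x hx
  obtain ⟨G, hG⟩ := LinearMap.exists_extend
    (((LinearMap.ker d).liftQ F hk).comp d.quotKerEquivRange.symm.toLinearMap)
  refine ⟨G, fun x => ?_⟩
  have h1 := LinearMap.congr_fun hG ⟨d x, LinearMap.mem_range_self d x⟩
  have h2 : d.quotKerEquivRange.symm ⟨d x, LinearMap.mem_range_self d x⟩ = (LinearMap.ker d).mkQ x := by
    rw [LinearEquiv.symm_apply_eq]
    apply Subtype.ext
    simp
  simp only [LinearMap.comp_apply, LinearEquiv.coe_coe, h2] at h1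
  exact h1

variable {C}

/-- a linear map vanishes on the chains of degree `n` if it vanishes on the cells -/
lemma lin_zero {q : (C.B →₀ ZMod 2) →ₗ[ZMod 2] N} {P : C.B → Prop} (hq : ∀ b, P b → q (Finsupp.single b 1) = 0)
    (x : C.B →₀ ZMod 2) (hx : ∀ b, x b ≠ 0 → P b) : q x = 0 := by
  rw [lin_eq C q x]
  refine Finset.sum_eq_zero fun c hc => ?_
  rw [hq c (hx c (Finsupp.mem_support_iff.1 hc)), smul_zero]

/-- two linear maps agree on a chain if they agree on its cells -/
lemma lin_congr {q q' : (C.B →₀ ZMod 2) →ₗ[ZMod 2] N} {P : C.B → Prop}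
    (hq : ∀ b, P b → q (Finsupp.single b 1) = q' (Finsupp.single b 1))
    (x : C.B →₀ ZMod 2) (hx : ∀ b, x b ≠ 0 → P b) : q x = q' x := by
  rw [← sub_eq_zero, ← LinearMap.sub_apply]
  refine lin_zero (P := P) (fun b hb => ?_) x hx
  rw [LinearMap.sub_apply, hq b hb, sub_self]

/-- vertical exactness -/
theorem vexact (A : Aug C) (n : ℕ) (φ : (C.B →₀ ZMod 2) →ₗ[ZMod 2] N) (hd : ∀ b, C.dim b ≠ n + 1 → φ (Finsupp.single b 1) = 0)
    (h : ∀ b, C.dim b = n + 2 → φ (C.bd (Finsupp.single b 1)) = 0) :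
    ∃ ψ : (C.B →₀ ZMod 2) →ₗ[ZMod 2] N, (∀ b, C.dim b ≠ n → ψ (Finsupp.single b 1) = 0) ∧
      ∀ b, ψ (C.bd (Finsupp.single b 1)) = φ (Finsupp.single b 1) := by
  classical
  set S := Finsupp.supported (ZMod 2) (ZMod 2) {b | C.dim b = n + 1} with hS
  have key : ∀ x : S, (C.bd.comp S.subtype) x = 0 → (φ.comp S.subtype) x = 0 := by
    rintro ⟨x, hx⟩ h0
    obtain ⟨y, hy, hyx⟩ := A.ex n x (fun b hb => by
      have := (Finsupp.mem_supported (ZMod 2) x).1 hx (by simpa using hb)
      simpa using this) h0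
    change φ x = 0
    rw [← hyx]
    exact lin_zero (q := φ.comp C.bd) (P := fun b => C.dim b = n + 2) (fun b hb => h b hb) y hy
  have hfac := @exists_factor N _ _ S (C.B →₀ ZMod 2) _ _ _ _ (C.bd.comp S.subtype) (φ.comp S.subtype) key
  obtain ⟨G, hG⟩ := hfac
  refine ⟨Finsupp.linearCombination (ZMod 2) (fun b => if C.dim b = n then G (Finsupp.single b 1) else 0), fun b hb => ?_,
    fun b => ?_⟩
  · rw [Finsupp.linearCombination_single, if_neg hb, smul_zero]
  · by_cases hb : C.dim b = n + 1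
    · have h1 := hG ⟨Finsupp.single b 1, Finsupp.single_mem_supported _ _ hb⟩
      have h2 : G (C.bd (Finsupp.single b 1)) = φ (Finsupp.single b 1) := h1
      rw [← h2]
      refine lin_congr (P := fun c => C.dim c = n) (fun c hc => ?_) _ (fun c hc => ?_)
      · rw [Finsupp.linearCombination_single, if_pos hc, one_smul]
      · have := C.bd_dim b c hc
        omega
    · rw [hd b hb]
      refine lin_zero (P := fun c => C.dim c ≠ n) (fun c hc => ?_) _ (fun c hc => ?_)
      · rw [Finsupp.linearCombination_single, if_neg hc, smul_zero]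
      · have := C.bd_dim b c hc
        omega

/-- vertical exactness at degree zero -/
theorem vexact0 (A : Aug C) (φ : (C.B →₀ ZMod 2) →ₗ[ZMod 2] N) (hd : ∀ b, C.dim b ≠ 0 → φ (Finsupp.single b 1) = 0)
    (h : ∀ b, C.dim b = 1 → φ (C.bd (Finsupp.single b 1)) = 0) (y : C.B →₀ ZMod 2) : φ y = A.aug y • φ A.z := by
  classical
  have h0 : ∀ x : C.B →₀ ZMod 2, (∀ b, x b ≠ 0 → C.dim b = 0) → φ x = A.aug x • φ A.z := by
    intro x hx
    obtain ⟨y, hy, hyx⟩ := A.ex0 (x - A.aug x • A.z) (fun b hb => by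
      by_cases h1 : x b = 0
      · refine A.z_dim b fun h2 => hb ?_
        rw [Finsupp.sub_apply, Finsupp.smul_apply, h1, h2, smul_zero, sub_zero]
      · exact hx b h1) (by rw [map_sub, map_smul, A.aug_z, smul_eq_mul, mul_one, sub_self])
    have h1 : φ (x - A.aug x • A.z) = 0 := by
      rw [← hyx]
      exact lin_zero (q := φ.comp C.bd) (P := fun b => C.dim b = 1) (fun b hb => h b hb) y hy
    rw [map_sub, map_smul, sub_eq_zero] at h1
    exact h1
  have h1 : φ y = ((LinearMap.toSpanSingleton (ZMod 2) N (φ A.z)).comp A.aug) y := by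
    refine lin_congr (P := fun _ => True) (fun b _ => ?_) y (fun b _ => trivial)
    show _ = A.aug (Finsupp.single b 1) • φ A.z
    by_cases hb : C.dim b = 0
    · exact h0 _ (fun c hc => by
        have : c = b := by
          by_contra hcb
          exact hc (Finsupp.single_eq_of_ne hcb)
        rw [this]; exact hb)
    · rw [hd b hb, A.aug_dim b hb, zero_smul]
  exact h1

/-- the chains as a representation -/
noncomputable def chr (C : BC H) : Representation (ZMod 2) H (C.B →₀ ZMod 2) where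
  toFun h := Finsupp.lmapDomain (ZMod 2) (ZMod 2) fun b => h • b
  map_one' := by
    ext b : 2
    simp
  map_mul' a b := by
    ext c : 2
    simp [mul_smul]

lemma chr_apply (h : H) (x : C.B →₀ ZMod 2) : chr C h x = x.mapDomain (h • ·) := rfl

lemma chr_single (h : H) (b : C.B) : chr C h (Finsupp.single b 1) = Finsupp.single (h • b) 1 := by
  rw [chr_apply, Finsupp.mapDomain_single]

/-- `f` vanishes at the pairs with first cell of dimension less than `p` -/
def Van (p : ℕ) (f : Bil C N) : Prop :=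
  ∀ b b' : C.B, C.dim b < p → f (Finsupp.single b 1) (Finsupp.single b' 1) = 0

lemma Van.lin {p : ℕ} {f : Bil C N} (h : Van p f) (x : C.B →₀ ZMod 2) (hx : ∀ b, x b ≠ 0 → C.dim b < p)
    (y : C.B →₀ ZMod 2) : f x y = 0 := by
  have h1 : f x = 0 := by
    refine lin_zero (P := fun b => C.dim b < p) (fun b hb => ?_) x hx
    refine LinearMap.ext fun y => ?_
    exact lin_zero (q := f (Finsupp.single b 1)) (P := fun _ => True) (fun b' _ => h b b' hb) y (fun _ _ => trivial)
  rw [h1, LinearMap.zero_apply]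

lemma Van.bd {p : ℕ} {f : Bil C N} (h : Van p f) (b : C.B) (hb : C.dim b < p + 1) (y : C.B →₀ ZMod 2) :
    f (C.bd (Finsupp.single b 1)) y = 0 :=
  h.lin _ (fun c hc => by have := C.bd_dim b c hc; omega) y

lemma bil_ext {f g : Bil C N} (h : ∀ b b', f (Finsupp.single b 1) (Finsupp.single b' 1) =
    g (Finsupp.single b 1) (Finsupp.single b' 1)) : f = g := Bil.ext C h

/-- one step of the chase -/
theorem kill_step (A : Aug C) {j p q : ℕ} (hj : p + q + 1 = j) {f : Bil C N} (hf : IsY C ν j f) (hd : dY C f = 0)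
    (hv : Van p f) : ∃ g, IsY C ν (p + q) g ∧ Van (p + 1) (f + dY C g) := by
  classical
  let r : C.B → ((C.B →₀ ZMod 2) →ₗ[ZMod 2] N) → Prop := fun b ψ =>
    (∀ c, C.dim b + C.dim c ≠ p + q → ψ (Finsupp.single c 1) = 0) ∧ (C.dim b < p → ψ = 0) ∧
      (C.dim b = p → ∀ c, ψ (C.bd (Finsupp.single c 1)) = f (Finsupp.single b 1) (Finsupp.single c 1))
  obtain ⟨φ, hφ1, hφ2⟩ := exists_eqv C (Representation.linHom (chr C) ν) r (by
    rintro h b ψ ⟨h1, h2, h3⟩
    refine ⟨fun c hc => ?_, fun hb => ?_, fun hb c => ?_⟩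
    · show ν h (ψ (chr C h⁻¹ (Finsupp.single c 1))) = 0
      rw [chr_single, h1 (h⁻¹ • c) (by rw [C.dim_smul]; rwa [C.dim_smul] at hc), map_zero]
    · rw [C.dim_smul] at hb
      rw [h2 hb, map_zero]
    · rw [C.dim_smul] at hb
      show ν h (ψ (chr C h⁻¹ (C.bd (Finsupp.single c 1)))) = _
      rw [chr_apply, ← C.bd_smul, h3 hb, ← hf.eqv, smul_inv_smul]) (by
    intro b
    by_cases hb : C.dim b = p
    · obtain ⟨ψ, h1, h2⟩ := vexact A q (f (Finsupp.single b 1)) (fun c hc => hf.deg b c (by omega)) (fun c hc => by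
        have h1 := LinearMap.congr_fun (LinearMap.congr_fun hd (Finsupp.single b 1)) (Finsupp.single c 1)
        rw [dY_apply, hv.bd b (by omega), zero_add] at h1
        exact h1)
      exact ⟨ψ, fun c hc => h1 c (by omega), fun h => absurd h (by omega), fun _ c => h2 c⟩
    · exact ⟨0, fun c hc => rfl, fun h => rfl, fun h => absurd h hb⟩)
  let g : Bil C N := Finsupp.linearCombination (ZMod 2) φ
  have hg : ∀ b, g (Finsupp.single b 1) = φ b := fun b => by
    show Finsupp.linearCombination (ZMod 2) φ _ = _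
    rw [Finsupp.linearCombination_single, one_smul]
  have hgv : Van p g := fun b b' hb => by
    rw [hg, (hφ2 b).2.1 hb, LinearMap.zero_apply]
  refine ⟨g, { eqv := fun h b b' => ?_, deg := fun b b' hb => ?_ }, fun b b' hb => ?_⟩
  · rw [hg, hg, hφ1]
    show ν h (φ b (chr C h⁻¹ (Finsupp.single (h • b') 1))) = _
    rw [chr_single, inv_smul_smul]
  · rw [hg]
    exact (hφ2 b).1 b' hb
  · rw [LinearMap.add_apply, LinearMap.add_apply, dY_apply, hgv.bd b hb, zero_add]
    rcases Nat.lt_succ_iff_lt_or_eq.1 hb with h1 | h1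
    · rw [hv b b' h1, hg, (hφ2 b).2.1 h1, LinearMap.zero_apply, zero_add]
    · rw [hg, (hφ2 b).2.2 h1, add_self2]

/-- the last step of the chase -/
theorem last (A : Aug C) {j : ℕ} (hE : EQ C ν j) {f : Bil C N} (hf : IsY C ν j f) (hd : dY C f = 0)
    (hv : Van j f) : (j = 0 → f = 0) ∧ ∀ i, j = i + 1 → ∃ g, IsY C ν i g ∧ dY C g = f := by
  classical
  have hfz : ∀ b y, C.dim b = j → f (Finsupp.single b 1) y = A.aug y • f (Finsupp.single b 1) A.z := by
    intro b y hb
    refine vexact0 A (f (Finsupp.single b 1)) (fun c hc => hf.deg b c (by omega)) (fun c hc => ?_) y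
    have h1 := LinearMap.congr_fun (LinearMap.congr_fun hd (Finsupp.single b 1)) (Finsupp.single c 1)
    rw [dY_apply, hv.bd b (by omega), zero_add] at h1
    exact h1
  have hbz : C.bd A.z = 0 := by
    refine lin_zero (q := C.bd) (P := fun b => C.dim b = 0) (fun b hb => ?_) _ A.z_dim
    refine Finsupp.ext fun c => ?_
    by_contra hc
    have := C.bd_dim b c hc
    omega
  let q : (C.B →₀ ZMod 2) →ₗ[ZMod 2] N := f.flip A.z
  have hq1 : ∀ b, q (Finsupp.single b 1) = f (Finsupp.single b 1) A.z := fun b => rfl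
  have hq0 : ∀ b, C.dim b ≠ j → q (Finsupp.single b 1) = 0 := by
    intro b hb
    rw [hq1]
    exact lin_zero (q := f (Finsupp.single b 1)) (P := fun c => C.dim c = 0)
      (fun c hc => hf.deg b c (by omega)) _ A.z_dim
  have hq : IsQ C ν j q := by
    refine ⟨fun h b => ?_, hq0⟩
    by_cases hb : C.dim b = j
    · have h1 := lin_eqv C (ν := ν) h (f (Finsupp.single b 1)) (f (Finsupp.single (h • b) 1)) (fun c => hf.eqv h b c) A.z
      rw [hq1, hq1, ← h1, hfz (h • b) (A.z.mapDomain (h • ·)) (by rw [C.dim_smul, hb])]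
      have h2 : A.aug (A.z.mapDomain (h • ·)) = 1 := by
        rw [← A.aug_z]
        have h3 := lin_eqv C (ν := Representation.trivial (ZMod 2) H (ZMod 2)) h A.aug A.aug (fun c => A.aug_smul h c) A.z
        exact h3
      rw [h2, one_smul]
    · rw [hq0 _ (by rwa [C.dim_smul]), hq0 b hb, map_zero]
  have hqd : ∀ c, q (C.bd c) = 0 := by
    intro c
    have h1 := LinearMap.congr_fun (LinearMap.congr_fun hd c) A.z
    rw [dY_apply, hbz, map_zero, add_zero] at h1
    exact h1
  have hfq : ∀ b b', f (Finsupp.single b 1) (Finsupp.single b' 1) = A.aug (Finsupp.single b' 1) • q (Finsupp.single b 1) := by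
    intro b b'
    rcases lt_trichotomy (C.dim b) j with h1 | h1 | h1
    · rw [hv b b' h1, hq0 b (by omega), smul_zero]
    · exact hfz b _ h1
    · rw [hf.deg b b' (by omega), hq0 b (by omega), smul_zero]
  refine ⟨?_, ?_⟩
  · rintro rfl
    have h1 : q = 0 := hE q hq hqd
    refine bil_ext fun b b' => ?_
    rw [hfq, h1, LinearMap.zero_apply, smul_zero]
    rfl
  · rintro i rfl
    obtain ⟨x, hx1, hx2⟩ := hE q hq hqd
    let g : Bil C N := (LinearMap.lsmul (ZMod 2) N).comp A.aug |>.flip.comp x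
    have hg : ∀ a c, g a c = A.aug c • x a := fun a c => rfl
    refine ⟨g, { eqv := fun h b b' => ?_, deg := fun b b' hb => ?_ }, bil_ext fun b b' => ?_⟩
    · rw [hg, hg, A.aug_smul, hx1.eqv, map_smul]
    · rw [hg]
      by_cases h1 : C.dim b' = 0
      · rw [hx1.deg b (by omega), smul_zero]
      · rw [A.aug_dim b' h1, zero_smul]
    · rw [dY_apply, hg, hg, A.aug_bd, zero_smul, add_zero, hx2, hfq]

/-- the chase -/
theorem ey_of_eq (A : Aug C) {j : ℕ} (hE : EQ C ν j) : EY C ν j := by
  have main : ∀ k p, p + k = j → ∀ f : Bil C N, IsY C ν j f → dY C f = 0 → Van p f →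
      (j = 0 → f = 0) ∧ ∀ i, j = i + 1 → ∃ g, IsY C ν i g ∧ dY C g = f := by
    intro k
    induction k with
    | zero =>
      intro p hp f hf hd hv
      rw [Nat.add_zero] at hp
      subst hp
      exact last ν A hE hf hd hv
    | succ k ih =>
      intro p hp f hf hd hv
      obtain ⟨g, hg1, hg2⟩ := kill_step ν A (p := p) (q := k) (by omega) hf hd hv
      have hg3 : IsY C ν j (f + dY C g) := by
        have h1 := hg1.dY
        have h2 : p + k + 1 = j := by omega
        rw [h2] at h1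
        exact IsY.add C hf h1
      obtain ⟨h1, h2⟩ := ih (p + 1) (by omega) (f + dY C g) hg3 (by rw [dY_add, hd, dY_dY, add_zero]) hg2
      refine ⟨fun h => by omega, fun i hi => ?_⟩
      obtain ⟨g', hg'1, hg'2⟩ := h2 i hi
      have h3 : p + k = i := by omega
      subst h3
      refine ⟨g' + g, IsY.add C hg'1 hg1, ?_⟩
      rw [dY_add, hg'2, add_assoc, add_self2, add_zero]
  rcases j with _ | j
  · intro f hf hd
    exact (main 0 0 rfl f hf hd (fun b b' h => absurd h (by omega))).1 rfl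
  · intro f hf hd
    exact (main (j + 1) 0 (by omega) f hf hd (fun b b' h => absurd h (by omega))).2 j rfl

end

end SQ
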